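import Pool.Agent.Lob34.CvE
import Pool.Agent.Lob89.GgJ

/-!
# Some end bad, two high edges: numbers and sums of ranks

`K = 2 (h + 1)`, the special vertex is `2 i`; the pair `i` is `bad good` and the pair `i + 1` is `bad bad`.
-/

namespace Pool.Agent.Lob12.BadH

open Pool.Agent.Lob12 Pool.Agent.Lob5 Pool.Agent.Lob89 Pool.Agent.Lob34 Pool.Agent.Lob89.Gg

variable {h i n2 : ℕ} {ld al c : ℕ → Prop}

/-- the walk in terms of the level -/
theorem wk_Y (c : ℕ → Prop) (v : ℕ) : (v % 2 = 1 → c v → wk c v = 2 * Y c (v / 2) - 1) ∧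
    (v % 2 = 1 → ¬ c v → wk c v = 2 * Y c (v / 2) + 1) ∧
    (v % 2 = 0 → wk c v = 2 * Y c (v / 2)) := by
  obtain ⟨f1, f2, f3⟩ := fl_v (x := c) v
  rw [wk_fl]
  refine ⟨fun o a => ?_, fun o a => ?_, fun o => ?_⟩
  · have := f1 o a
    omega
  · have := f2 o a
    omega
  · have := f3 o
    omega

theorem wk_Y2 (c : ℕ → Prop) (j : ℕ) : wk c (2 * j) = 2 * Y c j := by
  have := (wk_Y c (2 * j)).2.2 (by omega)
  rwa [show 2 * j / 2 = j by omega] at this

section

variable (E : EH (2 * (h + 1)) h (2 * i) n2 ld al c)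

/-- the number of bad low edges -/
theorem pP : (E.H.hx.P : ℤ) = nG c (h + 1) + nP c (h + 1) - Y c i := by
  have h0 := E.H.P_eq
  have hu := E.huK
  have h1 := rc_cnt1 c (le_refl (2 * i))
  have h2 := rc_cnt2 c (u := 2 * i) (x := 2 * (h + 1)) (by omega)
  have h3 := pcnt c i
  have h4 := pcnt c (h + 1)
  change ob c (2 * i) = _ ∧ og c (2 * i) = _ ∧ eb c (2 * i) = _ ∧ eg c (2 * i) = _ ∧ _ at h3
  change ob c (2 * (h + 1)) = _ ∧ og c (2 * (h + 1)) = _ ∧ eb c (2 * (h + 1)) = _ ∧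
    eg c (2 * (h + 1)) = _ ∧ _ at h4
  unfold Y
  omega

/-- the number of bad high edges -/
theorem pQ : (E.H.hx.Q : ℤ) = nG c (h + 1) + nR c (h + 1) - Y c i := by
  have h0 := E.H.Q_eq
  have hu := E.huK
  have h1 := rc_cnt1 c (le_refl (2 * i))
  have h2 := rc_cnt2 c (u := 2 * i) (x := 2 * (h + 1)) (by omega)
  have h3 := pcnt c i
  have h4 := pcnt c (h + 1)
  change ob c (2 * i) = _ ∧ og c (2 * i) = _ ∧ eb c (2 * i) = _ ∧ eg c (2 * i) = _ ∧ _ at h3
  change ob c (2 * (h + 1)) = _ ∧ og c (2 * (h + 1)) = _ ∧ eb c (2 * (h + 1)) = _ ∧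
    eg c (2 * (h + 1)) = _ ∧ _ at h4
  unfold Y
  omega

/-- the sum of ranks at a vertex of the right part -/
theorem pJR {v : ℕ} (h1 : 2 * i < v) (h2 : v < 2 * (h + 1)) (h3 : ld v) :
    (v % 2 = 0 → c v → (E.H.hx.J v : ℤ) = (h + 1 : ℕ) + Y c (h + 1) - Y c i - Y c (v / 2)) ∧
    (v % 2 = 1 → (E.H.hx.J v : ℤ) = (h + 1 : ℕ) + Y c (h + 1) - Y c i - Y c (v / 2) + 1) ∧
    (v % 2 = 0 → ¬ c v →
      (E.H.hx.J v : ℤ) = (h + 1 : ℕ) + Y c (h + 1) - Y c i - Y c (v / 2) + 2) := by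
  have hd := E.W.dif v (by omega) h2 h3
  have hp : v - 2 * i = psR (2 * (h + 1)) (2 * i) v := by
    unfold psR
    rw [if_pos h1]
  obtain ⟨_, _, j3, j4⟩ := E.H.J_lam (by omega) h2 (by omega) hp
  have hw := wkH1 (K := 2 * (h + 1)) (u := 2 * i) (bad := rc c (2 * i)) (x := v - 2 * i)
    (by omega)
  rw [show v - 2 * i + 2 * i = v by omega, rc_wk1 c le_rfl, rc_wk2 c h1.le, wk_Y2] at hw
  rw [rc_gt h1, rc_gt (show 2 * i < v + 1 by omega), hw] at j3 j4
  have hP := pP E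
  have hQ := pQ E
  have hm := pcnt c (h + 1)
  have hYm : Y c (h + 1) = (nG c (h + 1) : ℤ) - nB c (h + 1) := rfl
  obtain ⟨f1, f2, f3⟩ := wk_Y c v
  have hb : ¬ c v → c (v + 1) := fun a => by
    by_contra hh
    exact a (hd.2 hh)
  refine ⟨fun o a => ?_, fun o => ?_, fun o a => ?_⟩
  · have h5 := j3 (not_not.2 a) (hd.1 a)
    have := f3 o
    omega
  · by_cases a : c v
    · have h5 := j3 (not_not.2 a) (hd.1 a)
      have := f1 o a
      omega
    · have h5 := j4 a (not_not.2 (hb a))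
      have := f2 o a
      omega
  · have h5 := j4 a (not_not.2 (hb a))
    have := f3 o
    omega

/-- the sum of ranks at a vertex of the left part -/
theorem pJL {v : ℕ} (h0 : 1 ≤ v) (h1 : v < 2 * i) (h3 : ld v) :
    (v % 2 = 0 → ¬ c v → (E.H.hx.J v : ℤ) = (h + 1 : ℕ) - Y c i + Y c (v / 2)) ∧
    (v % 2 = 1 → (E.H.hx.J v : ℤ) = (h + 1 : ℕ) - Y c i + Y c (v / 2) + 1) ∧
    (v % 2 = 0 → c v → (E.H.hx.J v : ℤ) = (h + 1 : ℕ) - Y c i + Y c (v / 2) + 2) := by
  have hu := E.huK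
  have hd := E.W.dif v h0 (by omega) h3
  have hp : 2 * (h + 1) - 2 * i + v = psR (2 * (h + 1)) (2 * i) v := by
    unfold psR
    rw [if_neg (by omega)]
  obtain ⟨_, _, j3, j4⟩ := E.H.J_lam h0 (by omega) (by omega) hp
  have hw := wkH2 (K := 2 * (h + 1)) (u := 2 * i) (bad := rc c (2 * i)) (y := v) (by omega) h1.le
  rw [rc_wk1 c le_rfl, rc_wk1 c h1.le, rc_wk2 c (show 2 * i ≤ 2 * (h + 1) by omega), wk_Y2,
    wk_Y2] at hw
  rw [rc_le (show v ≤ 2 * i by omega), rc_le (show v + 1 ≤ 2 * i by omega), hw] at j3 j4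
  have hP := pP E
  have hQ := pQ E
  have hm := pcnt c (h + 1)
  have hYm : Y c (h + 1) = (nG c (h + 1) : ℤ) - nB c (h + 1) := rfl
  obtain ⟨f1, f2, f3⟩ := wk_Y c v
  have hb : ¬ c v → c (v + 1) := fun a => by
    by_contra hh
    exact a (hd.2 hh)
  refine ⟨fun o a => ?_, fun o => ?_, fun o a => ?_⟩
  · have h5 := j3 a (hb a)
    have := f3 o
    omega
  · by_cases a : c v
    · have h5 := j4 a (hd.1 a)
      have := f1 o a
      omega
    · have h5 := j3 a (hb a)
      have := f2 o a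
      omega
  · have h5 := j4 a (hd.1 a)
    have := f3 o
    omega

/-- the kind of a loaded vertex -/
theorem kd {v : ℕ} (h1 : 1 ≤ v) (h2 : v < 2 * (h + 1)) (h3 : ld v) (hu : v ≠ 2 * i) :
    E.H.hx.bad (lo (2 * i) v) ↔ (v % 2 = 0 ↔ ¬ c v) := by
  have hb : E.H.hx.bad = rc c (2 * i) := rfl
  have hd := E.W.dif v h1 h2 h3
  rw [hb]
  unfold lo oe ee
  rcases Nat.mod_two_eq_zero_or_one v with o | o
  · have o' : ¬ v % 2 = 1 := by omega
    rcases Nat.lt_or_ge v (2 * i) with a | a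
    · rw [if_pos a, if_neg o', rc_le (by omega)]
      tauto
    · rw [if_neg (by omega), if_neg o', rc_gt (by omega)]
      tauto
  · have o' : ¬ v % 2 = 0 := by omega
    rcases Nat.lt_or_ge v (2 * i) with a | a
    · rw [if_pos a, if_pos o, rc_le (by omega)]
      tauto
    · rw [if_neg (by omega), if_pos o, rc_gt (by omega)]
      tauto

include E in
/-- structure around the special vertex -/
theorem glob : 2 ≤ i ∧ i + 2 ≤ h + 1 ∧ nB c (i + 1) = nB c i + 1 ∧ nG c (i + 1) = nG c i ∧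
    nP c i = nP c (i - 1) + 1 ∧ nB c i = nB c (i - 1) ∧ nG c i = nG c (i - 1) ∧
    nB c 1 + nG c 1 = 1 ∧ 2 * Y c i ≤ Y c (h + 1) + 1 := by
  have u1 := E.u1
  have uK := E.huK
  have cu := E.cu
  have c0 := E.cu0
  have c1 := E.cu1
  have c2 := E.cu2
  have cv := E.cv
  rw [wk_Y2, wk_Y2] at cv
  obtain ⟨k, rfl⟩ : ∃ k, i = k + 1 := ⟨i - 1, by omega⟩
  rw [show 2 * (k + 1) = 2 * k + 2 by omega] at cu
  rw [show 2 * (k + 1) - 1 = 2 * k + 1 by omega] at c0
  have p1 := (pstep c k).2.2.1 c0 cu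
  have p2 := (pstep c (k + 1)).1 c1 c2
  rw [Nat.add_sub_cancel]
  have h1 : ¬ ld 1 := fun hh => by
    have := E.W.rng 1 le_rfl (by omega) hh
    omega
  have hs := E.W.same 1 le_rfl (by omega) h1
  have q := pstep c 0
  have z : nB c 0 = 0 ∧ nG c 0 = 0 := ⟨rfl, rfl⟩
  have h2 : nB c 1 + nG c 1 = 1 := by
    by_cases a : c 1
    · have := q.1 a (hs.1 a)
      rw [Nat.zero_add] at this
      omega
    · have := q.2.1 a (fun hh => a (hs.2 hh))
      rw [Nat.zero_add] at this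
      omega
  exact ⟨by omega, by omega, p2.1, p2.2.1, p1.2.2.1, p1.1, p1.2.1, h2, by omega⟩

include E in
/-- the last pair -/
theorem last : (c (2 * (h + 1)) → nB c (h + 1) = nB c h + 1 ∧ nG c (h + 1) = nG c h) ∧
    (¬ c (2 * (h + 1)) → nB c (h + 1) = nB c h ∧ nG c (h + 1) = nG c h + 1) := by
  have u1 := E.u1
  have uK := E.huK
  have h1 : ¬ ld (2 * h + 1) := fun hh => by
    have := E.W.rng (2 * h + 1) (by omega) (by omega) hh
    omega
  have hs := E.W.same (2 * h + 1) (by omega) (by omega) h1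
  rw [show 2 * h + 1 + 1 = 2 * h + 2 by omega] at hs
  rw [show 2 * (h + 1) = 2 * h + 2 by omega]
  have q := pstep c h
  constructor
  · intro a
    have := q.1 (hs.2 a) a
    omega
  · intro a
    have := q.2.1 (fun hh => a (hs.1 hh)) a
    omega

include E in
/-- the first passage, left part -/
theorem lftY {v : ℕ} (h1 : 1 ≤ v) (h2 : v < 2 * i) (h3 : ld v) :
    (v % 2 = 0 → Y c i ≤ Y c (v / 2)) ∧ (v % 2 = 1 → Y c i ≤ Y c (v / 2) + 1) := by
  have := E.lft v h1 h2 h3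
  rw [wk_Y2] at this
  obtain ⟨f1, f2, f3⟩ := wk_Y c v
  constructor
  · intro o
    have := f3 o
    omega
  · intro o
    by_cases a : c v
    · have := f1 o a
      omega
    · have := f2 o a
      omega

/-- lower bounds of all sums -/
theorem lbJ {v : ℕ} (h1 : 1 ≤ v) (h2 : v < 2 * (h + 1)) (h3 : ld v) (h4 : v ≠ 2 * i) :
    (v < 2 * i → h + 1 ≤ E.H.hx.J v) ∧ (2 * i < v → h ≤ E.H.hx.J v + n2) := by
  constructor
  · intro a
    obtain ⟨l1, l2⟩ := lftY E h1 a h3
    obtain ⟨j1, j2, j3⟩ := pJL E h1 a h3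
    rcases Nat.mod_two_eq_zero_or_one v with o | o
    · have := l1 o
      by_cases b : c v
      · have := j3 o b
        omega
      · have := j1 o b
        omega
    · have := l2 o
      have := j2 o
      omega
  · intro a
    obtain ⟨j1, j2, j3⟩ := pJR E a h2 h3
    obtain ⟨r1, r2⟩ := E.rgt v a h2 h3
    rw [wk_Y2, wk_Y2] at r1 r2
    obtain ⟨f1, f2, f3⟩ := wk_Y c v
    rcases Nat.mod_two_eq_zero_or_one v with o | o
    · have := f3 o
      by_cases b : c v
      · have := j1 o b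
        have := r1 b
        omega
      · have := j3 o b
        have := r2 b
        omega
    · have := j2 o
      by_cases b : c v
      · have := f1 o b
        have := r1 b
        omega
      · have := f2 o b
        have := r2 b
        omega

include E in
/-- the case of a good last edge -/
theorem hyY : c (2 * (h + 1)) ∨ (0 ≤ Y c (h + 1) ∧ ∃ t ≤ h + 1, Y c (h + 1) + 1 ≤ Y c t) := by
  rcases E.hy with a | ⟨a, y, y1, y2, y3⟩
  · exact Or.inl a
  · right
    rw [wk_Y2] at a y3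
    refine ⟨by omega, y / 2, by omega, ?_⟩
    obtain ⟨f1, f2, f3⟩ := wk_Y c y
    rcases Nat.mod_two_eq_zero_or_one y with o | o
    · have := f3 o
      omega
    · by_cases b : c y
      · have := f1 o b
        omega
      · have := f2 o b
        omega

end

end Pool.Agent.Lob12.BadH
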