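import Pool.Agent.Lob12.BadH1

/-!
# Some end bad, two high edges: comparison of the sums, the conditions
-/

namespace Pool.Agent.Lob12.BadH

open Pool.Agent.Lob12 Pool.Agent.Lob5 Pool.Agent.Lob89 Pool.Agent.Lob34 Pool.Agent.Lob89.Gg

variable {h i n2 : ℕ} {ld al c : ℕ → Prop}

section

variable (E : EH (2 * (h + 1)) h (2 * i) n2 ld al c)

/-- values at a vertex of the right part -/
theorem vR {z : ℕ} (h1 : 2 * i < z) (h2 : z < 2 * (h + 1)) (h3 : ld z) :
    i + 1 ≤ z / 2 ∧ z / 2 ≤ h ∧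
    (((E.H.hx.J z : ℤ) = (h + 1 : ℕ) + Y c (h + 1) - Y c i - Y c (z / 2) ∧
        z % 2 = 0 ∧ c z) ∨
      (h + 1 : ℕ) + Y c (h + 1) - Y c i - Y c (z / 2) + 1 ≤ (E.H.hx.J z : ℤ)) := by
  obtain ⟨j1, j2, j3⟩ := pJR E h1 h2 h3
  have hu := E.huK
  have h4 : z ≠ 2 * i + 1 := by
    rintro rfl
    have := E.W.dif (2 * i + 1) (by omega) h2 h3
    have a1 := E.cu1
    have a2 := E.cu2
    exact (this.1 a1) a2
  have h5 : z ≠ 2 * h + 1 := by
    rintro rfl
    have := E.W.rng (2 * h + 1) (by omega) h2 h3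
    omega
  refine ⟨by omega, by omega, ?_⟩
  rcases Nat.mod_two_eq_zero_or_one z with o | o
  · by_cases a : c z
    · exact Or.inl ⟨j1 o a, o, a⟩
    · right
      have := j3 o a
      omega
  · right
    have := j2 o
    omega

/-- values at a vertex of the left part -/
theorem vL {z : ℕ} (h0 : 1 ≤ z) (h1 : z < 2 * i) (h3 : ld z) :
    1 ≤ z / 2 ∧ z / 2 < i ∧
    (((E.H.hx.J z : ℤ) = (h + 1 : ℕ) - Y c i + Y c (z / 2) ∧ z % 2 = 0 ∧ ¬ c z) ∨
      (h + 1 : ℕ) - Y c i + Y c (z / 2) + 1 ≤ (E.H.hx.J z : ℤ)) := by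
  obtain ⟨j1, j2, j3⟩ := pJL E h0 h1 h3
  have hu := E.huK
  have h5 := E.W.rng z h0 (by omega) h3
  refine ⟨by omega, by omega, ?_⟩
  rcases Nat.mod_two_eq_zero_or_one z with o | o
  · by_cases a : c z
    · right
      have := j3 o a
      omega
    · exact Or.inl ⟨j1 o a, o, a⟩
  · right
    have := j2 o
    omega

/-- Comparison, good kind, right part. -/
theorem DGR {a z : ℕ} (a1 : 2 * i < a) (a2 : a < 2 * (h + 1)) (a3 : ld a)
    (a4 : ¬ (a % 2 = 0 ↔ ¬ c a)) (z1 : 1 ≤ z) (z2 : z < 2 * (h + 1)) (z3 : ld z)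
    (z4 : z ≠ 2 * i) : E.H.hx.J a ≤ E.H.hx.J z + E.H.hx.Q := by
  obtain ⟨g1, g2, g3, g4, g5, g6, g7, g8, g9⟩ := glob E
  have hQ := pQ E
  obtain ⟨b1, b2, -⟩ := vR E a1 a2 a3
  obtain ⟨k1, k2, k3⟩ := pJR E a1 a2 a3
  obtain ⟨r1, r2, r3, r4⟩ := around c (v := a) (by omega) (E.W.dif a (by omega) a2 a3)
  have hv : (E.H.hx.J a : ℤ) ≤ (h + 1 : ℕ) + Y c (h + 1) - Y c i - Y c (a / 2) + nR c (h + 1) := by
    have m6 := nR_mono c (show a / 2 + 1 ≤ h + 1 by omega)
    rcases Nat.mod_two_eq_zero_or_one a with o | o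
    · have b : c a := by
        by_contra hh
        exact a4 (iff_of_true o hh)
      have := k1 o b
      omega
    · have b : ¬ c a := fun hh => a4 (iff_of_false (by omega) (not_not.2 hh))
      have := k2 o
      have := r4 o b
      omega
  have m1 := nG_mono c (show i ≤ a / 2 by omega)
  have m2 := nB_mono c (show i + 1 ≤ a / 2 by omega)
  have m3 := nG_mono c (show a / 2 ≤ h + 1 by omega)
  have m4 := nB_mono c (show a / 2 ≤ h + 1 by omega)
  rcases Nat.lt_or_ge z (2 * i) with d | d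
  · obtain ⟨c1, c2, c3⟩ := vL E z1 d z3
    have c3' : (h + 1 : ℕ) - Y c i + Y c (z / 2) ≤ (E.H.hx.J z : ℤ) := by omega
    clear c3
    have t3 := nB_mono c (show z / 2 ≤ i by omega)
    unfold Y at *
    omega
  · obtain ⟨c1, c2, c3⟩ := vR E (show 2 * i < z by omega) z2 z3
    have c3' : (h + 1 : ℕ) + Y c (h + 1) - Y c i - Y c (z / 2) ≤ (E.H.hx.J z : ℤ) := by omega
    clear c3
    have t1 := nB_mono c c1
    have t2 := nG_mono c (show z / 2 ≤ h + 1 by omega)
    rcases Nat.lt_or_ge a z with e | e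
    · have t3 := nB_mono c (show a / 2 ≤ z / 2 by omega)
      unfold Y at *
      omega
    · have t3 := nG_mono c (show z / 2 ≤ a / 2 by omega)
      unfold Y at *
      omega

/-- Comparison, good kind, left part. -/
theorem DGL {a z : ℕ} (a0 : 1 ≤ a) (a1 : a < 2 * i) (a3 : ld a)
    (a4 : ¬ (a % 2 = 0 ↔ ¬ c a)) (z1 : 1 ≤ z) (z2 : z < 2 * (h + 1)) (z3 : ld z)
    (z4 : z ≠ 2 * i) : E.H.hx.J a ≤ E.H.hx.J z + E.H.hx.Q := by
  obtain ⟨g1, g2, g3, g4, g5, g6, g7, g8, g9⟩ := glob E
  have hQ := pQ E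
  obtain ⟨b1, b2, -⟩ := vL E a0 a1 a3
  obtain ⟨k1, k2, k3⟩ := pJL E a0 a1 a3
  obtain ⟨r1, r2, r3, r4⟩ := around c (v := a) (by omega) (E.W.dif a (by omega) (by omega) a3)
  have n1 := nG_mono c (show a / 2 ≤ i by omega)
  have n2 := nB_mono c (show a / 2 ≤ i by omega)
  have n3 := nB_mono c (show i + 1 ≤ h + 1 by omega)
  have n4 := nG_mono c (show i ≤ h + 1 by omega)
  have m6 := nR_mono c (show a / 2 + 1 ≤ h + 1 by omega)
  have m7 := nG_mono c (show a / 2 + 1 ≤ i by omega)
  have hc : ¬ c a → c (a + 1) := fun hh => by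
    by_contra hk
    exact hh ((E.W.dif a a0 (by omega) a3).2 hk)
  rcases Nat.lt_or_ge z a with e | e
  · -- `z` before `a`
    obtain ⟨c1, c2, c3⟩ := vL E z1 (by omega) z3
    have c3' : (h + 1 : ℕ) - Y c i + Y c (z / 2) ≤ (E.H.hx.J z : ℤ) := by omega
    clear c3
    have t1 := nB_mono c (show z / 2 ≤ (a - 1) / 2 by omega)
    have t2 := nG_mono c (show z / 2 ≤ a / 2 by omega)
    have t3 := nB_mono c (show z / 2 ≤ a / 2 by omega)
    rcases Nat.mod_two_eq_zero_or_one a with o | o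
    · have b : c a := by
        by_contra hh
        exact a4 (iff_of_true o hh)
      have := k3 o b
      have := r2 o b
      unfold Y at *
      omega
    · have b : ¬ c a := fun hh => a4 (iff_of_false (by omega) (not_not.2 hh))
      have := k2 o
      have := r4 o b
      unfold Y at *
      omega
  · rcases Nat.lt_or_ge z (2 * i) with d | d
    · -- `z` behind `a`, left part
      obtain ⟨c1, c2, c3⟩ := vL E z1 d z3
      have c3' : (h + 1 : ℕ) - Y c i + Y c (z / 2) ≤ (E.H.hx.J z : ℤ) := by omega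
      clear c3
      have t1 := nB_mono c (show z / 2 ≤ i by omega)
      have t2 := nG_mono c (show z / 2 ≤ i by omega)
      have t3 := nG_mono c (show a / 2 ≤ z / 2 by omega)
      rcases Nat.mod_two_eq_zero_or_one a with o | o
      · have b : c a := by
          by_contra hh
          exact a4 (iff_of_true o hh)
        have := k3 o b
        have := r2 o b
        have hz : z = a ∨ z = a + 1 ∨ a / 2 + 1 ≤ z / 2 := by omega
        rcases hz with hz | hz | hz
        · subst hz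
          omega
        · subst hz
          obtain ⟨s1, s2, s3, s4⟩ := around c (v := a + 1) (by omega)
            (E.W.dif (a + 1) (by omega) (by omega) z3)
          have q : ¬ c (a + 1) := (E.W.dif a a0 (by omega) a3).1 b
          have := s4 (by omega) q
          rw [show (a + 1) / 2 = a / 2 by omega] at *
          unfold Y at *
          omega
        · have t4 := nG_mono c hz
          unfold Y at *
          omega
      · have b : ¬ c a := fun hh => a4 (iff_of_false (by omega) (not_not.2 hh))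
        have := k2 o
        have := r4 o b
        unfold Y at *
        omega
    · -- `z` in the right part
      obtain ⟨c1, c2, c3⟩ := vR E (show 2 * i < z by omega) z2 z3
      have c3' : (h + 1 : ℕ) + Y c (h + 1) - Y c i - Y c (z / 2) ≤ (E.H.hx.J z : ℤ) := by omega
      clear c3
      have t1 := nB_mono c c1
      have t2 := nG_mono c (show z / 2 ≤ h + 1 by omega)
      rcases Nat.mod_two_eq_zero_or_one a with o | o
      · have b : c a := by
          by_contra hh
          exact a4 (iff_of_true o hh)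
        have := k3 o b
        have := r2 o b
        unfold Y at *
        omega
      · have b : ¬ c a := fun hh => a4 (iff_of_false (by omega) (not_not.2 hh))
        have := k2 o
        have := r4 o b
        unfold Y at *
        omega

include E in
/-- the numbers of bad low edges -/
theorem P2 : 2 ≤ E.H.hx.P := by
  obtain ⟨g1, g2, g3, g4, g5, g6, g7, g8, g9⟩ := glob E
  have hP := pP E
  have n1 := nG_mono c (show i ≤ h + 1 by omega)
  have n2 := nP_mono c (show i ≤ h + 1 by omega)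
  have n3 := nB_mono c (show i + 1 ≤ h + 1 by omega)
  have n4 := nB_mono c (show 1 ≤ i by omega)
  have n5 := nG_mono c (show 1 ≤ i by omega)
  unfold Y at *
  omega

include E in
/-- the exceptional configuration does not occur -/
theorem exc {a z : ℕ} (a1 : 2 * i < a) (a2 : a < 2 * (h + 1)) (a3 : ld a)
    (z1 : 1 ≤ z) (z2 : z < 2 * i) (z3 : ld z) (z4 : z % 2 = 0) :
    1 ≤ (nB c (h + 1) : ℤ) - nB c (a / 2) + (nG c (a / 2) - nG c i) + nG c (z / 2) +
      (nB c i - nB c (z / 2)) + nR c (h + 1) := by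
  obtain ⟨g1, g2, g3, g4, g5, g6, g7, g8, g9⟩ := glob E
  obtain ⟨b1, b2, -⟩ := vR E a1 a2 a3
  obtain ⟨c1, c2, -⟩ := vL E z1 z2 z3
  have hl := (lftY E z1 z2 z3).1 z4
  obtain ⟨l1, l2⟩ := last E
  have m1 := nG_mono c (show i ≤ a / 2 by omega)
  have m4 := nB_mono c (show a / 2 ≤ h by omega)
  have m5 := nB_mono c (show h ≤ h + 1 by omega)
  have m6 := nB_mono c (show z / 2 ≤ i by omega)
  have m7 := nG_mono c (show 1 ≤ z / 2 by omega)
  have m8 := nB_mono c (show 1 ≤ z / 2 by omega)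
  have m9 := nG_mono c (show z / 2 ≤ i by omega)
  by_contra hc
  have e1 : nB c (h + 1) = nB c (a / 2) := by omega
  have e2 : nG c (a / 2) = nG c i := by omega
  have e3 : nG c (z / 2) = 0 := by omega
  have e4 : nB c i = nB c (z / 2) := by omega
  have e5 : nG c i = 0 := by
    unfold Y at hl
    omega
  have k : ¬ c (2 * (h + 1)) := fun hh => by
    have := l1 hh
    omega
  rcases hyY E with q | ⟨q1, t, q2, q3⟩
  · exact k q
  · rcases Nat.lt_or_ge t (a / 2) with q | q
    · have t1 := nG_mono c q.le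
      unfold Y at *
      omega
    · have t1 := nB_mono c q
      have t2 := nG_mono c q2
      unfold Y at *
      omega

/-- Comparison, bad kind, right part. -/
theorem DBR {a z : ℕ} (a1 : 2 * i < a) (a2 : a < 2 * (h + 1)) (a3 : ld a)
    (a4 : a % 2 = 0 ↔ ¬ c a) (z1 : 1 ≤ z) (z2 : z < 2 * (h + 1)) (z3 : ld z)
    (z4 : z ≠ 2 * i) : E.H.hx.J a ≤ E.H.hx.J z + E.H.hx.Q + 1 ∧
      E.H.hx.J a ≤ E.H.hx.J z + E.H.hx.P := by
  obtain ⟨g1, g2, g3, g4, g5, g6, g7, g8, g9⟩ := glob E
  have hQ := pQ E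
  have hP := pP E
  obtain ⟨b1, b2, -⟩ := vR E a1 a2 a3
  obtain ⟨k1, k2, k3⟩ := pJR E a1 a2 a3
  obtain ⟨r1, r2, r3, r4⟩ := around c (v := a) (by omega) (E.W.dif a (by omega) a2 a3)
  have m1 := nG_mono c (show i ≤ a / 2 by omega)
  have m3 := nG_mono c (show a / 2 ≤ h + 1 by omega)
  have m4 := nB_mono c (show a / 2 ≤ h + 1 by omega)
  have m5 := nP_mono c (show a / 2 ≤ h + 1 by omega)
  have m6 := nP_mono c (show a / 2 + 1 ≤ h + 1 by omega)
  have m7 := nP_mono c (show i ≤ (a - 1) / 2 by omega)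
  have m8 := nP_mono c (show i ≤ a / 2 by omega)
  have m9 := nG_mono c (show i ≤ (a - 1) / 2 by omega)
  have m10 := nG_mono c (show (a - 1) / 2 ≤ a / 2 by omega)
  rcases Nat.lt_or_ge z (2 * i) with d | d
  · obtain ⟨c1, c2, c3⟩ := vL E z1 d z3
    have t3 := nB_mono c (show z / 2 ≤ i by omega)
    rcases Nat.mod_two_eq_zero_or_one a with o | o
    · have b : ¬ c a := a4.1 o
      have := k3 o b
      have := r1 o b
      rcases c3 with ⟨c3, c4, c5⟩ | c3
      · have := exc E a1 a2 a3 z1 d z3 c4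
        unfold Y at *
        omega
      · unfold Y at *
        omega
    · have b : c a := by
        by_contra hh
        have := a4.2 hh
        omega
      have := k2 o
      have := r3 o b
      have c3' : (h + 1 : ℕ) - Y c i + Y c (z / 2) ≤ (E.H.hx.J z : ℤ) := by omega
      clear c3
      unfold Y at *
      omega
  · obtain ⟨c1, c2, c3⟩ := vR E (show 2 * i < z by omega) z2 z3
    have t1 := nB_mono c c1
    have t2 := nG_mono c (show z / 2 ≤ h + 1 by omega)
    rcases Nat.mod_two_eq_zero_or_one a with o | o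
    · have b : ¬ c a := a4.1 o
      have := k3 o b
      have := r1 o b
      rcases Nat.lt_or_ge a z with e | e
      · have t3 := nB_mono c (show a / 2 ≤ z / 2 by omega)
        rcases c3 with ⟨c3, c4, c5⟩ | c3
        · obtain ⟨s1, s2, s3, s4⟩ := around c (v := z) (by omega) (E.W.dif z (by omega) z2 z3)
          have := (s2 c4 c5).1
          have t4 := nB_mono c (show a / 2 ≤ (z - 1) / 2 by omega)
          have t5 := nR_mono c (show z / 2 ≤ h + 1 by omega)
          unfold Y at *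
          omega
        · unfold Y at *
          omega
      · rcases e.eq_or_lt with e | e
        · subst e
          omega
        · have t3 := nG_mono c (show z / 2 ≤ (a - 1) / 2 by omega)
          rcases c3 with ⟨c3, c4, c5⟩ | c3
          · obtain ⟨s1, s2, s3, s4⟩ := around c (v := z) (by omega) (E.W.dif z (by omega) z2 z3)
            have := (s2 c4 c5).2
            have t4 := nG_mono c (show z / 2 + 1 ≤ a / 2 by omega)
            have t5 := nR_mono c (show z / 2 + 1 ≤ h + 1 by omega)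
            unfold Y at *
            omega
          · unfold Y at *
            omega
    · have b : c a := by
        by_contra hh
        have := a4.2 hh
        omega
      have := k2 o
      have := r3 o b
      have c3' : (h + 1 : ℕ) + Y c (h + 1) - Y c i - Y c (z / 2) ≤ (E.H.hx.J z : ℤ) := by omega
      clear c3
      rcases Nat.lt_or_ge a z with e | e
      · have t3 := nB_mono c (show a / 2 ≤ z / 2 by omega)
        unfold Y at *
        omega
      · have t3 := nG_mono c (show z / 2 ≤ a / 2 by omega)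
        unfold Y at *
        omega

/-- Comparison, bad kind, left part. -/
theorem DBL {a z : ℕ} (a0 : 1 ≤ a) (a1 : a < 2 * i) (a3 : ld a)
    (a4 : a % 2 = 0 ↔ ¬ c a) (z1 : 1 ≤ z) (z2 : z < 2 * (h + 1)) (z3 : ld z)
    (z4 : z ≠ 2 * i) : E.H.hx.J a ≤ E.H.hx.J z + E.H.hx.Q + 1 ∧
      E.H.hx.J a ≤ E.H.hx.J z + E.H.hx.P := by
  obtain ⟨g1, g2, g3, g4, g5, g6, g7, g8, g9⟩ := glob E
  have hQ := pQ E
  have hP := pP E
  obtain ⟨b1, b2, -⟩ := vL E a0 a1 a3
  obtain ⟨k1, k2, k3⟩ := pJL E a0 a1 a3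
  have hv : (E.H.hx.J a : ℤ) ≤ (h + 1 : ℕ) - Y c i + Y c (a / 2) + 1 := by
    rcases Nat.mod_two_eq_zero_or_one a with o | o
    · have := k1 o (a4.1 o)
      omega
    · have := k2 o
      omega
  have n1 := nG_mono c (show a / 2 ≤ i by omega)
  have n2 := nB_mono c (show a / 2 ≤ i by omega)
  have n3 := nB_mono c (show i + 1 ≤ h + 1 by omega)
  have n4 := nG_mono c (show i ≤ h + 1 by omega)
  have n5 := nP_mono c (show i ≤ h + 1 by omega)
  rcases Nat.lt_or_ge z (2 * i) with d | d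
  · obtain ⟨c1, c2, c3⟩ := vL E z1 d z3
    have c3' : (h + 1 : ℕ) - Y c i + Y c (z / 2) ≤ (E.H.hx.J z : ℤ) := by omega
    clear c3
    have t1 := nB_mono c (show z / 2 ≤ i by omega)
    rcases Nat.lt_or_ge z a with e | e
    · have t3 := nB_mono c (show z / 2 ≤ a / 2 by omega)
      unfold Y at *
      omega
    · have t3 := nG_mono c (show a / 2 ≤ z / 2 by omega)
      unfold Y at *
      omega
  · obtain ⟨c1, c2, c3⟩ := vR E (show 2 * i < z by omega) z2 z3
    have c3' : (h + 1 : ℕ) + Y c (h + 1) - Y c i - Y c (z / 2) ≤ (E.H.hx.J z : ℤ) := by omega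
    clear c3
    have t1 := nB_mono c c1
    have t2 := nG_mono c (show z / 2 ≤ h + 1 by omega)
    unfold Y at *
    omega

/-- the bound `b1` -/
theorem hb1 {a : ℕ} (a0 : 1 ≤ a) (a2 : a < 2 * (h + 1)) (a3 : ld a) (a5 : a ≠ 2 * i)
    (a4 : a % 2 = 0 ↔ ¬ c a) : E.H.hx.J a + 1 ≤ h + 1 + E.H.hx.P := by
  obtain ⟨g1, g2, g3, g4, g5, g6, g7, g8, g9⟩ := glob E
  have hP := pP E
  have h2 := P2 E
  obtain ⟨r1, r2, r3, r4⟩ := around c (v := a) (by omega) (E.W.dif a (by omega) a2 a3)
  rcases Nat.lt_or_ge a (2 * i) with d | d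
  · obtain ⟨b1, b2, -⟩ := vL E a0 d a3
    obtain ⟨k1, k2, k3⟩ := pJL E a0 d a3
    have n1 := nG_mono c (show a / 2 ≤ i by omega)
    have n4 := nG_mono c (show i ≤ h + 1 by omega)
    have n5 := nP_mono c (show i ≤ h + 1 by omega)
    rcases Nat.mod_two_eq_zero_or_one a with o | o
    · have := k1 o (a4.1 o)
      unfold Y at *
      omega
    · have b : c a := by
        by_contra hh
        have := a4.2 hh
        omega
      have := k2 o
      have := r3 o b
      rcases Nat.lt_or_ge (a / 2) (i - 1) with q | q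
      · have n6 := nP_mono c (show a / 2 + 1 ≤ i - 1 by omega)
        unfold Y at *
        omega
      · have hq : a / 2 = i - 1 := by omega
        have e1 : nB c (a / 2) = nB c (i - 1) := by rw [hq]
        have e2 : nG c (a / 2) = nG c (i - 1) := by rw [hq]
        unfold Y at *
        omega
  · obtain ⟨b1, b2, -⟩ := vR E (show 2 * i < a by omega) a2 a3
    obtain ⟨k1, k2, k3⟩ := pJR E (show 2 * i < a by omega) a2 a3
    have m4 := nB_mono c (show a / 2 ≤ h + 1 by omega)
    have m5 := nB_mono c (show a / 2 + 1 ≤ h + 1 by omega)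
    have m6 := nP_mono c (show a / 2 + 1 ≤ h + 1 by omega)
    have m7 := nP_mono c (show i ≤ (a - 1) / 2 by omega)
    have m8 := nP_mono c (show i ≤ a / 2 by omega)
    rcases Nat.mod_two_eq_zero_or_one a with o | o
    · have b : ¬ c a := a4.1 o
      have := k3 o b
      have := r1 o b
      unfold Y at *
      omega
    · have b : c a := by
        by_contra hh
        have := a4.2 hh
        omega
      have := k2 o
      have := r3 o b
      unfold Y at *
      omega

/-- no vertex without a bush has the maximal sum of ranks -/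
theorem hMC {v : ℕ} (h1 : 1 ≤ v) (h2 : v < 2 * (h + 1)) (h3 : ¬ ld v)
    (h4 : ¬ rc c (2 * i) v) : E.H.hx.J v ≤ 2 * h + 1 := by
  have hs := E.H.same v h1 h2 h3
  have uK := E.huK
  have u1 := E.u1
  have h5 : v ≠ 2 * i := by
    rintro rfl
    exact h3 E.lu
  have h6 : v + 1 ≠ 2 * i := by
    intro hh
    have hq := E.W.same v h1 h2 h3
    have c0 := E.cu0
    have c1 := E.cu
    rw [← hh] at c0 c1
    rw [Nat.add_sub_cancel] at c0
    exact c1 (hq.1 c0)
  have hu : E.H.hx.rk (2 * i) = h + 1 := E.H.rk_u.1 (fun hh => E.cu ((rc_le le_rfl).1 hh))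
  have hh : E.H.hx.h = h + 1 := rfl
  have ll := lo_rng (u := 2 * i) h1 h2
  have hhi := hi_rng (u := 2 * i) h1 h2
  have h4' : ¬ rc c (2 * i) (v + 1) := fun q => h4 (hs.2 q)
  have bl : ¬ E.H.hx.bad (lo (2 * i) v) := by
    change ¬ rc c (2 * i) _
    unfold lo oe ee
    split_ifs
    · exact h4
    · exact h4'
    · exact h4'
    · exact h4
  have bh' : ¬ E.H.hx.bad (hi (2 * i) v) := by
    change ¬ rc c (2 * i) _
    unfold hi oe ee
    split_ifs
    · exact h4'
    · exact h4
    · exact h4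
    · exact h4'
  have l1 := E.H.hx.rk_lg _ ll.1 ll.2 (lo_lw h5) bl
  have l2 := E.H.hx.rk_hg _ hhi.1 hhi.2 (hi_lw h5) bh'
  have l3 : E.H.hx.rk (hi (2 * i) v) ≠ h + 1 := by
    intro hq
    have h7 : ¬ lw (2 * i) (2 * i) := by
      unfold lw
      omega
    have h8 := E.H.hx.rk_inj _ (2 * i) hhi.1 hhi.2 (by omega) (by omega)
      (iff_of_false (hi_lw h5) h7) (hq.trans hu.symm)
    unfold hi oe ee at h8
    split_ifs at h8 <;> omega
  have h9 : E.H.hx.J v = E.H.hx.rk (lo (2 * i) v) + E.H.hx.rk (hi (2 * i) v) := by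
    unfold HX.J lo hi oe ee
    split_ifs
    · rfl
    · exact add_comm _ _
    · exact add_comm _ _
    · rfl
  omega

end

theorem eh_aux (E : EH (2 * (h + 1)) h (2 * i) n2 ld al c) : HXW E.H.hx (2 * h + 1) n2 0 := by
  have hh : E.H.hx.h = h + 1 := rfl
  obtain ⟨g1, g2, g3, g4, g5, g6, g7, g8, g9⟩ := glob E
  have hP := pP E
  have hQ := pQ E
  have hP2 := P2 E
  have hPh := E.H.hx.Ph
  have A : ∀ v, 1 ≤ v → v < 2 * (h + 1) → v ≠ 2 * i → ld v → h ≤ E.H.hx.J v + n2 := by
    intro v v1 v2 v4 v3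
    obtain ⟨l1, l2⟩ := lbJ E v1 v2 v3 v4
    rcases Nat.lt_or_ge v (2 * i) with d | d
    · have := l1 d
      omega
    · exact l2 (by omega)
  have hau : ∀ a, al a → a ≠ 2 * i := by
    rintro a hh rfl
    exact E.nu hh
  have ald := E.W.al_ld
  have kd' := fun {v : ℕ} => kd E (v := v)
  have DG : ∀ a z, 1 ≤ a → a < 2 * (h + 1) → al a → ¬ E.H.hx.bad (lo (2 * i) a) → 1 ≤ z →
      z < 2 * (h + 1) → ld z → z ≠ 2 * i → E.H.hx.J a ≤ E.H.hx.J z + E.H.hx.Q := by
    intro a z a1 a2 a3 a4 z1 z2 z3 z5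
    have k : ¬ (a % 2 = 0 ↔ ¬ c a) := fun q => a4 ((kd' a1 a2 (ald a a3) (hau a a3)).2 q)
    rcases Nat.lt_or_ge a (2 * i) with d | d
    · exact DGL E a1 d (ald a a3) k z1 z2 z3 z5
    · have := hau a a3
      exact DGR E (by omega) a2 (ald a a3) k z1 z2 z3 z5
  have DB : ∀ a z, 1 ≤ a → a < 2 * (h + 1) → al a → E.H.hx.bad (lo (2 * i) a) → 1 ≤ z →
      z < 2 * (h + 1) → ld z → z ≠ 2 * i → E.H.hx.J a ≤ E.H.hx.J z + E.H.hx.Q + 1 ∧
        E.H.hx.J a ≤ E.H.hx.J z + E.H.hx.P := by
    intro a z a1 a2 a3 a4 z1 z2 z3 z5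
    have k : a % 2 = 0 ↔ ¬ c a := (kd' a1 a2 (ald a a3) (hau a a3)).1 a4
    rcases Nat.lt_or_ge a (2 * i) with d | d
    · exact DBL E a1 d (ald a a3) k z1 z2 z3 z5
    · have := hau a a3
      exact DBR E (by omega) a2 (ald a a3) k z1 z2 z3 z5
  refine
    { M1 := ?_
      M2 := by omega
      MC := fun v v1 v2 v3 v4 => hMC E v1 v2 v3 v4
      a1 := fun a a1 a2 a3 => ?_
      b1 := fun a a1 a2 a3 a4 => ?_
      n1 := fun z z1 z2 z5 z3 _ => ?_
      t1 := fun z z1 z2 z5 z3 _ => ?_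
      t2 := fun z z1 z2 z5 z3 z4 => ?_
      bu := fun a a1 a2 a3 a4 => ?_
      bb := fun a z a1 a2 z1 z2 z5 a3 a4 z3 z4 => ?_
      sh := fun a z a1 a2 z1 z2 z5 a3 a4 z3 z4 => ?_
      gg := fun a z a1 a2 z1 z2 z5 a3 a4 z3 z4 _ => ?_
      gb := fun a z a1 a2 z1 z2 z5 a3 a4 z3 z4 _ T hT => ?_
      lt := ?_
      two := Or.inl hP2 }
  · have m1 := nB_mono c (show i + 1 ≤ h + 1 by omega)
    have m2 := pcnt c (h + 1)
    unfold Y at *
    omega
  · have := A a a1 a2 (hau a a3) (ald a a3)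
    omega
  · have := hb1 E a1 a2 (ald a a3) (hau a a3) ((kd' a1 a2 (ald a a3) (hau a a3)).1 a4)
    omega
  · have := A z z1 z2 z5 z3
    omega
  · have := A z z1 z2 z5 z3
    omega
  · rcases Nat.lt_or_ge z (2 * i) with d | d
    · have := (lbJ E z1 z2 z3 z5).1 d
      omega
    · obtain ⟨c1, c2, c3⟩ := vR E (show 2 * i < z by omega) z2 z3
      have m2 := pcnt c (h + 1)
      have m3 := nG_mono c (show z / 2 ≤ h + 1 by omega)
      unfold Y at *
      omega
  · have := hb1 E a1 a2 (ald a a3) (hau a a3) ((kd' a1 a2 (ald a a3) (hau a a3)).1 a4)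
    have hu : E.H.hx.rk (2 * i) = h + 1 := E.H.rk_u.1 (fun hh => E.cu ((rc_le le_rfl).1 hh))
    have hJ : E.H.hx.J (2 * i) = E.H.hx.rk (2 * i) + E.H.hx.rk (2 * i + 1) := rfl
    omega
  · have := DB a z a1 a2 a3 a4 z1 z2 z3 z5
    exact ⟨Or.inl this.1, fun _ => this.2⟩
  · have := DB a z a1 a2 a3 a4 z1 z2 z3 z5
    omega
  · exact DG a z a1 a2 a3 a4 z1 z2 z3 z5
  · have h0 : T.card = 0 := by
      rw [Finset.card_eq_zero, Finset.eq_empty_iff_forall_notMem]
      intro v hv
      obtain ⟨v1, v2, _, v5, v3, _, v4⟩ := hT v hv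
      have := A v v1 v2 v5 v3
      omega
    rw [h0]
    exact DG a z a1 a2 a3 a4 z1 z2 z3 z5
  · by_cases q : E.H.hx.P ≤ E.H.hx.Q
    · exact Or.inl q
    · refine Or.inr fun a z a1 a2 z1 z2 z5 a3 a4 z3 z4 => ?_
      have := DG a z a1 a2 a3 a4 z1 z2 z3 z5
      omega

end Pool.Agent.Lob12.BadH

namespace Pool.Agent.Lob12

open Pool.Agent.Lob34

/-- **Two high edges at a first passage.** -/
theorem eh_hxw {K h u n2 : ℕ} {ld al c : ℕ → Prop} (E : EH K h u n2 ld al c) :
    HXW E.H.hx (2 * h + 1) n2 0 := by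
  have hK := E.W.hK
  have hu := E.hu
  obtain rfl : K = 2 * (h + 1) := by omega
  obtain ⟨i, rfl⟩ : ∃ i, u = 2 * i := ⟨u / 2, by omega⟩
  exact BadH.eh_aux E

end Pool.Agent.Lob12
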