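import Pool.Agent.Lob12.Longest
import Pool.Agent.Lob5.P3Main
import Pool.Agent.Lob5.P2Main

/-!
# Lobsters of even diameter with a longest path whose second vertex has degree at least three
-/

namespace Pool.Agent.Lob12

open SimpleGraph Finset Pool.Agent.Lob89

universe u

variable {V : Type u} {G : SimpleGraph V}

/-- **The reduction to the even case with a leaf at an end.** -/
theorem reductionE2 [Fintype V] [DecidableEq V] (G : SimpleGraph V) [DecidableRel G.Adj]
    (hL : IsLobster G) (h3 : 3 ≤ Fintype.card V)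
    (hq : ∃ (a b : V) (q : G.Walk a b), q.IsPath ∧ q.length = G.diam ∧
      3 ≤ G.degree (q.getVert 1))
    (core : ∀ (k : ℕ) (Lf B BL : Type u) [Fintype Lf] [Fintype B] [Fintype BL] [DecidableEq B]
      (la : Lf → ℕ) (ba : B → ℕ) (par : BL → B), EvenData k la ba par → 4 ≤ k →
      ((∃ x, la x = 1) ∨ ∃ x, la x + 1 = k) → HasLabels k la ba par) :
    IsAntimagic G := by
  classical
  have hL' := hL
  obtain ⟨hT, u₀, v₀, p₀, hp₀⟩ := hL
  obtain ⟨a, b, p, hp, hbest⟩ := exists_bestDom ⟨u₀, v₀, p₀, hp₀⟩
  have h2 := two_le_length hT.connected hp.1 hp.free1 hp.free2 h3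
  rcases Nat.mod_two_eq_zero_or_one p.length with hev | hodd
  swap
  · exact antimagic_of_odd G hT h3 hp.1 hp.free1 hp.free2 hodd
  by_contra hno
  have hrev : ∀ i, p.reverse.getVert i = p.getVert (p.length - i) := fun i => by
    rw [Walk.getVert_reverse]
  have hrl : p.reverse.length = p.length := by simp
  -- the sum of the degrees at the two ends is at least five
  have hfive : p.length ≠ 2 → 5 ≤ G.degree (p.getVert 1) + G.degree (p.getVert (p.length - 1)) := by
    intro hne
    obtain ⟨a', b', q, hq1, hq2, hq3⟩ := hq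
    have h4 := maxDom_of_diam hL' h3 hq1 hq2
    have h5 := hbest _ _ q h4
    have h6 := hp.diam hT (by omega)
    have h7 := two_le_degree hq1 (i := q.length - 1) (by omega) (by omega)
    omega
  apply hno
  refine reductionF G hT hp.1 h2 hp.free1 hp.free2
    (fun _ x y hx hy h4 => hp.second1 hT (by omega) x y hx hy h4)
    (fun _ x y hx hy h4 => hp.second2 hT (by omega) x y hx hy h4) ?_
  intro Lf B BL _ _ _ _ la ba par hd hF1 hF2 hF3
  by_cases hk2 : p.length = 2
  · rw [hk2] at hd ⊢
    exact k2_main hd
  refine core _ Lf B BL la ba par ⟨hd, hev, ?_, ?_, ?_, ?_⟩ (by omega) ?_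
  · intro x hx
    have h4 := hd.la_lt x
    obtain ⟨z, hz, hadj, hdeg⟩ := hF3 x
    rw [hx] at hadj
    exact hno (hp.leaf2 hT h3 (by omega) hev hz hadj hdeg)
  · intro x hx
    have h4 := hd.la_pos x
    obtain ⟨z, hz, hadj, hdeg⟩ := hF3 x
    have e : la x = p.length - 2 := by omega
    rw [e, ← hrev 2] at hadj
    have hz' : z ∉ p.reverse.support := by
      rw [Walk.support_reverse, List.mem_reverse]; exact hz
    exact hno (hp.reverse.leaf2 hT h3 (by omega) (by omega) hz' hadj hdeg)
  · intro c hc
    have h4 := hd.ev hev c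
    obtain ⟨z, hz, hadj, ⟨y, hy, hyz⟩, hdeg⟩ := hF2 c
    rw [hc] at hadj
    obtain ⟨p', hp', e1, e2⟩ := hp.swap hT (by omega) hz hy hadj hyz
    have h5 := hbest _ _ p' hp'
    rw [e1, e2] at h5
    have h6 := hF1 1 (by omega)
    unfold pathSum at h6
    beta_reduce at h6
    rw [if_pos le_rfl, if_pos (by omega)] at h6
    have h7 : (∑ b, if ba b = 1 then 1 else 0) = 0 := by
      refine Finset.sum_eq_zero fun b _ => ?_
      have := hd.ev hev b
      rw [if_neg (by omega)]
    rw [h7, ← Finset.card_filter] at h6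
    rw [← Finset.card_filter] at hdeg
    omega
  · intro c hc
    have h4 := hd.ev hev c
    obtain ⟨z, hz, hadj, ⟨y, hy, hyz⟩, hdeg⟩ := hF2 c
    have e : ba c = p.length - 2 := by omega
    rw [e, ← hrev 2] at hadj
    have hz' : z ∉ p.reverse.support := by
      rw [Walk.support_reverse, List.mem_reverse]; exact hz
    have hy' : y ∉ p.reverse.support := by
      rw [Walk.support_reverse, List.mem_reverse]; exact hy
    obtain ⟨p', hp', e1, e2⟩ := hp.reverse.swap hT (by omega) hz' hy' hadj hyz
    have h5 := hbest _ _ p' hp'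
    rw [e1, e2, hrev, hrl] at h5
    have e3 : p.length - (p.length - 1) = 1 := by omega
    rw [e3] at h5
    have h6 := hF1 (p.length - 1) (by omega)
    unfold pathSum at h6
    beta_reduce at h6
    rw [if_pos (by omega), if_pos (by omega)] at h6
    have h7 : (∑ b, if ba b = p.length - 1 then 1 else 0) = 0 := by
      refine Finset.sum_eq_zero fun b _ => ?_
      have := hd.ev hev b
      rw [if_neg (by omega)]
    rw [h7, ← Finset.card_filter] at h6
    rw [← Finset.card_filter] at hdeg
    have h8 : (univ.filter fun x => la x = p.length - 1) =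
        (univ.filter fun x => la x + 1 = p.length) := by
      refine Finset.filter_congr fun x _ => ?_
      omega
    rw [h8] at h6
    omega
  · by_contra hcon
    rw [not_or] at hcon
    push Not at hcon
    obtain ⟨c1, c2⟩ := hcon
    have h5 := hfive hk2
    have h6 := hF1 1 (by omega)
    unfold pathSum at h6
    beta_reduce at h6
    rw [if_pos le_rfl, if_pos (by omega)] at h6
    have h7 : (∑ b, if ba b = 1 then 1 else 0) = 0 := by
      refine Finset.sum_eq_zero fun b _ => ?_
      have := hd.ev hev b
      rw [if_neg (by omega)]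
    have h8 : (∑ x, if la x = 1 then 1 else 0) = 0 := by
      refine Finset.sum_eq_zero fun x _ => ?_
      rw [if_neg (c1 x)]
    rw [h7, h8] at h6
    have h6' := hF1 (p.length - 1) (by omega)
    unfold pathSum at h6'
    beta_reduce at h6'
    rw [if_pos (by omega), if_pos (by omega)] at h6'
    have h7' : (∑ b, if ba b = p.length - 1 then 1 else 0) = 0 := by
      refine Finset.sum_eq_zero fun b _ => ?_
      have := hd.ev hev b
      rw [if_neg (by omega)]
    have h8' : (∑ x, if la x = p.length - 1 then 1 else 0) = 0 := by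
      refine Finset.sum_eq_zero fun x _ => ?_
      have := c2 x
      rw [if_neg (by omega)]
    rw [h7', h8'] at h6'
    omega

/-- an even number of path edges and a leaf at an end -/
theorem even_leaf {k : ℕ} {Lf B BL : Type u} [Fintype Lf] [Fintype B] [Fintype BL]
    [DecidableEq B] {la : Lf → ℕ} {ba : B → ℕ} {par : BL → B} (h : EvenData k la ba par)
    (h4 : 4 ≤ k) (hx : (∃ x, la x = 1) ∨ ∃ x, la x + 1 = k) : HasLabels k la ba par := by
  classical
  -- an end with leaves
  have key : ∀ (la : Lf → ℕ) (ba : B → ℕ), EvenData k la ba par →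
      (∃ x, la x + 1 = k) → HasLabels k la ba par := by
    intro la ba h ⟨x, hx⟩
    have hpos : 1 ≤ (univ.filter fun x => la x + 1 = k).card :=
      Finset.card_pos.2 ⟨x, Finset.mem_filter.2 ⟨Finset.mem_univ _, hx⟩⟩
    by_cases h3 : 3 ≤ (univ.filter fun x => la x + 1 = k).card
    · obtain ⟨x, y, z, hx, hy, hz, hxy, hxz, hyz⟩ := Finset.two_lt_card_iff.1 h3
      rw [Finset.mem_filter] at hx hy hz
      exact Pool.Agent.Lob5.e4_main h.hd h.even x y z hxy hxz hyz hx.2 hy.2 hz.2
    · have h5 : (univ.filter fun x => la x + 1 = k).card = 2 ∨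
          (univ.filter fun x => la x + 1 = k).card = 1 := by omega
      rcases h5 with h5 | h5
      · exact Pool.Agent.Lob5.P3_main h.hd h.even h4 h5
      · exact Pool.Agent.Lob5.P2_main h h4 h5
  rcases hx with ⟨x, hx⟩ | hx
  · refine Pool.Agent.Lob5.mirror h.hd (key _ _ h.mirror ?_)
    exact ⟨x, by show k - la x + 1 = k; omega⟩
  · exact key la ba h hx

end Pool.Agent.Lob12
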