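import Pool.Agent.Lob12.HwWord
import Pool.Agent.Lob89.GgD

/-!
# Both ends good: two high edges at an even vertex which is loaded and not marked

The edges behind `2 i` are coloured by `x` and the others by the negative of `x` (`xR x (2 i)`).
-/

namespace Pool.Agent.Lob89.Gg

open Pool.Agent.Lob12 Pool.Agent.Lob5 Pool.Agent.Lob89

variable {m : ℕ} {ld al x : ℕ → Prop} {s : ℤ} {i : ℕ}

/-- the word -/
theorem hwR (W : GW m ld al x s) (i1 : 1 ≤ i) (i2 : i < m) (hl : ld (2 * i))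
    (ha : ¬ al (2 * i)) : HW (2 * m) (2 * i) m ld al (xR x (2 * i)) := by
  refine
    { hK := rfl
      u0 := by omega
      u1 := by omega
      uK := by omega
      uN := hl
      ua := ha
      al_ld := W.ald
      same := ?_
      dif1 := ?_
      dif2 := ?_ }
  · intro v v1 v2 v3
    have := W.same v v1 v2 v3
    have hv : v ≠ 2 * i := by
      rintro rfl
      exact v3 hl
    rcases Nat.lt_or_ge v (2 * i) with h | h
    · rw [xR_le (by omega), xR_le (by omega), this]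
    · rw [xR_gt (by omega), xR_gt (by omega)]
      exact this
  · intro v v1 v2 v3 v4 v5
    have := W.dif v v1 v2 v4
    rcases Nat.lt_or_ge v (2 * i) with h | h
    · rw [xR_le (by omega)] at v5 ⊢
      tauto
    · rw [xR_gt (by omega)] at v5 ⊢
      tauto
  · intro v v1 v2 v3 v5
    have := W.dif v v1 v2 (W.ald v v3)
    have hv : v ≠ 2 * i := by
      rintro rfl
      exact ha v3
    rcases Nat.lt_or_ge v (2 * i) with h | h
    · rw [xR_le (by omega)] at v5 ⊢
      tauto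
    · rw [xR_gt (by omega)] at v5 ⊢
      tauto

theorem flH_le {t : ℕ} (h : t ≤ 2 * i) : fl (xR x (2 * i)) t = -(t % 2 : ℕ) - fl x t := by
  have h1 := xR_cnt1 x h
  have h2 := odd_add x t
  have h3 := even_add x t
  unfold fl at *
  omega

theorem flH_ge {t : ℕ} (h : 2 * i ≤ t) : fl (xR x (2 * i)) t = fl x t - 2 * Y x i := by
  have h1 := xR_cnt2 x h
  have h4 := pcnt x i
  unfold fl Y at *
  omega

section

variable (W : GW m ld al x s) (i1 : 1 ≤ i) (i2 : i < m) (hl : ld (2 * i)) (ha : ¬ al (2 * i))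

/-- the number of bad high edges -/
theorem hR_Q : ((hwR W i1 i2 hl ha).hx.Q : ℤ) = nB x m + nP x m + Y x i := by
  have h0 := (hwR W i1 i2 hl ha).Q_eq
  change _ + bo (xR x (2 * i)) (2 * i) = bo (xR x (2 * i)) (2 * m) + bv (xR x (2 * i)) (2 * i)
    at h0
  have h1 := xR_cnt1 x (le_refl (2 * i))
  have h2 := xR_cnt2 x (u := 2 * i) (t := 2 * m) (by omega)
  have h3 := pcnt x i
  have h4 := pcnt x m
  unfold Y
  omega

/-- the number of bad low edges -/
theorem hR_P : ((hwR W i1 i2 hl ha).hx.P : ℤ) = nB x m + nR x m + Y x i := by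
  have h0 := (hwR W i1 i2 hl ha).P_eq
  change _ + bv (xR x (2 * i)) (2 * i) = bv (xR x (2 * i)) (2 * m) + bo (xR x (2 * i)) (2 * i)
    at h0
  have h1 := xR_cnt1 x (le_refl (2 * i))
  have h2 := xR_cnt2 x (u := 2 * i) (t := 2 * m) (by omega)
  have h3 := pcnt x i
  have h4 := pcnt x m
  unfold Y
  omega

/-- the sum of ranks at a vertex of the right part -/
theorem hR_JR {v : ℕ} (h1 : 2 * i < v) (h2 : v < 2 * m) (h3 : ld v) :
    (v % 2 = 0 → ¬ x v → ((hwR W i1 i2 hl ha).hx.J v : ℤ) = m - s + Y x i + Y x (v / 2)) ∧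
    (v % 2 = 1 → ((hwR W i1 i2 hl ha).hx.J v : ℤ) = m - s + Y x i + Y x (v / 2) + 1) ∧
    (v % 2 = 0 → x v → ((hwR W i1 i2 hl ha).hx.J v : ℤ) = m - s + Y x i + Y x (v / 2) + 2) := by
  have hd := W.dif v (by omega) h2 h3
  have hp : v - 2 * i = psR (2 * m) (2 * i) v := by
    unfold psR
    rw [if_pos h1]
  obtain ⟨_, _, j3, j4⟩ := (hwR W i1 i2 hl ha).J_lam (by omega) h2 (by omega) hp
  have hw := wkH1 (K := 2 * m) (u := 2 * i) (bad := xR x (2 * i)) (x := v - 2 * i) (by omega)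
  rw [show v - 2 * i + 2 * i = v by omega, wk_fl (xR x (2 * i)) v, wk_fl (xR x (2 * i)) (2 * i),
    flH_ge h1.le, flH_ge le_rfl, fl_Y] at hw
  rw [xR_gt h1, xR_gt (show 2 * i < v + 1 by omega), hw] at j3 j4
  have hP := hR_P W i1 i2 hl ha
  have hQ := hR_Q W i1 i2 hl ha
  have ht := W.tot
  have hm := pcnt x m
  unfold Y at ht
  obtain ⟨f1, f2, f3⟩ := fl_v (x := x) v
  have hb : ¬ x v → x (v + 1) := fun a => by
    by_contra hh
    exact a (hd.2 hh)
  refine ⟨fun o a => ?_, fun o => ?_, fun o a => ?_⟩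
  · have h5 := j3 a (hb a)
    have := f3 o
    omega
  · by_cases a : x v
    · have h5 := j4 a (hd.1 a)
      have := f1 o a
      omega
    · have h5 := j3 a (hb a)
      have := f2 o a
      omega
  · have h5 := j4 a (hd.1 a)
    have := f3 o
    omega

/-- the sum of ranks at a vertex of the left part -/
theorem hR_JL {v : ℕ} (h0 : 1 ≤ v) (h1 : v < 2 * i) (h3 : ld v) :
    (v % 2 = 0 → x v → ((hwR W i1 i2 hl ha).hx.J v : ℤ) = m + Y x i - Y x (v / 2)) ∧
    (v % 2 = 1 → ((hwR W i1 i2 hl ha).hx.J v : ℤ) = m + Y x i - Y x (v / 2) + 1) ∧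
    (v % 2 = 0 → ¬ x v → ((hwR W i1 i2 hl ha).hx.J v : ℤ) = m + Y x i - Y x (v / 2) + 2) := by
  have hd := W.dif v h0 (by omega) h3
  have hp : 2 * m - 2 * i + v = psR (2 * m) (2 * i) v := by
    unfold psR
    rw [if_neg (by omega)]
  obtain ⟨_, _, j3, j4⟩ := (hwR W i1 i2 hl ha).J_lam h0 (by omega) (by omega) hp
  have hw := wkH2 (K := 2 * m) (u := 2 * i) (bad := xR x (2 * i)) (y := v) (by omega) h1.le
  rw [wk_fl (xR x (2 * i)) v, wk_fl (xR x (2 * i)) (2 * i), wk_fl (xR x (2 * i)) (2 * m),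
    flH_ge (show 2 * i ≤ 2 * m by omega), flH_ge le_rfl, flH_le h1.le, fl_Y, fl_Y, W.tot] at hw
  rw [xR_le (show v ≤ 2 * i by omega), xR_le (show v + 1 ≤ 2 * i by omega), hw] at j3 j4
  have hP := hR_P W i1 i2 hl ha
  have hQ := hR_Q W i1 i2 hl ha
  have ht := W.tot
  have hm := pcnt x m
  unfold Y at ht
  obtain ⟨f1, f2, f3⟩ := fl_v (x := x) v
  have hb : ¬ x v → x (v + 1) := fun a => by
    by_contra hh
    exact a (hd.2 hh)
  refine ⟨fun o a => ?_, fun o => ?_, fun o a => ?_⟩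
  · have h5 := j3 (not_not.2 a) (hd.1 a)
    have := f3 o
    omega
  · by_cases a : x v
    · have h5 := j3 (not_not.2 a) (hd.1 a)
      have := f1 o a
      omega
    · have h5 := j4 a (not_not.2 (hb a))
      have := f2 o a
      omega
  · have h5 := j4 a (not_not.2 (hb a))
    have := f3 o
    omega

/-- the kind of a loaded vertex -/
theorem hR_kd {v : ℕ} (h1 : 1 ≤ v) (h2 : v < 2 * m) (h3 : ld v) (hu : v ≠ 2 * i) :
    (hwR W i1 i2 hl ha).hx.bad (lo (2 * i) v) ↔ (v % 2 = 0 ↔ x v) := by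
  have hb : (hwR W i1 i2 hl ha).hx.bad = xR x (2 * i) := rfl
  have hd := W.dif v h1 h2 h3
  rw [hb]
  unfold lo oe ee
  rcases Nat.mod_two_eq_zero_or_one v with o | o
  · have o' : ¬ v % 2 = 1 := by omega
    rcases Nat.lt_or_ge v (2 * i) with c | c
    · rw [if_pos c, if_neg o', xR_le (by omega)]
      tauto
    · rw [if_neg (by omega), if_neg o', xR_gt (by omega)]
      tauto
  · have o' : ¬ v % 2 = 0 := by omega
    rcases Nat.lt_or_ge v (2 * i) with c | c
    · rw [if_pos c, if_pos o, xR_le (by omega)]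
      tauto
    · rw [if_neg (by omega), if_pos o, xR_gt (by omega)]
      tauto

/-- the rank sum at `2 i` -/
theorem hR_Ju : (hwR W i1 i2 hl ha).hx.Q + 1 ≤ (hwR W i1 i2 hl ha).hx.J (2 * i) := by
  obtain ⟨a1, a2⟩ := (hwR W i1 i2 hl ha).rk_u
  obtain ⟨b1, b2⟩ := (hwR W i1 i2 hl ha).rk_u1
  have h : (hwR W i1 i2 hl ha).hx.J (2 * i) = (hwR W i1 i2 hl ha).hx.rk (2 * i) +
    (hwR W i1 i2 hl ha).hx.rk (2 * i + 1) := rfl
  rw [h]
  by_cases c : xR x (2 * i) (2 * i) <;> by_cases d : xR x (2 * i) (2 * i + 1)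
  · have := a2 c
    have := b2 d
    omega
  · have := a2 c
    have := b1 d
    omega
  · have := a1 c
    have := b2 d
    omega
  · have := a1 c
    have := b1 d
    omega

/-- lower bounds of the sums -/
theorem hR_lb {z : ℕ} (h1 : 1 ≤ z) (h2 : z < 2 * m) (h3 : ld z) (h4 : z ≠ 2 * i) :
    (2 * i < z → (m : ℤ) - s + Y x i + Y x (z / 2) ≤ ((hwR W i1 i2 hl ha).hx.J z : ℤ)) ∧
    (z < 2 * i → (m : ℤ) + Y x i - Y x (z / 2) ≤ ((hwR W i1 i2 hl ha).hx.J z : ℤ)) ∧
    (z < 2 * i ∨ 2 * i < z) := by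
  refine ⟨fun c => ?_, fun c => ?_, by omega⟩
  · obtain ⟨b1, b2, b3⟩ := hR_JR W i1 i2 hl ha c h2 h3
    rcases Nat.mod_two_eq_zero_or_one z with o | o
    · by_cases a : x z
      · have := b3 o a
        omega
      · have := b1 o a
        omega
    · have := b2 o
      omega
  · obtain ⟨b1, b2, b3⟩ := hR_JL W i1 i2 hl ha h1 c h3
    rcases Nat.mod_two_eq_zero_or_one z with o | o
    · by_cases a : x z
      · have := b1 o a
        omega
      · have := b3 o a
        omega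
    · have := b2 o
      omega

/-- the global facts -/
theorem hR_glob : (nB x 1 = 1 ∧ nG x 1 = 0 ∧ nP x 1 = 0 ∧ nR x 1 = 0) ∧
    (nB x m = nB x (m - 1) + 1 ∧ nG x m = nG x (m - 1) ∧ nP x m = nP x (m - 1) ∧
      nR x m = nR x (m - 1)) ∧
    (nG x m : ℤ) - nB x m = s ∧ 1 ≤ s ∧ 1 ≤ nB x i ∧ nB x i ≤ nB x (m - 1) ∧
    nG x i ≤ nG x m ∧
    ((hwR W i1 i2 hl ha).hx.Q : ℤ) = nB x m + nP x m + (nG x i - nB x i) ∧
    ((hwR W i1 i2 hl ha).hx.P : ℤ) = nB x m + nR x m + (nG x i - nB x i) := by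
  have h1 := W.first
  have h2 := W.last
  have h4 := W.tot
  have h8 := hR_Q W i1 i2 hl ha
  have h9 := hR_P W i1 i2 hl ha
  have h11 := nB_mono x i1
  have h12 := nB_mono x (show i ≤ m - 1 by omega)
  have h13 := nG_mono x (show i ≤ m by omega)
  unfold Y at h4 h8 h9
  exact ⟨h1, h2, h4, W.s1, by omega, h12, h13, h8, h9⟩

end

end Pool.Agent.Lob89.Gg
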