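import Pool.Agent.Lob12.GgH1

/-!
# Both ends good, two high edges at `2 i`: comparison of the sums of ranks and the conditions
-/

namespace Pool.Agent.Lob89.Gg

open Pool.Agent.Lob12 Pool.Agent.Lob5 Pool.Agent.Lob89

variable {m : ℕ} {ld al x : ℕ → Prop} {s : ℤ} {i : ℕ}

section

variable (W : GW m ld al x s) (i1 : 1 ≤ i) (i2 : i < m) (hl : ld (2 * i)) (ha : ¬ al (2 * i))

/-- Comparison, good kind. -/
theorem hR_DG (hs : s ≤ 2 * Y x i) {a z : ℕ} (a1 : 1 ≤ a) (a2 : a < 2 * m) (a3 : ld a)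
    (a5 : a ≠ 2 * i) (a4 : ¬ (a % 2 = 0 ↔ x a)) (z1 : 1 ≤ z) (z2 : z < 2 * m) (z3 : ld z)
    (z4 : z ≠ 2 * i) :
    (hwR W i1 i2 hl ha).hx.J a ≤ (hwR W i1 i2 hl ha).hx.J z + (hwR W i1 i2 hl ha).hx.Q := by
  obtain ⟨g1, g2, g3, g4, g5, g6, g7, g8, _⟩ := hR_glob W i1 i2 hl ha
  obtain ⟨l1, l2, l3⟩ := hR_lb W i1 i2 hl ha z1 z2 z3 z4
  obtain ⟨r1, r2, r3, r4⟩ := around x a1 (W.dif a a1 a2 a3)
  have ra := W.ld_rng a1 a2 a3
  have rz := W.ld_rng z1 z2 z3
  have haz : a = z ∨ a < z ∨ z < a := by omega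
  have fb := nB_mono x (show 1 ≤ a / 2 by omega)
  have fz := nB_mono x (show 1 ≤ z / 2 by omega)
  have m1 := nG_mono x (show a / 2 ≤ m by omega)
  have m2 := nG_mono x (show z / 2 ≤ m by omega)
  have m3 := nB_mono x (show a / 2 ≤ m - 1 by omega)
  have m4 := nB_mono x (show z / 2 ≤ m - 1 by omega)
  have m5 := nP_mono x (show a / 2 ≤ m by omega)
  -- the values at `a`
  have hR : 2 * i < a → ((hwR W i1 i2 hl ha).hx.J a : ℤ) ≤ m - s + Y x i + Y x (a / 2) + 1 := by
    intro c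
    obtain ⟨k1, k2, k3⟩ := hR_JR W i1 i2 hl ha c a2 a3
    rcases Nat.mod_two_eq_zero_or_one a with o | o
    · have b : ¬ x a := fun h => a4 (iff_of_true o h)
      have := k1 o b
      omega
    · have := k2 o
      omega
  have hL : a < 2 * i → ((hwR W i1 i2 hl ha).hx.J a : ℤ) ≤ m + Y x i - Y x (a / 2) + 1 ∨
      (((hwR W i1 i2 hl ha).hx.J a : ℤ) ≤ m + Y x i - Y x (a / 2) + 2 ∧
        1 ≤ nG x (a / 2) + nP x (a / 2)) := by
    intro c
    obtain ⟨k1, k2, k3⟩ := hR_JL W i1 i2 hl ha a1 c a3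
    rcases Nat.mod_two_eq_zero_or_one a with o | o
    · have b : ¬ x a := fun h => a4 (iff_of_true o h)
      have := k3 o b
      have := (r1 o b).1
      omega
    · have := k2 o
      omega
  rcases haz with rfl | haz | haz
  · omega
  · -- `a` before `z`
    have t1 := nB_mono x (show a / 2 ≤ z / 2 by omega)
    have t2 := nG_mono x (show a / 2 ≤ z / 2 by omega)
    rcases l3 with c | c
    · have c' : a < 2 * i := by omega
      have := hL c'
      have := l2 c
      have t3 := nG_mono x (show z / 2 ≤ i by omega)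
      have t4 := nB_mono x (show z / 2 ≤ i by omega)
      unfold Y at *
      omega
    · rcases Nat.lt_or_ge a (2 * i) with d | d
      · have := hL d
        have := l1 c
        have t5 := nB_mono x (show a / 2 ≤ i by omega)
        have t6 := nG_mono x (show i ≤ z / 2 by omega)
        unfold Y at *
        omega
      · have := hR (by omega)
        have := l1 c
        unfold Y at *
        omega
  · -- `z` before `a`
    have t1 := nB_mono x (show z / 2 ≤ a / 2 by omega)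
    have t2 := nG_mono x (show z / 2 ≤ a / 2 by omega)
    rcases Nat.lt_or_ge a (2 * i) with c | c
    · have c' : z < 2 * i := by omega
      have := hL c
      have := l2 c'
      have t3 := nB_mono x (show a / 2 ≤ i by omega)
      unfold Y at *
      omega
    · have := hR (by omega)
      rcases l3 with d | d
      · have := l2 d
        have t3 := nB_mono x (show i ≤ a / 2 by omega)
        have t4 := nG_mono x (show z / 2 ≤ i by omega)
        unfold Y at *
        omega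
      · have := l1 d
        have t3 := nB_mono x (show i ≤ z / 2 by omega)
        have t4 := nG_mono x (show i ≤ z / 2 by omega)
        unfold Y at *
        omega

/-- Comparison, bad kind. -/
theorem hR_DB (hs : s ≤ 2 * Y x i) {a z : ℕ} (a1 : 1 ≤ a) (a2 : a < 2 * m) (a3 : ld a)
    (a5 : a ≠ 2 * i) (a4 : a % 2 = 0 ↔ x a) (z1 : 1 ≤ z) (z2 : z < 2 * m) (z3 : ld z)
    (z4 : z ≠ 2 * i) :
    (hwR W i1 i2 hl ha).hx.J a ≤ (hwR W i1 i2 hl ha).hx.J z + (hwR W i1 i2 hl ha).hx.Q + 1 ∧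
    (hwR W i1 i2 hl ha).hx.J a ≤ (hwR W i1 i2 hl ha).hx.J z + (hwR W i1 i2 hl ha).hx.P := by
  obtain ⟨g1, g2, g3, g4, g5, g6, g7, g8, g9⟩ := hR_glob W i1 i2 hl ha
  obtain ⟨l1, l2, l3⟩ := hR_lb W i1 i2 hl ha z1 z2 z3 z4
  obtain ⟨r1, r2, r3, r4⟩ := around x a1 (W.dif a a1 a2 a3)
  have ra := W.ld_rng a1 a2 a3
  have rz := W.ld_rng z1 z2 z3
  have haz : a = z ∨ a < z ∨ z < a := by omega
  have fb := nB_mono x (show 1 ≤ a / 2 by omega)
  have fz := nB_mono x (show 1 ≤ z / 2 by omega)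
  have m1 := nG_mono x (show a / 2 ≤ m by omega)
  have m2 := nG_mono x (show z / 2 ≤ m by omega)
  have m3 := nB_mono x (show a / 2 ≤ m - 1 by omega)
  have m4 := nB_mono x (show z / 2 ≤ m - 1 by omega)
  have m5 := nR_mono x (show a / 2 ≤ m by omega)
  -- the values at `a`
  have hR : 2 * i < a → ((hwR W i1 i2 hl ha).hx.J a : ℤ) ≤ m - s + Y x i + Y x (a / 2) + 1 ∨
      (((hwR W i1 i2 hl ha).hx.J a : ℤ) ≤ m - s + Y x i + Y x (a / 2) + 2 ∧
        nB x (a / 2) + nR x (a / 2) = nB x ((a - 1) / 2) + nR x ((a - 1) / 2) + 1 ∧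
        i ≤ (a - 1) / 2) := by
    intro c
    obtain ⟨k1, k2, k3⟩ := hR_JR W i1 i2 hl ha c a2 a3
    rcases Nat.mod_two_eq_zero_or_one a with o | o
    · have b : x a := a4.1 o
      have := k3 o b
      have := (r2 o b).1
      omega
    · have := k2 o
      omega
  have hL : a < 2 * i → ((hwR W i1 i2 hl ha).hx.J a : ℤ) ≤ m + Y x i - Y x (a / 2) + 1 := by
    intro c
    obtain ⟨k1, k2, k3⟩ := hR_JL W i1 i2 hl ha a1 c a3
    rcases Nat.mod_two_eq_zero_or_one a with o | o
    · have b : x a := a4.1 o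
      have := k1 o b
      omega
    · have := k2 o
      omega
  rcases haz with rfl | haz | haz
  · omega
  · -- `a` before `z`
    have t1 := nB_mono x (show a / 2 ≤ z / 2 by omega)
    have t2 := nG_mono x (show a / 2 ≤ z / 2 by omega)
    rcases l3 with c | c
    · have c' : a < 2 * i := by omega
      have := hL c'
      have := l2 c
      have t3 := nG_mono x (show z / 2 ≤ i by omega)
      have t4 := nB_mono x (show z / 2 ≤ i by omega)
      unfold Y at *
      omega
    · rcases Nat.lt_or_ge a (2 * i) with d | d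
      · have := hL d
        have := l1 c
        have t5 := nB_mono x (show a / 2 ≤ i by omega)
        have t6 := nG_mono x (show i ≤ z / 2 by omega)
        unfold Y at *
        omega
      · have := hR (by omega)
        have := l1 c
        unfold Y at *
        omega
  · -- `z` before `a`
    have t1 := nB_mono x (show z / 2 ≤ a / 2 by omega)
    have t2 := nG_mono x (show z / 2 ≤ a / 2 by omega)
    rcases Nat.lt_or_ge a (2 * i) with c | c
    · have c' : z < 2 * i := by omega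
      have := hL c
      have := l2 c'
      have t3 := nB_mono x (show a / 2 ≤ i by omega)
      unfold Y at *
      omega
    · have := hR (by omega)
      have u1 := nB_mono x (show z / 2 ≤ (a - 1) / 2 by omega)
      rcases l3 with d | d
      · have := l2 d
        have t3 := nB_mono x (show i ≤ a / 2 by omega)
        have t4 := nG_mono x (show z / 2 ≤ i by omega)
        have t5 : i ≤ (a - 1) / 2 → nB x i ≤ nB x ((a - 1) / 2) := fun h => nB_mono x h
        unfold Y at *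
        omega
      · have := l1 d
        have t3 := nB_mono x (show i ≤ z / 2 by omega)
        have t4 := nG_mono x (show i ≤ z / 2 by omega)
        unfold Y at *
        omega

/-- the bounds `b1`, `bu` -/
theorem hR_b1 (hs : s ≤ 2 * Y x i) {a : ℕ} (a1 : 1 ≤ a) (a2 : a < 2 * m) (a3 : ld a)
    (a5 : a ≠ 2 * i) (a4 : a % 2 = 0 ↔ x a) :
    (hwR W i1 i2 hl ha).hx.J a + 1 ≤ m + (hwR W i1 i2 hl ha).hx.P ∧
    (hwR W i1 i2 hl ha).hx.J a ≤ m + (hwR W i1 i2 hl ha).hx.J (2 * i) +
      (hwR W i1 i2 hl ha).hx.Q + 1 := by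
  obtain ⟨g1, g2, g3, g4, g5, g6, g7, g8, g9⟩ := hR_glob W i1 i2 hl ha
  obtain ⟨r1, r2, r3, r4⟩ := around x a1 (W.dif a a1 a2 a3)
  have hJu := hR_Ju W i1 i2 hl ha
  have ra := W.ld_rng a1 a2 a3
  have fb := nB_mono x (show 1 ≤ a / 2 by omega)
  have m1 := nG_mono x (show a / 2 ≤ m by omega)
  have m3 := nB_mono x (show a / 2 ≤ m - 1 by omega)
  have m5 := nR_mono x (show a / 2 ≤ m by omega)
  have m6 := nG_mono x (show a / 2 + 1 ≤ m by omega)
  have m7 := nR_mono x (show a / 2 + 1 ≤ m by omega)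
  rcases Nat.lt_or_ge a (2 * i) with c | c
  · obtain ⟨k1, k2, k3⟩ := hR_JL W i1 i2 hl ha a1 c a3
    rcases Nat.mod_two_eq_zero_or_one a with o | o
    · have b : x a := a4.1 o
      have := k1 o b
      unfold Y at *
      omega
    · have b : ¬ x a := fun h => by have := a4.2 h; omega
      have := k2 o
      have := r4 o b
      unfold Y at *
      omega
  · have c' : 2 * i < a := by omega
    obtain ⟨k1, k2, k3⟩ := hR_JR W i1 i2 hl ha c' a2 a3
    rcases Nat.mod_two_eq_zero_or_one a with o | o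
    · have b : x a := a4.1 o
      have := k3 o b
      have := r2 o b
      have t3 := nB_mono x (show 1 ≤ (a - 1) / 2 by omega)
      unfold Y at *
      omega
    · have b : ¬ x a := fun h => by have := a4.2 h; omega
      have := k2 o
      have := r4 o b
      unfold Y at *
      omega

end

/-- **Two high edges at `2 i`.** -/
theorem hh_mid (W : GW m ld al x s) {i n2 : ℕ} (i1 : 1 ≤ i) (i2 : i < m) (hl : ld (2 * i))
    (ha : ¬ al (2 * i)) (hs : s ≤ 2 * Y x i)
    (hA : ∀ t, 1 ≤ t → t < m → s ≤ Y x i + n2 + Y x t ∧ Y x t ≤ Y x i + n2) :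
    ∃ C : HW (2 * m) (2 * i) m ld al (xR x (2 * i)), HXW C.hx (2 * m) n2 0 := by
  refine ⟨hwR W i1 i2 hl ha, ?_⟩
  have hh : (hwR W i1 i2 hl ha).hx.h = m := rfl
  obtain ⟨g1, g2, g3, g4, g5, g6, g7, g8, g9⟩ := hR_glob W i1 i2 hl ha
  have hm := pcnt x m
  have hYi : Y x i = (nG x i : ℤ) - nB x i := rfl
  -- lower bound for all loaded vertices
  have A : ∀ v, 1 ≤ v → v < 2 * m → v ≠ 2 * i → ld v →
      m ≤ (hwR W i1 i2 hl ha).hx.J v + n2 := by
    intro v v1 v2 v4 v3
    obtain ⟨l1, l2, l3⟩ := hR_lb W i1 i2 hl ha v1 v2 v3 v4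
    have rv := W.ld_rng v1 v2 v3
    have := hA (v / 2) (by omega) (by omega)
    rcases l3 with c | c
    · have := l2 c
      omega
    · have := l1 c
      omega
  have hau : ∀ a, al a → a ≠ 2 * i := by
    rintro a h rfl
    exact ha h
  have kd := fun {v : ℕ} => hR_kd W i1 i2 hl ha (v := v)
  refine
    { M1 := by omega
      M2 := by omega
      MC := fun v v1 v2 v3 v4 => (hwR W i1 i2 hl ha).hx.MC_max v v1 v2 v3 v4
      a1 := fun a a1 a2 a3 => ?_
      b1 := fun a a1 a2 a3 a4 => ?_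
      n1 := fun z z1 z2 z5 z3 _ => ?_
      t1 := fun z z1 z2 z5 z3 _ => ?_
      t2 := fun z z1 z2 z5 z3 z4 => ?_
      bu := fun a a1 a2 a3 a4 => ?_
      bb := fun a z a1 a2 z1 z2 z5 a3 a4 z3 z4 => ?_
      sh := fun a z a1 a2 z1 z2 z5 a3 a4 z3 z4 => ?_
      gg := fun a z a1 a2 z1 z2 z5 a3 a4 z3 z4 _ => ?_
      gb := fun a z a1 a2 z1 z2 z5 a3 a4 z3 z4 _ T hT => ?_
      lt := ?_
      two := ?_ }
  · have := A a a1 a2 (hau a a3) (W.ald a a3)
    omega
  · have := (hR_b1 W i1 i2 hl ha hs a1 a2 (W.ald a a3) (hau a a3)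
      ((kd a1 a2 (W.ald a a3) (hau a a3)).1 a4)).1
    omega
  · have := A z z1 z2 z5 z3
    omega
  · have := A z z1 z2 z5 z3
    omega
  · obtain ⟨l1, l2, l3⟩ := hR_lb W i1 i2 hl ha z1 z2 z3 z5
    have rz := W.ld_rng z1 z2 z3
    have t1 := nB_mono x (show z / 2 ≤ m by omega)
    have t2 := nG_mono x (show z / 2 ≤ m by omega)
    rcases l3 with c | c
    · have := l2 c
      unfold Y at *
      omega
    · have := l1 c
      unfold Y at *
      omega
  · have := (hR_b1 W i1 i2 hl ha hs a1 a2 (W.ald a a3) (hau a a3)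
      ((kd a1 a2 (W.ald a a3) (hau a a3)).1 a4)).2
    omega
  · have := hR_DB W i1 i2 hl ha hs a1 a2 (W.ald a a3) (hau a a3)
      ((kd a1 a2 (W.ald a a3) (hau a a3)).1 a4) z1 z2 z3 z5
    exact ⟨Or.inl this.1, fun _ => this.2⟩
  · have := hR_DB W i1 i2 hl ha hs a1 a2 (W.ald a a3) (hau a a3)
      ((kd a1 a2 (W.ald a a3) (hau a a3)).1 a4) z1 z2 z3 z5
    omega
  · exact hR_DG W i1 i2 hl ha hs a1 a2 (W.ald a a3) (hau a a3)
      (fun h => a4 ((kd a1 a2 (W.ald a a3) (hau a a3)).2 h)) z1 z2 z3 z5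
  · have h0 : T.card = 0 := by
      rw [Finset.card_eq_zero, Finset.eq_empty_iff_forall_notMem]
      intro v hv
      obtain ⟨v1, v2, _, v5, v3, _, v4⟩ := hT v hv
      have := A v v1 v2 v5 v3
      omega
    rw [h0]
    exact hR_DG W i1 i2 hl ha hs a1 a2 (W.ald a a3) (hau a a3)
      (fun h => a4 ((kd a1 a2 (W.ald a a3) (hau a a3)).2 h)) z1 z2 z3 z5
  · by_cases h : (hwR W i1 i2 hl ha).hx.P ≤ (hwR W i1 i2 hl ha).hx.Q
    · exact Or.inl h
    · refine Or.inr fun a z a1 a2 z1 z2 z5 a3 a4 z3 z4 => ?_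
      have := hR_DG W i1 i2 hl ha hs a1 a2 (W.ald a a3) (hau a a3)
        (fun h => a4 ((kd a1 a2 (W.ald a a3) (hau a a3)).2 h)) z1 z2 z3 z5
      omega
  · left
    omega

end Pool.Agent.Lob89.Gg
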