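import Pool.Agent.Lob12.GgH1

/-!
# Both ends good: two high edges before the first passage, natural colours

`Ps m x y j`: the pair `j + 1` is the first passage from `y` to `y + 1`; the vertex `2 j` is loaded and not marked.
-/

namespace Pool.Agent.Lob89.Gg

open Pool.Agent.Lob12 Pool.Agent.Lob5 Pool.Agent.Lob89

variable {m : ℕ} {ld al x : ℕ → Prop} {s y : ℤ} {j : ℕ}

/-- the counts of the negative colouring -/
theorem neg_cnt (x : ℕ → Prop) (t : ℕ) :
    bo (fun e => ¬ x e) t = go x t ∧ go (fun e => ¬ x e) t = bo x t ∧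
      bv (fun e => ¬ x e) t = gv x t ∧ gv (fun e => ¬ x e) t = bv x t := by
  unfold bo go bv gv
  refine ⟨rfl, cn_congr fun y y1 y2 => ?_, rfl, cn_congr fun y y1 y2 => ?_⟩
  · rw [not_not]
  · rw [not_not]

theorem neg_fl (x : ℕ → Prop) (t : ℕ) : fl (fun e => ¬ x e) t = -(t % 2 : ℕ) - fl x t := by
  have h1 := neg_cnt x t
  have h2 := odd_add x t
  have h3 := even_add x t
  unfold fl at *
  omega

/-- the word -/
theorem hwN (W : GW m ld al x s) (p : Ps m x y j) (hl : ld (2 * j)) (ha : ¬ al (2 * j)) :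
    HW (2 * m) (2 * j) m ld al (fun t => ¬ x t) := by
  obtain ⟨r1, r2⟩ := p.rng W
  refine
    { hK := rfl
      u0 := by omega
      u1 := by omega
      uK := by omega
      uN := hl
      ua := ha
      al_ld := W.ald
      same := fun v v1 v2 v3 => not_congr (W.same v v1 v2 v3)
      dif1 := fun v v1 v2 v3 v4 v5 => by
        have := W.dif v v1 v2 v4
        tauto
      dif2 := fun v v1 v2 v3 v5 => by
        have := W.dif v v1 v2 (W.ald v v3)
        tauto }

section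

variable (W : GW m ld al x s) (p : Ps m x y j) (hl : ld (2 * j)) (ha : ¬ al (2 * j))

/-- the number of bad high edges -/
theorem hN_Q : ((hwN W p hl ha).hx.Q : ℤ) = nG x m + nR x m - nR x j + nP x j := by
  have h0 := (hwN W p hl ha).Q_eq
  change _ + bo (fun t => ¬ x t) (2 * j) = bo (fun t => ¬ x t) (2 * m) +
    bv (fun t => ¬ x t) (2 * j) at h0
  have h1 := neg_cnt x (2 * j)
  have h2 := neg_cnt x (2 * m)
  have h3 := pcnt x j
  have h4 := pcnt x m
  omega

/-- the number of bad low edges -/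
theorem hN_P : ((hwN W p hl ha).hx.P : ℤ) = nG x m + nP x m - nP x j + nR x j := by
  have h0 := (hwN W p hl ha).P_eq
  change _ + bv (fun t => ¬ x t) (2 * j) = bv (fun t => ¬ x t) (2 * m) +
    bo (fun t => ¬ x t) (2 * j) at h0
  have h1 := neg_cnt x (2 * j)
  have h2 := neg_cnt x (2 * m)
  have h3 := pcnt x j
  have h4 := pcnt x m
  omega

/-- the sum of ranks at a vertex of the right part -/
theorem hN_JR {v : ℕ} (h1 : 2 * j < v) (h2 : v < 2 * m) (h3 : ld v) :
    (v % 2 = 0 → x v → ((hwN W p hl ha).hx.J v : ℤ) = m + s + y - Y x (v / 2)) ∧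
    (v % 2 = 1 → ((hwN W p hl ha).hx.J v : ℤ) = m + s + y - Y x (v / 2) + 1) ∧
    (v % 2 = 0 → ¬ x v → ((hwN W p hl ha).hx.J v : ℤ) = m + s + y - Y x (v / 2) + 2) := by
  have hd := W.dif v (by omega) h2 h3
  have hp : v - 2 * j = psR (2 * m) (2 * j) v := by
    unfold psR
    rw [if_pos h1]
  obtain ⟨_, _, j3, j4⟩ := (hwN W p hl ha).J_lam (by omega) h2 (by omega) hp
  have hw := wkH1 (K := 2 * m) (u := 2 * j) (bad := fun t => ¬ x t) (x := v - 2 * j) (by omega)
  rw [show v - 2 * j + 2 * j = v by omega, wk_fl (fun t => ¬ x t) v,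
    wk_fl (fun t => ¬ x t) (2 * j), neg_fl, neg_fl, fl_Y, p.Yj] at hw
  rw [hw] at j3 j4
  have hP := hN_P W p hl ha
  have hQ := hN_Q W p hl ha
  have ht := W.tot
  have hm := pcnt x m
  unfold Y at ht
  obtain ⟨f1, f2, f3⟩ := fl_v (x := x) v
  have hb : ¬ x v → x (v + 1) := fun a => by
    by_contra hh
    exact a (hd.2 hh)
  refine ⟨fun o a => ?_, fun o => ?_, fun o a => ?_⟩
  · have h5 := j3 (not_not.2 a) (hd.1 a)
    have := f3 o
    omega
  · by_cases a : x v
    · have h5 := j3 (not_not.2 a) (hd.1 a)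
      have := f1 o a
      omega
    · have h5 := j4 a (not_not.2 (hb a))
      have := f2 o a
      omega
  · have h5 := j4 a (not_not.2 (hb a))
    have := f3 o
    omega

/-- the sum of ranks at a vertex of the left part -/
theorem hN_JL {v : ℕ} (h0 : 1 ≤ v) (h1 : v < 2 * j) (h3 : ld v) :
    (v % 2 = 0 → x v → ((hwN W p hl ha).hx.J v : ℤ) = m + y - Y x (v / 2)) ∧
    (v % 2 = 1 → ((hwN W p hl ha).hx.J v : ℤ) = m + y - Y x (v / 2) + 1) ∧
    (v % 2 = 0 → ¬ x v → ((hwN W p hl ha).hx.J v : ℤ) = m + y - Y x (v / 2) + 2) := by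
  obtain ⟨r1, r2⟩ := p.rng W
  have hd := W.dif v h0 (by omega) h3
  have hp : 2 * m - 2 * j + v = psR (2 * m) (2 * j) v := by
    unfold psR
    rw [if_neg (by omega)]
  obtain ⟨_, _, j3, j4⟩ := (hwN W p hl ha).J_lam h0 (by omega) (by omega) hp
  have hw := wkH2 (K := 2 * m) (u := 2 * j) (bad := fun t => ¬ x t) (y := v) (by omega) h1.le
  rw [wk_fl (fun t => ¬ x t) v, wk_fl (fun t => ¬ x t) (2 * j), wk_fl (fun t => ¬ x t) (2 * m),
    neg_fl, neg_fl, neg_fl, fl_Y, fl_Y, p.Yj, W.tot] at hw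
  rw [hw] at j3 j4
  have hP := hN_P W p hl ha
  have hQ := hN_Q W p hl ha
  have ht := W.tot
  have hm := pcnt x m
  unfold Y at ht
  obtain ⟨f1, f2, f3⟩ := fl_v (x := x) v
  have hb : ¬ x v → x (v + 1) := fun a => by
    by_contra hh
    exact a (hd.2 hh)
  refine ⟨fun o a => ?_, fun o => ?_, fun o a => ?_⟩
  · have h5 := j3 (not_not.2 a) (hd.1 a)
    have := f3 o
    omega
  · by_cases a : x v
    · have h5 := j3 (not_not.2 a) (hd.1 a)
      have := f1 o a
      omega
    · have h5 := j4 a (not_not.2 (hb a))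
      have := f2 o a
      omega
  · have h5 := j4 a (not_not.2 (hb a))
    have := f3 o
    omega

/-- the kind of a loaded vertex -/
theorem hN_kd {v : ℕ} (h1 : 1 ≤ v) (h2 : v < 2 * m) (h3 : ld v) :
    (2 * j < v → ((hwN W p hl ha).hx.bad (lo (2 * j) v) ↔ (v % 2 = 0 ↔ ¬ x v))) ∧
    (v < 2 * j → ((hwN W p hl ha).hx.bad (lo (2 * j) v) ↔ (v % 2 = 0 ↔ x v))) := by
  have hb : (hwN W p hl ha).hx.bad = fun t => ¬ x t := rfl
  have hd := W.dif v h1 h2 h3
  rw [hb]
  unfold lo oe ee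
  rcases Nat.mod_two_eq_zero_or_one v with o | o
  · have o' : ¬ v % 2 = 1 := by omega
    constructor
    · intro c
      rw [if_neg (by omega), if_neg o']
      tauto
    · intro c
      rw [if_pos c, if_neg o']
      tauto
  · have o' : ¬ v % 2 = 0 := by omega
    constructor
    · intro c
      rw [if_neg (by omega), if_pos o]
      tauto
    · intro c
      rw [if_pos c, if_pos o]
      tauto

include W p hl in
omit W in
/-- the pair `j` is good bad -/
theorem hN_pair (W : GW m ld al x s) : x (2 * j) ∧ ¬ x (2 * j - 1) ∧ 1 ≤ nR x j := by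
  obtain ⟨r1, r2⟩ := p.rng W
  have h1 : x (2 * j) := (W.dif (2 * j) (by omega) (by omega) hl).2 p.gg.1
  have h2 := p.le (j - 1) (by omega)
  have h3 := p.Yj
  obtain ⟨i, rfl⟩ : ∃ i, j = i + 1 := ⟨j - 1, by omega⟩
  rw [Nat.add_sub_cancel] at h2
  rw [show 2 * (i + 1) = 2 * i + 2 by omega] at h1 ⊢
  rw [show 2 * i + 2 - 1 = 2 * i + 1 by omega]
  obtain ⟨p1, p2, p3, p4⟩ := pstep x i
  have h4 : ¬ x (2 * i + 1) := by
    intro h
    have := p1 h h1
    unfold Y at h2 h3
    omega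
  have := p4 h4 h1
  exact ⟨h1, h4, by omega⟩

/-- lower bounds of the sums -/
theorem hN_lb {z : ℕ} (h1 : 1 ≤ z) (h2 : z < 2 * m) (h3 : ld z) (h4 : z ≠ 2 * j) :
    (2 * j < z → (m : ℤ) + s + y - Y x (z / 2) ≤ ((hwN W p hl ha).hx.J z : ℤ)) ∧
    (z < 2 * j → (m : ℤ) + y - Y x (z / 2) ≤ ((hwN W p hl ha).hx.J z : ℤ)) ∧
    (z < 2 * j ∨ 2 * j < z) := by
  refine ⟨fun c => ?_, fun c => ?_, by omega⟩
  · obtain ⟨b1, b2, b3⟩ := hN_JR W p hl ha c h2 h3
    rcases Nat.mod_two_eq_zero_or_one z with o | o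
    · by_cases a : x z
      · have := b1 o a
        omega
      · have := b3 o a
        omega
    · have := b2 o
      omega
  · obtain ⟨b1, b2, b3⟩ := hN_JL W p hl ha h1 c h3
    rcases Nat.mod_two_eq_zero_or_one z with o | o
    · by_cases a : x z
      · have := b1 o a
        omega
      · have := b3 o a
        omega
    · have := b2 o
      omega

/-- the global facts -/
theorem hN_glob : 1 ≤ j ∧ j + 2 ≤ m ∧ nB x 1 = 1 ∧ nB x m = nB x (m - 1) + 1 ∧
    (nG x m : ℤ) - nB x m = s ∧ 1 ≤ s ∧ 1 ≤ nB x j ∧ (nG x j : ℤ) - nB x j = y ∧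
    nG x (j + 1) = nG x j + 1 ∧ nB x j ≤ nB x (m - 1) ∧
    ((hwN W p hl ha).hx.Q : ℤ) = nG x m + nR x m - nR x j + nP x j ∧
    ((hwN W p hl ha).hx.P : ℤ) = nG x m + nP x m - nP x j + nR x j ∧ 1 ≤ nR x j ∧
    nB x m + nG x m + nP x m + nR x m = m := by
  obtain ⟨r1, r2⟩ := p.rng W
  have h1 := W.first
  have h2 := W.last
  have h4 := W.tot
  have h5 := p.Yj
  have h6 := p.cnt
  have h7 := (hN_pair p hl W).2.2
  have h8 := hN_Q W p hl ha
  have h9 := hN_P W p hl ha
  have h11 := nB_mono x r1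
  have h12 := nB_mono x (show j ≤ m - 1 by omega)
  have h13 := pcnt x m
  unfold Y at h4 h5
  exact ⟨r1, r2, h1.1, h2.1, h4, W.s1, by omega, h5, h6.2.1, h12, h8, h9, h7, by omega⟩

/-- no vertex without a bush has the maximal sum of ranks -/
theorem hN_MC {v : ℕ} (h1 : 1 ≤ v) (h2 : v < 2 * m) (h3 : ¬ ld v) (h4 : x v) :
    (hwN W p hl ha).hx.J v ≤ 2 * m - 1 := by
  obtain ⟨r1, r2⟩ := p.rng W
  obtain ⟨q1, q2, _⟩ := hN_pair p hl W
  have hs := W.same v h1 h2 h3
  have h5 : v ≠ 2 * j := by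
    rintro rfl
    exact h3 hl
  have h6 : v + 1 ≠ 2 * j := by
    intro h
    apply q2
    rw [← h, Nat.add_sub_cancel]
    exact h4
  have hu : (hwN W p hl ha).hx.rk (2 * j) = m := (hwN W p hl ha).rk_u.1 (not_not.2 q1)
  have hh : (hwN W p hl ha).hx.h = m := rfl
  have ll := lo_rng (u := 2 * j) h1 h2
  have hhi := hi_rng (u := 2 * j) h1 h2
  have bl : ¬ (hwN W p hl ha).hx.bad (lo (2 * j) v) := by
    change ¬ ¬ x _
    rw [not_not]
    unfold lo oe ee
    split_ifs
    · exact h4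
    · exact hs.1 h4
    · exact hs.1 h4
    · exact h4
  have bh' : ¬ (hwN W p hl ha).hx.bad (hi (2 * j) v) := by
    change ¬ ¬ x _
    rw [not_not]
    unfold hi oe ee
    split_ifs
    · exact hs.1 h4
    · exact h4
    · exact h4
    · exact hs.1 h4
  have l1 := (hwN W p hl ha).hx.rk_lg _ ll.1 ll.2 (lo_lw h5) bl
  have l2 := (hwN W p hl ha).hx.rk_hg _ hhi.1 hhi.2 (hi_lw h5) bh'
  have l3 : (hwN W p hl ha).hx.rk (hi (2 * j) v) ≠ m := by
    intro h
    have h7 : ¬ lw (2 * j) (2 * j) := by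
      unfold lw
      omega
    have h8 := (hwN W p hl ha).hx.rk_inj _ (2 * j) hhi.1 hhi.2 (by omega) (by omega)
      (iff_of_false (hi_lw h5) h7) (h.trans hu.symm)
    unfold hi oe ee at h8
    split_ifs at h8 <;> omega
  have h9 : (hwN W p hl ha).hx.J v =
      (hwN W p hl ha).hx.rk (lo (2 * j) v) + (hwN W p hl ha).hx.rk (hi (2 * j) v) := by
    unfold HX.J lo hi oe ee
    split_ifs
    · rfl
    · exact add_comm _ _
    · exact add_comm _ _
    · rfl
  omega

end

end Pool.Agent.Lob89.Gg
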