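import Pool.Agent.Lob12.GgH3

/-!
# Both ends good, two high edges before the first passage: comparison of the sums, the conditions
-/

namespace Pool.Agent.Lob89.Gg

open Pool.Agent.Lob12 Pool.Agent.Lob5 Pool.Agent.Lob89

variable {m : ℕ} {ld al x : ℕ → Prop} {s y : ℤ} {j : ℕ}

section

variable (W : GW m ld al x s) (p : Ps m x y j) (hl : ld (2 * j)) (ha : ¬ al (2 * j))

/-- Comparison, good kind. -/
theorem hN_DG (hV : nG x j + 2 ≤ nG x m) {a z : ℕ} (a1 : 1 ≤ a) (a2 : a < 2 * m) (a3 : ld a)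
    (a5 : a ≠ 2 * j) (a4 : ¬ (hwN W p hl ha).hx.bad (lo (2 * j) a)) (z1 : 1 ≤ z) (z2 : z < 2 * m)
    (z3 : ld z) (z4 : z ≠ 2 * j) :
    (hwN W p hl ha).hx.J a ≤ (hwN W p hl ha).hx.J z + (hwN W p hl ha).hx.Q := by
  obtain ⟨i1, i2, g1, g2, g3, g4, g5, g6, g7, g8, g9, _⟩ := hN_glob W p hl ha
  obtain ⟨l1, l2, l3⟩ := hN_lb W p hl ha z1 z2 z3 z4
  obtain ⟨r1, r2, r3, r4⟩ := around x a1 (W.dif a a1 a2 a3)
  obtain ⟨kd1, kd2⟩ := hN_kd W p hl ha a1 a2 a3
  have ra := W.ld_rng a1 a2 a3
  have rz := W.ld_rng z1 z2 z3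
  have haz : a = z ∨ a < z ∨ z < a := by omega
  have fb := nB_mono x (show 1 ≤ a / 2 by omega)
  have fz := nB_mono x (show 1 ≤ z / 2 by omega)
  have m1 := nG_mono x (show a / 2 ≤ m by omega)
  have m2 := nG_mono x (show z / 2 ≤ m by omega)
  have m3 := nB_mono x (show a / 2 ≤ m - 1 by omega)
  have m4 := nB_mono x (show z / 2 ≤ m - 1 by omega)
  have m5 := nR_mono x (show j ≤ m by omega)
  -- the values at `a`
  have hR : 2 * j < a → ((hwN W p hl ha).hx.J a : ℤ) ≤ m + s + y - Y x (a / 2) +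
      (nR x m - nR x j) := by
    intro c
    obtain ⟨k1, k2, k3⟩ := hN_JR W p hl ha c a2 a3
    have m6 := nR_mono x (show a / 2 + 1 ≤ m by omega)
    have m7 := nR_mono x (show j ≤ a / 2 by omega)
    rcases Nat.mod_two_eq_zero_or_one a with o | o
    · have b : x a := by
        by_contra h
        exact a4 ((kd1 c).2 (iff_of_true o h))
      have := k1 o b
      omega
    · have b : ¬ x a := fun h =>
        a4 ((kd1 c).2 (iff_of_false (by omega) (not_not.2 h)))
      have := k2 o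
      have := r4 o b
      omega
  have hL : a < 2 * j → ((hwN W p hl ha).hx.J a : ℤ) ≤ m + y - Y x ((a - 1) / 2) + 1 +
      nP x j := by
    intro c
    obtain ⟨k1, k2, k3⟩ := hN_JL W p hl ha a1 c a3
    rcases Nat.mod_two_eq_zero_or_one a with o | o
    · have b : ¬ x a := fun h => a4 ((kd2 c).2 (iff_of_true o h))
      have := k3 o b
      have := (r1 o b).1
      have m6 := nP_mono x (show a / 2 ≤ j by omega)
      unfold Y at *
      omega
    · have b : x a := by
        by_contra h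
        exact a4 ((kd2 c).2 (iff_of_false (by omega) h))
      have := k2 o
      obtain ⟨e, _, _, _, _⟩ := r3 o b
      have m6 := nP_mono x (show a / 2 + 1 ≤ j by omega)
      rw [e]
      unfold Y at *
      omega
  rcases haz with rfl | haz | haz
  · omega
  · -- `a` before `z`
    have t1 := nB_mono x (show a / 2 ≤ z / 2 by omega)
    have t2 := nG_mono x (show a / 2 ≤ z / 2 by omega)
    have u1 := nB_mono x (show (a - 1) / 2 ≤ z / 2 by omega)
    have u2 := nG_mono x (show (a - 1) / 2 ≤ z / 2 by omega)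
    rcases Nat.lt_or_ge a (2 * j) with c | c
    · have := hL c
      rcases l3 with d | d
      · have := l2 d
        have t3 := nG_mono x (show z / 2 ≤ j by omega)
        unfold Y at *
        omega
      · have := l1 d
        unfold Y at *
        omega
    · have := hR (by omega)
      have := l1 (by omega)
      unfold Y at *
      omega
  · -- `z` before `a`
    have t1 := nB_mono x (show z / 2 ≤ a / 2 by omega)
    have t2 := nG_mono x (show z / 2 ≤ a / 2 by omega)
    have u1 := nB_mono x (show z / 2 ≤ (a - 1) / 2 by omega)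
    have u2 := nG_mono x (show z / 2 ≤ (a - 1) / 2 by omega)
    have u3 := nB_mono x (show (a - 1) / 2 ≤ m - 1 by omega)
    rcases Nat.lt_or_ge a (2 * j) with c | c
    · have := hL c
      have := l2 (by omega)
      unfold Y at *
      omega
    · have := hR (by omega)
      rcases l3 with d | d
      · have := l2 d
        unfold Y at *
        omega
      · have := l1 d
        unfold Y at *
        omega

/-- the values at a vertex of bad kind -/
theorem hN_B {a : ℕ} (a1 : 1 ≤ a) (a2 : a < 2 * m) (a3 : ld a) (a5 : a ≠ 2 * j)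
    (a4 : (hwN W p hl ha).hx.bad (lo (2 * j) a)) :
    (2 * j < a → ((hwN W p hl ha).hx.J a : ℤ) ≤ m + s + y - Y x (a / 2 + 1) + 1 +
        (nP x m - nP x j) ∧
      ((hwN W p hl ha).hx.J a : ℤ) ≤ m + s + y - Y x (a / 2 + 1) + 2) ∧
    (a < 2 * j → ((hwN W p hl ha).hx.J a : ℤ) ≤ m + y - Y x (a / 2) + 1) := by
  obtain ⟨r1, r2, r3, r4⟩ := around x a1 (W.dif a a1 a2 a3)
  obtain ⟨kd1, kd2⟩ := hN_kd W p hl ha a1 a2 a3
  have ra := W.ld_rng a1 a2 a3
  constructor
  · intro c
    obtain ⟨k1, k2, k3⟩ := hN_JR W p hl ha c a2 a3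
    have m6 := nP_mono x (show a / 2 + 1 ≤ m by omega)
    have m7 := nP_mono x (show j ≤ a / 2 by omega)
    have m8 := nB_mono x (show a / 2 ≤ a / 2 + 1 by omega)
    rcases Nat.mod_two_eq_zero_or_one a with o | o
    · have b : ¬ x a := ((kd1 c).1 a4).1 o
      have := k3 o b
      have := (r1 o b).2
      unfold Y at *
      omega
    · have b : x a := by
        by_contra h
        have := ((kd1 c).1 a4).2 h
        omega
      have := k2 o
      have := r3 o b
      unfold Y at *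
      omega
  · intro c
    obtain ⟨k1, k2, k3⟩ := hN_JL W p hl ha a1 c a3
    rcases Nat.mod_two_eq_zero_or_one a with o | o
    · have b : x a := ((kd2 c).1 a4).1 o
      have := k1 o b
      omega
    · have := k2 o
      omega

/-- Comparison, bad kind. -/
theorem hN_DB (hV : nG x j + 2 ≤ nG x m) {a z : ℕ} (a1 : 1 ≤ a) (a2 : a < 2 * m) (a3 : ld a)
    (a5 : a ≠ 2 * j) (a4 : (hwN W p hl ha).hx.bad (lo (2 * j) a)) (z1 : 1 ≤ z) (z2 : z < 2 * m)
    (z3 : ld z) (z4 : z ≠ 2 * j) :
    (hwN W p hl ha).hx.J a ≤ (hwN W p hl ha).hx.J z + (hwN W p hl ha).hx.Q + 1 ∧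
    (hwN W p hl ha).hx.J a ≤ (hwN W p hl ha).hx.J z + (hwN W p hl ha).hx.P := by
  obtain ⟨i1, i2, g1, g2, g3, g4, g5, g6, g7, g8, g9, g10, g11, _⟩ := hN_glob W p hl ha
  obtain ⟨l1, l2, l3⟩ := hN_lb W p hl ha z1 z2 z3 z4
  obtain ⟨hR, hL⟩ := hN_B W p hl ha a1 a2 a3 a5 a4
  have ra := W.ld_rng a1 a2 a3
  have rz := W.ld_rng z1 z2 z3
  have haz : a = z ∨ a < z ∨ z < a := by omega
  have fb := nB_mono x (show 1 ≤ a / 2 by omega)
  have fz := nB_mono x (show 1 ≤ z / 2 by omega)
  have m1 := nG_mono x (show a / 2 ≤ m by omega)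
  have m2 := nG_mono x (show z / 2 ≤ m by omega)
  have m3 := nB_mono x (show a / 2 ≤ m - 1 by omega)
  have m4 := nB_mono x (show z / 2 ≤ m - 1 by omega)
  have m5 := nR_mono x (show j ≤ m by omega)
  have m6 := nP_mono x (show j ≤ m by omega)
  have m7 := nB_mono x (show a / 2 + 1 ≤ m by omega)
  rcases haz with rfl | haz | haz
  · omega
  · -- `a` before `z`
    have t1 := nB_mono x (show a / 2 ≤ z / 2 by omega)
    have t2 := nG_mono x (show a / 2 ≤ z / 2 by omega)
    rcases Nat.lt_or_ge a (2 * j) with c | c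
    · have := hL c
      rcases l3 with d | d
      · have := l2 d
        have t3 := nG_mono x (show z / 2 ≤ j by omega)
        unfold Y at *
        omega
      · have := l1 d
        unfold Y at *
        omega
    · have := hR (by omega)
      have := l1 (by omega)
      have t4 := nG_mono x (show j + 1 ≤ a / 2 + 1 by omega)
      rcases Nat.lt_or_ge (z / 2) (a / 2 + 1) with d | d
      · have u1 := nB_mono x (show z / 2 ≤ a / 2 by omega)
        have u2 := nG_mono x (show z / 2 ≤ a / 2 + 1 by omega)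
        have u3 := Y_step x (a / 2)
        unfold Y at *
        omega
      · have u1 := nB_mono x d
        have u2 := nG_mono x d
        unfold Y at *
        omega
  · -- `z` before `a`
    have t1 := nB_mono x (show z / 2 ≤ a / 2 by omega)
    have t2 := nG_mono x (show z / 2 ≤ a / 2 by omega)
    have t3 := nB_mono x (show z / 2 ≤ a / 2 + 1 by omega)
    have t4 := nG_mono x (show z / 2 ≤ a / 2 + 1 by omega)
    rcases Nat.lt_or_ge a (2 * j) with c | c
    · have := hL c
      have := l2 (by omega)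
      unfold Y at *
      omega
    · have := hR (by omega)
      have t5 := nG_mono x (show j + 1 ≤ a / 2 + 1 by omega)
      rcases l3 with d | d
      · have := l2 d
        have t6 := nG_mono x (show z / 2 ≤ j by omega)
        unfold Y at *
        omega
      · have := l1 d
        unfold Y at *
        omega

/-- the bound `b1` -/
theorem hN_b1 (hV : nG x j + 2 ≤ nG x m) {a : ℕ} (a1 : 1 ≤ a) (a2 : a < 2 * m) (a3 : ld a)
    (a5 : a ≠ 2 * j) (a4 : (hwN W p hl ha).hx.bad (lo (2 * j) a)) :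
    (hwN W p hl ha).hx.J a + 1 ≤ m + (hwN W p hl ha).hx.P := by
  obtain ⟨i1, i2, g1, g2, g3, g4, g5, g6, g7, g8, g9, g10, g11, _⟩ := hN_glob W p hl ha
  obtain ⟨hR, hL⟩ := hN_B W p hl ha a1 a2 a3 a5 a4
  have ra := W.ld_rng a1 a2 a3
  have fb := nB_mono x (show 1 ≤ a / 2 by omega)
  have m5 := nP_mono x (show j ≤ m by omega)
  have m7 := nB_mono x (show a / 2 + 1 ≤ m by omega)
  rcases Nat.lt_or_ge a (2 * j) with c | c
  · have := hL c
    have t1 := nB_mono x (show a / 2 ≤ j by omega)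
    unfold Y at *
    omega
  · have := hR (by omega)
    have t1 := nG_mono x (show j + 1 ≤ a / 2 + 1 by omega)
    unfold Y at *
    omega

end

/-- **Two high edges at `2 j`, natural colours.** -/
theorem hh_nat (W : GW m ld al x s) (p : Ps m x y j) (h0 : 0 ≤ y) (hl : ld (2 * j))
    (ha : ¬ al (2 * j)) {n2 : ℕ} (hV : nG x j + n2 + 2 ≤ nG x m)
    (hA : ∀ t, 1 ≤ t → t < m → Y x t ≤ s + y + n2 + 1) :
    ∃ C : HW (2 * m) (2 * j) m ld al (fun t => ¬ x t), HXW C.hx (2 * m - 1) n2 0 := by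
  refine ⟨hwN W p hl ha, ?_⟩
  have hh : (hwN W p hl ha).hx.h = m := rfl
  obtain ⟨i1, i2, g1, g2, g3, g4, g5, g6, g7, g8, g9, g10, g11, g12⟩ := hN_glob W p hl ha
  have m5 := nR_mono x (show j ≤ m by omega)
  have m6 := nP_mono x (show j ≤ m by omega)
  have m7 := nB_mono x (show 1 ≤ m - 1 by omega)
  have A : ∀ v, 1 ≤ v → v < 2 * m → v ≠ 2 * j → ld v →
      2 * m - 1 ≤ (hwN W p hl ha).hx.J v + m + n2 := by
    intro v v1 v2 v4 v3
    obtain ⟨l1, l2, l3⟩ := hN_lb W p hl ha v1 v2 v3 v4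
    have rv := W.ld_rng v1 v2 v3
    rcases l3 with c | c
    · have := l2 c
      have := p.le (v / 2) (by omega)
      omega
    · have := l1 c
      have := hA (v / 2) (by omega) (by omega)
      omega
  have hau : ∀ a, al a → a ≠ 2 * j := by
    rintro a h rfl
    exact ha h
  have hP := (hwN W p hl ha).hx.Ph
  have hV' : nG x j + 2 ≤ nG x m := by omega
  refine
    { M1 := by omega
      M2 := by omega
      MC := fun v v1 v2 v3 v4 => hN_MC W p hl ha v1 v2 v3 (not_not.1 v4)
      a1 := fun a a1 a2 a3 => ?_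
      b1 := fun a a1 a2 a3 a4 => ?_
      n1 := fun z z1 z2 z5 z3 _ => ?_
      t1 := fun z z1 z2 z5 z3 _ => ?_
      t2 := fun z z1 z2 z5 z3 z4 => ?_
      bu := fun a a1 a2 a3 a4 => ?_
      bb := fun a z a1 a2 z1 z2 z5 a3 a4 z3 z4 => ?_
      sh := fun a z a1 a2 z1 z2 z5 a3 a4 z3 z4 => ?_
      gg := fun a z a1 a2 z1 z2 z5 a3 a4 z3 z4 _ => ?_
      gb := fun a z a1 a2 z1 z2 z5 a3 a4 z3 z4 _ T hT => ?_
      lt := ?_
      two := ?_ }
  · have := A a a1 a2 (hau a a3) (W.ald a a3)
    omega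
  · have := hN_b1 W p hl ha hV' a1 a2 (W.ald a a3) (hau a a3) a4
    omega
  · have := A z z1 z2 z5 z3
    omega
  · have := A z z1 z2 z5 z3
    omega
  · obtain ⟨l1, l2, l3⟩ := hN_lb W p hl ha z1 z2 z3 z5
    have rz := W.ld_rng z1 z2 z3
    have t1 := nB_mono x (show z / 2 ≤ m by omega)
    have t2 := nG_mono x (show z / 2 ≤ m by omega)
    rcases l3 with c | c
    · have := l2 c
      have := p.le (z / 2) (by omega)
      omega
    · have := l1 c
      have t3 := nB_mono x (show j ≤ z / 2 by omega)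
      unfold Y at *
      omega
  · have := hN_b1 W p hl ha hV' a1 a2 (W.ald a a3) (hau a a3) a4
    have hu : (hwN W p hl ha).hx.rk (2 * j) = m :=
      (hwN W p hl ha).rk_u.1 (not_not.2 (hN_pair p hl W).1)
    have hJ : (hwN W p hl ha).hx.J (2 * j) =
        (hwN W p hl ha).hx.rk (2 * j) + (hwN W p hl ha).hx.rk (2 * j + 1) := rfl
    omega
  · have := hN_DB W p hl ha hV' a1 a2 (W.ald a a3) (hau a a3) a4 z1 z2 z3 z5
    exact ⟨Or.inl this.1, fun _ => this.2⟩
  · have := hN_DB W p hl ha hV' a1 a2 (W.ald a a3) (hau a a3) a4 z1 z2 z3 z5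
    omega
  · exact hN_DG W p hl ha hV' a1 a2 (W.ald a a3) (hau a a3) a4 z1 z2 z3 z5
  · have h0 : T.card = 0 := by
      rw [Finset.card_eq_zero, Finset.eq_empty_iff_forall_notMem]
      intro v hv
      obtain ⟨v1, v2, _, v5, v3, _, v4⟩ := hT v hv
      have := A v v1 v2 v5 v3
      omega
    rw [h0]
    exact hN_DG W p hl ha hV' a1 a2 (W.ald a a3) (hau a a3) a4 z1 z2 z3 z5
  · by_cases h : (hwN W p hl ha).hx.P ≤ (hwN W p hl ha).hx.Q
    · exact Or.inl h
    · refine Or.inr fun a z a1 a2 z1 z2 z5 a3 a4 z3 z4 => ?_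
      have := hN_DG W p hl ha hV' a1 a2 (W.ald a a3) (hau a a3) a4 z1 z2 z3 z5
      omega
  · left
    omega

end Pool.Agent.Lob89.Gg
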