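import Pool.Agent.Lob12.PlanN2
import Pool.Agent.Lob5.PlanEx

/-!
# Bushes with `T` top which are not designated

`dl_card`: if the static vertices which carry a bush with exactly two leaves are in `T`, then at least `n2 - |T|`
bushes with `T` top are not designated.
-/

namespace Pool.Agent.Lob12

open Pool.Agent.Lob5 Pool.Agent.Lob89

variable {Lf B BL : Type*} [Fintype Lf] [Fintype B] [Fintype BL] [DecidableEq B]
  {D : PlanData Lf B BL} {k : ℕ} {la : Lf → ℕ} {ba : B → ℕ} {par : BL → B}

private theorem leaves_eq' (D : PlanData Lf B BL) (par : BL → B) (b : B) :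
    (Finset.univ.filter fun y => par y = b).card =
      D.cb par b .l + D.cb par b .x + D.cb par b .s + D.cb par b .s0 + D.cb par b .u +
        D.cb par b .v + D.cb par b .x0 := by
  classical
  have key : ∀ s : Finset BL, (s.filter fun y => par y = b).card =
      (s.filter fun y => par y = b ∧ D.rs y = .l).card +
      (s.filter fun y => par y = b ∧ D.rs y = .x).card +
      (s.filter fun y => par y = b ∧ D.rs y = .s).card +
      (s.filter fun y => par y = b ∧ D.rs y = .s0).card +
      (s.filter fun y => par y = b ∧ D.rs y = .u).card +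
      (s.filter fun y => par y = b ∧ D.rs y = .v).card +
      (s.filter fun y => par y = b ∧ D.rs y = .x0).card := by
    intro s
    induction s using Finset.induction_on with
    | empty => simp
    | insert a s ha ih =>
      by_cases h : par a = b
      · cases hr : D.rs a <;> simp [Finset.filter_insert, h, hr, ha] <;> omega
      · simp [Finset.filter_insert, h, ih]
  exact key Finset.univ

/-- a bush with exactly two leaves has the role `L` -/
theorem two_L (hD : PlanOK D k la ba par) {b : B}
    (hb : (Finset.univ.filter fun y => par y = b).card = 2) : (D.rb b).top = true := by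
  have h0 := leaves_eq' D par b
  have h1 := hD.s_l b
  have h2 := hD.s_x b
  have h3 := hD.s_u b
  have h4 := hD.s_v b
  have h5 := hD.s_s0 b
  have h6 := hD.s_x0 b
  have h7 := hD.s_s b
  have h8 := hD.s_st b
  cases hr : D.rb b <;>
    simp [hr, RB.hasl, RB.pr, RB.top] at h1 h3 h4 h5 h6 h7 h8 ⊢ <;> omega

theorem dl_card (hD : PlanOK D k la ba par) (T : Finset ℕ)
    (hT : ∀ b, (Finset.univ.filter fun y => par y = b).card = 2 →
      (D.rv (ba b)).isT = true → ba b ∈ T) :
    D.n2 ≤ (Finset.univ.filter fun b => (D.rb b).top = true ∧ D.ds b = false).card + T.card := by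
  classical
  rw [n2_card hD]
  have h1 : (Finset.univ.filter fun b : B =>
      (Finset.univ.filter fun y => par y = b).card = 2).card =
      ((Finset.univ.filter fun b : B =>
        (Finset.univ.filter fun y => par y = b).card = 2 ∧ D.ds b = false).card) +
      ((Finset.univ.filter fun b : B =>
        (Finset.univ.filter fun y => par y = b).card = 2 ∧ ¬ D.ds b = false).card) := by
    rw [← Finset.filter_filter, ← Finset.filter_filter, Finset.card_filter_add_card_filter_not]
  rw [h1]
  refine Nat.add_le_add (Finset.card_le_card ?_) ?_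
  · intro b hb
    rw [Finset.mem_filter] at hb ⊢
    exact ⟨hb.1, two_L hD hb.2.1, hb.2.2⟩
  · refine Finset.card_le_card_of_injOn ba ?_ ?_
    · intro b hb
      rw [Finset.mem_coe, Finset.mem_filter] at hb
      have h2 : D.ds b = true := by
        have := hb.2.2
        revert this
        cases D.ds b <;> simp
      exact hT b hb.2.1 (hD.dg_rv b h2)
    · intro b hb b' hb' hbb
      rw [Finset.mem_coe, Finset.mem_filter] at hb hb'
      have h2 : D.ds b = true := by
        have := hb.2.2
        revert this
        cases D.ds b <;> simp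
      have h3 : D.ds b' = true := by
        have := hb'.2.2
        revert this
        cases D.ds b' <;> simp
      have h4 := (hD.ds_dg b).1 h2
      have h5 := (hD.ds_dg b').1 h3
      rw [hbb, h5] at h4
      exact (Option.some.inj h4).symm

section

variable {K sp : ℕ}

theorem no_sp' (hS : PlanSp D K la ba par 0 0 sp 0) :
    ∀ i, 1 ≤ i → i < K → D.rv i ≠ .As ∧ D.rv i ≠ .Fs ∧ D.rv i ≠ .FR := by
  intro i h1 h2
  refine ⟨fun h => ?_, fun h => ?_, fun h => ?_⟩
  · exact (hS.As_q i h1 h2 (by omega) h).2.2 rfl
  · exact (hS.Fs_q i h1 h2 h).2.2.1 rfl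
  · exact absurd (hS.FR_q i h1 h2 h).2.2 (by decide)

/-- the roles of a plan without special vertex -/
theorem sp_roles (hS : PlanSp D K la ba par 0 0 sp 0) : ∀ i, 1 ≤ i → i < K →
    (D.rv i = .C → ¬ LD la ba i) ∧ ((D.rv i).isA = true → AL la ba par i) ∧
    ((D.rv i).isN = true → LD la ba i ∧ ¬ AL la ba par i) := by
  intro i h1 h2
  obtain ⟨n1, n2, n3⟩ := no_sp' hS i h1 h2
  have h3 := hS.ld_iff i h1 h2 (by omega)
  have h4 := hS.al_iff i h1 h2 (by omega)
  refine ⟨fun h h5 => h3.1 h5 h, fun h => h4.2 ?_, fun h => ⟨h3.2 ?_, fun h5 => ?_⟩⟩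
  · cases hr : D.rv i <;> rw [hr] at h <;>
      first | exact Or.inl rfl | exact Or.inr (Or.inl rfl) | exact absurd h (by decide)
  · intro h5
    rw [h5] at h
    exact absurd h (by decide)
  · rcases h4.1 h5 with h6 | h6 | h6 | h6 | h6 <;> rw [h6] at h <;>
      exact absurd h (by decide)

/-- the number of bushes with exactly two leaves -/
noncomputable def n2w (par : BL → B) : ℕ :=
  (Finset.univ.filter fun b : B => (Finset.univ.filter fun y => par y = b).card = 2).card

/-- `dl` bushes with `T` top are not designated -/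
def dlOK (la : Lf → ℕ) (ba : B → ℕ) (par : BL → B) (dl : ℕ) : Prop :=
  dl = 0 ∨ ∃ T : Finset ℕ, (∀ b, (Finset.univ.filter fun y => par y = b).card = 2 →
    ¬ AL la ba par (ba b) → ba b ∈ T) ∧ dl + T.card ≤ n2w par

/-- the slack `n2 - |T|` for a set `T` of vertices which contains all vertices with a bush with exactly two leaves
which are not marked -/
theorem dlOK_sub {la : Lf → ℕ} {ba : B → ℕ} {par : BL → B} (T : Finset ℕ)
    (hT : ∀ b, (Finset.univ.filter fun y => par y = b).card = 2 →
      ¬ AL la ba par (ba b) → ba b ∈ T) : dlOK la ba par (n2w par - T.card) := by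
  rcases Nat.lt_or_ge T.card (n2w par) with h | h
  · exact Or.inr ⟨T, hT, by omega⟩
  · exact Or.inl (by omega)

open Classical in
/-- the slack `n2 - N`, `N` the number of loaded vertices which are not marked -/
theorem dlOK_N {la : Lf → ℕ} {ba : B → ℕ} {par : BL → B} (hd : LobData K la ba par) :
    dlOK la ba par (n2w par - ((Finset.range K).filter fun i =>
      1 ≤ i ∧ LD la ba i ∧ ¬ AL la ba par i).card) := by
  refine dlOK_sub _ fun b _ hb => ?_
  rw [Finset.mem_filter, Finset.mem_range]
  have h1 := hd.ba_pos b
  have h2 := hd.ba_lt b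
  exact ⟨by omega, h1, Or.inr ⟨b, rfl⟩, hb⟩

/-- a static vertex is loaded and not marked -/
theorem isT_N (hD : PlanOK D K la ba par) (hS : PlanSp D K la ba par 0 0 sp 0) :
    ∀ i, 1 ≤ i → i < K → (D.rv i).isT = true → LD la ba i ∧ ¬ AL la ba par i := by
  intro i h1 h2 h3
  have _ := hD
  refine (sp_roles hS i h1 h2).2.2 ?_
  have h4 := (no_sp' hS i h1 h2).2.2
  revert h3 h4
  cases D.rv i <;> simp [RV.isT, RV.isS, RV.isN]

theorem dl_of_OK (hD : PlanOK D K la ba par) (hS : PlanSp D K la ba par 0 0 sp 0) {dl : ℕ}
    (h : dlOK la ba par dl) : dl = 0 ∨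
      dl ≤ (Finset.univ.filter fun b => (D.rb b).top = true ∧ D.ds b = false).card := by
  rcases h with h | ⟨T, h1, h2⟩
  · exact Or.inl h
  · right
    have h3 := dl_card hD T fun b hb hT =>
      h1 b hb (isT_N hD hS (ba b) (hD.hd.ba_pos b) (hD.hd.ba_lt b) hT).2
    have h4 := n2_card hD
    unfold n2w at h2
    omega

end

end Pool.Agent.Lob12
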