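import Pool.Agent.Lob12.RxLy
import Pool.Agent.Lob5.E4Nm
import Pool.Agent.Lob5.NpMain
import Pool.Agent.Lob5.E4Main
import Pool.Agent.Lob12.PlanDl

/-!
# Static last edge: the main theorem

`rx_plan`: labels for the data with `K = k + 1` path edges from the ranks `S : RX` with the weak conditions `RXOK`
(for the numbers of the plan). `rx_main`: the same from the conditions `RXW`, which only use the number `n2` of
bushes with exactly two leaves.
-/

namespace Pool.Agent.Lob12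

open Pool.Agent.Lob5 Pool.Agent.Lob89

variable {Lf B BL : Type*} [Fintype Lf] [Fintype B] [Fintype BL] [DecidableEq B]
  {D : PlanData Lf B BL} {k : ℕ} {la : Lf → ℕ} {ba : B → ℕ} {par : BL → B} {sp : ℕ}

private theorem no_sp (hS : PlanSp D (k + 1) la ba par 0 0 sp 0) :
    ∀ i, 1 ≤ i → i < k + 1 → D.rv i ≠ .As ∧ D.rv i ≠ .Fs ∧ D.rv i ≠ .FR := by
  intro i h1 h2
  refine ⟨fun h => ?_, fun h => ?_, fun h => ?_⟩
  · exact (hS.As_q i h1 h2 (by omega) h).2.2 rfl
  · exact (hS.Fs_q i h1 h2 h).2.2.1 rfl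
  · exact absurd (hS.FR_q i h1 h2 h).2.2 (by decide)

private theorem no_tl (hD : PlanOK D (k + 1) la ba par)
    (hS : PlanSp D (k + 1) la ba par 0 0 sp 0) (b : B) : D.rb b ≠ .tl := by
  intro hb
  have h1 := hD.hd.ba_pos b
  have h2 := hD.hd.ba_lt b
  exact (no_sp hS (ba b) h1 (by omega)).2.1 ((hD.b_Fs b).1 hb)

private theorem nb_tl (hD : PlanOK D (k + 1) la ba par)
    (hS : PlanSp D (k + 1) la ba par 0 0 sp 0) : D.nb .tl = 0 := by
  rw [PlanData.nb, Finset.card_eq_zero, Finset.filter_eq_empty_iff]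
  exact fun b _ hb => no_tl hD hS b hb

private theorem nv_As (hS : PlanSp D (k + 1) la ba par 0 0 sp 0) : D.nv (k + 1) .As = 0 := by
  rw [PlanData.nv, Finset.card_eq_zero, Finset.filter_eq_empty_iff]
  rintro i hi ⟨h1, h2⟩
  exact (no_sp hS i h1 (Finset.mem_range.1 hi)).1 h2

variable {ld al : ℕ → Prop}

theorem nm_X (hD : PlanOK D (k + 1) la ba par) (S : RX k ld al)
    (hS : PlanSp D (k + 1) la ba par 0 0 sp 0) (M dl : ℕ)
    (hdl : dl = 0 ∨
      dl ≤ (Finset.univ.filter fun b => (D.rb b).top = true ∧ D.ds b = false).card) :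
    NmOK D (nmX S (numE D (k + 1) 0) M (D.ns + 1) dl) (k + 1) par := by
  have h0 := nb_tl hD hS
  have h0' := nv_As hS
  have hk := S.hk
  have hw : 1 ≤ wx S (numE D (k + 1) 0) := by
    unfold wx
    omega
  have hpk : (nmX S (numE D (k + 1) 0) M (D.ns + 1) dl).pk ≠ 0 := by
    change wx S (numE D (k + 1) 0) + (numE D (k + 1) 0).N0 ≠ 0
    omega
  refine
    { e_eq := ?_
      ebt := Or.inl ⟨rfl, rfl⟩
      et_FR := fun h => absurd h (et_ne _)
      N0_eq := ?_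
      nT_eq := rfl
      n2_eq := rfl
      Ux_eq := rfl
      tot := ?_
      c0_eq := ?_
      tl_le := ?_
      Qh := S.Qh
      om_eq := Or.inl rfl
      om_pk := fun h => absurd rfl h
      pk_rng := fun _ => Or.inr ?_
      s0_rng := fun h => absurd h0 h
      dl_le := hdl.imp id fun h => ⟨fun i h1 h2 => (no_sp hS i h1 h2).2.2, h⟩
      FR1 := ?_ }
  · rw [if_neg hpk]
    rfl
  · rfl
  · have h1 := card_all hD
    change wx S (numE D (k + 1) 0) + (numE D (k + 1) 0).N0 + (numE D (k + 1) 0).nT + S.h = _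
    unfold wx
    simp only [numE, numOf, PlanData.nSg, PlanData.nPr]
    omega
  · rw [h0, if_neg (fun h => h.1 rfl)]
    rfl
  · omega
  · simp only [nmX]
    omega
  · intro i i' h _ h1 h2 _ _
    exact absurd h (no_sp hS i h1 h2).2.2

theorem rx_plan (hD : PlanOK D (k + 1) la ba par) (hS : PlanSp D (k + 1) la ba par 0 0 sp 0)
    (hNP : D.NP (k + 1)) (h0 : ¬ LD la ba k) (S : RX k (LDk la ba k) (ALk la ba par k)) (M dl : ℕ)
    (hdl : dl = 0 ∨
      dl ≤ (Finset.univ.filter fun b => (D.rb b).top = true ∧ D.ds b = false).card)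
    (R : RXOK S (fun i => (D.rv i).isS = true) (fun i => D.rv i = .II ∨ D.rv i = .I) M
      (numE D (k + 1) 0).n2 (numE D (k + 1) 0).nT (numE D (k + 1) 0).Ux
      (numE D (k + 1) 0).N0 dl) : HasLabels (k + 1) la ba par := by
  have hk := S.hk
  have hh := S.h1
  have hno := no_sp hS
  have hld : ∀ i, 1 ≤ i → i < k → (LDk la ba k i ↔ D.rv i ≠ .C) := by
    intro i h1 h2
    have := hS.ld_iff i h1 (by omega) (by omega)
    constructor
    · rintro ⟨h3, -⟩
      exact this.1 h3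
    · intro h3
      exact ⟨this.2 h3, h2⟩
  have hal : ∀ i, 1 ≤ i → i < k → (ALk la ba par k i ↔ (D.rv i = .A ∨ D.rv i = .F)) := by
    intro i h1 h2
    have h3 := hS.al_iff i h1 (by omega) (by omega)
    obtain ⟨n1, n2, n3⟩ := hno i h1 (by omega)
    constructor
    · rintro ⟨h4, -⟩
      rcases h3.1 h4 with h | h | h | h | h
      · exact Or.inl h
      · exact Or.inr h
      · exact absurd h n1
      · exact absurd h n2
      · exact absurd h n3
    · intro h4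
      exact ⟨h3.2 (by tauto), h2⟩
  have hrk : D.rv k = .C := by
    by_contra h
    exact h0 ((hS.ld_iff k (by omega) (by omega) (by omega)).2 h)
  have ctx : ∀ j, (numE D (k + 1) 0).nT + j ≤ (numE D (k + 1) 0).Ux →
      CtxX S (fun i => (D.rv i).isS = true) (fun i => D.rv i = .II ∨ D.rv i = .I)
        (numE D (k + 1) 0) (D.ns + 1) j D.rv := by
    intro j hj
    refine ⟨hj, by omega, ?_, hrk, ?_, ?_, fun _ _ _ h => h, fun _ _ _ h => h, ?_,
      fun i h1 h2 => hno i h1 (by omega)⟩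
    · simp only [numE]
      omega
    · intro i h1 h2 h3 h4
      exact (hld i h1 h2).1 h4 h3
    · intro i h1 h2 h3
      refine (hal i h1 h2).2 ?_
      cases hr : D.rv i <;> rw [hr] at h3 <;>
        first | exact Or.inl rfl | exact Or.inr rfl | exact absurd h3 (by decide)
    · intro i h1 h2 h3
      refine ⟨(hld i h1 h2).2 ?_, fun h => ?_⟩
      · intro h
        rw [h] at h3
        exact absurd h3 (by decide)
      · rcases (hal i h1 h2).1 h with h | h <;> rw [h] at h3 <;> exact absurd h3 (by decide)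
  refine np_main hD hNP (nm_X hD S hS M dl hdl) (fun j => lyX S (numE D (k + 1) 0) M j)
    (fun j => rfl) (fun j hj => ly_X S _ R (ctx j hj)) (fun j _ => ?_)
    (fun j hj _ => st_X S _ (ctx (j + 1) hj))
  refine ⟨fun b hb => absurd hb (no_tl hD hS b), fun h => absurd rfl h,
    fun b hb => absurd hb (no_tl hD hS b), fun b hb => absurd hb (no_tl hD hS b),
    fun h => absurd rfl h, fun h => absurd rfl h⟩

/-- the conditions in terms of the number `n2` of bushes with two leaves -/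
structure RXW (S : RX k ld al) (M n2 dl : ℕ) : Prop where
  M1 : S.P + S.Q + 1 ≤ M
  M2 : M ≤ 2 * S.h + 1
  MC : ∀ i, 1 ≤ i → i < k → ¬ ld i → ¬ S.bad i → S.J i ≤ M
  a1 : ∀ a, 1 ≤ a → a < k → al a → M ≤ S.J a + S.h + 1 + n2
  n1 : ∀ x, 1 ≤ x → x < k → ld x → ¬ al x → M ≤ S.J x + 2 * n2 + S.P + S.h + 2
  t1 : ∀ z, 1 ≤ z → z < k → ld z → ¬ al z → M ≤ S.J z + S.h + 2 + n2 + S.Q
  t2 : ∀ z, 1 ≤ z → z < k → ld z → ¬ al z → S.P ≤ S.J z + 2
  bb : ∀ a z, 1 ≤ a → a < k → 1 ≤ z → z < k → al a → S.bad (oe a) → ld z → ¬ al z →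
    S.J a ≤ S.J z + S.Q + 1 + dl
  sh : ∀ a x, 1 ≤ a → a < k → 1 ≤ x → x < k → al a → S.bad (oe a) → ld x → ¬ al x →
    S.J a ≤ S.J x + n2 + S.P
  gg : ∀ a z, 1 ≤ a → a < k → 1 ≤ z → z < k → al a → ¬ S.bad (oe a) → ld z → ¬ al z →
    ¬ S.bad (oe z) → S.J a ≤ S.J z + S.Q + 1 + dl
  gb : ∀ a z, 1 ≤ a → a < k → 1 ≤ z → z < k → al a → ¬ S.bad (oe a) → ld z → ¬ al z →
    S.bad (oe z) → ∀ T : Finset ℕ,
      (∀ i ∈ T, 1 ≤ i ∧ i < k ∧ i ≠ z ∧ ld i ∧ ¬ al i ∧ S.J i + S.h + 1 + n2 < M) →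
      S.J a + T.card ≤ S.J z + S.Q + 1 + dl
  two : 2 ≤ S.P ∨ ∀ i, 1 ≤ i → i < k → ld i → ¬ S.bad (oe i)

theorem rxok_of_w {S : RX k ld al} {M n2 nT Ux N0 dl : ℕ} (R : RXW S M n2 dl) (hU : nT ≤ Ux)
    (hN : 1 ≤ N0) {st tw : ℕ → Prop} (hst : ∀ i, 1 ≤ i → i < k → st i → ld i ∧ ¬ al i)
    (htw : ∀ i, 1 ≤ i → i < k → tw i → ld i ∧ ¬ al i)
    (hd : ∀ i, st i → ¬ tw i) : RXOK S st tw M n2 nT Ux N0 dl := by
  classical
  refine ⟨R.M1, R.M2, R.MC, fun a h1 h2 h3 _ => R.a1 a h1 h2 h3, fun a h1 h2 h3 _ => ?_,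
    fun x h1 h2 h3 _ => ?_, fun x h1 h2 h3 _ => ?_, fun z h1 h2 h3 => ?_, fun z h1 h2 h3 => ?_,
    fun a z h1 h2 h3 h4 h5 h6 h7 => ?_, R.sh, fun a z h1 h2 h3 h4 h5 h6 h7 h8 => ?_,
    fun a z h1 h2 h3 h4 h5 h6 h7 h8 => ?_, ?_⟩
  · have := R.a1 a h1 h2 h3
    omega
  · exact R.n1 x h1 h2 (htw x h1 h2 h3).1 (htw x h1 h2 h3).2
  · have := R.n1 x h1 h2 (htw x h1 h2 h3).1 (htw x h1 h2 h3).2
    omega
  · have := R.t1 z h1 h2 (hst z h1 h2 h3).1 (hst z h1 h2 h3).2
    omega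
  · exact R.t2 z h1 h2 (hst z h1 h2 h3).1 (hst z h1 h2 h3).2
  · exact R.bb a z h1 h2 h3 h4 h5 h6 (hst z h3 h4 h7).1 (hst z h3 h4 h7).2
  · exact R.gg a z h1 h2 h3 h4 h5 h6 (hst z h3 h4 h7).1 (hst z h3 h4 h7).2 h8
  · refine R.gb a z h1 h2 h3 h4 h5 h6 (hst z h3 h4 h7).1 (hst z h3 h4 h7).2 h8 _ ?_
    intro i hi
    rw [Finset.mem_filter, Finset.mem_range] at hi
    obtain ⟨g1, g2, g3, g4⟩ := hi
    refine ⟨g2, g1, ?_, (htw i g2 g1 g3).1, (htw i g2 g1 g3).2, ?_⟩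
    · rintro rfl
      exact hd i h7 g3
    · by_contra hc
      refine g4 ⟨fun _ => by omega, fun _ => by omega⟩
  · rcases R.two with h | h
    · exact Or.inl h
    · refine Or.inr fun i h1 h2 h3 => h i h1 h2 ?_
      rcases h3 with h3 | h3
      · exact S.al_ld i h3
      · exact (hst i h1 h2 h3).1

theorem rx_main (hd : LobData (k + 1) la ba par) (h0 : ¬ LD la ba k)
    (S : RX k (LDk la ba k) (ALk la ba par k)) (M dl : ℕ) (hdl : dlOK la ba par dl)
    (R : RXW S M (n2w par) dl) : HasLabels (k + 1) la ba par := by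
  classical
  obtain ⟨D, sp, hD, hS⟩ := exists_plan hd 0 0 0 (Or.inl rfl) (fun h => absurd rfl h)
  rcases pure_or_NP hD with ⟨last, two, hP⟩ | hNP
  · exact pure_all hd hP
  have hn : D.n2 = n2w par := n2_card hD
  rw [← hn] at R
  have key : ∀ i, 1 ≤ i → i < k → (D.rv i).isN = true →
      LDk la ba k i ∧ ¬ ALk la ba par k i := by
    intro i h1 h2 h3
    constructor
    · refine ⟨(hS.ld_iff i h1 (by omega) (by omega)).2 ?_, h2⟩
      intro h
      rw [h] at h3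
      exact absurd h3 (by decide)
    · rintro ⟨h4, -⟩
      rcases (hS.al_iff i h1 (by omega) (by omega)).1 h4 with h | h | h | h | h <;>
        rw [h] at h3 <;> exact absurd h3 (by decide)
  refine rx_plan hD hS hNP h0 S M dl (dl_of_OK hD hS hdl) (rxok_of_w R ?_ ?_ ?_ ?_ ?_)
  · simp only [numE, numOf]
    omega
  · simp only [numE]
    omega
  · intro i h1 h2 h3
    refine key i h1 h2 ?_
    revert h3
    cases D.rv i <;> simp [RV.isS, RV.isN]
  · intro i h1 h2 h3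
    refine key i h1 h2 ?_
    rcases h3 with h3 | h3 <;> rw [h3] <;> rfl
  · intro i h1 h2
    rcases h2 with h2 | h2 <;> rw [h2] at h1 <;> exact absurd h1 (by decide)

end Pool.Agent.Lob12
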