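import Pool.Agent.Lob12.HhLy
import Pool.Agent.Lob12.RxMain
import Pool.Agent.Lob5.OddDefs

/-!
# Two high edges at a loaded vertex: the main theorem

`hh_plan`: labels from the ranks `S : HX` with the weak conditions `HXOK` (for the numbers of the plan).
`hh_main`: the same from the conditions `HXW`, which only use the number `n2` of bushes with exactly two leaves.
-/

namespace Pool.Agent.Lob12

open Pool.Agent.Lob5 Pool.Agent.Lob89

variable {Lf B BL : Type*} [Fintype Lf] [Fintype B] [Fintype BL] [DecidableEq B]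
  {D : PlanData Lf B BL} {K : ℕ} {la : Lf → ℕ} {ba : B → ℕ} {par : BL → B} {sp : ℕ}

theorem no_tl' (hD : PlanOK D K la ba par)
    (hS : PlanSp D K la ba par 0 0 sp 0) (b : B) : D.rb b ≠ .tl := by
  intro hb
  have h1 := hD.hd.ba_pos b
  have h2 := hD.hd.ba_lt b
  exact (no_sp' hS (ba b) h1 h2).2.1 ((hD.b_Fs b).1 hb)

theorem nb_tl' (hD : PlanOK D K la ba par)
    (hS : PlanSp D K la ba par 0 0 sp 0) : D.nb .tl = 0 := by
  rw [PlanData.nb, Finset.card_eq_zero, Finset.filter_eq_empty_iff]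
  exact fun b _ hb => no_tl' hD hS b hb

theorem nv_As' (hS : PlanSp D K la ba par 0 0 sp 0) : D.nv K .As = 0 := by
  rw [PlanData.nv, Finset.card_eq_zero, Finset.filter_eq_empty_iff]
  rintro i hi ⟨h1, h2⟩
  exact (no_sp' hS i h1 (Finset.mem_range.1 hi)).1 h2

variable {u : ℕ} {ld al : ℕ → Prop}

private theorem nm_H (hD : PlanOK D K la ba par) (S : HX K u ld al)
    (hS : PlanSp D K la ba par 0 0 sp 0) (M dl : ℕ)
    (hdl : dl = 0 ∨
      dl ≤ (Finset.univ.filter fun b => (D.rb b).top = true ∧ D.ds b = false).card) :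
    NmOK D (nmH S (numOf D K 0) M D.ns dl) K par := by
  have h0 := nb_tl' hD hS
  have h0' := nv_As' hS
  have hk := S.hK
  refine
    { e_eq := ?_
      ebt := Or.inl ⟨rfl, rfl⟩
      et_FR := fun _ i h1 h2 => (no_sp' hS i h1 h2).2.2
      N0_eq := rfl
      nT_eq := rfl
      n2_eq := rfl
      Ux_eq := rfl
      tot := ?_
      c0_eq := ?_
      tl_le := ?_
      Qh := S.Qh
      om_eq := Or.inl rfl
      om_pk := fun h => absurd rfl h
      pk_rng := fun h => absurd rfl h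
      s0_rng := fun h => absurd h0 h
      dl_le := hdl.imp id fun h => ⟨fun i h1 h2 => (no_sp' hS i h1 h2).2.2, h⟩
      FR1 := ?_ }
  · rfl
  · have h1 := card_all hD
    change wh S (numOf D K 0) + (numOf D K 0).N0 + (numOf D K 0).nT + S.h = _
    unfold wh
    simp only [numOf, PlanData.nSg, PlanData.nPr]
    omega
  · rw [h0, if_neg (fun h => h.1 rfl)]
    rfl
  · omega
  · intro i i' h _ h1 h2 _ _
    exact absurd h (no_sp' hS i h1 h2).2.2

theorem hh_plan (hD : PlanOK D K la ba par) (hS : PlanSp D K la ba par 0 0 sp 0)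
    (hNP : D.NP K) (S : HX K u (LD la ba) (AL la ba par)) (M dl : ℕ)
    (hdl : dl = 0 ∨
      dl ≤ (Finset.univ.filter fun b => (D.rb b).top = true ∧ D.ds b = false).card)
    (R : HXOK S (fun i => (D.rv i).isS = true) (fun i => D.rv i = .II ∨ D.rv i = .I) M
      (numOf D K 0).n2 (numOf D K 0).nT (numOf D K 0).Ux
      (numOf D K 0).N0 D.ns dl) : HasLabels K la ba par := by
  have hno := no_sp' hS
  have hro := sp_roles hS
  have ctx : ∀ j, (numOf D K 0).nT + j ≤ (numOf D K 0).Ux →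
      CtxH S (fun i => (D.rv i).isS = true) (fun i => D.rv i = .II ∨ D.rv i = .I)
        (numOf D K 0) D.ns j D.rv := by
    intro j hj
    refine ⟨hj, ?_, fun i h1 h2 h3 => (hro i h1 h2).1 h3, fun i h1 h2 h3 => (hro i h1 h2).2.1 h3,
      fun _ _ _ h => h, fun _ _ _ h => h, fun i h1 h2 h3 => (hro i h1 h2).2.2 h3, hno⟩
    simp only [numOf]
    omega
  refine np_main hD hNP (nm_H hD S hS M dl hdl) (fun j => lyH S (numOf D K 0) M j)
    (fun j => rfl) (fun j hj => ly_H S _ R (ctx j hj)) (fun j _ => ?_)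
    (fun j hj hP => st_H S _ (ctx (j + 1) hj) (le_trans (by decide) hP))
  refine ⟨fun b hb => absurd hb (no_tl' hD hS b), fun h => absurd rfl h,
    fun b hb => absurd hb (no_tl' hD hS b), fun b hb => absurd hb (no_tl' hD hS b),
    fun h => absurd rfl h, fun h => absurd rfl h⟩

/-- the conditions in terms of the number `n2` of bushes with two leaves -/
structure HXW (S : HX K u ld al) (M n2 dl : ℕ) : Prop where
  M1 : S.P + S.Q + 1 ≤ M
  M2 : M ≤ 2 * S.h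
  MC : ∀ i, 1 ≤ i → i < K → ¬ ld i → ¬ S.bad i → S.J i ≤ M
  a1 : ∀ a, 1 ≤ a → a < K → al a → M ≤ S.J a + S.h + n2
  b1 : ∀ a, 1 ≤ a → a < K → al a → S.bad (lo u a) → S.J a + 1 ≤ S.h + S.P
  n1 : ∀ x, 1 ≤ x → x < K → x ≠ u → ld x → ¬ al x → M ≤ S.J x + 2 * n2 + S.P + S.h + 1
  t1 : ∀ z, 1 ≤ z → z < K → z ≠ u → ld z → ¬ al z → M ≤ S.J z + S.h + n2 + S.Q
  t2 : ∀ z, 1 ≤ z → z < K → z ≠ u → ld z → ¬ al z → S.P ≤ S.J z + 2
  bu : ∀ a, 1 ≤ a → a < K → al a → S.bad (lo u a) → S.J a ≤ S.h + S.J u + S.Q + 1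
  bb : ∀ a z, 1 ≤ a → a < K → 1 ≤ z → z < K → z ≠ u → al a → S.bad (lo u a) → ld z →
    ¬ al z → (S.J a ≤ S.J z + S.Q + 1 ∨ S.J a ≤ S.J z + S.Q + dl) ∧
      (dl = 0 → S.J a ≤ S.J z + S.P)
  sh : ∀ a x, 1 ≤ a → a < K → 1 ≤ x → x < K → x ≠ u → al a → S.bad (lo u a) → ld x →
    ¬ al x → S.J a ≤ S.J x + n2 + S.P
  gg : ∀ a z, 1 ≤ a → a < K → 1 ≤ z → z < K → z ≠ u → al a → ¬ S.bad (lo u a) → ld z →
    ¬ al z → ¬ S.bad (lo u z) → S.J a ≤ S.J z + S.Q + dl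
  gb : ∀ a z, 1 ≤ a → a < K → 1 ≤ z → z < K → z ≠ u → al a → ¬ S.bad (lo u a) → ld z →
    ¬ al z → S.bad (lo u z) → ∀ T : Finset ℕ,
      (∀ i ∈ T, 1 ≤ i ∧ i < K ∧ i ≠ z ∧ i ≠ u ∧ ld i ∧ ¬ al i ∧ S.J i + S.h + n2 < M) →
      S.J a + T.card ≤ S.J z + S.Q + dl
  lt : S.P ≤ S.Q ∨ ∀ a x, 1 ≤ a → a < K → 1 ≤ x → x < K → x ≠ u → al a →
    ¬ S.bad (lo u a) → ld x → ¬ al x → S.J a + 1 ≤ S.J x + n2 + S.P
  two : 2 ≤ S.P ∨ ∀ i, 1 ≤ i → i < K → i ≠ u → ld i → ¬ S.bad (lo u i)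

theorem hxok_of_w {S : HX K u ld al} {M n2 nT Ux N0 e dl : ℕ} (R : HXW S M n2 dl) (hU : nT ≤ Ux)
    {st tw : ℕ → Prop} (hst : ∀ i, 1 ≤ i → i < K → st i → ld i ∧ ¬ al i)
    (htw : ∀ i, 1 ≤ i → i < K → tw i → ld i ∧ ¬ al i)
    (hd : ∀ i, st i → ¬ tw i) : HXOK S st tw M n2 nT Ux N0 e dl := by
  classical
  refine ⟨R.M1, R.M2, R.MC, fun a h1 h2 h3 _ => R.a1 a h1 h2 h3, fun a h1 h2 h3 _ => ?_,
    fun x h1 h2 hx h3 _ => ?_, fun x h1 h2 hx h3 _ => ?_, fun z h1 h2 hx h3 => ?_,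
    fun z h1 h2 hx h3 => ?_, fun a z h1 h2 h3 h4 hx h5 h6 h7 => ?_, R.b1, fun _ => R.bu,
    fun _ h0 a z h1 h2 h3 h4 hx h5 h6 h7 => ?_, R.sh,
    fun a z h1 h2 h3 h4 hx h5 h6 h7 h8 => ?_,
    fun a z h1 h2 h3 h4 hx h5 h6 h7 h8 => ?_, fun _ => R.lt, ?_⟩
  · have := R.a1 a h1 h2 h3
    omega
  · exact R.n1 x h1 h2 hx (htw x h1 h2 h3).1 (htw x h1 h2 h3).2
  · have := R.n1 x h1 h2 hx (htw x h1 h2 h3).1 (htw x h1 h2 h3).2
    omega
  · have := R.t1 z h1 h2 hx (hst z h1 h2 h3).1 (hst z h1 h2 h3).2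
    omega
  · exact R.t2 z h1 h2 hx (hst z h1 h2 h3).1 (hst z h1 h2 h3).2
  · rcases (R.bb a z h1 h2 h3 h4 hx h5 h6 (hst z h3 h4 h7).1 (hst z h3 h4 h7).2).1 with h | h
    · exact Or.inl h
    · exact Or.inr (by omega)
  · exact (R.bb a z h1 h2 h3 h4 hx h5 h6 (hst z h3 h4 h7).1 (hst z h3 h4 h7).2).2 h0
  · have := R.gg a z h1 h2 h3 h4 hx h5 h6 (hst z h3 h4 h7).1 (hst z h3 h4 h7).2 h8
    omega
  · have := R.gb a z h1 h2 h3 h4 hx h5 h6 (hst z h3 h4 h7).1 (hst z h3 h4 h7).2 h8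
      ((Finset.range K).filter fun i => 1 ≤ i ∧ tw i ∧ ¬ S.cd M n2 nT Ux i) ?_
    · omega
    intro i hi
    rw [Finset.mem_filter, Finset.mem_range] at hi
    obtain ⟨g1, g2, g3, g4⟩ := hi
    refine ⟨g2, g1, ?_, fun hiu => g4 (Or.inl hiu), (htw i g2 g1 g3).1, (htw i g2 g1 g3).2, ?_⟩
    · rintro rfl
      exact hd i h7 g3
    · by_contra hc
      refine g4 (Or.inr ⟨fun _ => by omega, fun _ => by omega⟩)
  · rcases R.two with h | h
    · exact Or.inl h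
    · refine Or.inr fun i h1 h2 hx h3 => h i h1 h2 hx ?_
      rcases h3 with h3 | h3
      · exact S.al_ld i h3
      · exact (hst i h1 h2 h3).1

theorem hh_main (hd : LobData K la ba par) (S : HX K u (LD la ba) (AL la ba par)) (M dl : ℕ)
    (hdl : dlOK la ba par dl) (R : HXW S M (n2w par) dl) : HasLabels K la ba par := by
  classical
  obtain ⟨D, sp, hD, hS⟩ := exists_plan hd 0 0 0 (Or.inl rfl) (fun h => absurd rfl h)
  rcases pure_or_NP hD with ⟨last, two, hP⟩ | hNP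
  · exact pure_all hd hP
  have hn : D.n2 = n2w par := n2_card hD
  have hro := sp_roles hS
  rw [← hn] at R
  refine hh_plan hD hS hNP S M dl (dl_of_OK hD hS hdl) (hxok_of_w R ?_ ?_ ?_ ?_)
  · simp only [numOf]
    omega
  · intro i h1 h2 h3
    refine (hro i h1 h2).2.2 ?_
    revert h3
    cases D.rv i <;> simp [RV.isS, RV.isN]
  · intro i h1 h2 h3
    refine (hro i h1 h2).2.2 ?_
    rcases h3 with h3 | h3 <;> rw [h3] <;> rfl
  · intro i h1 h2
    rcases h2 with h2 | h2 <;> rw [h2] at h1 <;> exact absurd h1 (by decide)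

end Pool.Agent.Lob12
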