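import Pool.Agent.Lob12.LrLy
import Pool.Agent.Lob12.HhMain
import Pool.Agent.Lob12.PlanDl

/-!
# Two low edges in the middle, one of them reserved: the main theorem

`lr_plan`: labels from the ranks `S : LR` with the weak conditions `LROK` (for the numbers of the plan).
`lr_main`: the same from the conditions `LRW`, which only use the number `n2` of bushes with exactly two leaves.
-/

namespace Pool.Agent.Lob12

open Pool.Agent.Lob5 Pool.Agent.Lob89

variable {Lf B BL : Type*} [Fintype Lf] [Fintype B] [Fintype BL] [DecidableEq B]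
  {D : PlanData Lf B BL} {K : ℕ} {la : Lf → ℕ} {ba : B → ℕ} {par : BL → B} {sp : ℕ}

variable {u : ℕ} {ld al : ℕ → Prop}

private theorem nm_R (hD : PlanOK D K la ba par) (S : LR K u ld al)
    (hS : PlanSp D K la ba par 0 0 sp 0) (M dl : ℕ)
    (hdl : dl = 0 ∨
      dl ≤ (Finset.univ.filter fun b => (D.rb b).top = true ∧ D.ds b = false).card) :
    NmOK D (nmR S (numOf D K 0) M D.ns dl) K par := by
  have h0 := nb_tl' hD hS
  have h0' := nv_As' hS
  have hk := S.hK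
  refine
    { e_eq := ?_
      ebt := Or.inl ⟨rfl, rfl⟩
      et_FR := fun _ i h1 h2 => (no_sp' hS i h1 h2).2.2
      N0_eq := rfl
      nT_eq := rfl
      n2_eq := rfl
      Ux_eq := rfl
      tot := ?_
      c0_eq := ?_
      tl_le := ?_
      Qh := S.Qh
      om_eq := Or.inl rfl
      om_pk := fun h => absurd rfl h
      pk_rng := fun h => absurd rfl h
      s0_rng := fun h => absurd h0 h
      dl_le := hdl.imp id fun h => ⟨fun i h1 h2 => (no_sp' hS i h1 h2).2.2, h⟩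
      FR1 := ?_ }
  · rfl
  · have h1 := card_all hD
    change wr S (numOf D K 0) + (numOf D K 0).N0 + (numOf D K 0).nT + S.h = _
    unfold wr
    simp only [numOf, PlanData.nSg, PlanData.nPr]
    omega
  · rw [h0, if_neg (fun h => h.1 rfl)]
    rfl
  · omega
  · intro i i' h _ h1 h2 _ _
    exact absurd h (no_sp' hS i h1 h2).2.2

theorem lr_plan (hD : PlanOK D K la ba par) (hS : PlanSp D K la ba par 0 0 sp 0)
    (hNP : D.NP K) (S : LR K u (LD la ba) (AL la ba par)) (M dl : ℕ)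
    (hdl : dl = 0 ∨
      dl ≤ (Finset.univ.filter fun b => (D.rb b).top = true ∧ D.ds b = false).card)
    (hV : S.V (numOf D K 0).n2)
    (R : LROK S (fun i => (D.rv i).isS = true) (fun i => D.rv i = .II ∨ D.rv i = .I) M
      (numOf D K 0).n2 (numOf D K 0).nT (numOf D K 0).Ux
      (numOf D K 0).N0 D.ns dl) : HasLabels K la ba par := by
  have hno := no_sp' hS
  have hro := sp_roles hS
  have ctx : ∀ j, (numOf D K 0).nT + j ≤ (numOf D K 0).Ux →
      CtxR S (fun i => (D.rv i).isS = true) (fun i => D.rv i = .II ∨ D.rv i = .I)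
        (numOf D K 0) D.ns j D.rv := by
    intro j hj
    refine ⟨hj, ?_, hV, fun i h1 h2 h3 => (hro i h1 h2).1 h3,
      fun i h1 h2 h3 => (hro i h1 h2).2.1 h3,
      fun _ _ _ h => h, fun _ _ _ h => h, fun i h1 h2 h3 => (hro i h1 h2).2.2 h3, hno⟩
    simp only [numOf]
    omega
  refine np_main hD hNP (nm_R hD S hS M dl hdl) (fun j => lyR S (numOf D K 0) M j)
    (fun j => rfl) (fun j hj => ly_R S _ R (ctx j hj)) (fun j _ => ?_)
    (fun j hj hP => st_R S _ (ctx (j + 1) hj) (le_trans (by decide) hP))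
  refine ⟨fun b hb => absurd hb (no_tl' hD hS b), fun h => absurd rfl h,
    fun b hb => absurd hb (no_tl' hD hS b), fun b hb => absurd hb (no_tl' hD hS b),
    fun h => absurd rfl h, fun h => absurd rfl h⟩

/-- the conditions in terms of the number `n2` of bushes with two leaves -/
structure LRW (S : LR K u ld al) (M n2 dl : ℕ) : Prop where
  M1 : S.P + S.Q + 1 ≤ M
  M2 : M ≤ 2 * S.h + 1
  MC : ∀ i, 1 ≤ i → i < K → i ≠ u → ¬ ld i → ¬ S.bad i → S.J i ≤ M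
  pr : ∀ i, 1 ≤ i → i + 1 = u → ld i → al i
  V : S.V n2
  a1 : ∀ a, 1 ≤ a → a < K → al a → M ≤ S.J a + S.h + 2 + n2
  n1 : ∀ x, 1 ≤ x → x < K → ld x → ¬ al x → M ≤ S.J x + 2 * n2 + S.P + S.h + 4
  t1 : ∀ z, 1 ≤ z → z < K → ld z → ¬ al z → M ≤ S.J z + S.h + 2 + n2 + S.Q
  t2 : ∀ z, 1 ≤ z → z < K → ld z → ¬ al z → S.P ≤ S.J z + 2
  bb : ∀ a z, 1 ≤ a → a < K → 1 ≤ z → z < K → al a → S.bad (lo u a) → ld z → ¬ al z →
    (S.J a ≤ S.J z + S.Q + 1 ∨ S.J a ≤ S.J z + S.Q + dl) ∧ (dl = 0 → S.J a ≤ S.J z + S.P)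
  sh : ∀ a x, 1 ≤ a → a < K → 1 ≤ x → x < K → al a → S.bad (lo u a) → ld x → ¬ al x →
    S.J a ≤ S.J x + n2 + S.P + 1
  gg : ∀ a z, 1 ≤ a → a < K → 1 ≤ z → z < K → al a → ¬ S.bad (lo u a) → ld z → ¬ al z →
    ¬ S.bad (lo u z) → S.J a ≤ S.J z + S.Q + dl
  gb : ∀ a z, 1 ≤ a → a < K → 1 ≤ z → z < K → al a → ¬ S.bad (lo u a) → ld z → ¬ al z →
    S.bad (lo u z) → ∀ T : Finset ℕ,
      (∀ i ∈ T, 1 ≤ i ∧ i < K ∧ i ≠ z ∧ ld i ∧ ¬ al i ∧ S.J i + S.h + 2 + n2 < M) →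
      S.J a + T.card ≤ S.J z + S.Q + dl
  lt : S.P ≤ S.Q ∨ ∀ a x, 1 ≤ a → a < K → 1 ≤ x → x < K → al a →
    ¬ S.bad (lo u a) → ld x → ¬ al x → S.J a ≤ S.J x + n2 + S.P
  two : 2 ≤ S.P ∨ ∀ i, 1 ≤ i → i < K → ld i → ¬ S.bad (lo u i)

theorem lrok_of_w {S : LR K u ld al} {M n2 nT Ux N0 e dl : ℕ} (R : LRW S M n2 dl) (hU : nT ≤ Ux)
    {st tw : ℕ → Prop} (hst : ∀ i, 1 ≤ i → i < K → st i → ld i ∧ ¬ al i)
    (htw : ∀ i, 1 ≤ i → i < K → tw i → ld i ∧ ¬ al i)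
    (hd : ∀ i, st i → ¬ tw i) : LROK S st tw M n2 nT Ux N0 e dl := by
  classical
  refine ⟨R.M1, R.M2, R.MC, ?_, fun a h1 h2 h3 _ => R.a1 a h1 h2 h3, fun a h1 h2 h3 _ => ?_,
    fun x h1 h2 h3 _ => ?_, fun x h1 h2 h3 _ => ?_, fun z h1 h2 h3 => ?_,
    fun z h1 h2 h3 => ?_, fun a z h1 h2 h3 h4 h5 h6 h7 => ?_,
    fun _ h0 a z h1 h2 h3 h4 h5 h6 h7 => ?_, R.sh,
    fun a z h1 h2 h3 h4 h5 h6 h7 h8 => ?_,
    fun a z h1 h2 h3 h4 h5 h6 h7 h8 => ?_, fun _ => R.lt, ?_⟩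
  · intro i h1 h2 h
    have hK := S.uK
    have h3 := hst i h1 (by omega) h
    exact h3.2 (R.pr i h1 h2 h3.1)
  · have := R.a1 a h1 h2 h3
    omega
  · exact R.n1 x h1 h2 (htw x h1 h2 h3).1 (htw x h1 h2 h3).2
  · have := R.n1 x h1 h2 (htw x h1 h2 h3).1 (htw x h1 h2 h3).2
    omega
  · have := R.t1 z h1 h2 (hst z h1 h2 h3).1 (hst z h1 h2 h3).2
    omega
  · exact R.t2 z h1 h2 (hst z h1 h2 h3).1 (hst z h1 h2 h3).2
  · rcases (R.bb a z h1 h2 h3 h4 h5 h6 (hst z h3 h4 h7).1 (hst z h3 h4 h7).2).1 with h | h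
    · exact Or.inl h
    · exact Or.inr (by omega)
  · exact (R.bb a z h1 h2 h3 h4 h5 h6 (hst z h3 h4 h7).1 (hst z h3 h4 h7).2).2 h0
  · have := R.gg a z h1 h2 h3 h4 h5 h6 (hst z h3 h4 h7).1 (hst z h3 h4 h7).2 h8
    omega
  · have := R.gb a z h1 h2 h3 h4 h5 h6 (hst z h3 h4 h7).1 (hst z h3 h4 h7).2 h8
      ((Finset.range K).filter fun i => 1 ≤ i ∧ tw i ∧ ¬ S.cd M n2 nT Ux i) ?_
    · omega
    intro i hi
    rw [Finset.mem_filter, Finset.mem_range] at hi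
    obtain ⟨g1, g2, g3, g4⟩ := hi
    refine ⟨g2, g1, ?_, (htw i g2 g1 g3).1, (htw i g2 g1 g3).2, ?_⟩
    · rintro rfl
      exact hd i h7 g3
    · by_contra hc
      refine g4 ⟨fun _ => by omega, fun _ => by omega⟩
  · rcases R.two with h | h
    · exact Or.inl h
    · refine Or.inr fun i h1 h2 h3 => h i h1 h2 ?_
      rcases h3 with h3 | h3
      · exact S.al_ld i h3
      · exact (hst i h1 h2 h3).1

theorem lr_main (hd : LobData K la ba par) (S : LR K u (LD la ba) (AL la ba par)) (M dl : ℕ)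
    (hdl : dlOK la ba par dl) (R : LRW S M (n2w par) dl) : HasLabels K la ba par := by
  classical
  obtain ⟨D, sp, hD, hS⟩ := exists_plan hd 0 0 0 (Or.inl rfl) (fun h => absurd rfl h)
  rcases pure_or_NP hD with ⟨last, two, hP⟩ | hNP
  · exact pure_all hd hP
  have hn : D.n2 = n2w par := n2_card hD
  have hro := sp_roles hS
  rw [← hn] at R
  refine lr_plan hD hS hNP S M dl (dl_of_OK hD hS hdl) R.V (lrok_of_w R ?_ ?_ ?_ ?_)
  · simp only [numOf]
    omega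
  · intro i h1 h2 h3
    refine (hro i h1 h2).2.2 ?_
    revert h3
    cases D.rv i <;> simp [RV.isS, RV.isN]
  · intro i h1 h2 h3
    refine (hro i h1 h2).2.2 ?_
    rcases h3 with h3 | h3 <;> rw [h3] <;> rfl
  · intro i h1 h2
    rcases h2 with h2 | h2 <;> rw [h2] at h1 <;> exact absurd h1 (by decide)

end Pool.Agent.Lob12
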