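import Pool.Agent.Lob12.OwWord
import Pool.Agent.Lob12.LrMain

/-!
# Counts for the two orders

`eb bad n`, `ob bad n`, `eg bad n`, `og bad n`: number of even bad, odd bad, even good, odd good edges `≤ n`.
`CW.PR`, `CW.QR`, `CW.PM`, `CW.QM`: the numbers `P` and `Q` of the two orders. `CW.VR1`, `CW.VR2`, `CW.VM`: the sum at
`u` is the label of an inner low edge.
-/

namespace Pool.Agent.Lob12

open Pool.Agent.Lob5 Pool.Agent.Lob89

/-- number of even bad edges `≤ n` -/
noncomputable def eb (bad : ℕ → Prop) (n : ℕ) : ℕ := cn (fun y => y % 2 = 0 ∧ bad y) n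
/-- number of odd bad edges `≤ n` -/
noncomputable def ob (bad : ℕ → Prop) (n : ℕ) : ℕ := cn (fun y => y % 2 = 1 ∧ bad y) n
/-- number of even good edges `≤ n` -/
noncomputable def eg (bad : ℕ → Prop) (n : ℕ) : ℕ := cn (fun y => y % 2 = 0 ∧ ¬ bad y) n
/-- number of odd good edges `≤ n` -/
noncomputable def og (bad : ℕ → Prop) (n : ℕ) : ℕ := cn (fun y => y % 2 = 1 ∧ ¬ bad y) n

/-- an intermediate value -/
theorem cn_exists (p : ℕ → Prop) {m y : ℕ} (h1 : 1 ≤ m) (h2 : m ≤ cn p y) :
    ∃ e, 1 ≤ e ∧ e ≤ y ∧ p e ∧ cn p e = m := by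
  induction y with
  | zero =>
    rw [cn_zero] at h2
    omega
  | succ y ih =>
    rcases Nat.lt_or_ge (cn p y) m with h3 | h3
    · by_cases hp : p (y + 1)
      · rw [cn_pos hp] at h2
        refine ⟨y + 1, by omega, le_rfl, hp, ?_⟩
        rw [cn_pos hp]
        omega
      · rw [cn_neg hp] at h2
        omega
    · obtain ⟨e, e1, e2, e3, e4⟩ := ih h3
      exact ⟨e, e1, by omega, e3, e4⟩

/-- an intermediate value between `a` and `y` -/
theorem cn_exists' (p : ℕ → Prop) {m a y : ℕ} (h1 : 1 ≤ m) (h2 : cn p a + m ≤ cn p y) :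
    ∃ e, a < e ∧ e ≤ y ∧ p e ∧ cn p e = cn p a + m := by
  obtain ⟨e, e1, e2, e3, e4⟩ := cn_exists p (m := cn p a + m) (by omega) h2
  refine ⟨e, ?_, e2, e3, e4⟩
  by_contra h
  have := cn_mono p (show e ≤ a by omega)
  omega

section

variable {K u h : ℕ} {ld al bad : ℕ → Prop}

private theorem lxR1 (hK : K % 2 = 0) (hu : u % 2 = 1) {y : ℕ} (h2 : y + u ≤ K) :
    lx K u y ↔ (y + u) % 2 = 0 := by
  unfold lx
  omega

private theorem lxR2 (hK : K % 2 = 0) (hu : u % 2 = 1) (huK : u < K) {y : ℕ} (h1 : 1 ≤ y) :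
    lx K u (K - u + y) ↔ y % 2 = 1 := by
  unfold lx
  omega

private theorem lxM1 (hK : K % 2 = 0) (hu : u % 2 = 1) {y : ℕ} (_h1 : 1 ≤ y) (h2 : y + u ≤ K) :
    lx K u y ↔ (K + 1 - y) % 2 = 0 := by
  unfold lx
  omega

/-- counts of a class along the first block of `psR` -/
private theorem cntR1 (hK : K % 2 = 0) (hu : u % 2 = 1) (huK : u < K) {x : ℕ}
    (h2 : x + u ≤ K) :
    cLB (lx K u) (bx K u bad (psR K u)) x + eb bad u = eb bad (x + u) ∧
    cHB (lx K u) (bx K u bad (psR K u)) x + ob bad u = ob bad (x + u) ∧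
    cLG (lx K u) (bx K u bad (psR K u)) x + eg bad u = eg bad (x + u) ∧
    cHG (lx K u) (bx K u bad (psR K u)) x + og bad u = og bad (x + u) := by
  refine ⟨cnR1 (K := K) (u := u) _ _ h2 ?_, cnR1 (K := K) (u := u) _ _ h2 ?_,
    cnR1 (K := K) (u := u) _ _ h2 ?_, cnR1 (K := K) (u := u) _ _ h2 ?_⟩ <;>
  · intro y y1 y2
    rw [bxR1 huK y1 y2, lxR1 hK hu y2]
    try exact and_congr_left fun _ => by omega

private theorem cntR2 (hK : K % 2 = 0) (hu : u % 2 = 1) (huK : u < K) {x : ℕ} (h2 : x < u) :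
    cLB (lx K u) (bx K u bad (psR K u)) (K - u + x) + eb bad u = eb bad K + ob bad x ∧
    cHB (lx K u) (bx K u bad (psR K u)) (K - u + x) + ob bad u = ob bad K + eb bad x ∧
    cLG (lx K u) (bx K u bad (psR K u)) (K - u + x) + eg bad u = eg bad K + og bad x ∧
    cHG (lx K u) (bx K u bad (psR K u)) (K - u + x) + og bad u = og bad K + eg bad x := by
  have h1 := cntR1 (bad := bad) hK hu huK (x := K - u) (by omega)
  rw [show K - u + u = K by omega] at h1
  have a1 : cLB (lx K u) (bx K u bad (psR K u)) (K - u + x) =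
      cLB (lx K u) (bx K u bad (psR K u)) (K - u) + ob bad x := by
    refine cnR2 (K := K) (u := u) _ _ h2 ?_
    intro y y1 y2
    rw [bxR2 huK y1 y2, lxR2 hK hu huK y1]
  have a2 : cHB (lx K u) (bx K u bad (psR K u)) (K - u + x) =
      cHB (lx K u) (bx K u bad (psR K u)) (K - u) + eb bad x := by
    refine cnR2 (K := K) (u := u) _ _ h2 ?_
    intro y y1 y2
    rw [bxR2 huK y1 y2, lxR2 hK hu huK y1]
    exact and_congr_left fun _ => by omega
  have a3 : cLG (lx K u) (bx K u bad (psR K u)) (K - u + x) =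
      cLG (lx K u) (bx K u bad (psR K u)) (K - u) + og bad x := by
    refine cnR2 (K := K) (u := u) _ _ h2 ?_
    intro y y1 y2
    rw [bxR2 huK y1 y2, lxR2 hK hu huK y1]
  have a4 : cHG (lx K u) (bx K u bad (psR K u)) (K - u + x) =
      cHG (lx K u) (bx K u bad (psR K u)) (K - u) + eg bad x := by
    refine cnR2 (K := K) (u := u) _ _ h2 ?_
    intro y y1 y2
    rw [bxR2 huK y1 y2, lxR2 hK hu huK y1]
    exact and_congr_left fun _ => by omega
  omega

/-- counts of a class along the first block of `psM` -/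
private theorem cntM1 (hK : K % 2 = 0) (hu : u % 2 = 1) (huK : u < K) {x : ℕ}
    (h2 : x + u ≤ K) :
    cLB (lx K u) (bx K u bad (psM K u)) x + eb bad (K - x) = eb bad K ∧
    cHB (lx K u) (bx K u bad (psM K u)) x + ob bad (K - x) = ob bad K ∧
    cLG (lx K u) (bx K u bad (psM K u)) x + eg bad (K - x) = eg bad K ∧
    cHG (lx K u) (bx K u bad (psM K u)) x + og bad (K - x) = og bad K := by
  refine ⟨cnM1 (K := K) (u := u) _ _ h2 ?_, cnM1 (K := K) (u := u) _ _ h2 ?_,
    cnM1 (K := K) (u := u) _ _ h2 ?_, cnM1 (K := K) (u := u) _ _ h2 ?_⟩ <;>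
  · intro y y1 y2
    rw [bxM1 huK y1 y2, lxM1 hK hu y1 y2]
    try exact and_congr_left fun _ => by omega

private theorem cntM2 (hK : K % 2 = 0) (hu : u % 2 = 1) (huK : u < K) {x : ℕ} (h2 : x < u) :
    cLB (lx K u) (bx K u bad (psM K u)) (K - u + x) + eb bad u = eb bad K + ob bad x ∧
    cHB (lx K u) (bx K u bad (psM K u)) (K - u + x) + ob bad u = ob bad K + eb bad x ∧
    cLG (lx K u) (bx K u bad (psM K u)) (K - u + x) + eg bad u = eg bad K + og bad x ∧
    cHG (lx K u) (bx K u bad (psM K u)) (K - u + x) + og bad u = og bad K + eg bad x := by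
  have h1 := cntM1 (bad := bad) hK hu huK (x := K - u) (by omega)
  rw [show K - (K - u) = u by omega] at h1
  have a1 : cLB (lx K u) (bx K u bad (psM K u)) (K - u + x) =
      cLB (lx K u) (bx K u bad (psM K u)) (K - u) + ob bad x := by
    refine cnR2 (K := K) (u := u) _ _ h2 ?_
    intro y y1 y2
    rw [bxM2 huK y1 y2, lxR2 hK hu huK y1]
  have a2 : cHB (lx K u) (bx K u bad (psM K u)) (K - u + x) =
      cHB (lx K u) (bx K u bad (psM K u)) (K - u) + eb bad x := by
    refine cnR2 (K := K) (u := u) _ _ h2 ?_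
    intro y y1 y2
    rw [bxM2 huK y1 y2, lxR2 hK hu huK y1]
    exact and_congr_left fun _ => by omega
  have a3 : cLG (lx K u) (bx K u bad (psM K u)) (K - u + x) =
      cLG (lx K u) (bx K u bad (psM K u)) (K - u) + og bad x := by
    refine cnR2 (K := K) (u := u) _ _ h2 ?_
    intro y y1 y2
    rw [bxM2 huK y1 y2, lxR2 hK hu huK y1]
  have a4 : cHG (lx K u) (bx K u bad (psM K u)) (K - u + x) =
      cHG (lx K u) (bx K u bad (psM K u)) (K - u) + eg bad x := by
    refine cnR2 (K := K) (u := u) _ _ h2 ?_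
    intro y y1 y2
    rw [bxM2 huK y1 y2, lxR2 hK hu huK y1]
    exact and_congr_left fun _ => by omega
  omega

theorem CW.PR (C : CW K u h ld al bad) :
    C.owR.lr.P + eb bad u = eb bad K + ob bad (u - 1) := by
  have hK := C.hK
  have hu := C.u1
  have huK := C.uK
  have h1 := (cntR2 (bad := bad) (by omega) hu huK (x := u - 1) (by omega)).1
  rw [show K - u + (u - 1) = K - 1 by omega] at h1
  exact h1

theorem CW.QR (C : CW K u h ld al bad) :
    C.owR.lr.Q + ob bad u = ob bad K + eb bad (u - 1) := by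
  have hK := C.hK
  have hu := C.u1
  have huK := C.uK
  have h1 := (cntR2 (bad := bad) (by omega) hu huK (x := u - 1) (by omega)).2.1
  rw [show K - u + (u - 1) = K - 1 by omega] at h1
  exact h1

theorem CW.PM (C : CW K u h ld al bad) :
    C.owM.lr.P + eb bad u = eb bad K + ob bad (u - 1) := by
  have hK := C.hK
  have hu := C.u1
  have huK := C.uK
  have h1 := (cntM2 (bad := bad) (by omega) hu huK (x := u - 1) (by omega)).1
  rw [show K - u + (u - 1) = K - 1 by omega] at h1
  exact h1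

theorem CW.QM (C : CW K u h ld al bad) :
    C.owM.lr.Q + ob bad u = ob bad K + eb bad (u - 1) := by
  have hK := C.hK
  have hu := C.u1
  have huK := C.uK
  have h1 := (cntM2 (bad := bad) (by omega) hu huK (x := u - 1) (by omega)).2.1
  rw [show K - u + (u - 1) = K - 1 by omega] at h1
  exact h1

private theorem rk_eq (ps : ℕ → ℕ) {e : ℕ} (h : e ≠ u) :
    rko K u bad ps e = rkg (lx K u) (bx K u bad ps) (K - 1) (ps e) := by
  unfold rko
  rw [if_neg h]

/-- `V` for the order `psR`, the label of an edge behind `u` -/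
theorem CW.VR1 (C : CW K u h ld al bad) (hg : ¬ bad (u + 1)) {n2 : ℕ}
    (hn : eg bad u + n2 + 2 ≤ eg bad (K - 1)) : C.owR.lr.V n2 := by
  have hK := C.hK
  have hu := C.u1
  have huK := C.uK
  obtain ⟨e, e1, e2, ⟨e3, e4⟩, e5⟩ := cn_exists' (fun y => y % 2 = 0 ∧ ¬ bad y) (m := n2 + 2)
    (a := u) (y := K - 1) (by omega) (by unfold eg at hn; omega)
  have e6 : eg bad e = eg bad u + (n2 + 2) := e5
  refine ⟨e, by omega, by omega, by omega, Or.inr ⟨e1, e3⟩, ?_, iff_of_false hg e4⟩
  change rko K u bad (psR K u) e = n2 + 1 + rko K u bad (psR K u) (u + 1)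
  rw [rk_eq _ (by omega), rk_eq _ (by omega)]
  have p1 : psR K u e = e - u := by
    unfold psR
    rw [if_pos e1]
  have p2 : psR K u (u + 1) = 1 := by
    unfold psR
    rw [if_pos (by omega)]
    omega
  rw [p1, p2]
  have l1 : lx K u (e - u) := (lxR1 (by omega) hu (by omega)).2 (by omega)
  have l2 : lx K u 1 := (lxR1 (by omega) hu (by omega)).2 (by omega)
  have b1 : ¬ bx K u bad (psR K u) (e - u) := by
    rw [bxR1 huK (by omega) (by omega), show e - u + u = e by omega]
    exact e4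
  have b2 : ¬ bx K u bad (psR K u) 1 := by
    rw [bxR1 huK (by omega) (by omega), show 1 + u = u + 1 by omega]
    exact hg
  rw [rkg_LG l1 b1, rkg_LG l2 b2]
  have c1 := (cntR1 (bad := bad) (by omega) hu huK (x := e - u) (by omega)).2.2.1
  have c2 : cLG (lx K u) (bx K u bad (psR K u)) 1 = 1 := by
    have := cn_step (p := fun y => lx K u y ∧ ¬ bx K u bad (psR K u) y) (le_refl 1) ⟨l2, b2⟩
    rw [Nat.sub_self, cn_zero] at this
    exact this
  rw [show e - u + u = e by omega] at c1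
  omega

/-- `V` for the order `psR`, the label of an edge before `u` -/
theorem CW.VR2 (C : CW K u h ld al bad) (hg : ¬ bad (u + 1)) {n2 : ℕ}
    (hn1 : eg bad K + og bad 1 < eg bad u + n2 + 2)
    (hn : eg bad u + n2 + 2 ≤ eg bad K + og bad (u - 1)) : C.owR.lr.V n2 := by
  have hK := C.hK
  have hu := C.u1
  have huK := C.uK
  obtain ⟨e, e1, e2, ⟨e3, e4⟩, e5⟩ := cn_exists' (fun y => y % 2 = 1 ∧ ¬ bad y)
    (m := eg bad u + n2 + 2 - eg bad K - og bad 1)
    (a := 1) (y := u - 1) (by omega) (by unfold og at hn hn1 ⊢; omega)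
  have e6 : og bad e = og bad 1 + (eg bad u + n2 + 2 - eg bad K - og bad 1) := e5
  refine ⟨e, by omega, by omega, by omega, Or.inl ⟨by omega, e3⟩, ?_, iff_of_false hg e4⟩
  change rko K u bad (psR K u) e = n2 + 1 + rko K u bad (psR K u) (u + 1)
  rw [rk_eq _ (by omega), rk_eq _ (by omega)]
  have p1 : psR K u e = K - u + e := by
    unfold psR
    rw [if_neg (by omega)]
  have p2 : psR K u (u + 1) = 1 := by
    unfold psR
    rw [if_pos (by omega)]
    omega
  rw [p1, p2]
  have l1 : lx K u (K - u + e) := (lxR2 (by omega) hu huK (by omega)).2 e3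
  have l2 : lx K u 1 := (lxR1 (by omega) hu (by omega)).2 (by omega)
  have b1 : ¬ bx K u bad (psR K u) (K - u + e) := by
    rw [bxR2 huK (by omega) (by omega)]
    exact e4
  have b2 : ¬ bx K u bad (psR K u) 1 := by
    rw [bxR1 huK (by omega) (by omega), show 1 + u = u + 1 by omega]
    exact hg
  rw [rkg_LG l1 b1, rkg_LG l2 b2]
  have c1 := (cntR2 (bad := bad) (by omega) hu huK (x := e) (by omega)).2.2.1
  have c2 : cLG (lx K u) (bx K u bad (psR K u)) 1 = 1 := by
    have := cn_step (p := fun y => lx K u y ∧ ¬ bx K u bad (psR K u) y) (le_refl 1) ⟨l2, b2⟩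
    rw [Nat.sub_self, cn_zero] at this
    exact this
  omega

/-- `V` for the order `psM` -/
theorem CW.VM (C : CW K u h ld al bad) (hb : bad (u + 1)) {n2 : ℕ}
    (hn : eb bad u + n2 + 2 ≤ eb bad (K - 1)) : C.owM.lr.V n2 := by
  have hK := C.hK
  have hu := C.u1
  have huK := C.uK
  have s1 : eb bad (u + 1) = eb bad u + 1 :=
    cn_pos (p := fun y => y % 2 = 0 ∧ bad y) ⟨by omega, hb⟩
  obtain ⟨e, e1, e2, ⟨e3, e4⟩, e5⟩ := cn_exists' (fun y => y % 2 = 0 ∧ bad y) (m := n2 + 1)
    (a := u + 1) (y := K - 1) (by omega) (by unfold eb at hn s1; omega)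
  have e6 : eb bad e = eb bad (u + 1) + (n2 + 1) := e5
  refine ⟨e, by omega, by omega, by omega, Or.inr ⟨by omega, e3⟩, ?_, iff_of_true hb e4⟩
  change rko K u bad (psM K u) e = n2 + 1 + rko K u bad (psM K u) (u + 1)
  rw [rk_eq _ (by omega), rk_eq _ (by omega)]
  have p1 : psM K u e = K + 1 - e := by
    unfold psM
    rw [if_pos (by omega)]
  have p2 : psM K u (u + 1) = K - u := by
    unfold psM
    rw [if_pos (by omega)]
    omega
  rw [p1, p2]
  have l1 : lx K u (K + 1 - e) :=
    (lxM1 (by omega) hu (by omega) (by omega)).2 (by omega)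
  have l2 : lx K u (K - u) := (lxM1 (by omega) hu (by omega) (by omega)).2 (by omega)
  have b1 : bx K u bad (psM K u) (K + 1 - e) := by
    rw [bxM1 huK (by omega) (by omega), show K + 1 - (K + 1 - e) = e by omega]
    exact e4
  have b2 : bx K u bad (psM K u) (K - u) := by
    rw [bxM1 huK (by omega) (by omega), show K + 1 - (K - u) = u + 1 by omega]
    exact hb
  rw [rkg_LB l1 b1, rkg_LB l2 b2]
  have c1 := (cntM1 (bad := bad) (by omega) hu huK (x := K + 1 - e - 1) (by omega)).1
  have c2 := (cntM1 (bad := bad) (by omega) hu huK (x := K - u - 1) (by omega)).1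
  have c3 : cLB (lx K u) (bx K u bad (psM K u)) (K - u) ≤
      cLB (lx K u) (bx K u bad (psM K u)) (K - 1) := cn_mono _ (by omega)
  have c4 : cLB (lx K u) (bx K u bad (psM K u)) (K - u) =
      cLB (lx K u) (bx K u bad (psM K u)) (K - u - 1) + 1 :=
    cn_step (p := fun y => lx K u y ∧ bx K u bad (psM K u) y) (by omega) ⟨l2, b2⟩
  rw [show K - (K + 1 - e - 1) = e by omega] at c1
  rw [show K - (K - u - 1) = u + 1 by omega] at c2
  omega

end

end Pool.Agent.Lob12
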