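import Pool.Agent.Lob12.HhMain
import Pool.Agent.Lob12.OwCount

/-!
# Word ranks for two high edges at a loaded vertex

`HW`: a coloured word with `K = 2h` edges, `u` even, loaded and not marked (the colours of `u` and `u + 1` are
arbitrary). Order `u+1, ..., K, 1, ..., u`; `HW.hx` is the structure `HX`. `HW.J_lam`: the sum `J i` of the ranks at
`i ≠ u` in terms of `B = P + Q`, the position `x = psR K u i` and the walk `w` of the order at `x`: both bad
`2J = 2B + 2 - x + w`, both good `2J = 2B + 2 + x + w`, good - bad `2J = 2B + w + (x mod 2)`, bad - good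
`2J = 2B + w + 4 - (x mod 2)`.
-/

namespace Pool.Agent.Lob12

open Pool.Agent.Lob5 Pool.Agent.Lob89

/-- the low positions -/
def lh (K u x : ℕ) : Prop := (x + u ≤ K ∧ x % 2 = 0) ∨ (K < x + u ∧ x % 2 = 1)

/-- the colours of the positions -/
def bh (K u : ℕ) (bad : ℕ → Prop) (x : ℕ) : Prop :=
  bad (if x + u ≤ K then x + u else x + u - K)

/-- A coloured word. -/
structure HW (K u h : ℕ) (ld al bad : ℕ → Prop) : Prop where
  hK : K = 2 * h
  u0 : u % 2 = 0
  u1 : 1 ≤ u
  uK : u < K
  uN : ld u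
  ua : ¬ al u
  al_ld : ∀ i, al i → ld i
  same : ∀ i, 1 ≤ i → i < K → ¬ ld i → (bad i ↔ bad (i + 1))
  dif1 : ∀ i, 1 ≤ i → i < K → i ≠ u → ld i → bad i → ¬ bad (i + 1)
  dif2 : ∀ i, 1 ≤ i → i < K → al i → ¬ bad i → bad (i + 1)

section

variable {K u h : ℕ} {ld al bad : ℕ → Prop}

theorem cn_lh (hK : K % 2 = 0) (hu : u % 2 = 0) (huK : u < K) (x : ℕ) :
    cn (lh K u) x = if x + u ≤ K then x / 2 else (x + 1) / 2 := by
  induction x with
  | zero => rw [if_pos (by omega)]; rfl
  | succ x ih =>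
    by_cases h : lh K u (x + 1)
    · rw [cn_pos h, ih]
      unfold lh at h
      split_ifs <;> omega
    · rw [cn_neg h, ih]
      unfold lh at h
      split_ifs <;> omega

theorem cn_hh (hK : K % 2 = 0) (hu : u % 2 = 0) (huK : u < K) (x : ℕ) :
    cn (fun y => ¬ lh K u y) x = if x + u ≤ K then (x + 1) / 2 else x / 2 := by
  have h1 := cn_compl (lh K u) x
  rw [cn_lh hK hu huK] at h1
  split_ifs at h1 ⊢ <;> omega

theorem psR_rng (huK : u < K) {e : ℕ} (h1 : 1 ≤ e) (h2 : e ≤ K) :
    1 ≤ psR K u e ∧ psR K u e ≤ K := by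
  unfold psR
  split_ifs <;> omega

theorem psR_inj {e f : ℕ} (huK : u < K) (h1 : 1 ≤ e) (h2 : e ≤ K) (h3 : 1 ≤ f) (h4 : f ≤ K)
    (h5 : psR K u e = psR K u f) : e = f := by
  unfold psR at h5
  split_ifs at h5 <;> omega

theorem bh_psR (huK : u < K) {e : ℕ} (h1 : 1 ≤ e) (h2 : e ≤ K) :
    bh K u bad (psR K u e) ↔ bad e := by
  unfold bh psR
  split_ifs with h3 h4 h4
  · rw [show e - u + u = e by omega]
  · omega
  · omega
  · rw [show K - u + e + u - K = e by omega]

theorem lh_psR (hK : K % 2 = 0) (hu : u % 2 = 0) (huK : u < K) {e : ℕ} (h1 : 1 ≤ e)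
    (h2 : e ≤ K) : lh K u (psR K u e) ↔ lw u e := by
  unfold lh psR lw
  split_ifs <;> omega

/-- the position of the vertex `i ≠ u` -/
theorem psR_succ (huK : u < K) {i : ℕ} (h2 : i < K) (h3 : i ≠ u) :
    psR K u (i + 1) = psR K u i + 1 := by
  unfold psR
  split_ifs <;> omega

/-- the ranks -/
noncomputable def rkh (K u : ℕ) (bad : ℕ → Prop) (e : ℕ) : ℕ :=
  rkg (lh K u) (bh K u bad) K (psR K u e)

noncomputable def HW.hx (W : HW K u h ld al bad) : HX K u ld al where
  h := h
  P := cLB (lh K u) (bh K u bad) K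
  Q := cHB (lh K u) (bh K u bad) K
  bad := bad
  rk := rkh K u bad
  al_ld := W.al_ld
  hK := W.hK
  u0 := W.u0
  u1 := W.u1
  uK := W.uK
  uN := W.uN
  ua := W.ua
  Ph := by
    have hK := W.hK
    have huK := W.uK
    have hu := W.u0
    have hu1 := W.u1
    have h1 := cL_add (lh K u) (bh K u bad) K
    have h2 := cn_lh (by omega) hu huK K
    split_ifs at h2 <;> omega
  Qh := by
    have hK := W.hK
    have huK := W.uK
    have hu := W.u0
    have hu1 := W.u1
    have h1 := cH_add (lh K u) (bh K u bad) K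
    have h2 := cn_hh (by omega) hu huK K
    split_ifs at h2 <;> omega
  same := W.same
  dif1 := by
    intro i h1 h2 h3 h3' h4 h5
    have h6 := W.dif1 i h1 h2 h3 h3'
    unfold lo at h4
    unfold hi at h5
    unfold oe ee at h4 h5
    split_ifs at h4 h5
    · exact h6 h4 h5
    · exact h6 h5 h4
    · exact h6 h5 h4
    · exact h6 h4 h5
  dif2 := by
    intro i h1 h2 h3 h4
    have h6 := W.dif2 i h1 h2 h3
    unfold lo oe ee at h4
    unfold hi oe ee
    split_ifs at h4 ⊢
    · exact h6 h4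
    · by_contra h5
      exact h4 (h6 h5)
    · by_contra h5
      exact h4 (h6 h5)
    · exact h6 h4
  rk_lb := by
    intro e h1 h2 h4 h5
    have hK := W.hK
    have h6 := psR_rng W.uK h1 h2
    exact rkg_LB_rng h6.1 h6.2 ((lh_psR (by omega) W.u0 W.uK h1 h2).2 h4)
      ((bh_psR W.uK h1 h2).2 h5)
  rk_lg := by
    intro e h1 h2 h4 h5
    have hK := W.hK
    have huK := W.uK
    have hu := W.u0
    have hu1 := W.u1
    have h6 := psR_rng W.uK h1 h2
    have h7 := rkg_LG_rng (n := K) h6.1 h6.2 ((lh_psR (by omega) W.u0 W.uK h1 h2).2 h4)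
      (fun h => h5 ((bh_psR W.uK h1 h2).1 h))
    have h8 := cn_lh (by omega) hu huK K
    unfold rkh
    split_ifs at h8 <;> omega
  rk_hb := by
    intro e h1 h2 h4 h5
    have hK := W.hK
    have h6 := psR_rng W.uK h1 h2
    exact rkg_HB_rng h6.1 h6.2 (fun h => h4 ((lh_psR (by omega) W.u0 W.uK h1 h2).1 h))
      ((bh_psR W.uK h1 h2).2 h5)
  rk_hg := by
    intro e h1 h2 h4 h5
    have hK := W.hK
    have huK := W.uK
    have hu := W.u0
    have hu1 := W.u1
    have h6 := psR_rng W.uK h1 h2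
    have h7 := rkg_HG_rng (n := K) h6.1 h6.2
      (fun h => h4 ((lh_psR (by omega) W.u0 W.uK h1 h2).1 h))
      (fun h => h5 ((bh_psR W.uK h1 h2).1 h))
    have h8 := cn_hh (by omega) hu huK K
    unfold rkh
    split_ifs at h8 <;> omega
  rk_inj := by
    intro e f h1 h2 h3 h4 h5 h6
    have hK := W.hK
    have r1 := psR_rng W.uK h1 h2
    have r2 := psR_rng W.uK h3 h4
    refine psR_inj W.uK h1 h2 h3 h4 (rkg_inj (n := K) ?_ r1.1 r1.2 r2.1 r2.2 h6)
    rw [lh_psR (by omega) W.u0 W.uK h1 h2, lh_psR (by omega) W.u0 W.uK h3 h4, h5]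
  cmp := by
    have hK := W.hK
    have key : ∀ i j, 1 ≤ i → i < K → ¬ ld i → 1 ≤ j → j < K → ¬ ld j →
        (bad i ↔ bad j) → psR K u i ≤ psR K u j →
        (rkh K u bad (lo u i) ≤ rkh K u bad (lo u j) ∧
          rkh K u bad (hi u i) ≤ rkh K u bad (hi u j)) ∨
        (rkh K u bad (lo u j) ≤ rkh K u bad (lo u i) ∧
          rkh K u bad (hi u j) ≤ rkh K u bad (hi u i)) := by
      intro i j i1 i2 i5 j1 j2 j5 hb hle
      have i3 : i ≠ u := by
        rintro rfl
        exact i5 W.uN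
      have j3 : j ≠ u := by
        rintro rfl
        exact j5 W.uN
      have bi : (bad i ↔ bad (lo u i)) ∧ (bad i ↔ bad (hi u i)) := by
        have := W.same i i1 i2 i5
        unfold lo hi oe ee
        split_ifs
        · exact ⟨Iff.rfl, this⟩
        · exact ⟨this, Iff.rfl⟩
        · exact ⟨this, Iff.rfl⟩
        · exact ⟨Iff.rfl, this⟩
      have bj : (bad j ↔ bad (lo u j)) ∧ (bad j ↔ bad (hi u j)) := by
        have := W.same j j1 j2 j5
        unfold lo hi oe ee
        split_ifs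
        · exact ⟨Iff.rfl, this⟩
        · exact ⟨this, Iff.rfl⟩
        · exact ⟨this, Iff.rfl⟩
        · exact ⟨Iff.rfl, this⟩
      have li := lo_rng (u := u) i1 i2
      have lj := lo_rng (u := u) j1 j2
      have hi' := hi_rng (u := u) i1 i2
      have hj' := hi_rng (u := u) j1 j2
      have w1 := (lh_psR (by omega) W.u0 W.uK li.1 li.2).2 (lo_lw i3)
      have w2 := (lh_psR (by omega) W.u0 W.uK lj.1 lj.2).2 (lo_lw j3)
      have w3 : ¬ lh K u (psR K u (hi u i)) := fun h =>
        hi_lw i3 ((lh_psR (by omega) W.u0 W.uK hi'.1 hi'.2).1 h)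
      have w4 : ¬ lh K u (psR K u (hi u j)) := fun h =>
        hi_lw j3 ((lh_psR (by omega) W.u0 W.uK hj'.1 hj'.2).1 h)
      have r1 := psR_rng W.uK li.1 li.2
      have r2 := psR_rng W.uK lj.1 lj.2
      have r3 := psR_rng W.uK hi'.1 hi'.2
      have r4 := psR_rng W.uK hj'.1 hj'.2
      have xi : (psR K u i = psR K u (lo u i) ∧ psR K u i + 1 = psR K u (hi u i)) ∨
          (psR K u i = psR K u (hi u i) ∧ psR K u i + 1 = psR K u (lo u i)) := by
        have := psR_succ W.uK i2 i3
        unfold lo hi oe ee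
        split_ifs
        · exact Or.inl ⟨rfl, this.symm⟩
        · exact Or.inr ⟨rfl, this.symm⟩
        · exact Or.inr ⟨rfl, this.symm⟩
        · exact Or.inl ⟨rfl, this.symm⟩
      have xj : (psR K u j = psR K u (lo u j) ∧ psR K u j + 1 = psR K u (hi u j)) ∨
          (psR K u j = psR K u (hi u j) ∧ psR K u j + 1 = psR K u (lo u j)) := by
        have := psR_succ W.uK j2 j3
        unfold lo hi oe ee
        split_ifs
        · exact Or.inl ⟨rfl, this.symm⟩
        · exact Or.inr ⟨rfl, this.symm⟩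
        · exact Or.inr ⟨rfl, this.symm⟩
        · exact Or.inl ⟨rfl, this.symm⟩
      have o1 : psR K u (lo u i) ≤ psR K u (lo u j) ∧ psR K u (hi u i) ≤ psR K u (hi u j) := by
        rcases Nat.lt_or_ge (psR K u i) (psR K u j) with h | h
        · omega
        · have he : psR K u i = psR K u j := le_antisymm hle h
          have he' : i = j := psR_inj W.uK i1 i2.le j1 j2.le he
          rw [he']
          exact ⟨le_rfl, le_rfl⟩
      unfold rkh
      by_cases hc : bad i
      · right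
        have c1 := (bh_psR (bad := bad) W.uK li.1 li.2).2 (bi.1.1 hc)
        have c2 := (bh_psR (bad := bad) W.uK lj.1 lj.2).2 (bj.1.1 (hb.1 hc))
        have c3 := (bh_psR (bad := bad) W.uK hi'.1 hi'.2).2 (bi.2.1 hc)
        have c4 := (bh_psR (bad := bad) W.uK hj'.1 hj'.2).2 (bj.2.1 (hb.1 hc))
        exact ⟨(rkg_bad (iff_of_true w1 w2) r1.1 o1.1 r2.2 c1 c2).1,
          (rkg_bad (iff_of_false w3 w4) r3.1 o1.2 r4.2 c3 c4).1⟩
      · left
        have c1 : ¬ bh K u bad (psR K u (lo u i)) := fun h =>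
          hc (bi.1.2 ((bh_psR W.uK li.1 li.2).1 h))
        have c2 : ¬ bh K u bad (psR K u (lo u j)) := fun h =>
          hc (hb.2 (bj.1.2 ((bh_psR W.uK lj.1 lj.2).1 h)))
        have c3 : ¬ bh K u bad (psR K u (hi u i)) := fun h =>
          hc (bi.2.2 ((bh_psR W.uK hi'.1 hi'.2).1 h))
        have c4 : ¬ bh K u bad (psR K u (hi u j)) := fun h =>
          hc (hb.2 (bj.2.2 ((bh_psR W.uK hj'.1 hj'.2).1 h)))
        exact ⟨(rkg_good (iff_of_true w1 w2) r1.1 o1.1 c1 c2).1,
          (rkg_good (iff_of_false w3 w4) r3.1 o1.2 c3 c4).1⟩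
    intro i j i1 i2 i5 j1 j2 j5 hb
    rcases Nat.le_total (psR K u i) (psR K u j) with h | h
    · exact key i j i1 i2 i5 j1 j2 j5 hb h
    · exact (key j i j1 j2 j5 i1 i2 i5 hb.symm h).symm

theorem HW.PQ (W : HW K u h ld al bad) : W.hx.P + W.hx.Q = cn (bh K u bad) K := cB_add _ _ _

/-- the sum of the ranks at a vertex -/
theorem HW.J_lam (W : HW K u h ld al bad) {i x : ℕ} (h1 : 1 ≤ i) (h2 : i < K) (h3 : i ≠ u)
    (hx : x = psR K u i) :
    (bad i → bad (i + 1) →
      2 * (W.hx.J i : ℤ) = 2 * (W.hx.P + W.hx.Q : ℕ) + 2 - x + wk (bh K u bad) x) ∧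
    (¬ bad i → ¬ bad (i + 1) →
      2 * (W.hx.J i : ℤ) = 2 * (W.hx.P + W.hx.Q : ℕ) + 2 + x + wk (bh K u bad) x) ∧
    (¬ bad i → bad (i + 1) →
      2 * (W.hx.J i : ℤ) = 2 * (W.hx.P + W.hx.Q : ℕ) + wk (bh K u bad) x + (x % 2 : ℕ)) ∧
    (bad i → ¬ bad (i + 1) →
      2 * (W.hx.J i : ℤ) =
        2 * (W.hx.P + W.hx.Q : ℕ) + wk (bh K u bad) x + 4 - (x % 2 : ℕ)) := by
  have hK := W.hK
  have huK := W.uK
  have hu := W.u0
  have hs := psR_succ huK h2 h3
  have hJ : W.hx.J i = rkg (lh K u) (bh K u bad) K x + rkg (lh K u) (bh K u bad) K (x + 1) := by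
    rw [hx, ← hs]
    rfl
  have hr := psR_rng huK h1 h2.le
  have hr' := psR_rng huK (show 1 ≤ i + 1 by omega) (show i + 1 ≤ K by omega)
  have c1 := cn_lh (by omega) hu huK x
  have c2 := cn_hh (by omega) hu huK x
  have c3 := cn_compl (bh K u bad) x
  have b0 := bh_psR (bad := bad) huK h1 h2.le
  have b0' := bh_psR (bad := bad) huK (show 1 ≤ i + 1 by omega) (show i + 1 ≤ K by omega)
  rw [hs] at b0' hr'
  rw [← hx] at b0 b0' hr hr'
  have r3 : lh K u x ↔ ¬ lh K u (x + 1) := by
    have l1 := lh_psR (by omega) hu huK h1 h2.le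
    have l2 := lh_psR (by omega) hu huK (show 1 ≤ i + 1 by omega) (show i + 1 ≤ K by omega)
    rw [hs] at l2
    rw [← hx] at l1 l2
    rw [l1, l2]
    unfold lw
    omega
  rw [W.PQ, hJ, ← b0, ← b0']
  unfold wk
  refine ⟨fun b1 b2 => ?_, fun b1 b2 => ?_, fun b1 b2 => ?_, fun b1 b2 => ?_⟩
  · have := sum_CB (n := K) hr.1 (by omega) r3 b1 b2
    omega
  · have := sum_CG (n := K) r3 b1 b2
    omega
  · by_cases hl : lh K u x
    · have := sum_maxL (n := K) (by omega) hl (r3.1 hl) b1 b2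
      unfold lh at hl
      rcases Nat.lt_or_ge K (x + u) with h | h
      · rw [if_neg (by omega)] at c1
        omega
      · rw [if_pos (by omega)] at c1
        omega
    · have hl' : lh K u (x + 1) := by
        by_contra h
        exact hl (r3.2 h)
      have := sum_maxH (n := K) (by omega) hl hl' b1 b2
      unfold lh at hl
      rcases Nat.lt_or_ge K (x + u) with h | h
      · rw [if_neg (by omega)] at c2
        omega
      · rw [if_pos (by omega)] at c2
        omega
  · by_cases hl : lh K u x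
    · have := sum_minL (n := K) hr.1 (by omega) hl (r3.1 hl) b1 b2
      unfold lh at hl
      rcases Nat.lt_or_ge K (x + u) with h | h
      · rw [if_neg (by omega)] at c2
        omega
      · rw [if_pos (by omega)] at c2
        omega
    · have hl' : lh K u (x + 1) := by
        by_contra h
        exact hl (r3.2 h)
      have := sum_minH (n := K) hr.1 (by omega) hl hl' b1 b2
      unfold lh at hl
      rcases Nat.lt_or_ge K (x + u) with h | h
      · rw [if_neg (by omega)] at c1
        omega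
      · rw [if_pos (by omega)] at c1
        omega

/-- the walk of the order, first block -/
theorem wkH1 {x : ℕ} (h2 : x + u ≤ K) : wk (bh K u bad) x = wk bad (x + u) - wk bad u := by
  have := cnR1 (K := K) (u := u) (bh K u bad) bad h2 fun y y1 y2 => by
    unfold bh
    rw [if_pos y2]
  unfold wk
  push_cast
  omega

private theorem cnH2 (p q : ℕ → Prop) {y : ℕ} (h2 : y ≤ u)
    (h : ∀ y, 1 ≤ y → y ≤ u → (p (K - u + y) ↔ q y)) :
    cn p (K - u + y) = cn p (K - u) + cn q y := by
  induction y with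
  | zero => rw [cn_zero, Nat.add_zero, Nat.add_zero]
  | succ y ih =>
    have h3 := ih (by omega)
    have h4 := h (y + 1) (by omega) h2
    rw [show K - u + (y + 1) = K - u + y + 1 by omega] at h4 ⊢
    by_cases hp : p (K - u + y + 1)
    · rw [cn_pos hp, cn_pos (h4.1 hp)]
      omega
    · rw [cn_neg hp, cn_neg (fun h => hp (h4.2 h))]
      omega

/-- the walk of the order, second block -/
theorem wkH2 (huK : u < K) {y : ℕ} (h2 : y ≤ u) :
    wk (bh K u bad) (K - u + y) = wk bad K - wk bad u + wk bad y := by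
  have h1 := cnH2 (K := K) (u := u) (bh K u bad) bad h2 fun y y1 y2 => by
    unfold bh
    rw [if_neg (by omega), show K - u + y + u - K = y by omega]
  have h3 := cnR1 (K := K) (u := u) (x := K - u) (bh K u bad) bad (by omega) fun y y1 y2 => by
    unfold bh
    rw [if_pos y2]
  rw [show K - u + u = K by omega] at h3
  unfold wk
  push_cast
  omega

theorem HW.P_eq (W : HW K u h ld al bad) : W.hx.P + eb bad u = eb bad K + ob bad u := by
  have hK := W.hK
  have hu := W.u0
  have huK := W.uK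
  have h1 := cnH2 (K := K) (u := u) (y := u) (fun y => lh K u y ∧ bh K u bad y)
    (fun y => y % 2 = 1 ∧ bad y) le_rfl fun y y1 y2 => by
      unfold bh lh
      rw [if_neg (by omega), show K - u + y + u - K = y by omega]
      exact and_congr_left fun _ => by omega
  have h3 := cnR1 (K := K) (u := u) (x := K - u) (fun y => lh K u y ∧ bh K u bad y)
    (fun y => y % 2 = 0 ∧ bad y) (by omega) fun y y1 y2 => by
      unfold bh lh
      rw [if_pos y2]
      exact and_congr_left fun _ => by omega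
  rw [show K - u + u = K by omega] at h1 h3
  have h4 : W.hx.P = cn (fun y => lh K u y ∧ bh K u bad y) K := rfl
  unfold eb ob
  omega

theorem HW.Q_eq (W : HW K u h ld al bad) : W.hx.Q + ob bad u = ob bad K + eb bad u := by
  have hK := W.hK
  have hu := W.u0
  have huK := W.uK
  have h1 := cnH2 (K := K) (u := u) (y := u) (fun y => ¬ lh K u y ∧ bh K u bad y)
    (fun y => y % 2 = 0 ∧ bad y) le_rfl fun y y1 y2 => by
      unfold bh lh
      rw [if_neg (by omega), show K - u + y + u - K = y by omega]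
      exact and_congr_left fun _ => by omega
  have h3 := cnR1 (K := K) (u := u) (x := K - u) (fun y => ¬ lh K u y ∧ bh K u bad y)
    (fun y => y % 2 = 1 ∧ bad y) (by omega) fun y y1 y2 => by
      unfold bh lh
      rw [if_pos y2]
      exact and_congr_left fun _ => by omega
  rw [show K - u + u = K by omega] at h1 h3
  have h4 : W.hx.Q = cn (fun y => ¬ lh K u y ∧ bh K u bad y) K := rfl
  unfold eb ob
  omega

/-- the rank of the edge `u` (the last one in the order) -/
theorem HW.rk_u (W : HW K u h ld al bad) :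
    (¬ bad u → W.hx.rk u = h) ∧ (bad u → W.hx.rk u = 1) := by
  have hK := W.hK
  have hu := W.u0
  have hu1 := W.u1
  have huK := W.uK
  have hp : psR K u u = K := by
    unfold psR
    rw [if_neg (lt_irrefl u)]
    omega
  have hl : ¬ lh K u K := by
    unfold lh
    omega
  have hb := bh_psR (bad := bad) huK hu1 huK.le
  rw [hp] at hb
  have hr : W.hx.rk u = rkg (lh K u) (bh K u bad) K (psR K u u) := rfl
  rw [hr, hp]
  constructor
  · intro h1
    rw [rkg_HG hl (fun h => h1 (hb.1 h))]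
    have h6 := cH_add (lh K u) (bh K u bad) K
    have h7 := cn_hh (by omega) hu huK K
    split_ifs at h7 <;> omega
  · intro h1
    rw [rkg_HB hl (hb.2 h1)]
    have := cn_step (p := fun y => ¬ lh K u y ∧ bh K u bad y) (show 1 ≤ K by omega)
      ⟨hl, hb.2 h1⟩
    unfold cHB
    omega

/-- the rank of the edge `u + 1` (the first one in the order) -/
theorem HW.rk_u1 (W : HW K u h ld al bad) :
    (¬ bad (u + 1) → W.hx.rk (u + 1) = W.hx.Q + 1) ∧ (bad (u + 1) → W.hx.rk (u + 1) = W.hx.Q) := by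
  have hK := W.hK
  have hu := W.u0
  have hu1 := W.u1
  have huK := W.uK
  have hp : psR K u (u + 1) = 1 := by
    unfold psR
    rw [if_pos (by omega)]
    omega
  have hl : ¬ lh K u 1 := by
    unfold lh
    omega
  have hb := bh_psR (bad := bad) huK (show 1 ≤ u + 1 by omega) (show u + 1 ≤ K by omega)
  rw [hp] at hb
  have hr : W.hx.rk (u + 1) = rkg (lh K u) (bh K u bad) K (psR K u (u + 1)) := rfl
  have hQ : W.hx.Q = cHB (lh K u) (bh K u bad) K := rfl
  rw [hr, hp, hQ]
  constructor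
  · intro h1
    rw [rkg_HG hl (fun h => h1 (hb.1 h))]
    have := cn_step (p := fun y => ¬ lh K u y ∧ ¬ bh K u bad y) (le_refl 1)
      ⟨hl, fun h => h1 (hb.1 h)⟩
    rw [Nat.sub_self, cn_zero] at this
    unfold cHG
    omega
  · intro h1
    rw [rkg_HB hl (hb.2 h1)]
    rw [Nat.sub_self]
    have : cHB (lh K u) (bh K u bad) 0 = 0 := rfl
    omega

end

section

variable {K u : ℕ} {ld al : ℕ → Prop}

/-- `M = 2h + 1` is always possible -/
theorem LR.MC_max (S : LR K u ld al) : ∀ i, 1 ≤ i → i < K → i ≠ u → ¬ ld i → ¬ S.bad i →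
    S.J i ≤ 2 * S.h + 1 := by
  intro i h1 h2 h3 h4 h5
  have h6 := S.same i h1 h2 h3 h4
  rw [S.J_eq i]
  have a := S.rk_lg _ (lo_rng (u := u) h1 h2).1 (lo_rng h1 h2).2 (lo_lw h3)
  have b := S.rk_hg _ (hi_rng (u := u) h1 h2).1 (hi_rng h1 h2).2 (hi_lw h3)
  have c : ¬ S.bad (lo u i) ∧ ¬ S.bad (hi u i) := by
    have h7 : ¬ S.bad (i + 1) := fun h => h5 (h6.2 h)
    unfold lo hi oe ee
    split_ifs
    · exact ⟨h5, h7⟩
    · exact ⟨h7, h5⟩
    · exact ⟨h7, h5⟩
    · exact ⟨h5, h7⟩
  have := a c.1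
  have := b c.2
  omega

/-- `M = 2h` is always possible -/
theorem HX.MC_max (S : HX K u ld al) : ∀ i, 1 ≤ i → i < K → ¬ ld i → ¬ S.bad i →
    S.J i ≤ 2 * S.h := by
  intro i h1 h2 h4 h5
  have h3 : i ≠ u := by
    rintro rfl
    exact h4 S.uN
  have h6 := S.same i h1 h2 h4
  rw [S.J_eq i]
  have a := S.rk_lg _ (lo_rng (u := u) h1 h2).1 (lo_rng h1 h2).2 (lo_lw h3)
  have b := S.rk_hg _ (hi_rng (u := u) h1 h2).1 (hi_rng h1 h2).2 (hi_lw h3)
  have c : ¬ S.bad (lo u i) ∧ ¬ S.bad (hi u i) := by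
    have h7 : ¬ S.bad (i + 1) := fun h => h5 (h6.2 h)
    unfold lo hi oe ee
    split_ifs
    · exact ⟨h5, h7⟩
    · exact ⟨h7, h5⟩
    · exact ⟨h7, h5⟩
    · exact ⟨h5, h7⟩
  have := a c.1
  have := b c.2
  omega

end

end Pool.Agent.Lob12
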