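import Pool.Agent.Lob89.RedE

/-!
Four path edges, nothing attached at the vertices `1`, `3`: spiders whose legs have length two.
-/

namespace Pool.Agent.Lob12

open Finset Pool.Agent.Lob89

theorem k4_main {Lf B BL : Type*} [Fintype Lf] [Fintype B] [Fintype BL] [DecidableEq B]
    {la : Lf → ℕ} {ba : B → ℕ} {par : BL → B} (h : EvenData 4 la ba par)
    (h1 : ∀ x, la x ≠ 1) (h3 : ∀ x, la x + 1 ≠ 4) : HasLabels 4 la ba par := by
  classical
  have hd := h.hd
  have hLf : IsEmpty Lf := ⟨fun x => by
    have a1 := hd.la_pos x
    have a2 := hd.la_lt x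
    have a3 := h.la2 x
    have a4 := h1 x
    have a5 := h3 x
    omega⟩
  have hba : ∀ b, ba b = 2 := fun b => by
    have := hd.ev rfl b
    omega
  have hinj : Function.Injective par := by
    intro y y' hy
    have h4 := h.b2 (par y) (hba _)
    have h5 : (univ.filter fun x => la x = 1).card = 0 := by
      rw [Finset.card_eq_zero, Finset.filter_eq_empty_iff]
      exact fun x _ => h1 x
    rw [h5, add_zero] at h4
    exact Finset.card_le_one.1 h4 y (Finset.mem_filter.2 ⟨mem_univ _, rfl⟩) y'
      (Finset.mem_filter.2 ⟨mem_univ _, hy.symm⟩)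
  have hsurj := hd.par_surj
  have hcard : Fintype.card BL = Fintype.card B := Fintype.card_of_bijective ⟨hinj, hsurj⟩
  let e := Fintype.equivFin B
  obtain ⟨s, hs⟩ : ∃ s, s = Fintype.card B := ⟨_, rfl⟩
  have he : ∀ b, (e b : ℕ) < s := fun b => by
    rw [hs]
    exact (e b).isLt
  have heinj : ∀ b b', (e b : ℕ) = (e b' : ℕ) → b = b' := fun b b' hb =>
    e.injective (Fin.ext hb)
  let ft : B → ℕ := fun b => s + 5 + (e b : ℕ)
  let fb : BL → ℕ := fun y => 3 + (e (par y) : ℕ)
  let p : ℕ → ℕ := fun i => if i = 1 then 1 else if i = 2 then s + 3 else if i = 3 then s + 4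
    else 2
  have hft : ∀ b, ft b = s + 5 + (e b : ℕ) := fun _ => rfl
  have hfb : ∀ y, fb y = 3 + (e (par y) : ℕ) := fun _ => rfl
  have hsum : ∀ b, ft b ≤ ∑ b, ft b := fun b =>
    Finset.single_le_sum (fun y _ => Nat.zero_le _) (Finset.mem_univ b)
  have hp : ∀ i : Fin 4, p (i + 1) = if (i : ℕ) = 0 then 1 else if (i : ℕ) = 1 then s + 3 else
      if (i : ℕ) = 2 then s + 4 else 2 := by
    intro i
    fin_cases i <;> rfl
  refine ⟨p, fun _ => 0, ft, fb, ?_, ?_, ?_⟩
  · rintro (i | x | b | y) (i' | x' | b' | y') hl
    · change p (i + 1) = p (i' + 1) at hl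
      rw [hp, hp] at hl
      rw [Fin.ext (by split_ifs at hl <;> omega : (i : ℕ) = i')]
    · exact hLf.elim x'
    · change p (i + 1) = ft b' at hl
      rw [hp, hft] at hl
      split_ifs at hl <;> omega
    · change p (i + 1) = fb y' at hl
      have := he (par y')
      rw [hp, hfb] at hl
      split_ifs at hl <;> omega
    · exact hLf.elim x
    · exact hLf.elim x
    · exact hLf.elim x
    · exact hLf.elim x
    · change ft b = p (i' + 1) at hl
      rw [hp, hft] at hl
      split_ifs at hl <;> omega
    · exact hLf.elim x'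
    · change ft b = ft b' at hl
      rw [hft, hft] at hl
      rw [heinj b b' (by omega)]
    · change ft b = fb y' at hl
      have := he (par y')
      rw [hft, hfb] at hl
      omega
    · change fb y = p (i' + 1) at hl
      have := he (par y)
      rw [hp, hfb] at hl
      split_ifs at hl <;> omega
    · exact hLf.elim x'
    · change fb y = ft b' at hl
      have := he (par y)
      rw [hft, hfb] at hl
      omega
    · change fb y = fb y' at hl
      rw [hfb, hfb] at hl
      rw [hinj (heinj (par y) (par y') (by omega))]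
  · have hL0 : Fintype.card Lf = 0 := Fintype.card_eq_zero
    rintro (i | x | b | y)
    · show 1 ≤ p (i + 1) ∧ p (i + 1) ≤ _
      rw [hp, hcard]
      split_ifs <;> omega
    · exact hLf.elim x
    · show 1 ≤ ft b ∧ ft b ≤ _
      have := he b
      rw [hft, hcard]
      omega
    · show 1 ≤ fb y ∧ fb y ≤ _
      have := he (par y)
      rw [hfb, hcard]
      omega
  · have s0 : ∀ i : Fin 5, vsums 4 la ba par p (fun _ => 0) ft fb (Sum.inl i) =
        if (i : ℕ) = 0 then 1 else if (i : ℕ) = 1 then s + 4 else
          if (i : ℕ) = 2 then 2 * s + 7 + ∑ b, ft b else if (i : ℕ) = 3 then s + 6 else 2 := by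
      intro i
      show pathSum 4 la ba p (fun _ => 0) ft i = _
      unfold pathSum
      have a1 : (∑ x : Lf, if la x = (i : ℕ) then (0 : ℕ) else 0) = 0 := by
        refine Finset.sum_eq_zero fun x _ => ?_
        split_ifs <;> rfl
      have a2 : (∑ b, if ba b = (i : ℕ) then ft b else 0) =
          if (i : ℕ) = 2 then ∑ b, ft b else 0 := by
        by_cases h : (i : ℕ) = 2
        · rw [if_pos h]
          exact Finset.sum_congr rfl fun b _ => if_pos (by rw [hba b, h])
        · rw [if_neg h]
          exact Finset.sum_eq_zero fun b _ => if_neg (by rw [hba b]; omega)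
      rw [a1, a2]
      fin_cases i <;> simp [p] <;> omega
    have s1 : ∀ b, vsums 4 la ba par p (fun _ => 0) ft fb (Sum.inr (Sum.inr (Sum.inl b))) =
        s + 8 + 2 * (e b : ℕ) := by
      intro b
      show ft b + (∑ x, if par x = b then fb x else 0) = _
      obtain ⟨y, hy⟩ := hsurj b
      have a1 : (∑ x, if par x = b then fb x else 0) = fb y := by
        rw [Finset.sum_eq_single y]
        · rw [if_pos hy]
        · intro x _ hx
          rw [if_neg fun h => hx (hinj (by rw [h, hy]))]
        · intro h
          exact absurd (Finset.mem_univ y) h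
      rw [a1, hft, hfb, hy]
      omega
    have s2 : ∀ y, vsums 4 la ba par p (fun _ => 0) ft fb (Sum.inr (Sum.inr (Sum.inr y))) =
        3 + (e (par y) : ℕ) := fun y => rfl
    rintro (i | x | b | y) (i' | x' | b' | y') hl
    · rw [s0, s0] at hl
      congr 1
      apply Fin.ext
      split_ifs at hl <;> omega
    · exact hLf.elim x'
    · rw [s0, s1] at hl
      have a1 := he b'
      have a2 := hsum b'
      rw [hft] at a2
      split_ifs at hl <;> omega
    · rw [s0, s2] at hl
      have a1 := he (par y')
      split_ifs at hl <;> omega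
    · exact hLf.elim x
    · exact hLf.elim x
    · exact hLf.elim x
    · exact hLf.elim x
    · rw [s0, s1] at hl
      have a1 := he b
      have a2 := hsum b
      rw [hft] at a2
      split_ifs at hl <;> omega
    · exact hLf.elim x'
    · rw [s1, s1] at hl
      rw [heinj b b' (by omega)]
    · rw [s1, s2] at hl
      have a1 := he (par y')
      omega
    · rw [s0, s2] at hl
      have a1 := he (par y)
      split_ifs at hl <;> omega
    · exact hLf.elim x'
    · rw [s1, s2] at hl
      have a1 := he (par y)
      omega
    · rw [s2, s2] at hl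
      rw [hinj (heinj (par y) (par y') (by omega))]

end Pool.Agent.Lob12
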