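import Pool.Agent.Lob5.E4Defs

/-!
# Two low edges in the middle: ranks, numbers and layers

`K = 2h+2` path edges. At the vertex `u` (odd, nothing attached) both edges are low; the low edges are the odd ones
`≤ u` and the even ones `> u`, so `h + 2` edges are low and `h` are high. The sum at `u` is the label of another low
edge (`LX.V`). The other labels are those of the odd case without a special vertex, for ranks which only satisfy the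
weak conditions `LXOK`.
-/

namespace Pool.Agent.Lob12

open Pool.Agent.Lob5 Pool.Agent.Lob89

/-- the low edges -/
def lw (u e : ℕ) : Prop := (e ≤ u ∧ e % 2 = 1) ∨ (u < e ∧ e % 2 = 0)

instance (u e : ℕ) : Decidable (lw u e) := by
  unfold lw
  infer_instance

/-- the low edge at the vertex `i` -/
def lo (u i : ℕ) : ℕ := if i < u then oe i else ee i

/-- the high edge at the vertex `i` -/
def hi (u i : ℕ) : ℕ := if i < u then ee i else oe i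

/-- Colours and ranks of the edges. -/
structure LX (K u : ℕ) (ld al : ℕ → Prop) where
  h : ℕ
  P : ℕ
  Q : ℕ
  bad : ℕ → Prop
  rk : ℕ → ℕ
  al_ld : ∀ i, al i → ld i
  hK : K = 2 * h + 2
  u1 : u % 2 = 1
  uK : u < K
  uC : ¬ ld u
  P1 : 1 ≤ P
  Ph : P ≤ h + 2
  Qh : Q ≤ h
  same : ∀ i, 1 ≤ i → i < K → i ≠ u → ¬ ld i → (bad i ↔ bad (i + 1))
  dif1 : ∀ i, 1 ≤ i → i < K → ld i → bad (lo u i) → ¬ bad (hi u i)
  dif2 : ∀ i, 1 ≤ i → i < K → al i → ¬ bad (lo u i) → bad (hi u i)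
  rk_lb : ∀ e, 1 ≤ e → e ≤ K → lw u e → bad e → 1 ≤ rk e ∧ rk e ≤ P
  rk_lg : ∀ e, 1 ≤ e → e ≤ K → lw u e → ¬ bad e → P + 1 ≤ rk e ∧ rk e ≤ h + 2
  rk_hb : ∀ e, 1 ≤ e → e ≤ K → ¬ lw u e → bad e → 1 ≤ rk e ∧ rk e ≤ Q
  rk_hg : ∀ e, 1 ≤ e → e ≤ K → ¬ lw u e → ¬ bad e → Q + 1 ≤ rk e ∧ rk e ≤ h
  rk_inj : ∀ e f, 1 ≤ e → e ≤ K → 1 ≤ f → f ≤ K → (lw u e ↔ lw u f) → rk e = rk f → e = f
  cmp : ∀ i j, 1 ≤ i → i < K → i ≠ u → ¬ ld i → 1 ≤ j → j < K → j ≠ u → ¬ ld j →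
    (bad i ↔ bad j) →
    (rk (lo u i) ≤ rk (lo u j) ∧ rk (hi u i) ≤ rk (hi u j)) ∨
      (rk (lo u j) ≤ rk (lo u i) ∧ rk (hi u j) ≤ rk (hi u i))

/-- the sum of the ranks at the vertex `i` -/
def LX.J {K u : ℕ} {ld al : ℕ → Prop} (S : LX K u ld al) (i : ℕ) : ℕ := S.rk i + S.rk (i + 1)

/-- the sum at `u` is the label of an inner low edge; `μ = n2 + j` -/
def LX.V {K u : ℕ} {ld al : ℕ → Prop} (S : LX K u ld al) (μ : ℕ) : Prop :=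
  ∃ e, 2 ≤ e ∧ e < K ∧ lw u e ∧ S.rk e = μ + S.rk u + S.rk (u + 1) ∧
    ((S.bad u ∧ S.bad (u + 1) ∧ S.bad e) ∨ (S.bad u ∧ ¬ S.bad (u + 1) ∧ ¬ S.bad e) ∨
      (¬ S.bad u ∧ S.bad (u + 1) ∧ ¬ S.bad e))

/-- `i` is a candidate for a low label -/
def LX.cd {K u : ℕ} {ld al : ℕ → Prop} (S : LX K u ld al) (M n2 nT Ux i : ℕ) : Prop :=
  (S.bad (lo u i) → M ≤ S.J i + S.h + 2 + n2) ∧
    (¬ S.bad (lo u i) → M + nT ≤ S.J i + S.h + 2 + n2 + Ux)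

open Classical in
/-- The weak conditions: `st` static vertices, `tw` vertices of the roles `II`, `I`; `e` static leaves. -/
structure LXOK {K u : ℕ} {ld al : ℕ → Prop} (S : LX K u ld al) (st tw : ℕ → Prop)
    (M n2 nT Ux N0 e : ℕ) : Prop where
  M1 : S.P + S.Q + 1 ≤ M
  M2 : M ≤ 2 * S.h + 2
  MC : ∀ i, 1 ≤ i → i < K → i ≠ u → ¬ ld i → ¬ S.bad i → S.J i ≤ M
  aB : ∀ a, 1 ≤ a → a < K → al a → S.bad (lo u a) → M ≤ S.J a + S.h + 2 + n2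
  aG : ∀ a, 1 ≤ a → a < K → al a → ¬ S.bad (lo u a) → M + nT ≤ S.J a + S.h + 2 + n2 + Ux
  nB : ∀ x, 1 ≤ x → x < K → tw x → S.bad (lo u x) → M ≤ S.J x + 2 * n2 + S.P + S.h + 3
  nG : ∀ x, 1 ≤ x → x < K → tw x → ¬ S.bad (lo u x) →
    M + nT ≤ S.J x + 2 * n2 + Ux + S.P + S.h + 3
  tS : ∀ z, 1 ≤ z → z < K → st z → M ≤ S.J z + S.h + 2 + n2 + N0 + S.Q
  tP : ∀ z, 1 ≤ z → z < K → st z → S.P ≤ S.J z + 2
  bb : ∀ a z, 1 ≤ a → a < K → 1 ≤ z → z < K → al a → S.bad (lo u a) → st z →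
    S.J a ≤ S.J z + S.Q + 1
  b0 : e = 0 → ∀ a z, 1 ≤ a → a < K → 1 ≤ z → z < K → al a → S.bad (lo u a) → st z →
    S.J a ≤ S.J z + S.P
  sh : ∀ a x, 1 ≤ a → a < K → 1 ≤ x → x < K → al a → S.bad (lo u a) → ld x → ¬ al x →
    S.J a ≤ S.J x + n2 + S.P
  gg : ∀ a z, 1 ≤ a → a < K → 1 ≤ z → z < K → al a → ¬ S.bad (lo u a) → st z →
    ¬ S.bad (lo u z) → S.J a ≤ S.J z + S.Q + (e + 1) / 2
  gb : ∀ a z, 1 ≤ a → a < K → 1 ≤ z → z < K → al a → ¬ S.bad (lo u a) → st z →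
    S.bad (lo u z) →
    S.J a + ((Finset.range K).filter fun i => 1 ≤ i ∧ tw i ∧ ¬ S.cd M n2 nT Ux i).card ≤
      S.J z + S.Q + (e + 1) / 2
  lt : e = 0 → S.P ≤ S.Q ∨ ∀ a x, 1 ≤ a → a < K → 1 ≤ x → x < K → al a →
    ¬ S.bad (lo u a) → ld x → ¬ al x → S.J a + 1 ≤ S.J x + n2 + S.P
  two : 2 ≤ S.P ∨ ∀ i, 1 ≤ i → i < K → al i ∨ st i → ¬ S.bad (lo u i)

/-- the size of the low zone -/
def wl {K u : ℕ} {ld al : ℕ → Prop} (S : LX K u ld al) (n : Lob5.Num) : ℕ :=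
  n.n2 + n.Ux + S.h + 2

/-- the numbers for the verification -/
def nmL {K u : ℕ} {ld al : ℕ → Prop} (S : LX K u ld al) (n : Lob5.Num) (M e : ℕ) : Nm where
  h := S.h
  P := S.P
  Q := S.Q
  w := wl S n
  N0 := n.N0
  nT := n.nT
  n2 := n.n2
  Ux := n.Ux
  e := e
  eb := e / 2
  et := (e + 1) / 2
  s1 := 0
  s0v := wl S n + n.N0
  pk := 0
  c0 := 0
  om := 0
  g1 := wl S n + n.N0 + S.Q + n.nT + 1
  kb := fun i => S.bad (lo u i)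
  cd := fun i => S.cd M n.n2 n.nT n.Ux i

/-- the layers -/
def lyL {K u : ℕ} {ld al : ℕ → Prop} (S : LX K u ld al) (n : Lob5.Num) (M j : ℕ) : Ly where
  j := j
  U := n.Ux - j
  thr := 2 * wl S n + n.N0 + n.nT + M - (S.h + 2)
  be := wl S n + n.N0
  nxf := 0
  nlg := 0
  yv := fun _ => 0
  xv := fun _ => 0
  xf := fun _ => false
  lg := fun _ => false
  p := fun e => if lw u e then n.n2 + j + S.rk e + (if S.rk e ≤ S.P then 0 else n.Ux - j)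
    else wl S n + n.N0 + S.rk e + (if S.Q < S.rk e then n.nT else 0)
  X := fun i => if i = 0 then 0 else n.n2 + j + S.P + i

end Pool.Agent.Lob12
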