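import Pool.Agent.Lob89.EvenMirror

/-!
# Longest paths of a lobster

A path whose length is the diameter is dominating: every vertex is at distance at most two from it. The reduction
`reductionE2` to the data `EvenData` if there is a longest path whose second vertex has a degree of at least three.
-/

namespace Pool.Agent.Lob12

open SimpleGraph Finset Pool.Agent.Lob89

universe u

variable {V : Type u} {G : SimpleGraph V}

/-- `MaxDom.near` with the bound two -/
theorem near2 (hT : G.IsTree) {a b : V} {p : G.Walk a b} (h : MaxDom G p)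
    (hk : 1 ≤ p.length) (x : V) :
    ∃ i, i ≤ p.length ∧ G.dist x (p.getVert i) ≤ i ∧ G.dist x (p.getVert i) + i ≤ p.length ∧
      G.dist x (p.getVert i) ≤ 2 := by
  classical
  by_cases hx : x ∈ p.support
  · obtain ⟨i, hi, hi'⟩ := Walk.mem_support_iff_exists_getVert.1 hx
    exact ⟨i, hi', by rw [hi]; simp, by rw [hi]; simpa using hi', by rw [hi]; simp⟩
  · obtain ⟨π, hπ⟩ := exists_parent hT.connected h.1
    obtain ⟨h1, h2⟩ := hπ x hx
    have d1 := SimpleGraph.dist_eq_one_iff_adj.2 h1
    rcases h2 with h2 | ⟨h2, h3⟩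
    · obtain ⟨i, hi, hi'⟩ := Walk.mem_support_iff_exists_getVert.1 h2
      have h0 : i ≠ 0 := by
        rintro rfl
        rw [Walk.getVert_zero] at hi
        exact hx (h.free1 x (hi ▸ h1))
      have hl : i ≠ p.length := by
        rintro rfl
        rw [Walk.getVert_length] at hi
        exact hx (h.free2 x (hi ▸ h1))
      refine ⟨i, hi', ?_, ?_, ?_⟩ <;> rw [hi, d1] <;> omega
    · obtain ⟨i, hi, hi'⟩ := Walk.mem_support_iff_exists_getVert.1 h3
      have h4 := (hπ (π x) h2).1
      have d2 := SimpleGraph.dist_eq_one_iff_adj.2 h4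
      have d3 := hT.connected.dist_triangle (u := x) (v := π x) (w := π (π x))
      have h0 : i ≠ 0 := by
        rintro rfl
        rw [Walk.getVert_zero] at hi
        exact h2 (h.free1 _ (hi ▸ h4))
      have hl : i ≠ p.length := by
        rintro rfl
        rw [Walk.getVert_length] at hi
        exact h2 (h.free2 _ (hi ▸ h4))
      have h01 : i ≠ 1 := by
        rintro rfl
        exact h.second1 hT hk (π x) x h2 hx (hi ▸ h4) h1
      have hl1 : i ≠ p.length - 1 := by
        rintro rfl
        exact h.second2 hT hk (π x) x h2 hx (hi ▸ h4) h1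
      refine ⟨i, hi', ?_, ?_, ?_⟩ <;> rw [hi] <;> omega

/-- A vertex between the ends of a path lies on the path. -/
theorem mem_of_dist_add (hT : G.IsTree) {a b : V} {q : G.Walk a b} (hq : q.IsPath) {y : V}
    (h : G.dist a y + G.dist y b ≤ q.length) : y ∈ q.support := by
  obtain ⟨q1, -, h1⟩ := hT.connected.exists_path_of_dist a y
  obtain ⟨q2, -, h2⟩ := hT.connected.exists_path_of_dist y b
  have h3 : (q1.append q2).length = G.dist a b := by
    have h4 := dist_of_path hT hq
    have h5 := SimpleGraph.dist_le (q1.append q2)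
    rw [Walk.length_append, h1, h2] at h5 ⊢
    omega
  have h4 := Walk.isPath_of_length_eq_dist _ h3
  rw [(hT.existsUnique_path a b).unique hq h4]
  rw [Walk.mem_support_append_iff]
  exact Or.inl q1.end_mem_support

private theorem dom_aux (hT : G.IsTree) {c d : V} {p : G.Walk c d} (h : MaxDom G p)
    (hk : 1 ≤ p.length) {a b : V} {q : G.Walk a b} (hq : q.IsPath) (hl : q.length = p.length)
    {i j : ℕ} (hij : i ≤ j) (hj : j ≤ p.length) (ha : G.dist a (p.getVert i) ≤ i)
    (ha2 : G.dist a (p.getVert i) ≤ 2) (hb : G.dist b (p.getVert j) + j ≤ p.length)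
    (hb2 : G.dist b (p.getVert j) ≤ 2) : Dom G q := by
  have hc := hT.connected
  have hD := dist_of_path hT hq
  have hseg : ∀ l l', l ≤ l' → l' ≤ p.length →
      G.dist (p.getVert l) (p.getVert l') + l ≤ l' := by
    intro l l' h1 h2
    obtain ⟨n, rfl⟩ := Nat.exists_eq_add_of_le h1
    have := dist_getVert hc p l n h2
    omega
  have hsym : ∀ x y, G.dist x y = G.dist y x := fun x y => SimpleGraph.dist_comm
  have t1 := hc.dist_triangle (u := a) (v := p.getVert i) (w := b)
  have t2 := hc.dist_triangle (u := p.getVert i) (v := p.getVert j) (w := b)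
  have t3 := hsym (p.getVert j) b
  have t4 := hseg i j hij hj
  have hmem : ∀ l, i ≤ l → l ≤ j → p.getVert l ∈ q.support := by
    intro l h1 h2
    apply mem_of_dist_add hT hq
    have s1 := hc.dist_triangle (u := a) (v := p.getVert i) (w := p.getVert l)
    have s2 := hc.dist_triangle (u := p.getVert l) (v := p.getVert j) (w := b)
    have s3 := hseg i l h1 (by omega)
    have s4 := hseg l j h2 hj
    omega
  refine ⟨hq, fun x => ?_⟩
  obtain ⟨l, hl1, hl2, hl3, hl4⟩ := near2 hT h hk x
  by_cases h1 : l < i
  · refine ⟨p.getVert i, hmem i le_rfl hij, ?_⟩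
    have s1 := hc.dist_triangle (u := x) (v := p.getVert l) (w := p.getVert i)
    have s2 := hseg l i h1.le (by omega)
    omega
  by_cases h2 : j < l
  · refine ⟨p.getVert j, hmem j hij le_rfl, ?_⟩
    have s1 := hc.dist_triangle (u := x) (v := p.getVert l) (w := p.getVert j)
    have s2 := hseg j l h2.le hl1
    have s3 := hsym (p.getVert l) (p.getVert j)
    omega
  · exact ⟨p.getVert l, hmem l (by omega) (by omega), hl4⟩

/-- A path whose length is the diameter is a longest dominating path. -/
theorem maxDom_of_diam [Fintype V] (hL : IsLobster G) (h3 : 3 ≤ Fintype.card V) {a b : V}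
    {q : G.Walk a b} (hq : q.IsPath) (hl : q.length = G.diam) : MaxDom G q := by
  obtain ⟨hT, u₀, v₀, p₀, hp₀⟩ := hL
  obtain ⟨c, d, p, hp⟩ := exists_maxDom ⟨u₀, v₀, p₀, hp₀⟩
  have h2 := two_le_length hT.connected hp.1 hp.free1 hp.free2 h3
  have hk : 1 ≤ p.length := by omega
  have hdiam := hp.diam hT hk
  have hlp : q.length = p.length := by omega
  refine ⟨?_, fun u' v' r hr => by rw [hlp]; exact hp.2 u' v' r hr⟩
  obtain ⟨i, hi1, hi2, hi3, hi4⟩ := near2 hT hp hk a
  obtain ⟨j, hj1, hj2, hj3, hj4⟩ := near2 hT hp hk b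
  rcases le_total i j with hij | hij
  · exact dom_aux hT hp hk hq hlp hij hj1 hi2 hi4 hj3 hj4
  · have h4 := dom_aux hT hp hk hq.reverse (by simpa using hlp) hij hi1 hj2 hj4 hi3 hi4
    simpa using h4.reverse

/-- an inner vertex of a path has degree at least two -/
theorem two_le_degree [Fintype V] [DecidableRel G.Adj] {a b : V} {q : G.Walk a b}
    (hq : q.IsPath) {i : ℕ} (h1 : 1 ≤ i) (h2 : i < q.length) : 2 ≤ G.degree (q.getVert i) := by
  classical
  obtain ⟨i, rfl⟩ : ∃ i', i = i' + 1 := ⟨i - 1, by omega⟩
  have a1 : G.Adj (q.getVert i) (q.getVert (i + 1)) := q.adj_getVert_succ (by omega)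
  have a2 : G.Adj (q.getVert (i + 1)) (q.getVert (i + 1 + 1)) := q.adj_getVert_succ (by omega)
  have hne : q.getVert i ≠ q.getVert (i + 1 + 1) := by
    intro h
    have := hq.getVert_injOn (by simp; omega) (by simp; omega) h
    omega
  have hsub : ({q.getVert i, q.getVert (i + 1 + 1)} : Finset V) ⊆
      G.neighborFinset (q.getVert (i + 1)) := by
    intro x hx
    rw [Finset.mem_insert, Finset.mem_singleton] at hx
    rw [mem_neighborFinset]
    rcases hx with rfl | rfl
    · exact a1.symm
    · exact a2
  have hcard := Finset.card_le_card hsub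
  rw [Finset.card_pair hne, card_neighborFinset_eq_degree] at hcard
  exact hcard

end Pool.Agent.Lob12
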