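import Pool.Agent.Lob12.LlLy

/-!
# Two low edges in the middle, one of them reserved: ranks, numbers and layers

`K = 2h+2` path edges. At the vertex `u` (odd, nothing attached) both edges are low; the low edges are the odd ones
`≤ u` and the even ones `> u`. The edge `u` gets the label `n2 + 1` in all layers; the other `h + 1` low edges and the
`h` high edges get the labels of the odd case without a special vertex, for ranks which only satisfy the weak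
conditions `LROK`. The sum at `u` is the label of another low edge (`LR.V`).
-/

namespace Pool.Agent.Lob12

open Pool.Agent.Lob5 Pool.Agent.Lob89

/-- the low edge of an inner vertex is `u` only at `u - 1` -/
theorem lo_ne_u {u i : ℕ} (_h : i ≠ u) (h1 : u % 2 = 1) (h' : i + 1 ≠ u) : lo u i ≠ u := by
  unfold lo oe ee
  split_ifs <;> omega

theorem lo_pred {u : ℕ} (h1 : u % 2 = 1) (h2 : 2 ≤ u) : lo u (u - 1) = u := by
  unfold lo oe ee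
  split_ifs <;> omega

theorem hi_pred {u : ℕ} (h1 : u % 2 = 1) (h2 : 2 ≤ u) : hi u (u - 1) = u - 1 := by
  unfold hi oe ee
  split_ifs <;> omega

/-- Colours and ranks of the edges. -/
structure LR (K u : ℕ) (ld al : ℕ → Prop) where
  h : ℕ
  P : ℕ
  Q : ℕ
  bad : ℕ → Prop
  rk : ℕ → ℕ
  al_ld : ∀ i, al i → ld i
  hK : K = 2 * h + 2
  u1 : u % 2 = 1
  uK : u < K
  uC : ¬ ld u
  ub : bad u
  uk : rk u = 0
  Ph : P ≤ h + 1
  Qh : Q ≤ h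
  same : ∀ i, 1 ≤ i → i < K → i ≠ u → ¬ ld i → (bad i ↔ bad (i + 1))
  dif1 : ∀ i, 1 ≤ i → i < K → ld i → bad (lo u i) → ¬ bad (hi u i)
  dif2 : ∀ i, 1 ≤ i → i < K → al i → ¬ bad (lo u i) → bad (hi u i)
  rk_lb : ∀ e, 1 ≤ e → e ≤ K → e ≠ u → lw u e → bad e → 1 ≤ rk e ∧ rk e ≤ P
  rk_lg : ∀ e, 1 ≤ e → e ≤ K → lw u e → ¬ bad e → P + 1 ≤ rk e ∧ rk e ≤ h + 1
  rk_hb : ∀ e, 1 ≤ e → e ≤ K → ¬ lw u e → bad e → 1 ≤ rk e ∧ rk e ≤ Q
  rk_hg : ∀ e, 1 ≤ e → e ≤ K → ¬ lw u e → ¬ bad e → Q + 1 ≤ rk e ∧ rk e ≤ h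
  rk_inj : ∀ e f, 1 ≤ e → e ≤ K → 1 ≤ f → f ≤ K → (lw u e ↔ lw u f) → rk e = rk f → e = f
  cu : 2 ≤ u → ¬ ld (u - 1) → rk (u - 1) = 1
  cmp : ∀ i j, 1 ≤ i → i < K → i ≠ u → i + 1 ≠ u → ¬ ld i → 1 ≤ j → j < K → j ≠ u →
    j + 1 ≠ u → ¬ ld j → (bad i ↔ bad j) →
    (rk (lo u i) ≤ rk (lo u j) ∧ rk (hi u i) ≤ rk (hi u j)) ∨
      (rk (lo u j) ≤ rk (lo u i) ∧ rk (hi u j) ≤ rk (hi u i))

/-- the sum of the ranks at the vertex `i` -/
def LR.J {K u : ℕ} {ld al : ℕ → Prop} (S : LR K u ld al) (i : ℕ) : ℕ := S.rk i + S.rk (i + 1)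

/-- the sum at `u` is the label of an inner low edge -/
def LR.V {K u : ℕ} {ld al : ℕ → Prop} (S : LR K u ld al) (n2 : ℕ) : Prop :=
  ∃ e, 2 ≤ e ∧ e < K ∧ e ≠ u ∧ lw u e ∧ S.rk e = n2 + 1 + S.rk (u + 1) ∧
    (S.bad (u + 1) ↔ S.bad e)

/-- `i` is a candidate for a low label -/
def LR.cd {K u : ℕ} {ld al : ℕ → Prop} (S : LR K u ld al) (M n2 nT Ux i : ℕ) : Prop :=
  (S.bad (lo u i) → M ≤ S.J i + S.h + 2 + n2) ∧
    (¬ S.bad (lo u i) → M + nT ≤ S.J i + S.h + 2 + n2 + Ux)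

open Classical in
/-- The weak conditions: `st` static vertices, `tw` vertices of the roles `II`, `I`; `e` static leaves, `dl`
bushes with `T` top which are not designated. -/
structure LROK {K u : ℕ} {ld al : ℕ → Prop} (S : LR K u ld al) (st tw : ℕ → Prop)
    (M n2 nT Ux N0 e dl : ℕ) : Prop where
  M1 : S.P + S.Q + 1 ≤ M
  M2 : M ≤ 2 * S.h + 1
  MC : ∀ i, 1 ≤ i → i < K → i ≠ u → ¬ ld i → ¬ S.bad i → S.J i ≤ M
  us : ∀ i, 1 ≤ i → i + 1 = u → ¬ st i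
  aB : ∀ a, 1 ≤ a → a < K → al a → S.bad (lo u a) → M ≤ S.J a + S.h + 2 + n2
  aG : ∀ a, 1 ≤ a → a < K → al a → ¬ S.bad (lo u a) → M + nT ≤ S.J a + S.h + 2 + n2 + Ux
  nB : ∀ x, 1 ≤ x → x < K → tw x → S.bad (lo u x) → M ≤ S.J x + 2 * n2 + S.P + S.h + 4
  nG : ∀ x, 1 ≤ x → x < K → tw x → ¬ S.bad (lo u x) →
    M + nT ≤ S.J x + 2 * n2 + Ux + S.P + S.h + 4
  tS : ∀ z, 1 ≤ z → z < K → st z → M ≤ S.J z + S.h + 2 + n2 + N0 + S.Q
  tP : ∀ z, 1 ≤ z → z < K → st z → S.P ≤ S.J z + 2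
  bb : ∀ a z, 1 ≤ a → a < K → 1 ≤ z → z < K → al a → S.bad (lo u a) → st z →
    S.J a ≤ S.J z + S.Q + 1 ∨ S.J a ≤ S.J z + S.Q + dl + (e + 1) / 2
  b0 : e = 0 → dl = 0 → ∀ a z, 1 ≤ a → a < K → 1 ≤ z → z < K → al a → S.bad (lo u a) → st z →
    S.J a ≤ S.J z + S.P
  sh : ∀ a x, 1 ≤ a → a < K → 1 ≤ x → x < K → al a → S.bad (lo u a) → ld x → ¬ al x →
    S.J a ≤ S.J x + n2 + S.P + 1
  gg : ∀ a z, 1 ≤ a → a < K → 1 ≤ z → z < K → al a → ¬ S.bad (lo u a) → st z →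
    ¬ S.bad (lo u z) → S.J a ≤ S.J z + S.Q + (e + 1) / 2 + dl
  gb : ∀ a z, 1 ≤ a → a < K → 1 ≤ z → z < K → al a → ¬ S.bad (lo u a) → st z →
    S.bad (lo u z) →
    S.J a + ((Finset.range K).filter fun i => 1 ≤ i ∧ tw i ∧ ¬ S.cd M n2 nT Ux i).card ≤
      S.J z + S.Q + (e + 1) / 2 + dl
  lt : e = 0 → S.P ≤ S.Q ∨ ∀ a x, 1 ≤ a → a < K → 1 ≤ x → x < K → al a →
    ¬ S.bad (lo u a) → ld x → ¬ al x → S.J a ≤ S.J x + n2 + S.P
  two : 2 ≤ S.P ∨ ∀ i, 1 ≤ i → i < K → al i ∨ st i → ¬ S.bad (lo u i)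

/-- the size of the low zone -/
def wr {K u : ℕ} {ld al : ℕ → Prop} (S : LR K u ld al) (n : Lob5.Num) : ℕ :=
  n.n2 + n.Ux + S.h + 2

/-- the numbers for the verification -/
def nmR {K u : ℕ} {ld al : ℕ → Prop} (S : LR K u ld al) (n : Lob5.Num) (M e dl : ℕ) : Nm where
  h := S.h
  P := S.P
  Q := S.Q
  w := wr S n
  N0 := n.N0
  nT := n.nT
  n2 := n.n2
  Ux := n.Ux
  e := e
  eb := e / 2
  et := (e + 1) / 2
  s1 := 1
  s0v := wr S n + n.N0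
  pk := 0
  c0 := 0
  om := 0
  g1 := wr S n + n.N0 + S.Q + n.nT + 1
  kb := fun i => S.bad (lo u i)
  cd := fun i => S.cd M n.n2 n.nT n.Ux i
  dl := dl

/-- the layers -/
def lyR {K u : ℕ} {ld al : ℕ → Prop} (S : LR K u ld al) (n : Lob5.Num) (M j : ℕ) : Ly where
  j := j
  U := n.Ux - j
  thr := 2 * wr S n + n.N0 + n.nT + M - (S.h + 1)
  be := wr S n + n.N0
  nxf := 0
  nlg := 0
  yv := fun _ => 0
  xv := fun _ => 0
  xf := fun _ => false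
  lg := fun _ => false
  p := fun e => if e = u then n.n2 + 1
    else if lw u e then n.n2 + 1 + j + S.rk e + (if S.rk e ≤ S.P then 0 else n.Ux - j)
    else wr S n + n.N0 + S.rk e + (if S.Q < S.rk e then n.nT else 0)
  X := fun i => if i = 0 then 0 else n.n2 + 1 + j + S.P + i

end Pool.Agent.Lob12
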