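import Pool.Agent.Lob12.LrDefs

/-!
# Two low edges in the middle, one of them reserved: the layers satisfy `LyOK`
-/

namespace Pool.Agent.Lob12

open Pool.Agent.Lob5 Pool.Agent.Lob89

/-- the translation of the roles -/
structure CtxR {K u : ℕ} {ld al : ℕ → Prop} (S : LR K u ld al) (st tw : ℕ → Prop)
    (n : Lob5.Num) (e j : ℕ) (rv : ℕ → RV) : Prop where
  jU : n.nT + j ≤ n.Ux
  eN : e ≤ n.N0
  V : S.V n.n2
  C : ∀ i, 1 ≤ i → i < K → rv i = .C → ¬ ld i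
  A : ∀ i, 1 ≤ i → i < K → (rv i).isA = true → al i
  S : ∀ i, 1 ≤ i → i < K → (rv i).isS = true → st i
  N : ∀ i, 1 ≤ i → i < K → rv i = .II ∨ rv i = .I → tw i
  nl : ∀ i, 1 ≤ i → i < K → (rv i).isN = true → ld i ∧ ¬ al i
  no : ∀ i, 1 ≤ i → i < K → rv i ≠ .As ∧ rv i ≠ .Fs ∧ rv i ≠ .FR

private theorem isS_N {r : RV} (h : r.isS = true) : r.isN = true := by
  cases r <;> simp_all [RV.isS, RV.isN]

private theorem II_N {r : RV} (h : r = .II ∨ r = .I) : r.isN = true := by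
  rcases h with h | h <;> subst h <;> rfl

section

variable {K u : ℕ} {ld al : ℕ → Prop} (S : LR K u ld al)

private theorem rk_lo_hi (f : ℕ → ℕ) (u i : ℕ) : f (lo u i) + f (hi u i) = f i + f (i + 1) := by
  unfold lo hi oe ee
  split_ifs
  · rfl
  · exact add_comm _ _
  · exact add_comm _ _
  · rfl

theorem LR.J_eq (i : ℕ) : S.J i = S.rk (lo u i) + S.rk (hi u i) := (rk_lo_hi S.rk u i).symm

private theorem same' {i : ℕ} (h1 : 1 ≤ i) (h2 : i < K) (hu : i ≠ u) (h3 : ¬ ld i) :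
    (S.bad i ↔ S.bad (lo u i)) ∧ (S.bad i ↔ S.bad (hi u i)) := by
  have h4 := S.same i h1 h2 hu h3
  unfold lo hi oe ee
  split_ifs
  · exact ⟨Iff.rfl, h4⟩
  · exact ⟨h4, Iff.rfl⟩
  · exact ⟨h4, Iff.rfl⟩
  · exact ⟨Iff.rfl, h4⟩

/-- unloaded vertices have comparable ranks -/
private theorem cmp' {i i' : ℕ} (h1 : 1 ≤ i) (h2 : i < K) (hu : i ≠ u) (hv : i + 1 ≠ u)
    (h3 : ¬ ld i) (h1' : 1 ≤ i') (h2' : i' < K) (hu' : i' ≠ u) (hv' : i' + 1 ≠ u)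
    (h3' : ¬ ld i') :
    (S.rk (lo u i) ≤ S.rk (lo u i') ∧ S.rk (hi u i) ≤ S.rk (hi u i')) ∨
      (S.rk (lo u i') ≤ S.rk (lo u i) ∧ S.rk (hi u i') ≤ S.rk (hi u i)) := by
  obtain ⟨ho, he⟩ := same' S h1 h2 hu h3
  obtain ⟨ho', he'⟩ := same' S h1' h2' hu' h3'
  have r1 := S.rk_lb _ (lo_rng h1 h2).1 (lo_rng h1 h2).2 (lo_ne_u hu S.u1 hv) (lo_lw hu)
  have r2 := S.rk_lg _ (lo_rng h1 h2).1 (lo_rng h1 h2).2 (lo_lw hu)
  have r3 := S.rk_hb _ (hi_rng h1 h2).1 (hi_rng h1 h2).2 (hi_lw hu)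
  have r4 := S.rk_hg _ (hi_rng h1 h2).1 (hi_rng h1 h2).2 (hi_lw hu)
  have r1' := S.rk_lb _ (lo_rng h1' h2').1 (lo_rng h1' h2').2 (lo_ne_u hu' S.u1 hv') (lo_lw hu')
  have r2' := S.rk_lg _ (lo_rng h1' h2').1 (lo_rng h1' h2').2 (lo_lw hu')
  have r3' := S.rk_hb _ (hi_rng h1' h2').1 (hi_rng h1' h2').2 (hi_lw hu')
  have r4' := S.rk_hg _ (hi_rng h1' h2').1 (hi_rng h1' h2').2 (hi_lw hu')
  by_cases hc : S.bad i <;> by_cases hc' : S.bad i'
  · exact S.cmp i i' h1 h2 hu hv h3 h1' h2' hu' hv' h3' ⟨fun _ => hc', fun _ => hc⟩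
  · left
    have h7 := r1 (ho.1 hc)
    have h8 := r3 (he.1 hc)
    have h9 := r2' (fun h => hc' (ho'.2 h))
    have h10 := r4' (fun h => hc' (he'.2 h))
    omega
  · right
    have h7 := r1' (ho'.1 hc')
    have h8 := r3' (he'.1 hc')
    have h9 := r2 (fun h => hc (ho.2 h))
    have h10 := r4 (fun h => hc (he.2 h))
    omega
  · exact S.cmp i i' h1 h2 hu hv h3 h1' h2' hu' hv' h3'
      ⟨fun h => absurd h hc, fun h => absurd h hc'⟩

variable (n : Lob5.Num) (M j : ℕ)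

private theorem p_u : (lyR S n M j).p u = n.n2 + 1 := by
  change (if u = u then _ else _) = _
  rw [if_pos rfl]

private theorem p_low {e : ℕ} (h1 : 1 ≤ e) (h2 : e ≤ K) (hu : e ≠ u) (h3 : lw u e) :
    (S.bad e ∧ 1 ≤ S.rk e ∧ S.rk e ≤ S.P ∧ (lyR S n M j).p e = n.n2 + 1 + j + S.rk e) ∨
    (¬ S.bad e ∧ S.P + 1 ≤ S.rk e ∧ S.rk e ≤ S.h + 1 ∧
      (lyR S n M j).p e = n.n2 + 1 + j + S.rk e + (n.Ux - j)) := by
  have h4 : (lyR S n M j).p e =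
      n.n2 + 1 + j + S.rk e + (if S.rk e ≤ S.P then 0 else n.Ux - j) := by
    change (if e = u then _ else if lw u e then _ else _) = _
    rw [if_neg hu, if_pos h3]
  by_cases hb : S.bad e
  · have h5 := S.rk_lb e h1 h2 hu h3 hb
    refine Or.inl ⟨hb, h5.1, h5.2, ?_⟩
    rw [h4, if_pos h5.2, add_zero]
  · have h5 := S.rk_lg e h1 h2 h3 hb
    refine Or.inr ⟨hb, h5.1, h5.2, ?_⟩
    rw [h4, if_neg (by omega)]

private theorem u_lw (S : LR K u ld al) : lw u u := Or.inl ⟨le_rfl, S.u1⟩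

private theorem p_high {e : ℕ} (h1 : 1 ≤ e) (h2 : e ≤ K) (h3 : ¬ lw u e) :
    (S.bad e ∧ 1 ≤ S.rk e ∧ S.rk e ≤ S.Q ∧ (lyR S n M j).p e = wr S n + n.N0 + S.rk e) ∨
    (¬ S.bad e ∧ S.Q + 1 ≤ S.rk e ∧ S.rk e ≤ S.h ∧
      (lyR S n M j).p e = wr S n + n.N0 + S.rk e + n.nT) := by
  have hu : e ≠ u := by
    rintro rfl
    exact h3 (u_lw S)
  have h4 : (lyR S n M j).p e =
      wr S n + n.N0 + S.rk e + (if S.Q < S.rk e then n.nT else 0) := by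
    change (if e = u then _ else if lw u e then _ else _) = _
    rw [if_neg hu, if_neg h3]
  by_cases hb : S.bad e
  · have h5 := S.rk_hb e h1 h2 h3 hb
    refine Or.inl ⟨hb, h5.1, h5.2, ?_⟩
    rw [h4, if_neg (by omega), add_zero]
  · have h5 := S.rk_hg e h1 h2 h3 hb
    refine Or.inr ⟨hb, h5.1, h5.2, ?_⟩
    rw [h4, if_pos (by omega)]

private theorem bs_eq (i : ℕ) : (lyR S n M j).bs i =
    (lyR S n M j).p (lo u i) + (lyR S n M j).p (hi u i) :=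
  (rk_lo_hi (lyR S n M j).p u i).symm

/-- the sum at the vertex `u` -/
private theorem bs_u (hV : S.V n.n2) (hjU : j ≤ n.Ux) : (lyR S n M j).bs u ≤ wr S n ∧
    ∃ e, 2 ≤ e ∧ e < K ∧ (lyR S n M j).bs u = (lyR S n M j).p e := by
  obtain ⟨e, h1, h2, h2', h3, h4, h5⟩ := hV
  have hu1 := S.u1
  have huK := S.uK
  have hj : (lyR S n M j).bs u = (lyR S n M j).p u + (lyR S n M j).p (u + 1) := rfl
  rw [p_u] at hj
  have b := p_low S n M j (e := u + 1) (by omega) (by omega) (by omega)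
    (Or.inr ⟨by omega, by omega⟩)
  have c := p_low S n M j (e := e) (by omega) (by omega) h2' h3
  have ew : wr S n = n.n2 + n.Ux + S.h + 2 := rfl
  have hPh := S.Ph
  rcases b with ⟨b1, b2, b3, b4⟩ | ⟨b1, b2, b3, b4⟩ <;>
    rcases c with ⟨c1, c2, c3, c4⟩ | ⟨c1, c2, c3, c4⟩
  · exact ⟨by omega, e, h1, h2, by omega⟩
  · exact absurd (h5.1 b1) c1
  · exact absurd (h5.2 c1) b1
  · exact ⟨by omega, e, h1, h2, by omega⟩

/-- the sum at a vertex with nothing attached -/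
private theorem bs_C {i : ℕ} (h1 : 1 ≤ i) (h2 : i < K) (hu : i ≠ u) (hv : i + 1 ≠ u)
    (h3 : ¬ ld i) :
    (S.bad i ∧ 2 ≤ S.J i ∧ S.J i ≤ S.P + S.Q ∧
      (lyR S n M j).bs i = wr S n + n.N0 + n.n2 + 1 + j + S.J i) ∨
    (¬ S.bad i ∧ S.P + S.Q + 2 ≤ S.J i ∧ S.J i ≤ 2 * S.h + 1 ∧
      (lyR S n M j).bs i = wr S n + n.N0 + n.n2 + 1 + j + S.J i + (n.Ux - j) + n.nT) := by
  obtain ⟨ho, he⟩ := same' S h1 h2 hu h3
  rw [bs_eq, S.J_eq]
  rcases p_low S n M j (lo_rng h1 h2).1 (lo_rng h1 h2).2 (lo_ne_u hu S.u1 hv) (lo_lw hu) with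
    ⟨a1, a2, a3, a4⟩ | ⟨a1, a2, a3, a4⟩
  · rcases p_high S n M j (hi_rng h1 h2).1 (hi_rng h1 h2).2 (hi_lw hu) with
      ⟨b1, b2, b3, b4⟩ | ⟨b1, b2, b3, b4⟩
    · exact Or.inl ⟨ho.2 a1, by omega, by omega, by omega⟩
    · exact absurd (he.1 (ho.2 a1)) b1
  · rcases p_high S n M j (hi_rng h1 h2).1 (hi_rng h1 h2).2 (hi_lw hu) with
      ⟨b1, b2, b3, b4⟩ | ⟨b1, b2, b3, b4⟩
    · exact absurd (ho.1 (he.2 b1)) a1
    · exact Or.inr ⟨fun h => a1 (ho.1 h), by omega, by omega, by omega⟩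

/-- the sum at the vertex `u - 1` if nothing is attached -/
private theorem bs_P {i : ℕ} (h1 : 1 ≤ i) (h2 : i < K) (hv : i + 1 = u) (h3 : ¬ ld i) :
    (lyR S n M j).bs i = wr S n + n.N0 + n.n2 + 2 ∧ 1 ≤ S.Q := by
  have e1 : i = u - 1 := by omega
  have hc := S.cu (by omega) (by rw [← e1]; exact h3)
  rw [← e1] at hc
  have hb : S.bad i := (S.same i h1 h2 (by omega) h3).2 (by rw [hv]; exact S.ub)
  have hl : ¬ lw u i := by
    unfold lw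
    have := S.u1
    omega
  have h4 : (lyR S n M j).bs i = (lyR S n M j).p i + (lyR S n M j).p (i + 1) := rfl
  rw [hv, p_u] at h4
  rcases p_high S n M j (e := i) (by omega) (by omega) hl with
    ⟨b1, b2, b3, b4⟩ | ⟨b1, b2, b3, b4⟩
  · exact ⟨by omega, by omega⟩
  · exact absurd hb b1

private theorem ld_u (S : LR K u ld al) {i : ℕ} (h3 : ld i) : i ≠ u := by
  intro h
  rw [h] at h3
  exact S.uC h3

/-- the base of a loaded vertex -/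
private theorem bs_ld {i : ℕ} (h1 : 1 ≤ i) (h2 : i < K) (h3 : ld i) :
    (S.bad (lo u i) ∧ S.J i ≤ S.P + S.h ∧
      wr S n + n.N0 + n.nT + n.n2 + 1 + S.J i ≤ (lyR S n M j).bs i ∧
      (lyR S n M j).bs i ≤ wr S n + n.N0 + n.nT + n.n2 + 1 + j + S.J i ∧
      (i + 1 ≠ u → (lyR S n M j).bs i = wr S n + n.N0 + n.nT + n.n2 + 1 + j + S.J i)) ∨
    (¬ S.bad (lo u i) ∧ S.P + 2 ≤ S.J i ∧ i + 1 ≠ u ∧
      wr S n + n.N0 + n.n2 + 1 + j + (n.Ux - j) + S.J i ≤ (lyR S n M j).bs i ∧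
      (al i → S.J i ≤ S.h + 1 + S.Q ∧
        (lyR S n M j).bs i = wr S n + n.N0 + n.n2 + 1 + j + (n.Ux - j) + S.J i)) := by
  have hu := ld_u S h3
  by_cases hv : i + 1 = u
  · have e0 : lo u i = u := by
      have := lo_pred S.u1 (show 2 ≤ u by omega)
      rwa [show u - 1 = i by omega] at this
    have e1 : hi u i = i := by
      have := hi_pred S.u1 (show 2 ≤ u by omega)
      rwa [show u - 1 = i by omega] at this
    have hb : S.bad (lo u i) := by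
      rw [e0]
      exact S.ub
    have hg := S.dif1 i h1 h2 h3 hb
    rw [bs_eq, S.J_eq]
    rcases p_high S n M j (hi_rng h1 h2).1 (hi_rng h1 h2).2 (hi_lw hu) with
      ⟨b1, b2, b3, b4⟩ | ⟨b1, b2, b3, b4⟩
    · exact absurd b1 hg
    · rw [e0, p_u, S.uk]
      refine Or.inl ⟨S.ub, by omega, by omega, by omega, fun h => absurd hv h⟩
  rw [bs_eq, S.J_eq]
  rcases p_low S n M j (lo_rng h1 h2).1 (lo_rng h1 h2).2 (lo_ne_u hu S.u1 hv) (lo_lw hu) with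
    ⟨a1, a2, a3, a4⟩ | ⟨a1, a2, a3, a4⟩
  · rcases p_high S n M j (hi_rng h1 h2).1 (hi_rng h1 h2).2 (hi_lw hu) with
      ⟨b1, b2, b3, b4⟩ | ⟨b1, b2, b3, b4⟩
    · exact absurd b1 (S.dif1 i h1 h2 h3 a1)
    · exact Or.inl ⟨a1, by omega, by omega, by omega, fun _ => by omega⟩
  · rcases p_high S n M j (hi_rng h1 h2).1 (hi_rng h1 h2).2 (hi_lw hu) with
      ⟨b1, b2, b3, b4⟩ | ⟨b1, b2, b3, b4⟩
    · exact Or.inr ⟨a1, by omega, hv, by omega, fun _ => ⟨by omega, by omega⟩⟩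
    · exact Or.inr ⟨a1, by omega, hv, by omega, fun h => absurd (S.dif2 i h1 h2 h a1) b1⟩

end

section

variable {K u : ℕ} {ld al st tw : ℕ → Prop}

theorem ly_R (S : LR K u ld al) (n : Lob5.Num) {M e dl j : ℕ} {rv : ℕ → RV}
    (R : LROK S st tw M n.n2 n.nT n.Ux n.N0 e dl) (H : CtxR S st tw n e j rv) :
    LyOK (nmR S n M e dl) (lyR S n M j) rv K := by
  classical
  obtain ⟨N, hN⟩ : ∃ N, N = nmR S n M e dl := ⟨_, rfl⟩
  obtain ⟨Y, hY⟩ : ∃ Y, Y = lyR S n M j := ⟨_, rfl⟩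
  -- the numbers
  have e_h : N.h = S.h := by rw [hN]; rfl
  have e_P : N.P = S.P := by rw [hN]; rfl
  have e_Q : N.Q = S.Q := by rw [hN]; rfl
  have e_w : N.w = wr S n := by rw [hN]; rfl
  have e_N0 : N.N0 = n.N0 := by rw [hN]; rfl
  have e_nT : N.nT = n.nT := by rw [hN]; rfl
  have e_n2 : N.n2 = n.n2 := by rw [hN]; rfl
  have e_Ux : N.Ux = n.Ux := by rw [hN]; rfl
  have e_e : N.e = e := by rw [hN]; rfl
  have e_eb : N.eb = e / 2 := by rw [hN]; rfl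
  have e_et : N.et = (e + 1) / 2 := by rw [hN]; rfl
  have e_s1 : N.s1 = 1 := by rw [hN]; rfl
  have e_dl : N.dl = dl := by rw [hN]; rfl
  have e_pk : N.pk = 0 := by rw [hN]; rfl
  have e_c0 : N.c0 = 0 := by rw [hN]; rfl
  have e_om : N.om = 0 := by rw [hN]; rfl
  have e_g1 : N.g1 = wr S n + n.N0 + S.Q + n.nT + 1 := by rw [hN]; rfl
  have e_kb : ∀ i, N.kb i ↔ S.bad (lo u i) := by intro i; rw [hN]; rfl
  have e_cd : ∀ i, N.cd i ↔ S.cd M n.n2 n.nT n.Ux i := by intro i; rw [hN]; rfl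
  have f_j : Y.j = j := by rw [hY]; rfl
  have f_U : Y.U = n.Ux - j := by rw [hY]; rfl
  have f_thr : Y.thr = 2 * wr S n + n.N0 + n.nT + M - (S.h + 1) := by rw [hY]; rfl
  have f_be : Y.be = wr S n + n.N0 := by rw [hY]; rfl
  have f_nxf : Y.nxf = 0 := by rw [hY]; rfl
  have f_nlg : Y.nlg = 0 := by rw [hY]; rfl
  have f_xf : ∀ i, Y.xf i = false := by intro i; rw [hY]; rfl
  have f_lg : ∀ i, Y.lg i = false := by intro i; rw [hY]; rfl
  have f_pu : Y.p u = n.n2 + 1 := by rw [hY]; exact p_u S n M j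
  have f_low : ∀ e, 1 ≤ e → e ≤ K → e ≠ u → lw u e →
      (S.bad e ∧ 1 ≤ S.rk e ∧ S.rk e ≤ S.P ∧ Y.p e = n.n2 + 1 + j + S.rk e) ∨
      (¬ S.bad e ∧ S.P + 1 ≤ S.rk e ∧ S.rk e ≤ S.h + 1 ∧
        Y.p e = n.n2 + 1 + j + S.rk e + (n.Ux - j)) := by
    rw [hY]; exact fun e h1 h2 hu h3 => p_low S n M j h1 h2 hu h3
  have f_high : ∀ e, 1 ≤ e → e ≤ K → ¬ lw u e →
      (S.bad e ∧ 1 ≤ S.rk e ∧ S.rk e ≤ S.Q ∧ Y.p e = wr S n + n.N0 + S.rk e) ∨
      (¬ S.bad e ∧ S.Q + 1 ≤ S.rk e ∧ S.rk e ≤ S.h ∧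
        Y.p e = wr S n + n.N0 + S.rk e + n.nT) := by
    rw [hY]; exact fun e h1 h2 h3 => p_high S n M j h1 h2 h3
  have f_C : ∀ i, 1 ≤ i → i < K → i ≠ u → i + 1 ≠ u → ¬ ld i →
      (S.bad i ∧ 2 ≤ S.J i ∧ S.J i ≤ S.P + S.Q ∧
      Y.bs i = wr S n + n.N0 + n.n2 + 1 + j + S.J i) ∨
      (¬ S.bad i ∧ S.P + S.Q + 2 ≤ S.J i ∧ S.J i ≤ 2 * S.h + 1 ∧
        Y.bs i = wr S n + n.N0 + n.n2 + 1 + j + S.J i + (n.Ux - j) + n.nT) := by
    rw [hY]; exact fun i h1 h2 hu hv h3 => bs_C S n M j h1 h2 hu hv h3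
  have f_Pr : ∀ i, 1 ≤ i → i < K → i + 1 = u → ¬ ld i →
      Y.bs i = wr S n + n.N0 + n.n2 + 2 ∧ 1 ≤ S.Q := by
    rw [hY]; exact fun i h1 h2 hv h3 => bs_P S n M j h1 h2 hv h3
  have f_ld : ∀ i, 1 ≤ i → i < K → ld i → (S.bad (lo u i) ∧ S.J i ≤ S.P + S.h ∧
      wr S n + n.N0 + n.nT + n.n2 + 1 + S.J i ≤ Y.bs i ∧
      Y.bs i ≤ wr S n + n.N0 + n.nT + n.n2 + 1 + j + S.J i ∧
      (i + 1 ≠ u → Y.bs i = wr S n + n.N0 + n.nT + n.n2 + 1 + j + S.J i)) ∨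
      (¬ S.bad (lo u i) ∧ S.P + 2 ≤ S.J i ∧ i + 1 ≠ u ∧
        wr S n + n.N0 + n.n2 + 1 + j + (n.Ux - j) + S.J i ≤ Y.bs i ∧
        (al i → S.J i ≤ S.h + 1 + S.Q ∧
          Y.bs i = wr S n + n.N0 + n.n2 + 1 + j + (n.Ux - j) + S.J i)) := by
    rw [hY]; exact fun i h1 h2 h3 => bs_ld S n M j h1 h2 h3
  have f_u : Y.bs u ≤ wr S n ∧ ∃ e, 2 ≤ e ∧ e < K ∧ Y.bs u = Y.p e := by
    rw [hY]; exact bs_u S n M j H.V (by have := H.jU; omega)
  have f_X0 : Y.X 0 = 0 := by rw [hY]; rfl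
  have f_X : ∀ i, 1 ≤ i → Y.X i = n.n2 + 1 + j + S.P + i := by
    intro i hi
    rw [hY]
    exact if_neg (by omega)
  have e_wx : wr S n = n.n2 + n.Ux + S.h + 2 := rfl
  have hPh := S.Ph
  have hQh := S.Qh
  have hk := S.hK
  have hu1 := S.u1
  have huK := S.uK
  have hM1 := R.M1
  have hM2 := R.M2
  have fX1 := f_X 1 le_rfl
  have hN0 := H.eN
  have hjU := H.jU
  -- the roles
  have nys : ∀ i, 1 ≤ i → i < K → ¬ Y.ys rv i := by
    rintro i h1 h2 (⟨h3, -⟩ | h3)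
    · exact (H.no i h1 h2).1 h3
    · exact (H.no i h1 h2).2.1 h3
  have nxs : ∀ i, ¬ Y.xs N rv i := by
    rintro i ⟨h1, -⟩
    rw [f_xf] at h1
    exact absurd h1 (by decide)
  have nFR : ¬ ∃ i, 1 ≤ i ∧ i < K ∧ rv i = .FR := fun ⟨i, h1, h2, h3⟩ =>
    (H.no i h1 h2).2.2 h3
  have isT_S : ∀ i, 1 ≤ i → i < K → (rv i).isT = true → (rv i).isS = true := by
    intro i h1 h2 h3
    have h4 := (H.no i h1 h2).2.2
    cases hr : rv i <;> rw [hr] at h3 h4 <;> first | rfl | exact absurd h3 (by decide) |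
      exact absurd rfl h4
  -- the bases of the marked vertices
  have fA : ∀ a, 1 ≤ a → a < K → (rv a).isA = true → al a ∧
      ((S.bad (lo u a) ∧ S.J a ≤ S.P + S.h ∧
        wr S n + n.N0 + n.nT + n.n2 + 1 + S.J a ≤ Y.bs a ∧
        Y.bs a ≤ wr S n + n.N0 + n.nT + n.n2 + 1 + j + S.J a) ∨
       (¬ S.bad (lo u a) ∧ S.J a ≤ S.h + 1 + S.Q ∧
        Y.bs a = wr S n + n.N0 + n.n2 + 1 + j + (n.Ux - j) + S.J a)) := by
    intro a h1 h4 h3
    have h5 := H.A a h1 h4 h3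
    refine ⟨h5, ?_⟩
    rcases f_ld a h1 h4 (S.al_ld a h5) with ⟨h6, h7, h8, h9, -⟩ | ⟨h6, -, -, -, h7⟩
    · exact Or.inl ⟨h6, h7, h8, h9⟩
    · exact Or.inr ⟨h6, (h7 h5).1, (h7 h5).2⟩
  have fN : ∀ x, 1 ≤ x → x < K → (rv x).isN = true → ld x ∧ ¬ al x ∧
      ((S.bad (lo u x) ∧ wr S n + n.N0 + n.nT + n.n2 + 1 + S.J x ≤ Y.bs x) ∨
       (¬ S.bad (lo u x) ∧ S.P + 2 ≤ S.J x ∧
        wr S n + n.N0 + n.n2 + 1 + j + (n.Ux - j) + S.J x ≤ Y.bs x)) := by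
    intro x h1 h4 h3
    obtain ⟨h5, h6⟩ := H.nl x h1 h4 h3
    refine ⟨h5, h6, ?_⟩
    rcases f_ld x h1 h4 h5 with ⟨h7, -, h8, -, -⟩ | ⟨h7, h8, -, h9, -⟩
    · exact Or.inl ⟨h7, h8⟩
    · exact Or.inr ⟨h7, h8, h9⟩
  have fS : ∀ x, 1 ≤ x → x < K → (rv x).isS = true → st x ∧
      ((S.bad (lo u x) ∧ Y.bs x = wr S n + n.N0 + n.nT + n.n2 + 1 + j + S.J x) ∨
       (¬ S.bad (lo u x) ∧ S.P + 2 ≤ S.J x ∧
        wr S n + n.N0 + n.n2 + 1 + j + (n.Ux - j) + S.J x ≤ Y.bs x)) := by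
    intro x h1 h4 h3
    have h2 := H.S x h1 h4 h3
    have h5 := (H.nl x h1 h4 (isS_N h3)).1
    have hxu : x + 1 ≠ u := fun h => R.us x h1 h h2
    refine ⟨h2, ?_⟩
    rcases f_ld x h1 h4 h5 with ⟨h7, -, -, -, h8⟩ | ⟨h7, h8, -, h9, -⟩
    · exact Or.inl ⟨h7, h8 hxu⟩
    · exact Or.inr ⟨h7, h8, h9⟩
  rw [← hN, ← hY]
  refine
    { eN := ?_, U_ge := ?_, U_eq := ?_, nxf_eq := ?_, nlg_le := ?_, nlg_eq := ?_, be_ge := ?_,
      be_le := ?_, be_thr := ?_, thr_le := ?_, thr_le' := ?_, g1_ge := ?_, g1_thr := ?_, g0_be := ?_,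
      zone := ?_, p_rng := ?_, p_inj := ?_, p_one := ?_, p_last := ?_, X_mono := ?_,
      X_zero := ?_, X_rng := ?_, X_lo := ?_, X_p := ?_, y_rng := ?_, y_X := ?_, y_p := ?_,
      y_inj := ?_, x_rng := ?_, x_X := ?_, x_p := ?_, x_inj := ?_, x_y := ?_, C_inj := ?_,
      C_be := ?_, C_gap := ?_, C_thr := ?_, V_be := ?_, V_thr := ?_, V_C := ?_, V_inj := ?_,
      V_gap := ?_, lg_rng := ?_, bA := ?_, bN := ?_, bc := ?_, bT := ?_, P2 := ?_, Dbb := ?_,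
      Dbr := ?_, Dgg := ?_, Dgb := ?_, bupb := ?_, bupg := ?_, shx := ?_, bbP := ?_, lt := ?_,
      xW1 := ?_, xW2 := ?_, oW1 := ?_, oW2 := ?_, Xr := ?_, Rq := ?_, Rd := ?_ }
  · -- eN
    omega
  · -- U_ge
    omega
  · -- U_eq
    omega
  · -- nxf_eq
    rw [f_nxf]
    symm
    rw [Finset.card_eq_zero, Finset.filter_eq_empty_iff]
    rintro i - ⟨-, h8⟩
    exact nxs i h8
  · -- nlg_le
    omega
  · -- nlg_eq
    rw [f_nlg]
    symm
    rw [Finset.card_eq_zero, Finset.filter_eq_empty_iff]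
    rintro i - ⟨-, -, h9⟩
    rw [f_lg] at h9
    exact absurd h9 (by decide)
  · -- be_ge
    omega
  · -- be_le
    omega
  · -- be_thr
    omega
  · -- thr_le
    omega
  · -- thr_le'
    intro h
    omega
  · -- g1_ge
    omega
  · -- g1_thr
    intro hU
    rw [f_X Y.U hU]
    omega
  · -- g0_be
    intro _
    omega
  · -- zone
    omega
  · -- p_rng
    intro e h1 h2
    by_cases hu : e = u
    · rw [hu, f_pu]
      exact Or.inr (Or.inr (Or.inr (Or.inl (by omega))))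
    by_cases h3 : lw u e
    · rcases f_low e h1 h2 hu h3 with ⟨-, b2, b3, b4⟩ | ⟨-, b2, b3, b4⟩
      · exact Or.inl (by omega)
      · exact Or.inl (by omega)
    · rcases f_high e h1 h2 h3 with ⟨-, b2, b3, b4⟩ | ⟨-, b2, b3, b4⟩
      · exact Or.inr (Or.inl (by omega))
      · exact Or.inr (Or.inr (Or.inl (by omega)))
  · -- p_inj
    intro e f h1 h2 h3 h4 h5
    by_cases hu : e = u
    · by_cases hv : f = u
      · omega
      · exfalso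
        rw [hu, f_pu] at h5
        by_cases h7 : lw u f
        · rcases f_low f h3 h4 hv h7 with ⟨-, c2, c3, c4⟩ | ⟨-, c2, c3, c4⟩ <;> omega
        · rcases f_high f h3 h4 h7 with ⟨-, c2, c3, c4⟩ | ⟨-, c2, c3, c4⟩ <;> omega
    by_cases hv : f = u
    · exfalso
      rw [hv, f_pu] at h5
      by_cases h7 : lw u e
      · rcases f_low e h1 h2 hu h7 with ⟨-, c2, c3, c4⟩ | ⟨-, c2, c3, c4⟩ <;> omega
      · rcases f_high e h1 h2 h7 with ⟨-, c2, c3, c4⟩ | ⟨-, c2, c3, c4⟩ <;> omega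
    by_cases h6 : lw u e <;> by_cases h7 : lw u f
    · refine S.rk_inj e f h1 h2 h3 h4 (iff_of_true h6 h7) ?_
      rcases f_low e h1 h2 hu h6 with ⟨-, b2, b3, b4⟩ | ⟨-, b2, b3, b4⟩ <;>
        rcases f_low f h3 h4 hv h7 with ⟨-, c2, c3, c4⟩ | ⟨-, c2, c3, c4⟩ <;> omega
    · rcases f_low e h1 h2 hu h6 with ⟨-, b2, b3, b4⟩ | ⟨-, b2, b3, b4⟩ <;>
        rcases f_high f h3 h4 h7 with ⟨-, c2, c3, c4⟩ | ⟨-, c2, c3, c4⟩ <;>
        exfalso <;> omega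
    · rcases f_high e h1 h2 h6 with ⟨-, b2, b3, b4⟩ | ⟨-, b2, b3, b4⟩ <;>
        rcases f_low f h3 h4 hv h7 with ⟨-, c2, c3, c4⟩ | ⟨-, c2, c3, c4⟩ <;>
        exfalso <;> omega
    · refine S.rk_inj e f h1 h2 h3 h4 (iff_of_false h6 h7) ?_
      rcases f_high e h1 h2 h6 with ⟨-, b2, b3, b4⟩ | ⟨-, b2, b3, b4⟩ <;>
        rcases f_high f h3 h4 h7 with ⟨-, c2, c3, c4⟩ | ⟨-, c2, c3, c4⟩ <;> omega
  · -- p_one
    by_cases hu : (1 : ℕ) = u
    · rw [hu, f_pu]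
      omega
    · rcases f_low 1 le_rfl (by omega) hu (Or.inl ⟨by omega, rfl⟩) with
        ⟨-, b2, b3, b4⟩ | ⟨-, b2, b3, b4⟩ <;> omega
  · -- p_last
    rcases f_low K (by omega) le_rfl (by omega) (Or.inr ⟨huK, by omega⟩) with
      ⟨-, b2, b3, b4⟩ | ⟨-, b2, b3, b4⟩ <;> omega
  · -- X_mono
    intro a b hab
    rw [f_X b (by omega)]
    by_cases ha : a = 0
    · rw [ha, f_X0]
      omega
    · rw [f_X a (by omega)]
      omega
  · -- X_zero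
    omega
  · -- X_rng
    intro i h1 h2
    rw [f_X i h1]
    omega
  · -- X_lo
    omega
  · -- X_p
    intro i e h1 h2 h3 h4
    rw [f_X i h1]
    by_cases hu : e = u
    · rw [hu, f_pu]
      omega
    by_cases h5 : lw u e
    · rcases f_low e h3 h4 hu h5 with ⟨-, b2, b3, b4⟩ | ⟨-, b2, b3, b4⟩ <;> omega
    · rcases f_high e h3 h4 h5 with ⟨-, b2, b3, b4⟩ | ⟨-, b2, b3, b4⟩ <;> omega
  · exact fun i h1 h2 h3 => absurd h3 (nys i h1 h2)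
  · exact fun i m h1 h2 h3 => absurd h3 (nys i h1 h2)
  · exact fun i e h1 h2 h3 => absurd h3 (nys i h1 h2)
  · exact fun i i' h1 h2 h3 => absurd h3 (nys i h1 h2)
  · exact fun i h1 h2 h3 => absurd h3 (nxs i)
  · exact fun i m h1 h2 h3 => absurd h3 (nxs i)
  · exact fun i e h1 h2 h3 => absurd h3 (nxs i)
  · exact fun i i' h1 h2 h3 => absurd h3 (nxs i)
  · exact fun i i' h1 h2 h3 => absurd h3 (nxs i)
  · -- C_inj
    have key : ∀ i, 1 ≤ i → i < K → i ≠ u → rv i = .C → Y.bs i ≠ Y.bs u := by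
      intro i h1 h2 hu h3
      have h4 := f_u.1
      have h5 := H.C i h1 h2 h3
      by_cases hv : i + 1 = u
      · have := f_Pr i h1 h2 hv h5
        omega
      rcases f_C i h1 h2 hu hv h5 with ⟨-, b2, b3, b4⟩ | ⟨-, b2, b3, b4⟩ <;> omega
    have key2 : ∀ i i', 1 ≤ i → i < K → i + 1 = u → ¬ ld i → 1 ≤ i' → i' < K → i' ≠ u →
        i' + 1 ≠ u → ¬ ld i' → Y.bs i ≠ Y.bs i' := by
      intro i i' h1 h2 h3 h4 h5 h6 h7 h8 h9
      have := (f_Pr i h1 h2 h3 h4).1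
      rcases f_C i' h5 h6 h7 h8 h9 with ⟨-, b2, b3, b4⟩ | ⟨-, b2, b3, b4⟩ <;> omega
    intro i i' h1 h2 h3 h4 h5 h6 h7
    by_cases h8 : i = u
    · by_cases h9 : i' = u
      · omega
      · rw [h8] at h7
        exact absurd h7.symm (key i' h4 h5 h9 h6)
    · by_cases h9 : i' = u
      · rw [h9] at h7
        exact absurd h7 (key i h1 h2 h8 h3)
      · have h10 := H.C i h1 h2 h3
        have h11 := H.C i' h4 h5 h6
        by_cases g1 : i + 1 = u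
        · by_cases g2 : i' + 1 = u
          · omega
          · exact absurd h7 (key2 i i' h1 h2 g1 h10 h4 h5 h9 g2 h11)
        by_cases g2 : i' + 1 = u
        · exact absurd h7.symm (key2 i' i h4 h5 g2 h11 h1 h2 h8 g1 h10)
        have h12 := cmp' S h1 h2 h8 g1 h10 h4 h5 h9 g2 h11
        have h13 := f_C i h1 h2 h8 g1 h10
        have h14 := f_C i' h4 h5 h9 g2 h11
        have e1 := S.J_eq i
        have e2 := S.J_eq i'
        have h15 : S.rk (lo u i) = S.rk (lo u i') ∧ S.rk (hi u i) = S.rk (hi u i') := by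
          rcases h13 with ⟨-, b2, b3, b4⟩ | ⟨-, b2, b3, b4⟩ <;>
            rcases h14 with ⟨-, c2, c3, c4⟩ | ⟨-, c2, c3, c4⟩ <;>
            rcases h12 with ⟨d1, d2⟩ | ⟨d1, d2⟩ <;> exact ⟨by omega, by omega⟩
        have h16 := S.rk_inj _ _ (lo_rng h1 h2).1 (lo_rng h1 h2).2 (lo_rng h4 h5).1
          (lo_rng h4 h5).2 (iff_of_true (lo_lw h8) (lo_lw h9)) h15.1
        have h17 := S.rk_inj _ _ (hi_rng h1 h2).1 (hi_rng h1 h2).2 (hi_rng h4 h5).1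
          (hi_rng h4 h5).2 (iff_of_false (hi_lw h8) (hi_lw h9)) h15.2
        have h18 := lo_hi u i
        have h19 := lo_hi u i'
        omega
  · -- C_be
    intro i h1 h2 h3
    have h9 := H.C i h1 h2 h3
    by_cases h8 : i = u
    · right
      obtain ⟨e, e1, e2, e3⟩ := f_u.2
      exact ⟨e, e1, e2, by rw [h8, e3]⟩
    by_cases hv : i + 1 = u
    · left
      have := (f_Pr i h1 h2 hv h9).1
      omega
    · left
      rcases f_C i h1 h2 h8 hv h9 with ⟨-, b2, b3, b4⟩ | ⟨-, b2, b3, b4⟩ <;> omega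
  · -- C_gap
    intro hU i h1 h2 h3
    rw [f_X Y.U hU]
    have h9 := H.C i h1 h2 h3
    by_cases h8 : i = u
    · left
      have h4 := f_u.1
      rw [h8]
      omega
    by_cases hv : i + 1 = u
    · left
      have := (f_Pr i h1 h2 hv h9).1
      omega
    · rcases f_C i h1 h2 h8 hv h9 with ⟨-, b2, b3, b4⟩ | ⟨-, b2, b3, b4⟩
      · left
        omega
      · right
        omega
  · -- C_thr
    intro i h1 h2 h3
    have h9 := H.C i h1 h2 h3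
    by_cases h8 : i = u
    · have h4 := f_u.1
      rw [h8]
      omega
    by_cases hv : i + 1 = u
    · have := f_Pr i h1 h2 hv h9
      omega
    · rcases f_C i h1 h2 h8 hv h9 with ⟨-, b2, b3, b4⟩ | ⟨b1, b2, b3, b4⟩
      · omega
      · have := R.MC i h1 h2 h8 h9 b1
        omega
  · exact fun i h1 h2 h3 => absurd h3 (nys i h1 h2)
  · exact fun i h1 h2 h3 => absurd h3 (nys i h1 h2)
  · exact fun i i' h1 h2 h3 => absurd h3 (nys i h1 h2)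
  · exact fun i i' h1 h2 h3 => absurd h3 (nys i h1 h2)
  · exact fun _ i h1 h2 h3 => absurd h3 (nys i h1 h2)
  · exact fun i h1 h2 h3 => absurd h3 (H.no i h1 h2).1
  · -- bA
    intro i h1 h2 h3
    obtain ⟨h5, h6⟩ := fA i h1 h2 h3
    rcases h6 with ⟨h6, -, h7, -⟩ | ⟨h6, h8, h7⟩
    · have := R.aB i h1 h2 h5 h6
      omega
    · have := R.aG i h1 h2 h5 h6
      omega
  · -- bN
    intro i h1 h2 _ h3
    obtain ⟨h5, h6, h7⟩ := fN i h1 h2 (II_N h3)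
    have h8 := H.N i h1 h2 h3
    rcases h7 with ⟨h7, h9⟩ | ⟨h7, -, h9⟩
    · have := R.nB i h1 h2 h8 h7
      omega
    · have := R.nG i h1 h2 h8 h7
      omega
  · -- bc
    intro i h1 h2 _ h3 h3'
    obtain ⟨h5, h6, h7⟩ := fN i h1 h2 (II_N h3)
    rw [e_cd] at h3'
    rcases h7 with ⟨h7, h9⟩ | ⟨h7, -, h9⟩
    · have := h3'.1 h7
      omega
    · have := h3'.2 h7
      omega
  · -- bT
    intro i h1 h2 h3
    have h3' := isT_S i h1 h2 h3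
    obtain ⟨h8', h7⟩ := fS i h1 h2 h3'
    have h8 := R.tS i h1 h2 h8'
    rcases h7 with ⟨h7, h9⟩ | ⟨h7, -, h9⟩ <;> omega
  · -- P2
    rcases R.two with h | h
    · left
      omega
    · right
      intro i h1 h2 h3 h4
      rw [e_kb] at h4
      rcases h3 with h3 | h3
      · exact h i h1 h2 (Or.inl (fA i h1 h2 h3).1) h4
      · exact h i h1 h2 (Or.inr (H.S i h1 h2 h3)) h4
  · -- Dbb
    intro a z h1 h2 h3 h4 h5 h6 h7
    rw [e_kb] at h7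
    obtain ⟨a2, a3⟩ := fA a h1 h2 h5
    obtain ⟨z2, z4⟩ := fS z h3 h4 h6
    have h8 := R.bb a z h1 h2 h3 h4 a2 h7 z2
    have hm1 : 1 ≤ max 1 (N.dl + N.et) := le_max_left _ _
    have hm2 : N.dl + N.et ≤ max 1 (N.dl + N.et) := le_max_right _ _
    rcases a3 with ⟨a3, -, -, a4⟩ | ⟨a3, -, a4⟩
    · rcases z4 with ⟨z4, z5⟩ | ⟨z4, -, z5⟩ <;> omega
    · exact absurd h7 a3
  · -- Dbr
    intro h
    exact absurd h nFR
  · -- Dgg
    intro a z h1 h2 h3 h4 h5 h6 h7 h7'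
    rw [e_kb] at h7 h7'
    obtain ⟨a2, a3⟩ := fA a h1 h2 h5
    obtain ⟨z2, z4⟩ := fS z h3 h4 h6
    have h8 := R.gg a z h1 h2 h3 h4 a2 h7 z2 h7'
    rcases a3 with ⟨a3, -, -, a4⟩ | ⟨a3, -, a4⟩
    · exact absurd a3 h7
    · rcases z4 with ⟨z4, z5⟩ | ⟨z4, -, z5⟩
      · exact absurd z4 h7'
      · omega
  · -- Dgb
    intro a z h1 h2 h3 h4 h5 h6 h7 h7'
    rw [e_kb] at h7 h7'
    obtain ⟨a2, a3⟩ := fA a h1 h2 h5
    obtain ⟨z2, z4⟩ := fS z h3 h4 h6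
    have h8 := R.gb a z h1 h2 h3 h4 a2 h7 z2 h7'
    have h9 : N.sgc rv K ≤ ((Finset.range K).filter fun i =>
        1 ≤ i ∧ tw i ∧ ¬ S.cd M n.n2 n.nT n.Ux i).card := by
      unfold Nm.sgc
      refine Finset.card_le_card ?_
      intro i hi
      rw [Finset.mem_filter, Finset.mem_range] at hi ⊢
      obtain ⟨g1, g2, g3, g4, g5⟩ := hi
      refine ⟨g1, g2, H.N i g2 g1 g3, ?_⟩
      rw [← e_cd]
      exact g5
    rcases a3 with ⟨a3, -, -, a4⟩ | ⟨a3, -, a4⟩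
    · exact absurd a3 h7
    · rcases z4 with ⟨z4, z5⟩ | ⟨z4, -, z5⟩
      · omega
      · exact absurd h7' z4
  · -- bupb
    intro a h1 h2 h3 h4
    rw [e_kb] at h4
    obtain ⟨a2, a3⟩ := fA a h1 h2 h3
    rcases a3 with ⟨a3, a5, -, a4⟩ | ⟨a3, -, a4⟩
    · omega
    · exact absurd h4 a3
  · -- bupg
    intro a h1 h2 h3 h4
    rw [e_kb] at h4
    obtain ⟨a2, a3⟩ := fA a h1 h2 h3
    rcases a3 with ⟨a3, -, -, a4⟩ | ⟨a3, a5, a4⟩
    · exact absurd a3 h4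
    · omega
  · -- shx
    intro a x h1 h2 h3 h4 h5 h6 _ h8
    rw [e_kb] at h6
    obtain ⟨a2, a3⟩ := fA a h1 h2 h5
    obtain ⟨z2, z3, z4⟩ := fN x h3 h4 h8
    have h9 := R.sh a x h1 h2 h3 h4 a2 h6 z2 z3
    rcases a3 with ⟨a3, -, -, a4⟩ | ⟨a3, -, a4⟩
    · rcases z4 with ⟨z4, z5⟩ | ⟨z4, -, z5⟩ <;> omega
    · exact absurd h6 a3
  · -- bbP
    intro h a z h1 h2 h3 h4 h5 h6 h7 h0
    rw [e_kb] at h7
    obtain ⟨a2, a3⟩ := fA a h1 h2 h5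
    obtain ⟨z2, z4⟩ := fS z h3 h4 h6
    have h8 := R.b0 (by omega) (by omega) a z h1 h2 h3 h4 a2 h7 z2
    rcases a3 with ⟨a3, -, -, a4⟩ | ⟨a3, -, a4⟩
    · rcases z4 with ⟨z4, z5⟩ | ⟨z4, -, z5⟩ <;> omega
    · exact absurd h7 a3
  · -- lt
    intro h hU a x h1 h2 h3 h4 h5 h6 _ h8 h9
    rw [e_kb] at h6
    obtain ⟨a2, a3⟩ := fA a h1 h2 h5
    obtain ⟨z2, z3, z4⟩ := fN x h3 h4 h8
    rcases R.lt (by omega) with h10 | h10
    · omega
    · have h11 := h10 a x h1 h2 h3 h4 a2 h6 z2 z3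
      exfalso
      rcases a3 with ⟨a3, -, -, a4⟩ | ⟨a3, -, a4⟩
      · exact absurd a3 h6
      · rcases z4 with ⟨z4, z5⟩ | ⟨z4, -, z5⟩ <;> omega
  · intro i z _ _ _ _ h
    rw [f_xf] at h
    exact absurd h (by decide)
  · intro i _ _ h
    rw [f_xf] at h
    exact absurd h (by decide)
  · intro i z _ _ _ _ h
    rw [f_xf] at h
    exact absurd h (by decide)
  · intro i _ _ h
    rw [f_xf] at h
    exact absurd h (by decide)
  · -- Xr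
    intro t r h1 h2 h3 h4 h5
    obtain ⟨z2, z4⟩ := fS r h3 h4 h5
    have h6 := R.tP r h3 h4 z2
    rw [f_X t h1]
    rcases z4 with ⟨z4, z5⟩ | ⟨z4, -, z5⟩ <;> omega
  · intro i h1 h2 h3
    exact absurd h3 (H.no i h1 h2).2.2
  · intro h
    exact absurd h nFR

theorem st_R (S : LR K u ld al) (n : Lob5.Num) {M e dl j : ℕ} {rv : ℕ → RV}
    (H : CtxR S st tw n e (j + 1) rv) (hP1 : 1 ≤ S.P) :
    StOK (nmR S n M e dl) (lyR S n M j) (lyR S n M (j + 1)) rv K := by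
  have hjU := H.jU
  have hA : ∀ a, 1 ≤ a → a < K → (rv a).isA = true → ¬ (nmR S n M e dl).kb a →
      (lyR S n M (j + 1)).bs a = (lyR S n M j).bs a := by
    intro a h1 h2 h3 h4
    have h6 := H.A a h1 h2 h3
    change ¬ S.bad (lo u a) at h4
    rcases bs_ld S n M j h1 h2 (S.al_ld a h6) with ⟨h7, -⟩ | ⟨-, -, -, -, h7⟩
    · exact absurd h7 h4
    rcases bs_ld S n M (j + 1) h1 h2 (S.al_ld a h6) with ⟨h8, -⟩ | ⟨-, -, -, -, h8⟩
    · exact absurd h8 h4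
    have h9 := (h7 h6).2
    have h10 := (h8 h6).2
    omega
  have hbs : ∀ i, 1 ≤ i → i < K → ld i →
      (lyR S n M (j + 1)).bs i ≤ (lyR S n M j).bs i + 1 := by
    intro i h1 h2 h3
    have hu := ld_u S h3
    rw [bs_eq, bs_eq]
    have hlo : (lyR S n M (j + 1)).p (lo u i) ≤ (lyR S n M j).p (lo u i) + 1 := by
      by_cases hv : lo u i = u
      · rw [hv, p_u, p_u]
        omega
      rcases p_low S n M j (lo_rng h1 h2).1 (lo_rng h1 h2).2 hv (lo_lw hu) with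
        ⟨a1, a2, a3, a4⟩ | ⟨a1, a2, a3, a4⟩ <;>
      rcases p_low S n M (j + 1) (lo_rng h1 h2).1 (lo_rng h1 h2).2 hv (lo_lw hu) with
        ⟨b1, b2, b3, b4⟩ | ⟨b1, b2, b3, b4⟩ <;>
      omega
    rcases p_high S n M j (hi_rng h1 h2).1 (hi_rng h1 h2).2 (hi_lw hu) with
      ⟨c1, c2, c3, c4⟩ | ⟨c1, c2, c3, c4⟩ <;>
    rcases p_high S n M (j + 1) (hi_rng h1 h2).1 (hi_rng h1 h2).2 (hi_lw hu) with
      ⟨d1, d2, d3, d4⟩ | ⟨d1, d2, d3, d4⟩ <;>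
    omega
  constructor
  · intro i a h1 h2 h3 h4 _ h6 h7 h8
    have h9 := hA a h3 h4 h7 h8
    have h11 := hbs i h1 h2 (H.nl i h1 h2 (II_N h6)).1
    change (lyR S n M (j + 1)).bs i + (lyR S n M j).bs a + (1 + n.n2 + j + 1) ≤
      (lyR S n M j).bs i + (lyR S n M (j + 1)).bs a + (n.n2 + 1 + j + S.P + 1)
    omega
  · intro a h1 h2 h3 h4
    have h9 := hA a h1 h2 h3 h4
    change (lyR S n M j).bs a + (1 + n.n2 + j + 1) ≤
      (lyR S n M (j + 1)).bs a + (n.n2 + 1 + j + S.P + 1)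
    omega

end

end Pool.Agent.Lob12
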