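import Mathlib

/-!
# Ranks of a coloured word with two classes of letters

Positions `1, ..., n`; `low x`: the letter at `x` is low (otherwise high); `bad x`: it is bad (otherwise good). In
each class the bad letters get the ranks `P, ..., 1` (resp. `Q, ..., 1`) from left to right, the good ones the
following ranks from left to right (`rkg`). `cn p x`: number of `y ∈ [1, x]` with `p y`.
Sums of the ranks of `x` and `x + 1`, letters of different classes (`b = cn bad n - cn bad x`):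
both bad `b + 1`, both good `cn bad n + cn good x + 1`, good - bad `cn low x + b` (`x` low) resp. `cn high x + b`,
bad - good `cn high x + b + 2` (`x` low) resp. `cn low x + b + 2`.
-/

namespace Pool.Agent.Lob12

open Classical in
/-- number of `y ∈ [1, x]` with `p y` -/
noncomputable def cn (p : ℕ → Prop) : ℕ → ℕ
  | 0 => 0
  | x + 1 => cn p x + if p (x + 1) then 1 else 0

theorem cn_zero (p : ℕ → Prop) : cn p 0 = 0 := rfl

theorem cn_pos {p : ℕ → Prop} {x : ℕ} (h : p (x + 1)) : cn p (x + 1) = cn p x + 1 := by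
  rw [cn, if_pos h]

theorem cn_neg {p : ℕ → Prop} {x : ℕ} (h : ¬ p (x + 1)) : cn p (x + 1) = cn p x := by
  rw [cn, if_neg h, add_zero]

theorem cn_le_succ (p : ℕ → Prop) (x : ℕ) : cn p x ≤ cn p (x + 1) := by
  by_cases h : p (x + 1)
  · rw [cn_pos h]
    omega
  · rw [cn_neg h]

theorem cn_succ_le (p : ℕ → Prop) (x : ℕ) : cn p (x + 1) ≤ cn p x + 1 := by
  by_cases h : p (x + 1)
  · rw [cn_pos h]
  · rw [cn_neg h]
    omega

theorem cn_mono (p : ℕ → Prop) {x y : ℕ} (h : x ≤ y) : cn p x ≤ cn p y := by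
  induction y with
  | zero => rw [Nat.le_zero.1 h]
  | succ y ih =>
    rcases Nat.lt_or_ge y x with h1 | h1
    · rw [show x = y + 1 by omega]
    · exact (ih h1).trans (cn_le_succ p y)

theorem cn_split (p q : ℕ → Prop) (x : ℕ) :
    cn (fun y => p y ∧ q y) x + cn (fun y => p y ∧ ¬ q y) x = cn p x := by
  induction x with
  | zero => rfl
  | succ x ih =>
    by_cases hp : p (x + 1)
    · by_cases hq : q (x + 1)
      · rw [cn_pos (p := fun y => p y ∧ q y) ⟨hp, hq⟩,
          cn_neg (p := fun y => p y ∧ ¬ q y) (fun h => h.2 hq), cn_pos hp]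
        omega
      · rw [cn_neg (p := fun y => p y ∧ q y) (fun h => hq h.2),
          cn_pos (p := fun y => p y ∧ ¬ q y) ⟨hp, hq⟩, cn_pos hp]
        omega
    · rw [cn_neg (p := fun y => p y ∧ q y) (fun h => hp h.1),
        cn_neg (p := fun y => p y ∧ ¬ q y) (fun h => hp h.1), cn_neg hp]
      omega

theorem cn_compl (p : ℕ → Prop) (x : ℕ) : cn p x + cn (fun y => ¬ p y) x = x := by
  induction x with
  | zero => rfl
  | succ x ih =>
    by_cases hp : p (x + 1)
    · rw [cn_pos hp, cn_neg (p := fun y => ¬ p y) (fun h => h hp)]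
      omega
    · rw [cn_neg hp, cn_pos (p := fun y => ¬ p y) hp]
      omega

theorem cn_congr {p q : ℕ → Prop} {x : ℕ} (h : ∀ y, 1 ≤ y → y ≤ x → (p y ↔ q y)) :
    cn p x = cn q x := by
  induction x with
  | zero => rfl
  | succ x ih =>
    have h1 := ih fun y h1 h2 => h y h1 (by omega)
    have h2 := h (x + 1) (by omega) le_rfl
    by_cases hp : p (x + 1)
    · rw [cn_pos hp, cn_pos (h2.1 hp), h1]
    · rw [cn_neg hp, cn_neg (fun h => hp (h2.2 h)), h1]

section

variable (low bad : ℕ → Prop)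

/-- bad low letters -/
noncomputable def cLB (x : ℕ) : ℕ := cn (fun y => low y ∧ bad y) x
/-- good low letters -/
noncomputable def cLG (x : ℕ) : ℕ := cn (fun y => low y ∧ ¬ bad y) x
/-- bad high letters -/
noncomputable def cHB (x : ℕ) : ℕ := cn (fun y => ¬ low y ∧ bad y) x
/-- good high letters -/
noncomputable def cHG (x : ℕ) : ℕ := cn (fun y => ¬ low y ∧ ¬ bad y) x

open Classical in
/-- the ranks -/
noncomputable def rkg (n x : ℕ) : ℕ :=
  if low x then (if bad x then cLB low bad n - cLB low bad (x - 1)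
    else cLB low bad n + cLG low bad x)
  else (if bad x then cHB low bad n - cHB low bad (x - 1)
    else cHB low bad n + cHG low bad x)

theorem cL_add (x : ℕ) : cLB low bad x + cLG low bad x = cn low x := cn_split low bad x

theorem cH_add (x : ℕ) : cHB low bad x + cHG low bad x = cn (fun y => ¬ low y) x :=
  cn_split (fun y => ¬ low y) bad x

theorem cB_add (x : ℕ) : cLB low bad x + cHB low bad x = cn bad x := by
  rw [← cn_split bad low x]
  unfold cLB cHB
  congr 1
  · exact cn_congr fun y _ _ => and_comm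
  · exact cn_congr fun y _ _ => and_comm

theorem cG_add (x : ℕ) : cLG low bad x + cHG low bad x = cn (fun y => ¬ bad y) x := by
  rw [← cn_split (fun y => ¬ bad y) low x]
  unfold cLG cHG
  congr 1
  · exact cn_congr fun y _ _ => and_comm
  · exact cn_congr fun y _ _ => and_comm

variable {low bad} {n : ℕ}

theorem rkg_LB {x : ℕ} (h1 : low x) (h2 : bad x) :
    rkg low bad n x = cLB low bad n - cLB low bad (x - 1) := by
  rw [rkg, if_pos h1, if_pos h2]

theorem rkg_LG {x : ℕ} (h1 : low x) (h2 : ¬ bad x) :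
    rkg low bad n x = cLB low bad n + cLG low bad x := by
  rw [rkg, if_pos h1, if_neg h2]

theorem rkg_HB {x : ℕ} (h1 : ¬ low x) (h2 : bad x) :
    rkg low bad n x = cHB low bad n - cHB low bad (x - 1) := by
  rw [rkg, if_neg h1, if_pos h2]

theorem rkg_HG {x : ℕ} (h1 : ¬ low x) (h2 : ¬ bad x) :
    rkg low bad n x = cHB low bad n + cHG low bad x := by
  rw [rkg, if_neg h1, if_neg h2]

theorem cn_step {p : ℕ → Prop} {x : ℕ} (h1 : 1 ≤ x) (h2 : p x) : cn p x = cn p (x - 1) + 1 := by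
  obtain ⟨y, rfl⟩ : ∃ y, x = y + 1 := ⟨x - 1, by omega⟩
  exact cn_pos h2

theorem rkg_LB_rng {x : ℕ} (h1 : 1 ≤ x) (h2 : x ≤ n) (h3 : low x) (h4 : bad x) :
    1 ≤ rkg low bad n x ∧ rkg low bad n x ≤ cLB low bad n := by
  rw [rkg_LB h3 h4]
  have h5 := cn_step (p := fun y => low y ∧ bad y) h1 ⟨h3, h4⟩
  have h6 := cn_mono (fun y => low y ∧ bad y) h2
  unfold cLB
  omega

theorem rkg_LG_rng {x : ℕ} (h1 : 1 ≤ x) (h2 : x ≤ n) (h3 : low x) (h4 : ¬ bad x) :
    cLB low bad n + 1 ≤ rkg low bad n x ∧ rkg low bad n x ≤ cn low n := by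
  rw [rkg_LG h3 h4, ← cL_add low bad n]
  have h5 := cn_step (p := fun y => low y ∧ ¬ bad y) h1 ⟨h3, h4⟩
  have h6 := cn_mono (fun y => low y ∧ ¬ bad y) h2
  unfold cLG
  omega

theorem rkg_HB_rng {x : ℕ} (h1 : 1 ≤ x) (h2 : x ≤ n) (h3 : ¬ low x) (h4 : bad x) :
    1 ≤ rkg low bad n x ∧ rkg low bad n x ≤ cHB low bad n := by
  rw [rkg_HB h3 h4]
  have h5 := cn_step (p := fun y => ¬ low y ∧ bad y) h1 ⟨h3, h4⟩
  have h6 := cn_mono (fun y => ¬ low y ∧ bad y) h2
  unfold cHB
  omega

theorem rkg_HG_rng {x : ℕ} (h1 : 1 ≤ x) (h2 : x ≤ n) (h3 : ¬ low x) (h4 : ¬ bad x) :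
    cHB low bad n + 1 ≤ rkg low bad n x ∧ rkg low bad n x ≤ cn (fun y => ¬ low y) n := by
  rw [rkg_HG h3 h4, ← cH_add low bad n]
  have h5 := cn_step (p := fun y => ¬ low y ∧ ¬ bad y) h1 ⟨h3, h4⟩
  have h6 := cn_mono (fun y => ¬ low y ∧ ¬ bad y) h2
  unfold cHG
  omega

/-- bad letters of the same class: the ranks decrease -/
theorem rkg_bad {x y : ℕ} (h : low x ↔ low y) (h1 : 1 ≤ x) (h2 : x ≤ y) (h3 : y ≤ n)
    (h4 : bad x) (h5 : bad y) : rkg low bad n y ≤ rkg low bad n x ∧
      (x < y → rkg low bad n y < rkg low bad n x) := by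
  by_cases hl : low x
  · rw [rkg_LB hl h4, rkg_LB (h.1 hl) h5]
    have a1 := cn_mono (fun y => low y ∧ bad y) (show x - 1 ≤ y - 1 by omega)
    have a2 := cn_mono (fun y => low y ∧ bad y) h3
    have a3 := cn_step (p := fun y => low y ∧ bad y) (show 1 ≤ y by omega) ⟨h.1 hl, h5⟩
    unfold cLB
    refine ⟨by omega, fun h6 => ?_⟩
    have a4 := cn_mono (fun y => low y ∧ bad y) (show x ≤ y - 1 by omega)
    have a5 := cn_step (p := fun y => low y ∧ bad y) h1 ⟨hl, h4⟩
    omega
  · rw [rkg_HB hl h4, rkg_HB (fun h' => hl (h.2 h')) h5]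
    have a1 := cn_mono (fun y => ¬ low y ∧ bad y) (show x - 1 ≤ y - 1 by omega)
    have a2 := cn_mono (fun y => ¬ low y ∧ bad y) h3
    have a3 := cn_step (p := fun y => ¬ low y ∧ bad y) (show 1 ≤ y by omega)
      ⟨fun h' => hl (h.2 h'), h5⟩
    unfold cHB
    refine ⟨by omega, fun h6 => ?_⟩
    have a4 := cn_mono (fun y => ¬ low y ∧ bad y) (show x ≤ y - 1 by omega)
    have a5 := cn_step (p := fun y => ¬ low y ∧ bad y) h1 ⟨hl, h4⟩
    omega

/-- good letters of the same class: the ranks increase -/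
theorem rkg_good {x y : ℕ} (h : low x ↔ low y) (h1 : 1 ≤ x) (h2 : x ≤ y)
    (h4 : ¬ bad x) (h5 : ¬ bad y) : rkg low bad n x ≤ rkg low bad n y ∧
      (x < y → rkg low bad n x < rkg low bad n y) := by
  by_cases hl : low x
  · rw [rkg_LG hl h4, rkg_LG (h.1 hl) h5]
    have a1 := cn_mono (fun y => low y ∧ ¬ bad y) h2
    have a3 := cn_step (p := fun y => low y ∧ ¬ bad y) (show 1 ≤ y by omega) ⟨h.1 hl, h5⟩
    unfold cLG
    refine ⟨by omega, fun h6 => ?_⟩
    have a4 := cn_mono (fun y => low y ∧ ¬ bad y) (show x ≤ y - 1 by omega)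
    omega
  · rw [rkg_HG hl h4, rkg_HG (fun h' => hl (h.2 h')) h5]
    have a1 := cn_mono (fun y => ¬ low y ∧ ¬ bad y) h2
    have a3 := cn_step (p := fun y => ¬ low y ∧ ¬ bad y) (show 1 ≤ y by omega)
      ⟨fun h' => hl (h.2 h'), h5⟩
    unfold cHG
    refine ⟨by omega, fun h6 => ?_⟩
    have a4 := cn_mono (fun y => ¬ low y ∧ ¬ bad y) (show x ≤ y - 1 by omega)
    omega

theorem rkg_inj {x y : ℕ} (h : low x ↔ low y) (h1 : 1 ≤ x) (h2 : x ≤ n) (h3 : 1 ≤ y)
    (h4 : y ≤ n) (h5 : rkg low bad n x = rkg low bad n y) : x = y := by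
  by_contra hne
  have key : ∀ x y, (low x ↔ low y) → 1 ≤ x → x < y → y ≤ n →
      rkg low bad n x ≠ rkg low bad n y := by
    intro x y h h1 h2 h3 h5
    by_cases hx : bad x <;> by_cases hy : bad y
    · have := (rkg_bad h h1 h2.le h3 hx hy).2 h2
      omega
    · by_cases hl : low x
      · have a1 := rkg_LB_rng h1 (show x ≤ n by omega) hl hx
        have a2 := rkg_LG_rng (show 1 ≤ y by omega) h3 (h.1 hl) hy
        omega
      · have a1 := rkg_HB_rng h1 (show x ≤ n by omega) hl hx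
        have a2 := rkg_HG_rng (show 1 ≤ y by omega) h3 (fun h' => hl (h.2 h')) hy
        omega
    · by_cases hl : low x
      · have a1 := rkg_LG_rng h1 (show x ≤ n by omega) hl hx
        have a2 := rkg_LB_rng (show 1 ≤ y by omega) h3 (h.1 hl) hy
        omega
      · have a1 := rkg_HG_rng h1 (show x ≤ n by omega) hl hx
        have a2 := rkg_HB_rng (show 1 ≤ y by omega) h3 (fun h' => hl (h.2 h')) hy
        omega
    · have := (rkg_good (n := n) h h1 h2.le hx hy).2 h2
      omega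
  rcases Nat.lt_or_gt_of_ne hne with h7 | h7
  · exact key x y h h1 h7 h4 h5
  · exact key y x h.symm h3 h7 h2 h5.symm

/-- both bad -/
theorem sum_CB {x : ℕ} (h1 : 1 ≤ x) (h2 : x < n) (h : low x ↔ ¬ low (x + 1)) (h3 : bad x)
    (h4 : bad (x + 1)) : rkg low bad n x + rkg low bad n (x + 1) + cn bad x = cn bad n + 1 := by
  rw [← cB_add low bad x, ← cB_add low bad n]
  have m1 : cLB low bad (x + 1) ≤ cLB low bad n := cn_mono _ (by omega)
  have m2 : cHB low bad (x + 1) ≤ cHB low bad n := cn_mono _ (by omega)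
  have e1 : x + 1 - 1 = x := by omega
  by_cases hl : low x
  · have hl' : ¬ low (x + 1) := h.1 hl
    rw [rkg_LB hl h3, rkg_HB hl' h4, e1]
    have s1 : cLB low bad x = cLB low bad (x - 1) + 1 :=
      cn_step (p := fun y => low y ∧ bad y) h1 ⟨hl, h3⟩
    have s2 : cHB low bad (x + 1) = cHB low bad x + 1 :=
      cn_pos (p := fun y => ¬ low y ∧ bad y) ⟨hl', h4⟩
    have s3 : cLB low bad (x + 1) = cLB low bad x :=
      cn_neg (p := fun y => low y ∧ bad y) (fun h => hl' h.1)
    omega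
  · have hl' : low (x + 1) := by
      by_contra h'
      exact hl (h.2 h')
    rw [rkg_HB hl h3, rkg_LB hl' h4, e1]
    have s1 : cHB low bad x = cHB low bad (x - 1) + 1 :=
      cn_step (p := fun y => ¬ low y ∧ bad y) h1 ⟨hl, h3⟩
    have s2 : cLB low bad (x + 1) = cLB low bad x + 1 :=
      cn_pos (p := fun y => low y ∧ bad y) ⟨hl', h4⟩
    have s3 : cHB low bad (x + 1) = cHB low bad x :=
      cn_neg (p := fun y => ¬ low y ∧ bad y) (fun h => h.1 hl')
    omega

/-- both good -/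
theorem sum_CG {x : ℕ} (h : low x ↔ ¬ low (x + 1)) (h3 : ¬ bad x)
    (h4 : ¬ bad (x + 1)) : rkg low bad n x + rkg low bad n (x + 1) =
      cn bad n + cn (fun y => ¬ bad y) x + 1 := by
  rw [← cG_add low bad x, ← cB_add low bad n]
  by_cases hl : low x
  · have hl' : ¬ low (x + 1) := h.1 hl
    rw [rkg_LG hl h3, rkg_HG hl' h4]
    have s2 : cHG low bad (x + 1) = cHG low bad x + 1 :=
      cn_pos (p := fun y => ¬ low y ∧ ¬ bad y) ⟨hl', h4⟩
    omega
  · have hl' : low (x + 1) := by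
      by_contra h'
      exact hl (h.2 h')
    rw [rkg_HG hl h3, rkg_LG hl' h4]
    have s2 : cLG low bad (x + 1) = cLG low bad x + 1 :=
      cn_pos (p := fun y => low y ∧ ¬ bad y) ⟨hl', h4⟩
    omega

/-- good - bad, `x` low -/
theorem sum_maxL {x : ℕ} (h2 : x < n) (hl : low x) (hl' : ¬ low (x + 1)) (h3 : ¬ bad x)
    (h4 : bad (x + 1)) :
    rkg low bad n x + rkg low bad n (x + 1) + cn bad x = cn bad n + cn low x := by
  rw [← cB_add low bad x, ← cB_add low bad n, ← cL_add low bad x, rkg_LG hl h3, rkg_HB hl' h4]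
  have m2 : cHB low bad (x + 1) ≤ cHB low bad n := cn_mono _ (by omega)
  have s2 : cHB low bad (x + 1) = cHB low bad x + 1 :=
    cn_pos (p := fun y => ¬ low y ∧ bad y) ⟨hl', h4⟩
  have e1 : x + 1 - 1 = x := by omega
  rw [e1]
  omega

/-- good - bad, `x` high -/
theorem sum_maxH {x : ℕ} (h2 : x < n) (hl : ¬ low x) (hl' : low (x + 1)) (h3 : ¬ bad x)
    (h4 : bad (x + 1)) :
    rkg low bad n x + rkg low bad n (x + 1) + cn bad x =
      cn bad n + cn (fun y => ¬ low y) x := by
  rw [← cB_add low bad x, ← cB_add low bad n, ← cH_add low bad x, rkg_HG hl h3, rkg_LB hl' h4]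
  have m2 : cLB low bad (x + 1) ≤ cLB low bad n := cn_mono _ (by omega)
  have s2 : cLB low bad (x + 1) = cLB low bad x + 1 :=
    cn_pos (p := fun y => low y ∧ bad y) ⟨hl', h4⟩
  have e1 : x + 1 - 1 = x := by omega
  rw [e1]
  omega

/-- bad - good, `x` low -/
theorem sum_minL {x : ℕ} (h1 : 1 ≤ x) (h2 : x < n) (hl : low x) (hl' : ¬ low (x + 1))
    (h3 : bad x) (h4 : ¬ bad (x + 1)) :
    rkg low bad n x + rkg low bad n (x + 1) + cn bad x =
      cn bad n + cn (fun y => ¬ low y) x + 2 := by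
  rw [← cB_add low bad x, ← cB_add low bad n, ← cH_add low bad x, rkg_LB hl h3, rkg_HG hl' h4]
  have m2 : cLB low bad x ≤ cLB low bad n := cn_mono _ (by omega)
  have s1 : cLB low bad x = cLB low bad (x - 1) + 1 :=
    cn_step (p := fun y => low y ∧ bad y) h1 ⟨hl, h3⟩
  have s2 : cHG low bad (x + 1) = cHG low bad x + 1 :=
    cn_pos (p := fun y => ¬ low y ∧ ¬ bad y) ⟨hl', h4⟩
  omega

/-- bad - good, `x` high -/
theorem sum_minH {x : ℕ} (h1 : 1 ≤ x) (h2 : x < n) (hl : ¬ low x) (hl' : low (x + 1))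
    (h3 : bad x) (h4 : ¬ bad (x + 1)) :
    rkg low bad n x + rkg low bad n (x + 1) + cn bad x = cn bad n + cn low x + 2 := by
  rw [← cB_add low bad x, ← cB_add low bad n, ← cL_add low bad x, rkg_HB hl h3, rkg_LG hl' h4]
  have m2 : cHB low bad x ≤ cHB low bad n := cn_mono _ (by omega)
  have s1 : cHB low bad x = cHB low bad (x - 1) + 1 :=
    cn_step (p := fun y => ¬ low y ∧ bad y) h1 ⟨hl, h3⟩
  have s2 : cLG low bad (x + 1) = cLG low bad x + 1 :=
    cn_pos (p := fun y => low y ∧ ¬ bad y) ⟨hl', h4⟩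
  omega

end

end Pool.Agent.Lob12
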