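import Pool.Agent.Lob12.LrDefs
import Pool.Agent.Lob12.Rkg

/-!
# Ranks from an order of the edges, one low edge reserved

`OW`: a coloured word with `K = 2h+2` edges and an order `ps : edges ≠ u → [1, K-1]` of the edges other than `u`, such
that adjacent edges have adjacent positions and the first `K - u` positions are those of the edges `> u`. The position
`x` is low (`lx K u x`) if `x ≤ K - u` is odd or `x > K - u` is even. The ranks `rkg` give a structure `LR` (`OW.lr`).
Two instances: `ps e = e - u` or `ps e = K + 1 - e` for `e > u`, and `ps e = K - u + e` for `e < u`.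
-/

namespace Pool.Agent.Lob12

open Pool.Agent.Lob5 Pool.Agent.Lob89

/-- the low positions -/
def lx (K u x : ℕ) : Prop := (x + u ≤ K ∧ x % 2 = 1) ∨ (K < x + u ∧ x % 2 = 0)

/-- A coloured word with an order of the edges. -/
structure OW (K u h : ℕ) (ld al bad : ℕ → Prop) (ps : ℕ → ℕ) : Prop where
  hK : K = 2 * h + 2
  u1 : u % 2 = 1
  uK : u < K
  uC : ¬ ld u
  ub : bad u
  al_ld : ∀ i, al i → ld i
  same : ∀ i, 1 ≤ i → i < K → i ≠ u → ¬ ld i → (bad i ↔ bad (i + 1))
  dif1 : ∀ i, 1 ≤ i → i < K → ld i → bad i → ¬ bad (i + 1)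
  dif2 : ∀ i, 1 ≤ i → i < K → al i → ¬ bad i → bad (i + 1)
  rng : ∀ e, 1 ≤ e → e ≤ K → e ≠ u → 1 ≤ ps e ∧ ps e + 1 ≤ K
  inj : ∀ e f, 1 ≤ e → e ≤ K → e ≠ u → 1 ≤ f → f ≤ K → f ≠ u → ps e = ps f → e = f
  adj : ∀ i, 1 ≤ i → i < K → i ≠ u → i + 1 ≠ u → ps (i + 1) = ps i + 1 ∨ ps i = ps (i + 1) + 1
  low : ∀ e, 1 ≤ e → e ≤ K → e ≠ u → (lx K u (ps e) ↔ lw u e)
  lst : 2 ≤ u → ps (u - 1) + 1 = K

/-- the colours of the positions -/
def bx (K u : ℕ) (bad : ℕ → Prop) (ps : ℕ → ℕ) (x : ℕ) : Prop :=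
  ∃ e, 1 ≤ e ∧ e ≤ K ∧ e ≠ u ∧ ps e = x ∧ bad e

section

variable {K u h : ℕ} {ld al bad : ℕ → Prop} {ps : ℕ → ℕ}

theorem OW.bx_iff (W : OW K u h ld al bad ps) {e : ℕ} (h1 : 1 ≤ e) (h2 : e ≤ K) (h3 : e ≠ u) :
    bx K u bad ps (ps e) ↔ bad e := by
  constructor
  · rintro ⟨f, f1, f2, f3, f4, f5⟩
    rwa [← W.inj f e f1 f2 f3 h1 h2 h3 f4]
  · exact fun h4 => ⟨e, h1, h2, h3, rfl, h4⟩

/-- the rank of an edge -/
noncomputable def rko (K u : ℕ) (bad : ℕ → Prop) (ps : ℕ → ℕ) (e : ℕ) : ℕ :=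
  if e = u then 0 else rkg (lx K u) (bx K u bad ps) (K - 1) (ps e)

/-- number of low positions `≤ x` -/
theorem cn_lx (hK : K % 2 = 0) (hu : u % 2 = 1) (huK : u < K) (x : ℕ) :
    cn (lx K u) x = if x + u ≤ K then (x + 1) / 2 else x / 2 + 1 := by
  induction x with
  | zero => rw [if_pos (by omega)]; rfl
  | succ x ih =>
    by_cases h : lx K u (x + 1)
    · rw [cn_pos h, ih]
      unfold lx at h
      split_ifs <;> omega
    · rw [cn_neg h, ih]
      unfold lx at h
      split_ifs <;> omega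

/-- number of high positions `≤ x` -/
theorem cn_hx (hK : K % 2 = 0) (hu : u % 2 = 1) (huK : u < K) (x : ℕ) :
    cn (fun y => ¬ lx K u y) x = if x + u ≤ K then x / 2 else (x - 1) / 2 := by
  have h1 := cn_compl (lx K u) x
  rw [cn_lx hK hu huK] at h1
  split_ifs at h1 ⊢ <;> omega

/-- the position of a vertex -/
def px (ps : ℕ → ℕ) (i : ℕ) : ℕ := min (ps i) (ps (i + 1))

theorem OW.px_cases (W : OW K u h ld al bad ps) {i : ℕ} (h1 : 1 ≤ i) (h2 : i < K) (h3 : i ≠ u)
    (h4 : i + 1 ≠ u) : (px ps i = ps i ∧ px ps i + 1 = ps (i + 1)) ∨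
      (px ps i = ps (i + 1) ∧ px ps i + 1 = ps i) := by
  unfold px
  rcases W.adj i h1 h2 h3 h4 with h | h
  · left
    rw [Nat.min_eq_left (by omega)]
    exact ⟨rfl, h.symm⟩
  · right
    rw [Nat.min_eq_right (by omega)]
    exact ⟨rfl, h.symm⟩

theorem OW.px_lh (W : OW K u h ld al bad ps) {i : ℕ} (h1 : 1 ≤ i) (h2 : i < K) (h3 : i ≠ u)
    (h4 : i + 1 ≠ u) : (px ps i = ps (lo u i) ∧ px ps i + 1 = ps (hi u i)) ∨
      (px ps i = ps (hi u i) ∧ px ps i + 1 = ps (lo u i)) := by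
  have h5 := W.px_cases h1 h2 h3 h4
  unfold lo hi oe ee
  split_ifs
  · exact h5
  · exact h5.symm
  · exact h5.symm
  · exact h5

/-- the structure `LR` of a word with an order -/
noncomputable def OW.lr (W : OW K u h ld al bad ps) : LR K u ld al where
  h := h
  P := cLB (lx K u) (bx K u bad ps) (K - 1)
  Q := cHB (lx K u) (bx K u bad ps) (K - 1)
  bad := bad
  rk := rko K u bad ps
  al_ld := W.al_ld
  hK := W.hK
  u1 := W.u1
  uK := W.uK
  uC := W.uC
  ub := W.ub
  uk := by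
    unfold rko
    rw [if_pos rfl]
  Ph := by
    have hK := W.hK
    have huK := W.uK
    have h1 := cL_add (lx K u) (bx K u bad ps) (K - 1)
    have h2 := cn_lx (by omega) W.u1 huK (K - 1)
    have hu := W.u1
    split_ifs at h2 <;> omega
  Qh := by
    have hK := W.hK
    have huK := W.uK
    have h1 := cH_add (lx K u) (bx K u bad ps) (K - 1)
    have h2 := cn_hx (by omega) W.u1 huK (K - 1)
    have hu := W.u1
    split_ifs at h2 <;> omega
  same := W.same
  dif1 := by
    intro i h1 h2 h3 h4 h5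
    have h6 := W.dif1 i h1 h2 h3
    unfold lo at h4
    unfold hi at h5
    unfold oe ee at h4 h5
    split_ifs at h4 h5
    · exact h6 h4 h5
    · exact h6 h5 h4
    · exact h6 h5 h4
    · exact h6 h4 h5
  dif2 := by
    intro i h1 h2 h3 h4
    have h6 := W.dif2 i h1 h2 h3
    unfold lo oe ee at h4
    unfold hi oe ee
    split_ifs at h4 ⊢
    · exact h6 h4
    · by_contra h5
      exact h4 (h6 h5)
    · by_contra h5
      exact h4 (h6 h5)
    · exact h6 h4
  rk_lb := by
    intro e h1 h2 h3 h4 h5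
    have h6 := W.rng e h1 h2 h3
    unfold rko
    rw [if_neg h3]
    exact rkg_LB_rng h6.1 (by omega) ((W.low e h1 h2 h3).2 h4) ((W.bx_iff h1 h2 h3).2 h5)
  rk_lg := by
    intro e h1 h2 h4 h5
    have h3 : e ≠ u := by
      rintro rfl
      exact h5 W.ub
    have h6 := W.rng e h1 h2 h3
    have h7 := rkg_LG_rng (n := K - 1) h6.1 (by omega) ((W.low e h1 h2 h3).2 h4)
      (fun h => h5 ((W.bx_iff h1 h2 h3).1 h))
    have hK := W.hK
    have huK := W.uK
    have h8 := cn_lx (by omega) W.u1 huK (K - 1)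
    have hu := W.u1
    unfold rko
    rw [if_neg h3]
    split_ifs at h8 <;> omega
  rk_hb := by
    intro e h1 h2 h4 h5
    have h3 : e ≠ u := by
      rintro rfl
      exact h4 (Or.inl ⟨le_rfl, W.u1⟩)
    have h6 := W.rng e h1 h2 h3
    unfold rko
    rw [if_neg h3]
    exact rkg_HB_rng h6.1 (by omega) (fun h => h4 ((W.low e h1 h2 h3).1 h))
      ((W.bx_iff h1 h2 h3).2 h5)
  rk_hg := by
    intro e h1 h2 h4 h5
    have h3 : e ≠ u := by
      rintro rfl
      exact h5 W.ub
    have h6 := W.rng e h1 h2 h3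
    have h7 := rkg_HG_rng (n := K - 1) h6.1 (by omega) (fun h => h4 ((W.low e h1 h2 h3).1 h))
      (fun h => h5 ((W.bx_iff h1 h2 h3).1 h))
    have hK := W.hK
    have huK := W.uK
    have h8 := cn_hx (by omega) W.u1 huK (K - 1)
    have hu := W.u1
    unfold rko
    rw [if_neg h3]
    split_ifs at h8 <;> omega
  rk_inj := by
    intro e f h1 h2 h3 h4 h5 h6
    have pos : ∀ e, 1 ≤ e → e ≤ K → e ≠ u → 1 ≤ rko K u bad ps e := by
      intro e h1 h2 h3
      have h6 := W.rng e h1 h2 h3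
      unfold rko
      rw [if_neg h3]
      by_cases a : lx K u (ps e) <;> by_cases b : bx K u bad ps (ps e)
      · exact (rkg_LB_rng h6.1 (by omega) a b).1
      · have := (rkg_LG_rng (n := K - 1) h6.1 (by omega) a b).1
        omega
      · exact (rkg_HB_rng h6.1 (by omega) a b).1
      · have := (rkg_HG_rng (n := K - 1) h6.1 (by omega) a b).1
        omega
    have zr : rko K u bad ps u = 0 := by
      unfold rko
      rw [if_pos rfl]
    by_cases he : e = u
    · by_cases hf : f = u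
      · omega
      · rw [he, zr] at h6
        have := pos f h3 h4 hf
        omega
    by_cases hf : f = u
    · rw [hf, zr] at h6
      have := pos e h1 h2 he
      omega
    have r1 := W.rng e h1 h2 he
    have r2 := W.rng f h3 h4 hf
    unfold rko at h6
    rw [if_neg he, if_neg hf] at h6
    refine W.inj e f h1 h2 he h3 h4 hf (rkg_inj (n := K - 1) ?_ r1.1 (by omega) r2.1 (by omega) h6)
    rw [W.low e h1 h2 he, W.low f h3 h4 hf, h5]
  cu := by
    intro h2 h3
    have hu := W.u1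
    have huK := W.uK
    have hne : u - 1 ≠ u := by omega
    have h4 : bad (u - 1) := by
      have := (W.same (u - 1) (by omega) (by omega) hne h3).2
      rw [show u - 1 + 1 = u by omega] at this
      exact this W.ub
    have h5 : ¬ lw u (u - 1) := by
      unfold lw
      omega
    have h6 := W.lst h2
    have a1 : ¬ lx K u (ps (u - 1)) := fun h =>
      h5 ((W.low (u - 1) (by omega) (by omega) hne).1 h)
    have a2 : bx K u bad ps (ps (u - 1)) := (W.bx_iff (by omega) (by omega) hne).2 h4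
    unfold rko
    rw [if_neg hne]
    rw [show ps (u - 1) = K - 1 by omega] at a1 a2 ⊢
    rw [rkg_HB a1 a2]
    have := cn_step (p := fun y => ¬ lx K u y ∧ bx K u bad ps y) (show 1 ≤ K - 1 by omega)
      ⟨a1, a2⟩
    unfold cHB
    omega
  cmp := by
    have key : ∀ i j, 1 ≤ i → i < K → i ≠ u → i + 1 ≠ u → ¬ ld i → 1 ≤ j → j < K → j ≠ u →
        j + 1 ≠ u → ¬ ld j → (bad i ↔ bad j) → px ps i ≤ px ps j →
        (rko K u bad ps (lo u i) ≤ rko K u bad ps (lo u j) ∧
          rko K u bad ps (hi u i) ≤ rko K u bad ps (hi u j)) ∨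
        (rko K u bad ps (lo u j) ≤ rko K u bad ps (lo u i) ∧
          rko K u bad ps (hi u j) ≤ rko K u bad ps (hi u i)) := by
      intro i j i1 i2 i3 i4 i5 j1 j2 j3 j4 j5 hb hle
      have bi : (bad i ↔ bad (lo u i)) ∧ (bad i ↔ bad (hi u i)) := by
        have := W.same i i1 i2 i3 i5
        unfold lo hi oe ee
        split_ifs
        · exact ⟨Iff.rfl, this⟩
        · exact ⟨this, Iff.rfl⟩
        · exact ⟨this, Iff.rfl⟩
        · exact ⟨Iff.rfl, this⟩
      have bj : (bad j ↔ bad (lo u j)) ∧ (bad j ↔ bad (hi u j)) := by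
        have := W.same j j1 j2 j3 j5
        unfold lo hi oe ee
        split_ifs
        · exact ⟨Iff.rfl, this⟩
        · exact ⟨this, Iff.rfl⟩
        · exact ⟨this, Iff.rfl⟩
        · exact ⟨Iff.rfl, this⟩
      have li := lo_rng (u := u) i1 i2
      have lj := lo_rng (u := u) j1 j2
      have hi' := hi_rng (u := u) i1 i2
      have hj' := hi_rng (u := u) j1 j2
      have ne1 := lo_ne_u i3 W.u1 i4
      have ne2 := lo_ne_u j3 W.u1 j4
      have ne3 : hi u i ≠ u := fun h => hi_lw i3 (by rw [h]; exact Or.inl ⟨le_rfl, W.u1⟩)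
      have ne4 : hi u j ≠ u := fun h => hi_lw j3 (by rw [h]; exact Or.inl ⟨le_rfl, W.u1⟩)
      have xi := W.px_lh i1 i2 i3 i4
      have xj := W.px_lh j1 j2 j3 j4
      have w1 : lx K u (ps (lo u i)) := (W.low _ li.1 li.2 ne1).2 (lo_lw i3)
      have w2 : lx K u (ps (lo u j)) := (W.low _ lj.1 lj.2 ne2).2 (lo_lw j3)
      have w3 : ¬ lx K u (ps (hi u i)) := fun h => hi_lw i3 ((W.low _ hi'.1 hi'.2 ne3).1 h)
      have w4 : ¬ lx K u (ps (hi u j)) := fun h => hi_lw j3 ((W.low _ hj'.1 hj'.2 ne4).1 h)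
      have r1 := W.rng _ li.1 li.2 ne1
      have r2 := W.rng _ lj.1 lj.2 ne2
      have r3 := W.rng _ hi'.1 hi'.2 ne3
      have r4 := W.rng _ hj'.1 hj'.2 ne4
      have o1 : ps (lo u i) ≤ ps (lo u j) ∧ ps (hi u i) ≤ ps (hi u j) := by
        rcases Nat.lt_or_ge (px ps i) (px ps j) with h | h
        · omega
        · have he : px ps i = px ps j := le_antisymm hle h
          rcases xi with ⟨x1, x2⟩ | ⟨x1, x2⟩ <;> rcases xj with ⟨y1, y2⟩ | ⟨y1, y2⟩
          · omega
          · exfalso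
            rw [← x1, he, y1] at w1
            exact w4 w1
          · exfalso
            rw [← y1, ← he, x1] at w2
            exact w3 w2
          · omega
      unfold rko
      rw [if_neg ne1, if_neg ne2, if_neg ne3, if_neg ne4]
      by_cases hc : bad i
      · right
        have c1 := (W.bx_iff li.1 li.2 ne1).2 (bi.1.1 hc)
        have c2 := (W.bx_iff lj.1 lj.2 ne2).2 (bj.1.1 (hb.1 hc))
        have c3 := (W.bx_iff hi'.1 hi'.2 ne3).2 (bi.2.1 hc)
        have c4 := (W.bx_iff hj'.1 hj'.2 ne4).2 (bj.2.1 (hb.1 hc))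
        exact ⟨(rkg_bad (iff_of_true w1 w2) r1.1 o1.1 (by omega) c1 c2).1,
          (rkg_bad (iff_of_false w3 w4) r3.1 o1.2 (by omega) c3 c4).1⟩
      · left
        have c1 : ¬ bx K u bad ps (ps (lo u i)) := fun h =>
          hc (bi.1.2 ((W.bx_iff li.1 li.2 ne1).1 h))
        have c2 : ¬ bx K u bad ps (ps (lo u j)) := fun h =>
          hc (hb.2 (bj.1.2 ((W.bx_iff lj.1 lj.2 ne2).1 h)))
        have c3 : ¬ bx K u bad ps (ps (hi u i)) := fun h =>
          hc (bi.2.2 ((W.bx_iff hi'.1 hi'.2 ne3).1 h))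
        have c4 : ¬ bx K u bad ps (ps (hi u j)) := fun h =>
          hc (hb.2 (bj.2.2 ((W.bx_iff hj'.1 hj'.2 ne4).1 h)))
        exact ⟨(rkg_good (iff_of_true w1 w2) r1.1 o1.1 c1 c2).1,
          (rkg_good (iff_of_false w3 w4) r3.1 o1.2 c3 c4).1⟩
    intro i j i1 i2 i3 i4 i5 j1 j2 j3 j4 j5 hb
    rcases Nat.le_total (px ps i) (px ps j) with h | h
    · exact key i j i1 i2 i3 i4 i5 j1 j2 j3 j4 j5 hb h
    · exact (key j i j1 j2 j3 j4 j5 i1 i2 i3 i4 i5 hb.symm h).symm

end

end Pool.Agent.Lob12
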