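import Pool.Agent.Lob12.OwDefs

/-!
# Sums of ranks in terms of walks

`wk bad x = x - 2 (number of bad y ∈ [1, x])` is the walk of the colours. `OW.J_lam`: the sum `J i` of the ranks at the
vertex `i` (positions `x = px ps i` and `x + 1`) in terms of `B = P + Q` and the walk `w` of the order at `x`:
both bad `2J = 2B + 2 - x + w`, both good `2J = 2B + 2 + x + w`, in the first block good - bad `2J = 2B + w + (x mod 2)`,
bad - good `2J = 2B + w + 4 - (x mod 2)`, in the second block good - bad `2J = 2B + w + 2 - 3 (x mod 2)`, bad - good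
`2J = 2B + w + 2 + 3 (x mod 2)`. `psR`, `psM`: the two orders.
-/

namespace Pool.Agent.Lob12

open Pool.Agent.Lob5 Pool.Agent.Lob89

/-- the walk -/
noncomputable def wk (bad : ℕ → Prop) (x : ℕ) : ℤ := x - 2 * cn bad x

theorem wk_zero (bad : ℕ → Prop) : wk bad 0 = 0 := by
  unfold wk
  rw [cn_zero]
  rfl

theorem wk_bad {bad : ℕ → Prop} {x : ℕ} (h : bad (x + 1)) : wk bad (x + 1) = wk bad x - 1 := by
  unfold wk
  rw [cn_pos h]
  push_cast
  ring

theorem wk_good {bad : ℕ → Prop} {x : ℕ} (h : ¬ bad (x + 1)) : wk bad (x + 1) = wk bad x + 1 := by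
  unfold wk
  rw [cn_neg h]
  push_cast
  ring

section

variable {K u h : ℕ} {ld al bad : ℕ → Prop} {ps : ℕ → ℕ}

theorem OW.lr_PQ (W : OW K u h ld al bad ps) :
    W.lr.P + W.lr.Q = cn (bx K u bad ps) (K - 1) := cB_add _ _ _

theorem OW.J_px (W : OW K u h ld al bad ps) {i : ℕ} (h1 : 1 ≤ i) (h2 : i < K) (h3 : i ≠ u)
    (h4 : i + 1 ≠ u) : W.lr.J i = rkg (lx K u) (bx K u bad ps) (K - 1) (px ps i) +
      rkg (lx K u) (bx K u bad ps) (K - 1) (px ps i + 1) := by
  have h5 : W.lr.J i = rko K u bad ps i + rko K u bad ps (i + 1) := rfl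
  rw [h5]
  unfold rko
  rw [if_neg h3, if_neg h4]
  rcases W.px_cases h1 h2 h3 h4 with ⟨a, b⟩ | ⟨a, b⟩
  · rw [b, a]
  · rw [b, a, add_comm]

theorem OW.px_rng (W : OW K u h ld al bad ps) {i : ℕ} (h1 : 1 ≤ i) (h2 : i < K) (h3 : i ≠ u)
    (h4 : i + 1 ≠ u) : 1 ≤ px ps i ∧ px ps i + 2 ≤ K ∧
      (lx K u (px ps i) ↔ ¬ lx K u (px ps i + 1)) := by
  have r1 := W.rng i h1 h2.le h3
  have r2 := W.rng (i + 1) (by omega) (by omega) h4
  have l1 := W.low i h1 h2.le h3
  have l2 := W.low (i + 1) (by omega) (by omega) h4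
  have hh : lw u i ↔ ¬ lw u (i + 1) := by
    unfold lw
    omega
  rcases W.px_cases h1 h2 h3 h4 with ⟨a, b⟩ | ⟨a, b⟩
  · refine ⟨by omega, by omega, ?_⟩
    rw [b, a, l1, l2]
    exact hh
  · refine ⟨by omega, by omega, ?_⟩
    rw [b, a, l1, l2, hh]
    exact not_not.symm

/-- the sum of the ranks at a vertex -/
theorem OW.J_lam (W : OW K u h ld al bad ps) {i x : ℕ} (h1 : 1 ≤ i) (h2 : i < K) (h3 : i ≠ u)
    (h4 : i + 1 ≠ u) (hx : x = px ps i) :
    (bx K u bad ps x → bx K u bad ps (x + 1) →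
      2 * (W.lr.J i : ℤ) = 2 * (W.lr.P + W.lr.Q : ℕ) + 2 - x + wk (bx K u bad ps) x) ∧
    (¬ bx K u bad ps x → ¬ bx K u bad ps (x + 1) →
      2 * (W.lr.J i : ℤ) = 2 * (W.lr.P + W.lr.Q : ℕ) + 2 + x + wk (bx K u bad ps) x) ∧
    (¬ bx K u bad ps x → bx K u bad ps (x + 1) →
      (x + u < K → 2 * (W.lr.J i : ℤ) =
        2 * (W.lr.P + W.lr.Q : ℕ) + wk (bx K u bad ps) x + (x % 2 : ℕ)) ∧
      (K < x + u → 2 * (W.lr.J i : ℤ) =
        2 * (W.lr.P + W.lr.Q : ℕ) + wk (bx K u bad ps) x + 2 - 3 * (x % 2 : ℕ))) ∧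
    (bx K u bad ps x → ¬ bx K u bad ps (x + 1) →
      (x + u < K → 2 * (W.lr.J i : ℤ) =
        2 * (W.lr.P + W.lr.Q : ℕ) + wk (bx K u bad ps) x + 4 - (x % 2 : ℕ)) ∧
      (K < x + u → 2 * (W.lr.J i : ℤ) =
        2 * (W.lr.P + W.lr.Q : ℕ) + wk (bx K u bad ps) x + 2 + 3 * (x % 2 : ℕ))) := by
  have hr := W.px_rng h1 h2 h3 h4
  have hJ := W.J_px h1 h2 h3 h4
  rw [← hx] at hr hJ
  rw [W.lr_PQ, hJ]
  obtain ⟨r1, r2, r3⟩ := hr
  have hK := W.hK
  have huK := W.uK
  have hu := W.u1
  have c1 := cn_lx (by omega) hu huK x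
  have c2 := cn_hx (by omega) hu huK x
  have c3 := cn_compl (bx K u bad ps) x
  have c4 : x + u ≠ K := by
    intro h
    have a1 : lx K u x := Or.inl ⟨by omega, by omega⟩
    have a2 : lx K u (x + 1) := Or.inr ⟨by omega, by omega⟩
    exact r3.1 a1 a2
  unfold wk
  refine ⟨fun b1 b2 => ?_, fun b1 b2 => ?_, fun b1 b2 => ?_, fun b1 b2 => ?_⟩
  · have := sum_CB (n := K - 1) r1 (by omega) r3 b1 b2
    omega
  · have := sum_CG (n := K - 1) r3 b1 b2
    omega
  · by_cases hl : lx K u x
    · have := sum_maxL (n := K - 1) (by omega) hl (r3.1 hl) b1 b2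
      unfold lx at hl
      rcases Nat.lt_or_ge K (x + u) with h | h
      · rw [if_neg (by omega)] at c1
        exact ⟨fun _ => by omega, fun _ => by omega⟩
      · rw [if_pos (by omega)] at c1
        exact ⟨fun _ => by omega, fun _ => by omega⟩
    · have hl' : lx K u (x + 1) := by
        by_contra h
        exact hl (r3.2 h)
      have := sum_maxH (n := K - 1) (by omega) hl hl' b1 b2
      unfold lx at hl
      rcases Nat.lt_or_ge K (x + u) with h | h
      · rw [if_neg (by omega)] at c2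
        exact ⟨fun _ => by omega, fun _ => by omega⟩
      · rw [if_pos (by omega)] at c2
        exact ⟨fun _ => by omega, fun _ => by omega⟩
  · by_cases hl : lx K u x
    · have := sum_minL (n := K - 1) r1 (by omega) hl (r3.1 hl) b1 b2
      unfold lx at hl
      rcases Nat.lt_or_ge K (x + u) with h | h
      · rw [if_neg (by omega)] at c2
        exact ⟨fun _ => by omega, fun _ => by omega⟩
      · rw [if_pos (by omega)] at c2
        exact ⟨fun _ => by omega, fun _ => by omega⟩
    · have hl' : lx K u (x + 1) := by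
        by_contra h
        exact hl (r3.2 h)
      have := sum_minH (n := K - 1) r1 (by omega) hl hl' b1 b2
      unfold lx at hl
      rcases Nat.lt_or_ge K (x + u) with h | h
      · rw [if_neg (by omega)] at c1
        exact ⟨fun _ => by omega, fun _ => by omega⟩
      · rw [if_pos (by omega)] at c1
        exact ⟨fun _ => by omega, fun _ => by omega⟩

/-- the sum of the ranks at the vertex `u - 1`, if it is loaded -/
theorem OW.J_pred (W : OW K u h ld al bad ps) (h1 : 2 ≤ u) (h2 : ld (u - 1)) :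
    W.lr.J (u - 1) = h := by
  have hK := W.hK
  have huK := W.uK
  have hu := W.u1
  have hne : u - 1 ≠ u := by omega
  have h5 : W.lr.J (u - 1) = rko K u bad ps (u - 1) + rko K u bad ps (u - 1 + 1) := rfl
  rw [h5, show u - 1 + 1 = u by omega]
  unfold rko
  rw [if_neg hne, if_pos rfl, add_zero]
  have hp : ps (u - 1) = K - 1 := by
    have := W.lst h1
    omega
  have hb : ¬ bad (u - 1) := by
    intro hb
    have := W.dif1 (u - 1) (by omega) (by omega) h2 hb
    rw [show u - 1 + 1 = u by omega] at this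
    exact this W.ub
  have a1 : ¬ lx K u (ps (u - 1)) := fun h => by
    have := (W.low (u - 1) (by omega) (by omega) hne).1 h
    unfold lw at this
    omega
  have a2 : ¬ bx K u bad ps (ps (u - 1)) := fun h =>
    hb ((W.bx_iff (by omega) (by omega) hne).1 h)
  rw [hp] at a1 a2 ⊢
  rw [rkg_HG a1 a2]
  have h6 := cH_add (lx K u) (bx K u bad ps) (K - 1)
  have h7 := cn_hx (by omega) hu huK (K - 1)
  split_ifs at h7 <;> omega

/-- the order `u+1, ..., K, 1, ..., u-1` -/
def psR (K u e : ℕ) : ℕ := if u < e then e - u else K - u + e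

/-- the order `K, ..., u+1, 1, ..., u-1` -/
def psM (K u e : ℕ) : ℕ := if u < e then K + 1 - e else K - u + e

/-- the hypotheses on the colours -/
structure CW (K u h : ℕ) (ld al bad : ℕ → Prop) : Prop where
  hK : K = 2 * h + 2
  u1 : u % 2 = 1
  uK : u < K
  uC : ¬ ld u
  ub : bad u
  al_ld : ∀ i, al i → ld i
  same : ∀ i, 1 ≤ i → i < K → i ≠ u → ¬ ld i → (bad i ↔ bad (i + 1))
  dif1 : ∀ i, 1 ≤ i → i < K → ld i → bad i → ¬ bad (i + 1)
  dif2 : ∀ i, 1 ≤ i → i < K → al i → ¬ bad i → bad (i + 1)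

theorem CW.owR (C : CW K u h ld al bad) : OW K u h ld al bad (psR K u) := by
  have hK := C.hK
  have huK := C.uK
  have hu := C.u1
  refine ⟨C.hK, C.u1, C.uK, C.uC, C.ub, C.al_ld, C.same, C.dif1, C.dif2, ?_, ?_, ?_, ?_, ?_⟩
  · intro e h1 h2 h3
    unfold psR
    split_ifs <;> omega
  · intro e f h1 h2 h3 h4 h5 h6 h7
    unfold psR at h7
    split_ifs at h7 <;> omega
  · intro i h1 h2 h3 h4
    unfold psR
    split_ifs <;> omega
  · intro e h1 h2 h3
    unfold psR lx lw
    split_ifs <;> omega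
  · intro h
    unfold psR
    split_ifs <;> omega

theorem CW.owM (C : CW K u h ld al bad) : OW K u h ld al bad (psM K u) := by
  have hK := C.hK
  have huK := C.uK
  have hu := C.u1
  refine ⟨C.hK, C.u1, C.uK, C.uC, C.ub, C.al_ld, C.same, C.dif1, C.dif2, ?_, ?_, ?_, ?_, ?_⟩
  · intro e h1 h2 h3
    unfold psM
    split_ifs <;> omega
  · intro e f h1 h2 h3 h4 h5 h6 h7
    unfold psM at h7
    split_ifs at h7 <;> omega
  · intro i h1 h2 h3 h4
    unfold psM
    split_ifs <;> omega
  · intro e h1 h2 h3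
    unfold psM lx lw
    split_ifs <;> omega
  · intro h
    unfold psM
    split_ifs <;> omega

/-- the colour at a position, first block of `psR` -/
theorem bxR1 (huK : u < K) {x : ℕ} (h1 : 1 ≤ x) (h2 : x + u ≤ K) :
    bx K u bad (psR K u) x ↔ bad (x + u) := by
  unfold bx psR
  constructor
  · rintro ⟨e, e1, e2, e3, e4, e5⟩
    split_ifs at e4
    · rwa [show x + u = e by omega]
    · exact absurd e4 (by omega)
  · intro h
    refine ⟨x + u, by omega, h2, by omega, ?_, h⟩
    rw [if_pos (by omega)]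
    omega

/-- the colour at a position, second block of `psR` -/
theorem bxR2 (huK : u < K) {y : ℕ} (h1 : 1 ≤ y) (h2 : y < u) :
    bx K u bad (psR K u) (K - u + y) ↔ bad y := by
  unfold bx psR
  constructor
  · rintro ⟨e, e1, e2, e3, e4, e5⟩
    split_ifs at e4
    · exact absurd e4 (by omega)
    · rwa [show y = e by omega]
  · intro h
    refine ⟨y, by omega, by omega, by omega, ?_, h⟩
    rw [if_neg (by omega)]

/-- the colour at a position, first block of `psM` -/
theorem bxM1 (huK : u < K) {x : ℕ} (h1 : 1 ≤ x) (h2 : x + u ≤ K) :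
    bx K u bad (psM K u) x ↔ bad (K + 1 - x) := by
  unfold bx psM
  constructor
  · rintro ⟨e, e1, e2, e3, e4, e5⟩
    split_ifs at e4
    · rwa [show K + 1 - x = e by omega]
    · exact absurd e4 (by omega)
  · intro h
    refine ⟨K + 1 - x, by omega, by omega, by omega, ?_, h⟩
    rw [if_pos (by omega)]
    omega

/-- the colour at a position, second block of `psM` -/
theorem bxM2 (huK : u < K) {y : ℕ} (h1 : 1 ≤ y) (h2 : y < u) :
    bx K u bad (psM K u) (K - u + y) ↔ bad y := by
  unfold bx psM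
  constructor
  · rintro ⟨e, e1, e2, e3, e4, e5⟩
    split_ifs at e4
    · exact absurd e4 (by omega)
    · rwa [show y = e by omega]
  · intro h
    refine ⟨y, by omega, by omega, by omega, ?_, h⟩
    rw [if_neg (by omega)]

/-- a general count along the first block of `psR` -/
theorem cnR1 (p q : ℕ → Prop) {x : ℕ} (h2 : x + u ≤ K)
    (h : ∀ y, 1 ≤ y → y + u ≤ K → (p y ↔ q (y + u))) : cn p x + cn q u = cn q (x + u) := by
  induction x with
  | zero => rw [cn_zero, Nat.zero_add, Nat.zero_add]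
  | succ x ih =>
    have h3 := ih (by omega)
    have h4 := h (x + 1) (by omega) h2
    rw [show x + 1 + u = x + u + 1 by omega] at h4 ⊢
    by_cases hp : p (x + 1)
    · rw [cn_pos hp, cn_pos (h4.1 hp)]
      omega
    · rw [cn_neg hp, cn_neg (fun h => hp (h4.2 h))]
      omega

/-- a general count along the second block -/
theorem cnR2 (p q : ℕ → Prop) {y : ℕ} (h2 : y < u)
    (h : ∀ y, 1 ≤ y → y < u → (p (K - u + y) ↔ q y)) :
    cn p (K - u + y) = cn p (K - u) + cn q y := by
  induction y with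
  | zero => rw [cn_zero, Nat.add_zero, Nat.add_zero]
  | succ y ih =>
    have h3 := ih (by omega)
    have h4 := h (y + 1) (by omega) h2
    rw [show K - u + (y + 1) = K - u + y + 1 by omega] at h4 ⊢
    by_cases hp : p (K - u + y + 1)
    · rw [cn_pos hp, cn_pos (h4.1 hp)]
      omega
    · rw [cn_neg hp, cn_neg (fun h => hp (h4.2 h))]
      omega

/-- a general count along the first block of `psM` -/
theorem cnM1 (p q : ℕ → Prop) {x : ℕ} (h2 : x + u ≤ K)
    (h : ∀ y, 1 ≤ y → y + u ≤ K → (p y ↔ q (K + 1 - y))) :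
    cn p x + cn q (K - x) = cn q K := by
  induction x with
  | zero => rw [cn_zero, Nat.zero_add, Nat.sub_zero]
  | succ x ih =>
    have h3 := ih (by omega)
    have h4 := h (x + 1) (by omega) h2
    have e1 : K - x = K - (x + 1) + 1 := by omega
    rw [show K + 1 - (x + 1) = K - (x + 1) + 1 by omega] at h4
    rw [e1] at h3
    by_cases hp : p (x + 1)
    · rw [cn_pos (h4.1 hp)] at h3
      rw [cn_pos hp]
      omega
    · rw [cn_neg (fun h => hp (h4.2 h))] at h3
      rw [cn_neg hp]
      omega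

/-- the walk of the order `psR`, first block -/
theorem wkR1 (huK : u < K) {x : ℕ} (h2 : x + u ≤ K) :
    wk (bx K u bad (psR K u)) x = wk bad (x + u) - wk bad u := by
  have := cnR1 (K := K) (u := u) (bx K u bad (psR K u)) bad h2 fun y y1 y2 => bxR1 huK y1 y2
  unfold wk
  push_cast
  omega

/-- the walk of the order `psR`, second block -/
theorem wkR2 (huK : u < K) {y : ℕ} (h2 : y < u) :
    wk (bx K u bad (psR K u)) (K - u + y) = wk bad K - wk bad u + wk bad y := by
  have h1 := cnR2 (K := K) (u := u) (bx K u bad (psR K u)) bad h2 fun y y1 y2 => bxR2 huK y1 y2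
  have h3 := cnR1 (K := K) (u := u) (x := K - u) (bx K u bad (psR K u)) bad (by omega)
    fun y y1 y2 => bxR1 huK y1 y2
  rw [show K - u + u = K by omega] at h3
  unfold wk
  push_cast
  omega

/-- the walk of the order `psM`, first block -/
theorem wkM1 (huK : u < K) {x : ℕ} (h2 : x + u ≤ K) :
    wk (bx K u bad (psM K u)) x = wk bad K - wk bad (K - x) := by
  have := cnM1 (K := K) (u := u) (bx K u bad (psM K u)) bad h2 fun y y1 y2 => bxM1 huK y1 y2
  unfold wk
  push_cast
  omega

/-- the walk of the order `psM`, second block -/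
theorem wkM2 (huK : u < K) {y : ℕ} (h2 : y < u) :
    wk (bx K u bad (psM K u)) (K - u + y) = wk bad K - wk bad u + wk bad y := by
  have h1 := cnR2 (K := K) (u := u) (bx K u bad (psM K u)) bad h2 fun y y1 y2 => bxM2 huK y1 y2
  have h3 := cnM1 (K := K) (u := u) (x := K - u) (bx K u bad (psM K u)) bad (by omega)
    fun y y1 y2 => bxM1 huK y1 y2
  rw [show K - (K - u) = u by omega] at h3
  unfold wk
  push_cast
  omega

end

end Pool.Agent.Lob12
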