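import Pool.Agent.Lob12.RxWord
import Pool.Agent.Lob12.OwWord

/-!
# The sums of ranks of `WD.rx` in terms of the walk
-/

namespace Pool.Agent.Lob12

open Pool.Agent.Lob5 Pool.Agent.Lob89

theorem bo_cn (bad : ℕ → Prop) (n : ℕ) : bo bad n = cn (fun y => y % 2 = 1 ∧ bad y) n := by
  induction n with
  | zero => rfl
  | succ n ih =>
    rw [bo, cn, ih]
    split_ifs <;> rfl

theorem bv_cn (bad : ℕ → Prop) (n : ℕ) : bv bad n = cn (fun y => y % 2 = 0 ∧ bad y) n := by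
  induction n with
  | zero => rfl
  | succ n ih =>
    rw [bv, cn, ih]
    split_ifs <;> rfl

theorem bc_cn (bad : ℕ → Prop) (n : ℕ) : bc bad n = cn bad n := by
  induction n with
  | zero => rfl
  | succ n ih =>
    by_cases h : bad (n + 1)
    · rw [bc_succ_bad h, cn_pos h, ih]
    · rw [bc_succ_good h, cn_neg h, ih]

section

variable {k h : ℕ} {ld al bad : ℕ → Prop}

theorem WD.PQ (W : WD k h ld al bad) : W.rx.P + W.rx.Q = cn bad k := bc_cn bad k

/-- the sum of the ranks at a vertex -/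
theorem WD.J_lam (W : WD k h ld al bad) {i : ℕ} (h1 : 1 ≤ i) (h2 : i < k) :
    (bad i → bad (i + 1) →
      2 * (W.rx.J i : ℤ) = 2 * (W.rx.P + W.rx.Q : ℕ) + 2 - i + wk bad i) ∧
    (¬ bad i → ¬ bad (i + 1) →
      2 * (W.rx.J i : ℤ) = 2 * (W.rx.P + W.rx.Q : ℕ) + 2 + i + wk bad i) ∧
    (¬ bad i → bad (i + 1) →
      2 * (W.rx.J i : ℤ) = 2 * (W.rx.P + W.rx.Q : ℕ) + wk bad i + (i % 2 : ℕ)) ∧
    (bad i → ¬ bad (i + 1) →
      2 * (W.rx.J i : ℤ) = 2 * (W.rx.P + W.rx.Q : ℕ) + wk bad i + 4 - (i % 2 : ℕ)) := by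
  rw [W.PQ]
  have e1 := bc_cn bad k
  have e2 := bc_cn bad i
  have e3 := bc_gc bad i
  unfold wk
  refine ⟨fun b1 b2 => ?_, fun b1 b2 => ?_, fun b1 b2 => ?_, fun b1 b2 => ?_⟩
  · have := J_CB W h1 h2 b1 b2
    omega
  · have := J_CG W b1 b2
    omega
  · rcases Nat.mod_two_eq_zero_or_one i with h | h
    · have := J_maxe W h1 h2 h b1 b2
      omega
    · have := J_maxo W h1 h2 h b1 b2
      omega
  · rcases Nat.mod_two_eq_zero_or_one i with h | h
    · have := J_mine W h1 h2 h b1 b2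
      omega
    · have := J_mino W h1 h2 h b1 b2
      omega

end

end Pool.Agent.Lob12
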