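import Pool.Agent.Lob12.HwWord
import Pool.Agent.Lob12.K4
import Pool.Agent.Lob12.RxLam
import Pool.Agent.Lob89.EvenMirror

/-!
# Nothing attached at the vertices `1`, `k - 1`: assembly

`Good K ld al n2 dl`: one of the constructions works for the word `ld, al`. `p1_asm`: if the covering holds for all
words, then all data with nothing attached at the vertices `1`, `k - 1` have labels.
-/

namespace Pool.Agent.Lob12

open Finset Pool.Agent.Lob5 Pool.Agent.Lob89

/-- one of the constructions works for the word -/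
def Good (K : ℕ) (ld al : ℕ → Prop) (n2 dl : ℕ) : Prop :=
  (∃ (h : ℕ) (bad : ℕ → Prop) (M : ℕ) (W : WD (K - 1) h ld al bad), RXW W.rx M n2 dl) ∨
  (∃ (u h : ℕ) (bad : ℕ → Prop) (M : ℕ) (C : CW K u h ld al bad),
    LRW C.owR.lr M n2 dl ∨ LRW C.owM.lr M n2 dl) ∨
  (∃ (u h : ℕ) (bad : ℕ → Prop) (M : ℕ) (W : HW K u h ld al bad), HXW W.hx M n2 dl)

open Classical in
/-- number of loaded vertices which are not marked -/
noncomputable def nN (K : ℕ) (ld al : ℕ → Prop) : ℕ :=
  ((Finset.range K).filter fun i => 1 ≤ i ∧ ld i ∧ ¬ al i).card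

/-- the words restricted to `[1, k-1]` -/
theorem WD.res {k h : ℕ} {ld al bad : ℕ → Prop} (W : WD k h ld al bad) :
    WD k h (fun i => ld i ∧ i < k) (fun i => al i ∧ i < k) bad :=
  ⟨W.hk, W.h1, fun i hi => ⟨W.al_ld i hi.1, hi.2⟩,
    fun i h1 h2 h3 => W.same i h1 h2 fun h => h3 ⟨h, h2⟩,
    fun i h1 h2 h3 => W.dif1 i h1 h2 h3.1, fun i h1 h2 h3 => W.dif2 i h1 h2 h3.1, W.last⟩

theorem RXW.res {k h : ℕ} {ld al bad : ℕ → Prop} {W : WD k h ld al bad} {M n2 dl : ℕ}
    (R : RXW W.rx M n2 dl) : RXW W.res.rx M n2 dl := by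
  have na : ∀ {i}, i < k → ¬ (al i ∧ i < k) → ¬ al i := fun hi h h' => h ⟨h', hi⟩
  refine ⟨R.M1, R.M2, fun i h1 h2 h3 h4 => R.MC i h1 h2 (fun h => h3 ⟨h, h2⟩) h4,
    fun a h1 h2 h3 => R.a1 a h1 h2 h3.1, fun x h1 h2 h3 h4 => R.n1 x h1 h2 h3.1 (na h2 h4),
    fun x h1 h2 h3 h4 => R.t1 x h1 h2 h3.1 (na h2 h4),
    fun x h1 h2 h3 h4 => R.t2 x h1 h2 h3.1 (na h2 h4),
    fun a z h1 h2 h3 h4 h5 h6 h7 h8 => R.bb a z h1 h2 h3 h4 h5.1 h6 h7.1 (na h4 h8),
    fun a z h1 h2 h3 h4 h5 h6 h7 h8 => R.sh a z h1 h2 h3 h4 h5.1 h6 h7.1 (na h4 h8),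
    fun a z h1 h2 h3 h4 h5 h6 h7 h8 h9 => R.gg a z h1 h2 h3 h4 h5.1 h6 h7.1 (na h4 h8) h9,
    fun a z h1 h2 h3 h4 h5 h6 h7 h8 h9 T hT =>
      R.gb a z h1 h2 h3 h4 h5.1 h6 h7.1 (na h4 h8) h9 T fun i hi => ?_, ?_⟩
  · obtain ⟨t1, t2, t3, t4, t5, t6⟩ := hT i hi
    exact ⟨t1, t2, t3, t4.1, na t2 t5, t6⟩
  · rcases R.two with h | h
    · exact Or.inl h
    · exact Or.inr fun i h1 h2 h3 => h i h1 h2 h3.1

/-- the words -/
structure Wd (K : ℕ) (ld al : ℕ → Prop) : Prop where
  even : K % 2 = 0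
  six : 6 ≤ K
  al_ld : ∀ i, al i → ld i
  l0 : ¬ ld 0
  lK : ∀ i, K ≤ i → ¬ ld i
  l1 : ¬ ld 1
  l1' : ¬ ld (K - 1)
  a2 : ¬ al 2
  a2' : ¬ al (K - 2)
  ex : ∃ i, ld i

theorem nN_mirror {K : ℕ} {ld al : ℕ → Prop} :
    nN K (fun i => ld (K - i)) (fun i => al (K - i)) = nN K ld al := by
  classical
  unfold nN
  refine Finset.card_bij (fun i _ => K - i) ?_ ?_ ?_
  · intro i hi
    rw [Finset.mem_filter, Finset.mem_range] at hi ⊢
    exact ⟨by omega, by omega, hi.2.2⟩
  · intro i hi j hj h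
    rw [Finset.mem_filter, Finset.mem_range] at hi hj
    omega
  · intro i hi
    rw [Finset.mem_filter, Finset.mem_range] at hi
    refine ⟨K - i, ?_, by omega⟩
    rw [Finset.mem_filter, Finset.mem_range]
    refine ⟨by omega, by omega, ?_⟩
    show ld (K - (K - i)) ∧ ¬ al (K - (K - i))
    rw [show K - (K - i) = i by omega]
    exact hi.2.2

variable {Lf B BL : Type*} [Fintype Lf] [Fintype B] [Fintype BL] [DecidableEq B]
  {K : ℕ} {la : Lf → ℕ} {ba : B → ℕ} {par : BL → B}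

theorem good_main (hd : LobData K la ba par) (h0 : ¬ LD la ba (K - 1)) {dl : ℕ}
    (hdl : dlOK la ba par dl) (G : Good K (LD la ba) (AL la ba par) (n2w par) dl) :
    HasLabels K la ba par := by
  rcases G with ⟨h, bad, M, W, R⟩ | ⟨u, h, bad, M, C, R | R⟩ | ⟨u, h, bad, M, W, R⟩
  · have h2 := hd.two_le
    obtain ⟨k, rfl⟩ : ∃ k, K = k + 1 := ⟨K - 1, by omega⟩
    exact rx_main hd h0 W.res.rx M dl hdl R.res
  · exact lr_main hd _ M dl hdl R
  · exact lr_main hd _ M dl hdl R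
  · exact hh_main hd _ M dl hdl R

theorem dlOK_mono {dl dl' : ℕ} (h : dlOK la ba par dl) (h' : dl' ≤ dl) :
    dlOK la ba par dl' := by
  rcases h with h | ⟨T, h1, h2⟩
  · exact Or.inl (by omega)
  · exact Or.inr ⟨T, h1, by omega⟩

theorem AL_LD {i : ℕ} (h : AL la ba par i) : LD la ba i := by
  rcases h with ⟨x, h1, -⟩ | ⟨b, h1, -⟩
  · exact Or.inl ⟨x, h1⟩
  · exact Or.inr ⟨b, h1⟩

private theorem LD_mirror (hd : LobData K la ba par) (i : ℕ) :
    LD (fun x => K - la x) (fun b => K - ba b) i ↔ LD la ba (K - i) := by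
  unfold LD
  refine or_congr (exists_congr fun x => ?_) (exists_congr fun b => ?_)
  · have h1 := hd.la_pos x
    have h2 := hd.la_lt x
    show K - la x = i ↔ _
    omega
  · have h1 := hd.ba_pos b
    have h2 := hd.ba_lt b
    show K - ba b = i ↔ _
    omega

private theorem AL_mirror (hd : LobData K la ba par) (i : ℕ) :
    AL (fun x => K - la x) (fun b => K - ba b) par i ↔ AL la ba par (K - i) := by
  have e1 : ∀ x, K - la x = i ↔ la x = K - i := fun x => by
    have h1 := hd.la_pos x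
    have h2 := hd.la_lt x
    omega
  have e2 : ∀ b, K - ba b = i ↔ ba b = K - i := fun b => by
    have h1 := hd.ba_pos b
    have h2 := hd.ba_lt b
    omega
  unfold AL
  simp only [ne_eq, e1, e2]

/-- no vertex is loaded -/
private theorem empty_main (hd : LobData K la ba par) (h : ∀ i, ¬ LD la ba i) :
    HasLabels K la ba par := by
  classical
  obtain ⟨D, sp, hD, hS⟩ := exists_plan hd 0 0 0 (Or.inl rfl) (fun h => absurd rfl h)
  rcases pure_or_NP hD with ⟨last, two, hP⟩ | hNP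
  · exact pure_all hd hP
  exfalso
  rcases hNP with ⟨i, h1, h2, h3⟩ | ⟨x, -⟩ | ⟨b, -⟩
  · refine h i ((hS.ld_iff i h1 h2 (by omega)).2 ?_)
    rcases h3 with h3 | h3 | h3 | h3 | h3 <;> rw [h3] <;> decide
  · exact h (la x) (Or.inl ⟨x, rfl⟩)
  · exact h (ba b) (Or.inr ⟨b, rfl⟩)

/-- **Assembly.** -/
theorem p1_asm
    (cover : ∀ (K : ℕ) (ld al : ℕ → Prop), Wd K ld al → ∀ n2, ∃ dl ≤ n2 - nN K ld al,
      Good K ld al n2 dl ∨ Good K (fun i => ld (K - i)) (fun i => al (K - i)) n2 dl)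
    (h : EvenData K la ba par) (h4 : 4 ≤ K) (hx1 : ∀ x, la x ≠ 1) (hx2 : ∀ x, la x + 1 ≠ K) :
    HasLabels K la ba par := by
  classical
  have hd := h.hd
  rcases Nat.lt_or_ge K 6 with h6 | h6
  · have e : K = 4 := by
      have := h.even
      omega
    subst e
    exact k4_main h hx1 hx2
  by_cases hex : ∃ i, LD la ba i
  swap
  · exact empty_main hd fun i hi => hex ⟨i, hi⟩
  have ldr : ∀ i, LD la ba i → 2 ≤ i ∧ i + 2 ≤ K := by
    intro i hi
    rcases hi with ⟨x, rfl⟩ | ⟨b, rfl⟩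
    · have h1 := hd.la_pos x
      have h2 := hd.la_lt x
      have h3 := hx1 x
      have h5 := hx2 x
      omega
    · exact hd.ev h.even b
  have al2 : ∀ i, AL la ba par i → i ≠ 2 ∧ i + 2 ≠ K := by
    intro i hi
    rcases hi with ⟨x, rfl, -⟩ | ⟨b, rfl, -, -, h3⟩
    · exact ⟨h.la2 x, h.la2' x⟩
    · constructor
      · intro h5
        have h6 := h.b2 b h5
        have h7 : (univ.filter fun x => la x = 1).card = 0 := by
          rw [Finset.card_eq_zero, Finset.filter_eq_empty_iff]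
          exact fun x _ => hx1 x
        omega
      · intro h5
        have h6 := h.b2' b h5
        have h7 : (univ.filter fun x => la x + 1 = K).card = 0 := by
          rw [Finset.card_eq_zero, Finset.filter_eq_empty_iff]
          exact fun x _ => hx2 x
        omega
  have hW : Wd K (LD la ba) (AL la ba par) := by
    refine ⟨h.even, h6, fun i => AL_LD, ?_, ?_, ?_, ?_, ?_, ?_, hex⟩
    · intro h1
      have := ldr _ h1
      omega
    · intro i h0 h1
      have := ldr _ h1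
      omega
    · intro h1
      have := ldr _ h1
      omega
    · intro h1
      have := ldr _ h1
      omega
    · intro h1
      exact (al2 _ h1).1 rfl
    · intro h1
      exact (al2 _ h1).2 (by omega)
  obtain ⟨dl, hdl, G⟩ := cover K _ _ hW (n2w par)
  rcases G with G | G
  · exact good_main hd hW.l1' (dlOK_mono (dlOK_N hd) hdl) G
  · refine mirror hd ?_
    have hd' := h.mirror.hd
    have e1 : (fun i => LD la ba (K - i)) = LD (fun x => K - la x) (fun b => K - ba b) :=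
      funext fun i => propext (LD_mirror hd i).symm
    have e2 : (fun i => AL la ba par (K - i)) = AL (fun x => K - la x) (fun b => K - ba b) par :=
      funext fun i => propext (AL_mirror hd i).symm
    have e3 : nN K (LD la ba) (AL la ba par) =
        nN K (LD (fun x => K - la x) (fun b => K - ba b))
          (AL (fun x => K - la x) (fun b => K - ba b) par) := by
      rw [← e1, ← e2]
      exact nN_mirror.symm
    rw [e1, e2] at G
    rw [e3] at hdl
    refine good_main hd' ?_ (dlOK_mono (dlOK_N hd') hdl) G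
    rw [LD_mirror hd, show K - (K - 1) = 1 by omega]
    exact hW.l1

end Pool.Agent.Lob12
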