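import Pool.Agent.Lob12.P1Asm
import Pool.Agent.Lob12.Even2

/-!
# Lobsters are antimagic, from a covering of words
-/

namespace Pool.Agent.Lob12

open SimpleGraph Finset Pool.Agent.Lob5 Pool.Agent.Lob89

universe v

theorem lobster_main
    (cover : ∀ (K : ℕ) (ld al : ℕ → Prop), Wd K ld al → ∀ n2, ∃ dl ≤ n2 - nN K ld al,
      Good K ld al n2 dl ∨ Good K (fun i => ld (K - i)) (fun i => al (K - i)) n2 dl)
    (V : Type v) [Fintype V] [DecidableEq V] (G : SimpleGraph V) [DecidableRel G.Adj]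
    (hL : IsLobster G) (h3 : 3 ≤ Fintype.card V) : IsAntimagic G := by
  refine reductionE G hL h3 (even_cases ?_ ?_ ?_)
  · intro k Lf B BL _ _ _ _ la ba par h h4 h5
    exact P3_main h.hd h.even h4 h5
  · intro k Lf B BL _ _ _ _ la ba par h h4 h5
    exact P2_main h h4 h5
  · intro k Lf B BL _ _ _ _ la ba par h h4 h5 h6
    exact p1_asm cover h h4 h6 h5

end Pool.Agent.Lob12
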