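import Pool.Agent.Lob12.P1Asm
import Pool.Agent.Lob34.CvA

/-!
# The case distinction for the covering of the words

Every word has alternating colours (`WW`), and we may take the opposite colours or the mirror word. `cover_split`: it
suffices to treat total `≤ 0` with the last edge bad (and the first one good if the total is `0`), total `0` with both
ends bad, and total `< 0` with both ends good.
-/

namespace Pool.Agent.Lob12

open Pool.Agent.Lob34

open Classical in
/-- alternating colours -/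
noncomputable def nc (ld : ℕ → Prop) : ℕ → Prop
  | 0 => True
  | i + 1 => if ld i then ¬ nc ld i else nc ld i

theorem nc_same {ld : ℕ → Prop} {i : ℕ} (h : ¬ ld i) : nc ld i ↔ nc ld (i + 1) := by
  rw [nc, if_neg h]

theorem nc_dif {ld : ℕ → Prop} {i : ℕ} (h : ld i) : nc ld i ↔ ¬ nc ld (i + 1) := by
  rw [nc, if_pos h, not_not]

theorem Wd.rng {K : ℕ} {ld al : ℕ → Prop} (W : Wd K ld al) {i : ℕ} (h : ld i) :
    2 ≤ i ∧ i + 2 ≤ K := by
  have h0 : i ≠ 0 := by
    rintro rfl
    exact W.l0 h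
  have h1 : i ≠ 1 := by
    rintro rfl
    exact W.l1 h
  have h2 : i ≠ K - 1 := by
    rintro rfl
    exact W.l1' h
  have h3 : ¬ K ≤ i := fun h3 => W.lK i h3 h
  omega

theorem Wd.ww {K : ℕ} {ld al : ℕ → Prop} (W : Wd K ld al) :
    WW K ((K - 2) / 2) ld al (nc ld) := by
  have h1 := W.even
  have h2 := W.six
  exact ⟨by omega, W.al_ld, fun i _ _ h => W.rng h, fun i _ _ h => nc_same h,
    fun i _ _ h => nc_dif h⟩

theorem Wd.mirror {K : ℕ} {ld al : ℕ → Prop} (W : Wd K ld al) :
    Wd K (fun i => ld (K - i)) (fun i => al (K - i)) := by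
  have h1 := W.even
  have h2 := W.six
  refine ⟨h1, h2, fun i h => W.al_ld _ h, ?_, ?_, ?_, ?_, ?_, ?_, ?_⟩
  · exact fun h => W.lK _ (by omega) h
  · intro i hi h
    have : K - i = 0 := by omega
    rw [this] at h
    exact W.l0 h
  · exact W.l1'
  · intro h
    have h3 : ld (K - (K - 1)) := h
    rw [show K - (K - 1) = 1 by omega] at h3
    exact W.l1 h3
  · exact W.a2'
  · intro h
    have h3 : al (K - (K - 2)) := h
    rw [show K - (K - 2) = 2 by omega] at h3
    exact W.a2 h3
  · obtain ⟨i, hi⟩ := W.ex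
    have := W.rng hi
    refine ⟨K - i, ?_⟩
    show ld (K - (K - i))
    rwa [show K - (K - i) = i by omega]

/-- the colours of the mirror word -/
theorem ww_mirror {K h : ℕ} {ld al c : ℕ → Prop} (W : WW K h ld al c) :
    WW K h (fun i => ld (K - i)) (fun i => al (K - i)) (fun e => c (K + 1 - e)) := by
  have hK := W.hK
  refine ⟨hK, fun i h => W.al_ld _ h, ?_, ?_, ?_⟩
  · intro i h1 h2 h3
    have := W.rng (K - i) (by omega) (by omega) h3
    omega
  · intro i h1 h2 h3
    have := W.same (K - i) (by omega) (by omega) h3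
    rw [show K + 1 - i = K - i + 1 by omega, show K + 1 - (i + 1) = K - i by omega]
    exact this.symm
  · intro i h1 h2 h3
    have := W.dif (K - i) (by omega) (by omega) h3
    rw [show K + 1 - i = K - i + 1 by omega, show K + 1 - (i + 1) = K - i by omega]
    tauto

theorem wk_mirror {K : ℕ} (c : ℕ → Prop) : wk (fun e => c (K + 1 - e)) K = wk c K := by
  have h := cnM1 (K := K) (u := 0) (x := K) (fun e => c (K + 1 - e)) c (by omega)
    fun y _ _ => Iff.rfl
  rw [Nat.sub_self, cn_zero, add_zero] at h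
  unfold wk
  rw [h]

theorem wk_neg (c : ℕ → Prop) (x : ℕ) : wk (fun e => ¬ c e) x = - wk c x := by
  have h := cn_compl c x
  unfold wk
  omega

theorem mirror_mirror {K : ℕ} {ld al : ℕ → Prop} (W : Wd K ld al) :
    (fun i => (fun i => ld (K - i)) (K - i)) = ld ∧
      (fun i => (fun i => al (K - i)) (K - i)) = al := by
  have key : ∀ p : ℕ → Prop, ¬ p 0 → (∀ i, K ≤ i → ¬ p i) →
      (fun i => (fun i => p (K - i)) (K - i)) = p := by
    intro p p0 pK
    funext i
    show p (K - (K - i)) = p i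
    rcases Nat.lt_or_ge i K with h | h
    · rw [show K - (K - i) = i by omega]
    · rw [show K - (K - i) = K by omega]
      exact propext (iff_of_false (pK K le_rfl) (pK i h))
  exact ⟨key ld W.l0 W.lK, key al (fun h => W.l0 (W.al_ld _ h))
    fun i h1 h2 => W.lK i h1 (W.al_ld _ h2)⟩

/-- `Good` for the word or its mirror, with some admissible slack -/
def Gd (K : ℕ) (ld al : ℕ → Prop) (n2 : ℕ) : Prop :=
  ∃ dl ≤ n2 - nN K ld al,
    Good K ld al n2 dl ∨ Good K (fun i => ld (K - i)) (fun i => al (K - i)) n2 dl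

theorem gd_mirror {K : ℕ} {ld al : ℕ → Prop} (W : Wd K ld al) {n2 : ℕ}
    (h : Gd K (fun i => ld (K - i)) (fun i => al (K - i)) n2) : Gd K ld al n2 := by
  obtain ⟨dl, h1, h2⟩ := h
  rw [nN_mirror] at h1
  obtain ⟨e1, e2⟩ := mirror_mirror W
  rw [e1, e2] at h2
  exact ⟨dl, h1, h2.symm⟩

theorem cover_split
    (hbad : ∀ (K h : ℕ) (ld al c : ℕ → Prop), Wd K ld al → WW K h ld al c → c K →
      wk c K ≤ 0 → (wk c K = 0 → ¬ c 1) → ∀ n2, Gd K ld al n2)
    (hbb : ∀ (K h : ℕ) (ld al c : ℕ → Prop), Wd K ld al → WW K h ld al c → c K → c 1 →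
      wk c K = 0 → ∀ n2, Gd K ld al n2)
    (hgg : ∀ (K h : ℕ) (ld al c : ℕ → Prop), Wd K ld al → WW K h ld al c → ¬ c K → ¬ c 1 →
      wk c K < 0 → ∀ n2, Gd K ld al n2) :
    ∀ (K : ℕ) (ld al : ℕ → Prop), Wd K ld al → ∀ n2, Gd K ld al n2 := by
  intro K ld al W n2
  -- colours with total at most `0`
  obtain ⟨h, c, C, hc⟩ : ∃ (h : ℕ) (c : ℕ → Prop), ∃ C : WW K h ld al c, wk c K ≤ 0 := by
    rcases le_total (wk (nc ld) K) 0 with h | h
    · exact ⟨_, _, W.ww, h⟩
    · refine ⟨_, _, W.ww.neg, ?_⟩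
      rw [wk_neg]
      omega
  have h6 := W.six
  have e1 : K + 1 - K = 1 := by omega
  have e2 : K + 1 - 1 = K := by omega
  by_cases hK : c K <;> by_cases h1 : c 1
  · rcases hc.lt_or_eq with h0 | h0
    · exact hbad K h ld al c W C hK hc (fun h => absurd h h0.ne) n2
    · exact hbb K h ld al c W C hK h1 h0 n2
  · exact hbad K h ld al c W C hK hc (fun _ => h1) n2
  · refine gd_mirror W (hbad K h _ _ _ W.mirror (ww_mirror C) ?_ ?_ ?_ n2)
    · show c (K + 1 - K)
      rwa [e1]
    · rw [wk_mirror]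
      exact hc
    · intro _
      show ¬ c (K + 1 - 1)
      rwa [e2]
  · rcases hc.lt_or_eq with h0 | h0
    · exact hgg K h ld al c W C hK h1 h0 n2
    · refine hbb K h ld al (fun e => ¬ c e) W C.neg hK h1 ?_ n2
      rw [wk_neg, h0, neg_zero]

end Pool.Agent.Lob12
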