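import Pool.Agent.Lob5.Plan

/-!
# The number of bushes with exactly two leaves

`n2_card`: `D.n2` is the number of bushes with exactly two leaves, for every correct plan.
-/

namespace Pool.Agent.Lob12

open Pool.Agent.Lob5 Pool.Agent.Lob89

variable {Lf B BL : Type*} [Fintype Lf] [Fintype B] [Fintype BL] [DecidableEq B]
  {D : PlanData Lf B BL} {k : ℕ} {la : Lf → ℕ} {ba : B → ℕ} {par : BL → B}

private theorem leaves_eq (D : PlanData Lf B BL) (par : BL → B) (b : B) :
    (Finset.univ.filter fun y => par y = b).card =
      D.cb par b .l + D.cb par b .x + D.cb par b .s + D.cb par b .s0 + D.cb par b .u +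
        D.cb par b .v + D.cb par b .x0 := by
  classical
  have key : ∀ s : Finset BL, (s.filter fun y => par y = b).card =
      (s.filter fun y => par y = b ∧ D.rs y = .l).card +
      (s.filter fun y => par y = b ∧ D.rs y = .x).card +
      (s.filter fun y => par y = b ∧ D.rs y = .s).card +
      (s.filter fun y => par y = b ∧ D.rs y = .s0).card +
      (s.filter fun y => par y = b ∧ D.rs y = .u).card +
      (s.filter fun y => par y = b ∧ D.rs y = .v).card +
      (s.filter fun y => par y = b ∧ D.rs y = .x0).card := by
    intro s
    induction s using Finset.induction_on with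
    | empty => simp
    | insert a s ha ih =>
      by_cases h : par a = b
      · cases hr : D.rs a <;> simp [Finset.filter_insert, h, hr, ha] <;> omega
      · simp [Finset.filter_insert, h, ih]
  exact key Finset.univ

private theorem x0_eq (hD : PlanOK D k la ba par) (b : B) :
    D.cb par b .x0 = if (Finset.univ.filter fun y => par y = b).card = 2 then 1 else 0 := by
  have h0 := leaves_eq D par b
  have h1 := hD.s_l b
  have h2 := hD.s_x b
  have h3 := hD.s_u b
  have h4 := hD.s_v b
  have h5 := hD.s_s0 b
  have h6 := hD.s_x0 b
  have h7 := hD.s_s b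
  have h8 := hD.s_st b
  cases hr : D.rb b <;>
    simp [hr, RB.hasl, RB.pr] at h1 h3 h4 h5 h6 h7 h8 <;> split_ifs <;> omega

theorem n2_card (hD : PlanOK D k la ba par) : D.n2 =
    (Finset.univ.filter fun b : B => (Finset.univ.filter fun y => par y = b).card = 2).card := by
  classical
  have h1 : D.n2 = ∑ b : B, D.cb par b .x0 := by
    unfold PlanData.n2 PlanData.cb
    rw [Finset.card_eq_sum_card_fiberwise (f := par) (t := Finset.univ)
      (fun _ _ => Finset.mem_univ _)]
    refine Finset.sum_congr rfl fun b _ => ?_
    rw [Finset.filter_filter]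
    congr 1
    ext y
    simp only [Finset.mem_filter, Finset.mem_univ, true_and]
    exact and_comm
  rw [h1, Finset.sum_congr rfl (fun b _ => x0_eq hD b), Finset.card_filter]

end Pool.Agent.Lob12
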