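import Pool.Agent.Lob5.E4Defs

/-!
# Static last edge: ranks, numbers and layers

`K = k + 1` path edges, `k = 2h+1`. The last edge `K` has the static label `w + N0`, the edge `k` is bad and has
rank one, so the vertex `k = K - 1` (nothing attached) has the sum `w + N0 + n2 + j + 1`, which is smaller than
all other sums of vertices with nothing attached. The other labels are those of the odd word `e_1, ..., e_k` with
the seam `q = 0` and without a special vertex, but for ranks which only satisfy the weak conditions `RXOK`.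
-/

namespace Pool.Agent.Lob12

open Pool.Agent.Lob5 Pool.Agent.Lob89

/-- Colours and ranks of the edges of an odd word; the last edge is bad and has rank one. -/
structure RX (k : ℕ) (ld al : ℕ → Prop) where
  h : ℕ
  P : ℕ
  Q : ℕ
  bad : ℕ → Prop
  rk : ℕ → ℕ
  al_ld : ∀ i, al i → ld i
  hk : k = 2 * h + 1
  h1 : 1 ≤ h
  P1 : 1 ≤ P
  Ph : P ≤ h + 1
  Qh : Q ≤ h
  same : ∀ i, 1 ≤ i → i < k → ¬ ld i → (bad i ↔ bad (i + 1))
  dif1 : ∀ i, 1 ≤ i → i < k → ld i → bad (oe i) → ¬ bad (ee i)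
  dif2 : ∀ i, 1 ≤ i → i < k → al i → ¬ bad (oe i) → bad (ee i)
  rk_ob : ∀ e, 1 ≤ e → e ≤ k → e % 2 = 1 → bad e → 1 ≤ rk e ∧ rk e ≤ P
  rk_og : ∀ e, 1 ≤ e → e ≤ k → e % 2 = 1 → ¬ bad e → P + 1 ≤ rk e ∧ rk e ≤ h + 1
  rk_eb : ∀ e, 1 ≤ e → e ≤ k → e % 2 = 0 → bad e → 1 ≤ rk e ∧ rk e ≤ Q
  rk_eg : ∀ e, 1 ≤ e → e ≤ k → e % 2 = 0 → ¬ bad e → Q + 1 ≤ rk e ∧ rk e ≤ h
  rk_inj : ∀ e f, 1 ≤ e → e ≤ k → 1 ≤ f → f ≤ k → e % 2 = f % 2 → rk e = rk f → e = f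
  cmp : ∀ i j, 1 ≤ i → i < k → ¬ ld i → 1 ≤ j → j < k → ¬ ld j → (bad i ↔ bad j) →
    (rk (oe i) ≤ rk (oe j) ∧ rk (ee i) ≤ rk (ee j)) ∨
      (rk (oe j) ≤ rk (oe i) ∧ rk (ee j) ≤ rk (ee i))
  last : rk k = 1

/-- the sum of the ranks at the vertex `i` -/
def RX.J {k : ℕ} {ld al : ℕ → Prop} (S : RX k ld al) (i : ℕ) : ℕ := S.rk i + S.rk (i + 1)

/-- `i` is a candidate for a low label -/
def RX.cd {k : ℕ} {ld al : ℕ → Prop} (S : RX k ld al) (M n2 nT Ux i : ℕ) : Prop :=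
  (S.bad (oe i) → M ≤ S.J i + S.h + 1 + n2) ∧
    (¬ S.bad (oe i) → M + nT ≤ S.J i + S.h + 1 + n2 + Ux)

open Classical in
/-- The weak conditions: `st` static vertices, `tw` vertices of the roles `II`, `I`. -/
structure RXOK {k : ℕ} {ld al : ℕ → Prop} (S : RX k ld al) (st tw : ℕ → Prop)
    (M n2 nT Ux N0 dl : ℕ) : Prop where
  M1 : S.P + S.Q + 1 ≤ M
  M2 : M ≤ 2 * S.h + 1
  MC : ∀ i, 1 ≤ i → i < k → ¬ ld i → ¬ S.bad i → S.J i ≤ M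
  aB : ∀ a, 1 ≤ a → a < k → al a → S.bad (oe a) → M ≤ S.J a + S.h + 1 + n2
  aG : ∀ a, 1 ≤ a → a < k → al a → ¬ S.bad (oe a) → M + nT ≤ S.J a + S.h + 1 + n2 + Ux
  nB : ∀ x, 1 ≤ x → x < k → tw x → S.bad (oe x) → M ≤ S.J x + 2 * n2 + S.P + S.h + 2
  nG : ∀ x, 1 ≤ x → x < k → tw x → ¬ S.bad (oe x) →
    M + nT ≤ S.J x + 2 * n2 + Ux + S.P + S.h + 2
  tS : ∀ z, 1 ≤ z → z < k → st z → M ≤ S.J z + S.h + 1 + n2 + N0 + S.Q
  tP : ∀ z, 1 ≤ z → z < k → st z → S.P ≤ S.J z + 2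
  bb : ∀ a z, 1 ≤ a → a < k → 1 ≤ z → z < k → al a → S.bad (oe a) → st z →
    S.J a ≤ S.J z + S.Q + 1 + dl
  sh : ∀ a x, 1 ≤ a → a < k → 1 ≤ x → x < k → al a → S.bad (oe a) → ld x → ¬ al x →
    S.J a ≤ S.J x + n2 + S.P
  gg : ∀ a z, 1 ≤ a → a < k → 1 ≤ z → z < k → al a → ¬ S.bad (oe a) → st z →
    ¬ S.bad (oe z) → S.J a ≤ S.J z + S.Q + 1 + dl
  gb : ∀ a z, 1 ≤ a → a < k → 1 ≤ z → z < k → al a → ¬ S.bad (oe a) → st z →
    S.bad (oe z) →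
    S.J a + ((Finset.range k).filter fun i => 1 ≤ i ∧ tw i ∧ ¬ S.cd M n2 nT Ux i).card ≤
      S.J z + S.Q + 1 + dl
  two : 2 ≤ S.P ∨ ∀ i, 1 ≤ i → i < k → al i ∨ st i → ¬ S.bad (oe i)

/-- the size of the low zone -/
def wx {k : ℕ} {ld al : ℕ → Prop} (S : RX k ld al) (n : Lob5.Num) : ℕ := n.n2 + n.Ux + S.h + 1

/-- the numbers for the verification -/
def nmX {k : ℕ} {ld al : ℕ → Prop} (S : RX k ld al) (n : Lob5.Num) (M e dl : ℕ) : Nm where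
  h := S.h
  P := S.P
  Q := S.Q
  w := wx S n
  N0 := n.N0
  nT := n.nT
  n2 := n.n2
  Ux := n.Ux
  e := e
  eb := e / 2
  et := (e + 1) / 2
  s1 := 0
  s0v := wx S n + n.N0 - 1
  pk := wx S n + n.N0
  c0 := 0
  om := 0
  g1 := wx S n + n.N0 + S.Q + n.nT + 1
  kb := fun i => S.bad (oe i)
  cd := fun i => S.cd M n.n2 n.nT n.Ux i
  dl := dl

/-- the layers -/
def lyX {k : ℕ} {ld al : ℕ → Prop} (S : RX k ld al) (n : Lob5.Num) (M j : ℕ) : Ly where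
  j := j
  U := n.Ux - j
  thr := 2 * wx S n + n.N0 + n.nT + M - (S.h + 1)
  be := wx S n + n.N0
  nxf := 0
  nlg := 0
  yv := fun _ => 0
  xv := fun _ => 0
  xf := fun _ => false
  lg := fun _ => false
  p := fun e => if e = k + 1 then wx S n + n.N0
    else if e % 2 = 1 then n.n2 + j + S.rk e + (if S.rk e ≤ S.P then 0 else n.Ux - j)
    else wx S n + n.N0 + S.rk e + (if S.Q < S.rk e then n.nT else 0)
  X := fun i => if i = 0 then 0 else n.n2 + j + S.P + i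

end Pool.Agent.Lob12
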