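import Pool.Agent.Lob12.RxDefs

/-!
# Static last edge: the layers satisfy `LyOK`
-/

namespace Pool.Agent.Lob12

open Pool.Agent.Lob5 Pool.Agent.Lob89

/-- the translation of the roles -/
structure CtxX {k : ℕ} {ld al : ℕ → Prop} (_S : RX k ld al) (st tw : ℕ → Prop) (n : Lob5.Num)
    (e j : ℕ) (rv : ℕ → RV) : Prop where
  jU : n.nT + j ≤ n.Ux
  e1 : 1 ≤ e
  eN : e ≤ n.N0
  rk : rv k = .C
  C : ∀ i, 1 ≤ i → i < k → rv i = .C → ¬ ld i
  A : ∀ i, 1 ≤ i → i < k → (rv i).isA = true → al i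
  S : ∀ i, 1 ≤ i → i < k → (rv i).isS = true → st i
  N : ∀ i, 1 ≤ i → i < k → rv i = .II ∨ rv i = .I → tw i
  nl : ∀ i, 1 ≤ i → i < k → (rv i).isN = true → ld i ∧ ¬ al i
  no : ∀ i, 1 ≤ i → i < k → rv i ≠ .As ∧ rv i ≠ .Fs ∧ rv i ≠ .FR

private theorem isS_N {r : RV} (h : r.isS = true) : r.isN = true := by
  cases r <;> simp_all [RV.isS, RV.isN]

private theorem II_N {r : RV} (h : r = .II ∨ r = .I) : r.isN = true := by
  rcases h with h | h <;> subst h <;> rfl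

private theorem oe_odd (i : ℕ) : oe i % 2 = 1 := by
  unfold oe
  split_ifs <;> omega

private theorem ee_even (i : ℕ) : ee i % 2 = 0 := by
  unfold ee
  split_ifs <;> omega

private theorem oe_rng {k i : ℕ} (h1 : 1 ≤ i) (h2 : i < k) : 1 ≤ oe i ∧ oe i ≤ k := by
  unfold oe
  split_ifs <;> omega

private theorem ee_rng {k i : ℕ} (h1 : 1 ≤ i) (h2 : i < k) : 1 ≤ ee i ∧ ee i ≤ k := by
  unfold ee
  split_ifs <;> omega

private theorem oe_ee_eq {i i' : ℕ} (h1 : oe i = oe i') (h2 : ee i = ee i') : i = i' := by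
  unfold oe at h1
  unfold ee at h2
  split_ifs at h1 h2 <;> omega

section

variable {k : ℕ} {ld al : ℕ → Prop} (S : RX k ld al)

private theorem J_eq (i : ℕ) : S.J i = S.rk (oe i) + S.rk (ee i) := by
  unfold RX.J oe ee
  split_ifs
  · rfl
  · exact add_comm _ _

private theorem same' {i : ℕ} (h1 : 1 ≤ i) (h2 : i < k) (h3 : ¬ ld i) :
    (S.bad i ↔ S.bad (oe i)) ∧ (S.bad i ↔ S.bad (ee i)) := by
  have h4 := S.same i h1 h2 h3
  unfold oe ee
  split_ifs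
  · exact ⟨Iff.rfl, h4⟩
  · exact ⟨h4, Iff.rfl⟩

/-- unloaded vertices have comparable ranks -/
private theorem cmp' {i i' : ℕ} (h1 : 1 ≤ i) (h2 : i < k) (h3 : ¬ ld i)
    (h1' : 1 ≤ i') (h2' : i' < k) (h3' : ¬ ld i') :
    (S.rk (oe i) ≤ S.rk (oe i') ∧ S.rk (ee i) ≤ S.rk (ee i')) ∨
      (S.rk (oe i') ≤ S.rk (oe i) ∧ S.rk (ee i') ≤ S.rk (ee i)) := by
  obtain ⟨ho, he⟩ := same' S h1 h2 h3
  obtain ⟨ho', he'⟩ := same' S h1' h2' h3'
  have r1 := S.rk_ob _ (oe_rng h1 h2).1 (oe_rng h1 h2).2 (oe_odd i)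
  have r2 := S.rk_og _ (oe_rng h1 h2).1 (oe_rng h1 h2).2 (oe_odd i)
  have r3 := S.rk_eb _ (ee_rng h1 h2).1 (ee_rng h1 h2).2 (ee_even i)
  have r4 := S.rk_eg _ (ee_rng h1 h2).1 (ee_rng h1 h2).2 (ee_even i)
  have r1' := S.rk_ob _ (oe_rng h1' h2').1 (oe_rng h1' h2').2 (oe_odd i')
  have r2' := S.rk_og _ (oe_rng h1' h2').1 (oe_rng h1' h2').2 (oe_odd i')
  have r3' := S.rk_eb _ (ee_rng h1' h2').1 (ee_rng h1' h2').2 (ee_even i')
  have r4' := S.rk_eg _ (ee_rng h1' h2').1 (ee_rng h1' h2').2 (ee_even i')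
  by_cases hc : S.bad i <;> by_cases hc' : S.bad i'
  · exact S.cmp i i' h1 h2 h3 h1' h2' h3' ⟨fun _ => hc', fun _ => hc⟩
  · left
    have h7 := r1 (ho.1 hc)
    have h8 := r3 (he.1 hc)
    have h9 := r2' (fun h => hc' (ho'.2 h))
    have h10 := r4' (fun h => hc' (he'.2 h))
    omega
  · right
    have h7 := r1' (ho'.1 hc')
    have h8 := r3' (he'.1 hc')
    have h9 := r2 (fun h => hc (ho.2 h))
    have h10 := r4 (fun h => hc (he.2 h))
    omega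
  · exact S.cmp i i' h1 h2 h3 h1' h2' h3' ⟨fun h => absurd h hc, fun h => absurd h hc'⟩

variable (n : Lob5.Num) (M j : ℕ)

private theorem p_last : (lyX S n M j).p (k + 1) = wx S n + n.N0 := if_pos rfl

private theorem p_odd {e : ℕ} (h1 : 1 ≤ e) (h2 : e ≤ k) (h3 : e % 2 = 1) :
    (S.bad e ∧ 1 ≤ S.rk e ∧ S.rk e ≤ S.P ∧ (lyX S n M j).p e = n.n2 + j + S.rk e) ∨
    (¬ S.bad e ∧ S.P + 1 ≤ S.rk e ∧ S.rk e ≤ S.h + 1 ∧
      (lyX S n M j).p e = n.n2 + j + S.rk e + (n.Ux - j)) := by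
  have h4 : (lyX S n M j).p e =
      n.n2 + j + S.rk e + (if S.rk e ≤ S.P then 0 else n.Ux - j) := by
    change (if e = k + 1 then _ else if e % 2 = 1 then _ else _) = _
    rw [if_neg (by omega), if_pos h3]
  by_cases hb : S.bad e
  · have h5 := S.rk_ob e h1 h2 h3 hb
    refine Or.inl ⟨hb, h5.1, h5.2, ?_⟩
    rw [h4, if_pos h5.2, add_zero]
  · have h5 := S.rk_og e h1 h2 h3 hb
    refine Or.inr ⟨hb, h5.1, h5.2, ?_⟩
    rw [h4, if_neg (by omega)]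

private theorem p_even {e : ℕ} (h1 : 1 ≤ e) (h2 : e ≤ k) (h3 : e % 2 = 0) :
    (S.bad e ∧ 1 ≤ S.rk e ∧ S.rk e ≤ S.Q ∧ (lyX S n M j).p e = wx S n + n.N0 + S.rk e) ∨
    (¬ S.bad e ∧ S.Q + 1 ≤ S.rk e ∧ S.rk e ≤ S.h ∧
      (lyX S n M j).p e = wx S n + n.N0 + S.rk e + n.nT) := by
  have h4 : (lyX S n M j).p e =
      wx S n + n.N0 + S.rk e + (if S.Q < S.rk e then n.nT else 0) := by
    change (if e = k + 1 then _ else if e % 2 = 1 then _ else _) = _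
    rw [if_neg (by omega), if_neg (by omega)]
  by_cases hb : S.bad e
  · have h5 := S.rk_eb e h1 h2 h3 hb
    refine Or.inl ⟨hb, h5.1, h5.2, ?_⟩
    rw [h4, if_neg (by omega), add_zero]
  · have h5 := S.rk_eg e h1 h2 h3 hb
    refine Or.inr ⟨hb, h5.1, h5.2, ?_⟩
    rw [h4, if_pos (by omega)]

private theorem bs_eq (i : ℕ) : (lyX S n M j).bs i =
    (lyX S n M j).p (oe i) + (lyX S n M j).p (ee i) := by
  unfold Ly.bs oe ee
  split_ifs
  · rfl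
  · exact add_comm _ _

/-- the sum at a vertex with nothing attached -/
private theorem bs_C {i : ℕ} (h1 : 1 ≤ i) (h2 : i < k) (h3 : ¬ ld i) :
    (S.bad i ∧ 2 ≤ S.J i ∧ S.J i ≤ S.P + S.Q ∧
      (lyX S n M j).bs i = wx S n + n.N0 + n.n2 + j + S.J i) ∨
    (¬ S.bad i ∧ S.P + S.Q + 2 ≤ S.J i ∧ S.J i ≤ 2 * S.h + 1 ∧
      (lyX S n M j).bs i = wx S n + n.N0 + n.n2 + j + S.J i + (n.Ux - j) + n.nT) := by
  obtain ⟨ho, he⟩ := same' S h1 h2 h3
  rw [bs_eq, J_eq]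
  rcases p_odd S n M j (oe_rng h1 h2).1 (oe_rng h1 h2).2 (oe_odd i) with
    ⟨a1, a2, a3, a4⟩ | ⟨a1, a2, a3, a4⟩
  · rcases p_even S n M j (ee_rng h1 h2).1 (ee_rng h1 h2).2 (ee_even i) with
      ⟨b1, b2, b3, b4⟩ | ⟨b1, b2, b3, b4⟩
    · exact Or.inl ⟨ho.2 a1, by omega, by omega, by omega⟩
    · exact absurd (he.1 (ho.2 a1)) b1
  · rcases p_even S n M j (ee_rng h1 h2).1 (ee_rng h1 h2).2 (ee_even i) with
      ⟨b1, b2, b3, b4⟩ | ⟨b1, b2, b3, b4⟩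
    · exact absurd (ho.1 (he.2 b1)) a1
    · exact Or.inr ⟨fun h => a1 (ho.1 h), by omega, by omega, by omega⟩

/-- the base of a loaded vertex -/
private theorem bs_ld {i : ℕ} (h1 : 1 ≤ i) (h2 : i < k) (h3 : ld i) :
    (S.bad (oe i) ∧ S.Q + 2 ≤ S.J i ∧
      (lyX S n M j).bs i = wx S n + n.N0 + n.nT + n.n2 + j + S.J i) ∨
    (¬ S.bad (oe i) ∧ S.P + 2 ≤ S.J i ∧
      wx S n + n.N0 + n.n2 + j + (n.Ux - j) + S.J i ≤ (lyX S n M j).bs i ∧
      (al i → S.J i ≤ S.h + 1 + S.Q ∧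
        (lyX S n M j).bs i = wx S n + n.N0 + n.n2 + j + (n.Ux - j) + S.J i)) := by
  rw [bs_eq, J_eq]
  rcases p_odd S n M j (oe_rng h1 h2).1 (oe_rng h1 h2).2 (oe_odd i) with
    ⟨a1, a2, a3, a4⟩ | ⟨a1, a2, a3, a4⟩
  · rcases p_even S n M j (ee_rng h1 h2).1 (ee_rng h1 h2).2 (ee_even i) with
      ⟨b1, b2, b3, b4⟩ | ⟨b1, b2, b3, b4⟩
    · exact absurd b1 (S.dif1 i h1 h2 h3 a1)
    · exact Or.inl ⟨a1, by omega, by omega⟩
  · rcases p_even S n M j (ee_rng h1 h2).1 (ee_rng h1 h2).2 (ee_even i) with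
      ⟨b1, b2, b3, b4⟩ | ⟨b1, b2, b3, b4⟩
    · exact Or.inr ⟨a1, by omega, by omega, fun _ => ⟨by omega, by omega⟩⟩
    · exact Or.inr ⟨a1, by omega, by omega, fun h => absurd (S.dif2 i h1 h2 h a1) b1⟩

end

section

variable {k : ℕ} {ld al st tw : ℕ → Prop}

theorem ly_X (S : RX k ld al) (n : Lob5.Num) {M e dl j : ℕ} {rv : ℕ → RV}
    (R : RXOK S st tw M n.n2 n.nT n.Ux n.N0 dl) (H : CtxX S st tw n e j rv) :
    LyOK (nmX S n M e dl) (lyX S n M j) rv (k + 1) := by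
  classical
  obtain ⟨N, hN⟩ : ∃ N, N = nmX S n M e dl := ⟨_, rfl⟩
  obtain ⟨Y, hY⟩ : ∃ Y, Y = lyX S n M j := ⟨_, rfl⟩
  -- the numbers
  have e_h : N.h = S.h := by rw [hN]; rfl
  have e_P : N.P = S.P := by rw [hN]; rfl
  have e_Q : N.Q = S.Q := by rw [hN]; rfl
  have e_w : N.w = wx S n := by rw [hN]; rfl
  have e_N0 : N.N0 = n.N0 := by rw [hN]; rfl
  have e_nT : N.nT = n.nT := by rw [hN]; rfl
  have e_n2 : N.n2 = n.n2 := by rw [hN]; rfl
  have e_Ux : N.Ux = n.Ux := by rw [hN]; rfl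
  have e_e : N.e = e := by rw [hN]; rfl
  have e_eb : N.eb = e / 2 := by rw [hN]; rfl
  have e_et : N.et = (e + 1) / 2 := by rw [hN]; rfl
  have e_s1 : N.s1 = 0 := by rw [hN]; rfl
  have e_dl : N.dl = dl := by rw [hN]; rfl
  have e_pk : N.pk = wx S n + n.N0 := by rw [hN]; rfl
  have e_c0 : N.c0 = 0 := by rw [hN]; rfl
  have e_om : N.om = 0 := by rw [hN]; rfl
  have e_g1 : N.g1 = wx S n + n.N0 + S.Q + n.nT + 1 := by rw [hN]; rfl
  have e_kb : ∀ i, N.kb i ↔ S.bad (oe i) := by intro i; rw [hN]; rfl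
  have e_cd : ∀ i, N.cd i ↔ S.cd M n.n2 n.nT n.Ux i := by intro i; rw [hN]; rfl
  have f_j : Y.j = j := by rw [hY]; rfl
  have f_U : Y.U = n.Ux - j := by rw [hY]; rfl
  have f_thr : Y.thr = 2 * wx S n + n.N0 + n.nT + M - (S.h + 1) := by rw [hY]; rfl
  have f_be : Y.be = wx S n + n.N0 := by rw [hY]; rfl
  have f_nxf : Y.nxf = 0 := by rw [hY]; rfl
  have f_nlg : Y.nlg = 0 := by rw [hY]; rfl
  have f_xf : ∀ i, Y.xf i = false := by intro i; rw [hY]; rfl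
  have f_lg : ∀ i, Y.lg i = false := by intro i; rw [hY]; rfl
  have f_pk : Y.p (k + 1) = wx S n + n.N0 := by rw [hY]; exact p_last S n M j
  have f_odd : ∀ e, 1 ≤ e → e ≤ k → e % 2 = 1 →
      (S.bad e ∧ 1 ≤ S.rk e ∧ S.rk e ≤ S.P ∧ Y.p e = n.n2 + j + S.rk e) ∨
      (¬ S.bad e ∧ S.P + 1 ≤ S.rk e ∧ S.rk e ≤ S.h + 1 ∧
        Y.p e = n.n2 + j + S.rk e + (n.Ux - j)) := by
    rw [hY]; exact fun e h1 h2 h3 => p_odd S n M j h1 h2 h3
  have f_even : ∀ e, 1 ≤ e → e ≤ k → e % 2 = 0 →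
      (S.bad e ∧ 1 ≤ S.rk e ∧ S.rk e ≤ S.Q ∧ Y.p e = wx S n + n.N0 + S.rk e) ∨
      (¬ S.bad e ∧ S.Q + 1 ≤ S.rk e ∧ S.rk e ≤ S.h ∧
        Y.p e = wx S n + n.N0 + S.rk e + n.nT) := by
    rw [hY]; exact fun e h1 h2 h3 => p_even S n M j h1 h2 h3
  have f_C : ∀ i, 1 ≤ i → i < k → ¬ ld i → (S.bad i ∧ 2 ≤ S.J i ∧ S.J i ≤ S.P + S.Q ∧
      Y.bs i = wx S n + n.N0 + n.n2 + j + S.J i) ∨
      (¬ S.bad i ∧ S.P + S.Q + 2 ≤ S.J i ∧ S.J i ≤ 2 * S.h + 1 ∧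
        Y.bs i = wx S n + n.N0 + n.n2 + j + S.J i + (n.Ux - j) + n.nT) := by
    rw [hY]; exact fun i h1 h2 h3 => bs_C S n M j h1 h2 h3
  have f_ld : ∀ i, 1 ≤ i → i < k → ld i → (S.bad (oe i) ∧ S.Q + 2 ≤ S.J i ∧
      Y.bs i = wx S n + n.N0 + n.nT + n.n2 + j + S.J i) ∨
      (¬ S.bad (oe i) ∧ S.P + 2 ≤ S.J i ∧
        wx S n + n.N0 + n.n2 + j + (n.Ux - j) + S.J i ≤ Y.bs i ∧
        (al i → S.J i ≤ S.h + 1 + S.Q ∧
          Y.bs i = wx S n + n.N0 + n.n2 + j + (n.Ux - j) + S.J i)) := by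
    rw [hY]; exact fun i h1 h2 h3 => bs_ld S n M j h1 h2 h3
  have f_X0 : Y.X 0 = 0 := by rw [hY]; rfl
  have f_X : ∀ i, 1 ≤ i → Y.X i = n.n2 + j + S.P + i := by
    intro i hi
    rw [hY]
    exact if_neg (by omega)
  have e_wx : wx S n = n.n2 + n.Ux + S.h + 1 := rfl
  have hPh := S.Ph
  have hQh := S.Qh
  have hP1 := S.P1
  have hk := S.hk
  have hh1 := S.h1
  have hM1 := R.M1
  have hM2 := R.M2
  have fX1 := f_X 1 le_rfl
  have hN0 := H.eN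
  have hjU := H.jU
  have he1 := H.e1
  have f_bk : Y.bs k = wx S n + n.N0 + n.n2 + j + 1 := by
    unfold Ly.bs
    rw [f_pk]
    rcases f_odd k (by omega) le_rfl (by omega) with ⟨-, -, -, h4⟩ | ⟨-, h2, -, -⟩
    · rw [S.last] at h4
      omega
    · rw [S.last] at h2
      omega
  -- the roles
  have lt_k : ∀ i, i < k + 1 → rv i ≠ .C → i < k := by
    intro i h1 h2
    rcases Nat.lt_or_ge i k with h | h
    · exact h
    · exact absurd (by rw [show i = k by omega]; exact H.rk) h2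
  have no : ∀ i, 1 ≤ i → i < k + 1 → rv i ≠ .As ∧ rv i ≠ .Fs ∧ rv i ≠ .FR := by
    intro i h1 h2
    rcases Nat.lt_or_ge i k with h | h
    · exact H.no i h1 h
    · rw [show i = k by omega, H.rk]
      exact ⟨by decide, by decide, by decide⟩
  have nys : ∀ i, 1 ≤ i → i < k + 1 → ¬ Y.ys rv i := by
    rintro i h1 h2 (⟨h3, -⟩ | h3)
    · exact (no i h1 h2).1 h3
    · exact (no i h1 h2).2.1 h3
  have nxs : ∀ i, ¬ Y.xs N rv i := by
    rintro i ⟨h1, -⟩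
    rw [f_xf] at h1
    exact absurd h1 (by decide)
  have nFR : ¬ ∃ i, 1 ≤ i ∧ i < k + 1 ∧ rv i = .FR := fun ⟨i, h1, h2, h3⟩ => (no i h1 h2).2.2 h3
  have lA : ∀ i, i < k + 1 → (rv i).isA = true → i < k := fun i h1 h2 =>
    lt_k i h1 (by intro h; rw [h] at h2; exact absurd h2 (by decide))
  have lN : ∀ i, i < k + 1 → (rv i).isN = true → i < k := fun i h1 h2 =>
    lt_k i h1 (by intro h; rw [h] at h2; exact absurd h2 (by decide))
  have lS : ∀ i, i < k + 1 → (rv i).isS = true → i < k := fun i h1 h2 => lN i h1 (isS_N h2)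
  have isT_S : ∀ i, 1 ≤ i → i < k + 1 → (rv i).isT = true → (rv i).isS = true := by
    intro i h1 h2 h3
    have h4 := (no i h1 h2).2.2
    cases hr : rv i <;> rw [hr] at h3 h4 <;> first | rfl | exact absurd h3 (by decide) |
      exact absurd rfl h4
  -- the bases of the marked vertices
  have fA : ∀ a, 1 ≤ a → a < k + 1 → (rv a).isA = true → a < k ∧ al a ∧
      ((S.bad (oe a) ∧ Y.bs a = wx S n + n.N0 + n.nT + n.n2 + j + S.J a) ∨
       (¬ S.bad (oe a) ∧ S.J a ≤ S.h + 1 + S.Q ∧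
        Y.bs a = wx S n + n.N0 + n.n2 + j + (n.Ux - j) + S.J a)) := by
    intro a h1 h2 h3
    have h4 := lA a h2 h3
    have h5 := H.A a h1 h4 h3
    refine ⟨h4, h5, ?_⟩
    rcases f_ld a h1 h4 (S.al_ld a h5) with ⟨h6, -, h7⟩ | ⟨h6, -, -, h7⟩
    · exact Or.inl ⟨h6, h7⟩
    · exact Or.inr ⟨h6, (h7 h5).1, (h7 h5).2⟩
  have fN : ∀ x, 1 ≤ x → x < k + 1 → (rv x).isN = true → x < k ∧ ld x ∧ ¬ al x ∧
      ((S.bad (oe x) ∧ S.Q + 2 ≤ S.J x ∧
        Y.bs x = wx S n + n.N0 + n.nT + n.n2 + j + S.J x) ∨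
       (¬ S.bad (oe x) ∧ S.P + 2 ≤ S.J x ∧
        wx S n + n.N0 + n.n2 + j + (n.Ux - j) + S.J x ≤ Y.bs x)) := by
    intro x h1 h2 h3
    have h4 := lN x h2 h3
    obtain ⟨h5, h6⟩ := H.nl x h1 h4 h3
    refine ⟨h4, h5, h6, ?_⟩
    rcases f_ld x h1 h4 h5 with ⟨h7, h8, h9⟩ | ⟨h7, h8, h9, -⟩
    · exact Or.inl ⟨h7, h8, h9⟩
    · exact Or.inr ⟨h7, h8, h9⟩
  rw [← hN, ← hY]
  refine
    { eN := ?_, U_ge := ?_, U_eq := ?_, nxf_eq := ?_, nlg_le := ?_, nlg_eq := ?_, be_ge := ?_,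
      be_le := ?_, be_thr := ?_, thr_le := ?_, thr_le' := ?_, g1_ge := ?_, g1_thr := ?_, g0_be := ?_,
      zone := ?_, p_rng := ?_, p_inj := ?_, p_one := ?_, p_last := ?_, X_mono := ?_,
      X_zero := ?_, X_rng := ?_, X_lo := ?_, X_p := ?_, y_rng := ?_, y_X := ?_, y_p := ?_,
      y_inj := ?_, x_rng := ?_, x_X := ?_, x_p := ?_, x_inj := ?_, x_y := ?_, C_inj := ?_,
      C_be := ?_, C_gap := ?_, C_thr := ?_, V_be := ?_, V_thr := ?_, V_C := ?_, V_inj := ?_,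
      V_gap := ?_, lg_rng := ?_, bA := ?_, bN := ?_, bc := ?_, bT := ?_, P2 := ?_, Dbb := ?_,
      Dbr := ?_, Dgg := ?_, Dgb := ?_, bupb := ?_, bupg := ?_, shx := ?_, bbP := ?_, lt := ?_,
      xW1 := ?_, xW2 := ?_, oW1 := ?_, oW2 := ?_, Xr := ?_, Rq := ?_, Rd := ?_ }
  · -- eN
    omega
  · -- U_ge
    omega
  · -- U_eq
    omega
  · -- nxf_eq
    rw [f_nxf]
    symm
    rw [Finset.card_eq_zero, Finset.filter_eq_empty_iff]
    rintro i - ⟨-, h8⟩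
    exact nxs i h8
  · -- nlg_le
    omega
  · -- nlg_eq
    rw [f_nlg]
    symm
    rw [Finset.card_eq_zero, Finset.filter_eq_empty_iff]
    rintro i - ⟨-, -, h9⟩
    rw [f_lg] at h9
    exact absurd h9 (by decide)
  · -- be_ge
    omega
  · -- be_le
    omega
  · -- be_thr
    omega
  · -- thr_le
    omega
  · -- thr_le'
    intro h
    omega
  · -- g1_ge
    omega
  · -- g1_thr
    intro hU
    rw [f_X Y.U hU]
    omega
  · -- g0_be
    intro _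
    omega
  · -- zone
    omega
  · -- p_rng
    intro e h1 h2
    by_cases hek : e = k + 1
    · right; right; right; right
      rw [hek, f_pk, e_pk]
      exact ⟨rfl, by omega⟩
    · rcases Nat.mod_two_eq_zero_or_one e with h3 | h3
      · rcases f_even e h1 (by omega) h3 with ⟨-, b2, b3, b4⟩ | ⟨-, b2, b3, b4⟩
        · exact Or.inr (Or.inl (by omega))
        · exact Or.inr (Or.inr (Or.inl (by omega)))
      · rcases f_odd e h1 (by omega) h3 with ⟨-, b2, b3, b4⟩ | ⟨-, b2, b3, b4⟩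
        · exact Or.inl (by omega)
        · exact Or.inl (by omega)
  · -- p_inj
    have key : ∀ e f, 1 ≤ e → e ≤ k → 1 ≤ f → f ≤ k → Y.p e = Y.p f → e = f := by
      intro e f h1 h2 h3 h4 h5
      have hpar : e % 2 = f % 2 ∧ S.rk e = S.rk f := by
        rcases Nat.mod_two_eq_zero_or_one e with h6 | h6 <;>
          rcases Nat.mod_two_eq_zero_or_one f with h7 | h7
        · rcases f_even e h1 h2 h6 with ⟨-, b2, b3, b4⟩ | ⟨-, b2, b3, b4⟩ <;>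
            rcases f_even f h3 h4 h7 with ⟨-, c2, c3, c4⟩ | ⟨-, c2, c3, c4⟩ <;>
            exact ⟨by omega, by omega⟩
        · rcases f_even e h1 h2 h6 with ⟨-, b2, b3, b4⟩ | ⟨-, b2, b3, b4⟩ <;>
            rcases f_odd f h3 h4 h7 with ⟨-, c2, c3, c4⟩ | ⟨-, c2, c3, c4⟩ <;>
            exfalso <;> omega
        · rcases f_odd e h1 h2 h6 with ⟨-, b2, b3, b4⟩ | ⟨-, b2, b3, b4⟩ <;>
            rcases f_even f h3 h4 h7 with ⟨-, c2, c3, c4⟩ | ⟨-, c2, c3, c4⟩ <;>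
            exfalso <;> omega
        · rcases f_odd e h1 h2 h6 with ⟨-, b2, b3, b4⟩ | ⟨-, b2, b3, b4⟩ <;>
            rcases f_odd f h3 h4 h7 with ⟨-, c2, c3, c4⟩ | ⟨-, c2, c3, c4⟩ <;>
            exact ⟨by omega, by omega⟩
      exact S.rk_inj e f h1 h2 h3 h4 hpar.1 hpar.2
    have plt : ∀ e, 1 ≤ e → e ≤ k → Y.p e ≠ wx S n + n.N0 := by
      intro e h1 h2
      rcases Nat.mod_two_eq_zero_or_one e with h3 | h3
      · rcases f_even e h1 (by omega) h3 with ⟨-, b2, b3, b4⟩ | ⟨-, b2, b3, b4⟩ <;> omega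
      · rcases f_odd e h1 (by omega) h3 with ⟨-, b2, b3, b4⟩ | ⟨-, b2, b3, b4⟩ <;> omega
    intro e f h1 h2 h3 h4 h5
    by_cases hek : e = k + 1
    · by_cases hfk : f = k + 1
      · rw [hek, hfk]
      · rw [hek, f_pk] at h5
        exact absurd h5.symm (plt f h3 (by omega))
    · by_cases hfk : f = k + 1
      · rw [hfk, f_pk] at h5
        exact absurd h5 (plt e h1 (by omega))
      · exact key e f h1 (by omega) h3 (by omega) h5
  · -- p_one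
    rcases f_odd 1 le_rfl (by omega) rfl with ⟨-, b2, b3, b4⟩ | ⟨-, b2, b3, b4⟩ <;> omega
  · -- p_last
    rw [f_pk]
    omega
  · -- X_mono
    intro a b hab
    rw [f_X b (by omega)]
    by_cases ha : a = 0
    · rw [ha, f_X0]
      omega
    · rw [f_X a (by omega)]
      omega
  · -- X_zero
    omega
  · -- X_rng
    intro i h1 h2
    rw [f_X i h1]
    omega
  · -- X_lo
    omega
  · -- X_p
    intro i e h1 h2 h3 h4
    rw [f_X i h1]
    by_cases hek : e = k + 1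
    · rw [hek, f_pk]
      omega
    · rcases Nat.mod_two_eq_zero_or_one e with h5 | h5
      · rcases f_even e h3 (by omega) h5 with ⟨-, b2, b3, b4⟩ | ⟨-, b2, b3, b4⟩ <;> omega
      · rcases f_odd e h3 (by omega) h5 with ⟨-, b2, b3, b4⟩ | ⟨-, b2, b3, b4⟩ <;> omega
  · exact fun i h1 h2 h3 => absurd h3 (nys i h1 h2)
  · exact fun i m h1 h2 h3 => absurd h3 (nys i h1 h2)
  · exact fun i e h1 h2 h3 => absurd h3 (nys i h1 h2)
  · exact fun i i' h1 h2 h3 => absurd h3 (nys i h1 h2)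
  · exact fun i h1 h2 h3 => absurd h3 (nxs i)
  · exact fun i m h1 h2 h3 => absurd h3 (nxs i)
  · exact fun i e h1 h2 h3 => absurd h3 (nxs i)
  · exact fun i i' h1 h2 h3 => absurd h3 (nxs i)
  · exact fun i i' h1 h2 h3 => absurd h3 (nxs i)
  · -- C_inj
    have key : ∀ i, 1 ≤ i → i < k → rv i = .C → Y.bs i ≠ Y.bs k := by
      intro i h1 h2 h3
      rw [f_bk]
      rcases f_C i h1 h2 (H.C i h1 h2 h3) with ⟨-, b2, b3, b4⟩ | ⟨-, b2, b3, b4⟩ <;> omega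
    intro i i' h1 h2 h3 h4 h5 h6 h7
    rcases Nat.lt_or_ge i k with h8 | h8
    · rcases Nat.lt_or_ge i' k with h9 | h9
      · have h10 := H.C i h1 h8 h3
        have h11 := H.C i' h4 h9 h6
        have h12 := cmp' S h1 h8 h10 h4 h9 h11
        have h13 := f_C i h1 h8 h10
        have h14 := f_C i' h4 h9 h11
        have e1 := J_eq S i
        have e2 := J_eq S i'
        have h15 : S.rk (oe i) = S.rk (oe i') ∧ S.rk (ee i) = S.rk (ee i') := by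
          rcases h13 with ⟨-, b2, b3, b4⟩ | ⟨-, b2, b3, b4⟩ <;>
            rcases h14 with ⟨-, c2, c3, c4⟩ | ⟨-, c2, c3, c4⟩ <;>
            rcases h12 with ⟨d1, d2⟩ | ⟨d1, d2⟩ <;> exact ⟨by omega, by omega⟩
        have h16 := S.rk_inj _ _ (oe_rng h1 h8).1 (oe_rng h1 h8).2 (oe_rng h4 h9).1
          (oe_rng h4 h9).2 (by rw [oe_odd, oe_odd]) h15.1
        have h17 := S.rk_inj _ _ (ee_rng h1 h8).1 (ee_rng h1 h8).2 (ee_rng h4 h9).1
          (ee_rng h4 h9).2 (by rw [ee_even, ee_even]) h15.2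
        exact oe_ee_eq h16 h17
      · rw [show i' = k by omega] at h7
        exact absurd h7 (key i h1 h8 h3)
    · rcases Nat.lt_or_ge i' k with h9 | h9
      · rw [show i = k by omega] at h7
        exact absurd h7.symm (key i' h4 h9 h6)
      · omega
  · -- C_be
    intro i h1 h2 h3
    left
    rcases Nat.lt_or_ge i k with h8 | h8
    · rcases f_C i h1 h8 (H.C i h1 h8 h3) with ⟨-, b2, b3, b4⟩ | ⟨-, b2, b3, b4⟩ <;> omega
    · rw [show i = k by omega, f_bk]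
      omega
  · -- C_gap
    intro hU i h1 h2 h3
    rw [f_X Y.U hU]
    rcases Nat.lt_or_ge i k with h8 | h8
    · rcases f_C i h1 h8 (H.C i h1 h8 h3) with ⟨-, b2, b3, b4⟩ | ⟨-, b2, b3, b4⟩
      · left
        omega
      · right
        omega
    · left
      rw [show i = k by omega, f_bk]
      omega
  · -- C_thr
    intro i h1 h2 h3
    rcases Nat.lt_or_ge i k with h8 | h8
    · have h9 := H.C i h1 h8 h3
      rcases f_C i h1 h8 h9 with ⟨-, b2, b3, b4⟩ | ⟨b1, b2, b3, b4⟩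
      · omega
      · have := R.MC i h1 h8 h9 b1
        omega
    · rw [show i = k by omega, f_bk]
      omega
  · exact fun i h1 h2 h3 => absurd h3 (nys i h1 h2)
  · exact fun i h1 h2 h3 => absurd h3 (nys i h1 h2)
  · exact fun i i' h1 h2 h3 => absurd h3 (nys i h1 h2)
  · exact fun i i' h1 h2 h3 => absurd h3 (nys i h1 h2)
  · exact fun _ i h1 h2 h3 => absurd h3 (nys i h1 h2)
  · exact fun i h1 h2 h3 => absurd h3 (no i h1 h2).1
  · -- bA
    intro i h1 h2 h3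
    obtain ⟨h4, h5, h6⟩ := fA i h1 h2 h3
    rcases h6 with ⟨h6, h7⟩ | ⟨h6, h8, h7⟩
    · have := R.aB i h1 h4 h5 h6
      omega
    · have := R.aG i h1 h4 h5 h6
      omega
  · -- bN
    intro i h1 h2 _ h3
    obtain ⟨h4, h5, h6, h7⟩ := fN i h1 h2 (II_N h3)
    have h8 := H.N i h1 h4 h3
    rcases h7 with ⟨h7, -, h9⟩ | ⟨h7, -, h9⟩
    · have := R.nB i h1 h4 h8 h7
      omega
    · have := R.nG i h1 h4 h8 h7
      omega
  · -- bc
    intro i h1 h2 _ h3 h3'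
    obtain ⟨h4, h5, h6, h7⟩ := fN i h1 h2 (II_N h3)
    rw [e_cd] at h3'
    rcases h7 with ⟨h7, -, h9⟩ | ⟨h7, -, h9⟩
    · have := h3'.1 h7
      omega
    · have := h3'.2 h7
      omega
  · -- bT
    intro i h1 h2 h3
    have h3' := isT_S i h1 h2 h3
    obtain ⟨h4, h5, h6, h7⟩ := fN i h1 h2 (isS_N h3')
    have h8 := R.tS i h1 h4 (H.S i h1 h4 h3')
    rcases h7 with ⟨h7, -, h9⟩ | ⟨h7, -, h9⟩ <;> omega
  · -- P2
    rcases R.two with h | h
    · left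
      omega
    · right
      intro i h1 h2 h3 h4
      rw [e_kb] at h4
      rcases h3 with h3 | h3
      · obtain ⟨h5, h6, -⟩ := fA i h1 h2 h3
        exact h i h1 h5 (Or.inl h6) h4
      · have h5 := lS i h2 h3
        exact h i h1 h5 (Or.inr (H.S i h1 h5 h3)) h4
  · -- Dbb
    intro a z h1 h2 h3 h4 h5 h6 h7
    rw [e_kb] at h7
    obtain ⟨a1, a2, a3⟩ := fA a h1 h2 h5
    obtain ⟨z1, z2, z3, z4⟩ := fN z h3 h4 (isS_N h6)
    have h8 := R.bb a z h1 a1 h3 z1 a2 h7 (H.S z h3 z1 h6)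
    have hm2 : N.dl + N.et ≤ max 1 (N.dl + N.et) := le_max_right _ _
    rcases a3 with ⟨a3, a4⟩ | ⟨a3, a4⟩
    · rcases z4 with ⟨z4, -, z5⟩ | ⟨z4, -, z5⟩ <;> omega
    · exact absurd h7 a3
  · -- Dbr
    intro h
    exact absurd h nFR
  · -- Dgg
    intro a z h1 h2 h3 h4 h5 h6 h7 h7'
    rw [e_kb] at h7 h7'
    obtain ⟨a1, a2, a3⟩ := fA a h1 h2 h5
    obtain ⟨z1, z2, z3, z4⟩ := fN z h3 h4 (isS_N h6)
    have h8 := R.gg a z h1 a1 h3 z1 a2 h7 (H.S z h3 z1 h6) h7'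
    rcases a3 with ⟨a3, a4⟩ | ⟨a3, -, a4⟩
    · exact absurd a3 h7
    · rcases z4 with ⟨z4, -, z5⟩ | ⟨z4, -, z5⟩
      · exact absurd z4 h7'
      · omega
  · -- Dgb
    intro a z h1 h2 h3 h4 h5 h6 h7 h7'
    rw [e_kb] at h7 h7'
    obtain ⟨a1, a2, a3⟩ := fA a h1 h2 h5
    obtain ⟨z1, z2, z3, z4⟩ := fN z h3 h4 (isS_N h6)
    have h8 := R.gb a z h1 a1 h3 z1 a2 h7 (H.S z h3 z1 h6) h7'
    have h9 : N.sgc rv (k + 1) ≤ ((Finset.range k).filter fun i =>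
        1 ≤ i ∧ tw i ∧ ¬ S.cd M n.n2 n.nT n.Ux i).card := by
      unfold Nm.sgc
      refine Finset.card_le_card ?_
      intro i hi
      rw [Finset.mem_filter, Finset.mem_range] at hi ⊢
      obtain ⟨g1, g2, g3, g4, g5⟩ := hi
      obtain ⟨g6, -⟩ := fN i g2 g1 (II_N g3)
      refine ⟨g6, g2, H.N i g2 g6 g3, ?_⟩
      rw [← e_cd]
      exact g5
    rcases a3 with ⟨a3, a4⟩ | ⟨a3, -, a4⟩
    · exact absurd a3 h7
    · rcases z4 with ⟨z4, -, z5⟩ | ⟨z4, -, z5⟩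
      · omega
      · exact absurd h7' z4
  · -- bupb
    intro a h1 h2 h3 h4
    rw [e_kb] at h4
    obtain ⟨a1, a2, a3⟩ := fA a h1 h2 h3
    have hr1 := oe_rng h1 a1
    have hr2 := ee_rng h1 a1
    have hr3 := S.rk_ob _ hr1.1 hr1.2 (oe_odd a) h4
    have hr4 := S.rk_eg _ hr2.1 hr2.2 (ee_even a) (S.dif1 a h1 a1 (S.al_ld a a2) h4)
    have e1 := J_eq S a
    rcases a3 with ⟨a3, a4⟩ | ⟨a3, -, a4⟩
    · omega
    · exact absurd h4 a3
  · -- bupg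
    intro a h1 h2 h3 h4
    rw [e_kb] at h4
    obtain ⟨a1, a2, a3⟩ := fA a h1 h2 h3
    rcases a3 with ⟨a3, a4⟩ | ⟨a3, a5, a4⟩
    · exact absurd a3 h4
    · omega
  · -- shx
    intro a x h1 h2 h3 h4 h5 h6 _ h8
    rw [e_kb] at h6
    obtain ⟨a1, a2, a3⟩ := fA a h1 h2 h5
    obtain ⟨z1, z2, z3, z4⟩ := fN x h3 h4 h8
    have h9 := R.sh a x h1 a1 h3 z1 a2 h6 z2 z3
    rcases a3 with ⟨a3, a4⟩ | ⟨a3, -, a4⟩
    · rcases z4 with ⟨z4, -, z5⟩ | ⟨z4, -, z5⟩ <;> omega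
    · exact absurd h6 a3
  · -- bbP
    intro h
    omega
  · -- lt
    intro h
    omega
  · intro i z _ _ _ _ h
    rw [f_xf] at h
    exact absurd h (by decide)
  · intro i _ _ h
    rw [f_xf] at h
    exact absurd h (by decide)
  · intro i z _ _ _ _ h
    rw [f_xf] at h
    exact absurd h (by decide)
  · intro i _ _ h
    rw [f_xf] at h
    exact absurd h (by decide)
  · -- Xr
    intro t r h1 h2 h3 h4 h5
    obtain ⟨z1, z2, z3, z4⟩ := fN r h3 h4 (isS_N h5)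
    have h6 := R.tP r h3 z1 (H.S r h3 z1 h5)
    rw [f_X t h1]
    rcases z4 with ⟨z4, -, z5⟩ | ⟨z4, -, z5⟩ <;> omega
  · intro i h1 h2 h3
    exact absurd h3 (no i h1 h2).2.2
  · intro h
    exact absurd h nFR

theorem st_X (S : RX k ld al) (n : Lob5.Num) {M e dl j : ℕ} {rv : ℕ → RV}
    (H : CtxX S st tw n e (j + 1) rv) :
    StOK (nmX S n M e dl) (lyX S n M j) (lyX S n M (j + 1)) rv (k + 1) := by
  have hjU := H.jU
  have hP1 := S.P1
  have lA : ∀ i, i < k + 1 → (rv i).isA = true → i < k := by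
    intro i h1 h2
    rcases Nat.lt_or_ge i k with h | h
    · exact h
    · rw [show i = k by omega, H.rk] at h2
      exact absurd h2 (by decide)
  have hA : ∀ a, 1 ≤ a → a < k + 1 → (rv a).isA = true → ¬ (nmX S n M e dl).kb a →
      (lyX S n M (j + 1)).bs a = (lyX S n M j).bs a := by
    intro a h1 h2 h3 h4
    have h5 := lA a h2 h3
    have h6 := H.A a h1 h5 h3
    change ¬ S.bad (oe a) at h4
    rcases bs_ld S n M j h1 h5 (S.al_ld a h6) with ⟨h7, -⟩ | ⟨-, -, -, h7⟩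
    · exact absurd h7 h4
    rcases bs_ld S n M (j + 1) h1 h5 (S.al_ld a h6) with ⟨h8, -⟩ | ⟨-, -, -, h8⟩
    · exact absurd h8 h4
    have h9 := (h7 h6).2
    have h10 := (h8 h6).2
    omega
  have hbs : ∀ i, 1 ≤ i → i < k → (lyX S n M (j + 1)).bs i ≤ (lyX S n M j).bs i + 1 := by
    intro i h1 h2
    rw [bs_eq, bs_eq]
    rcases p_odd S n M j (oe_rng h1 h2).1 (oe_rng h1 h2).2 (oe_odd i) with
      ⟨a1, a2, a3, a4⟩ | ⟨a1, a2, a3, a4⟩ <;>
    rcases p_odd S n M (j + 1) (oe_rng h1 h2).1 (oe_rng h1 h2).2 (oe_odd i) with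
      ⟨b1, b2, b3, b4⟩ | ⟨b1, b2, b3, b4⟩ <;>
    rcases p_even S n M j (ee_rng h1 h2).1 (ee_rng h1 h2).2 (ee_even i) with
      ⟨c1, c2, c3, c4⟩ | ⟨c1, c2, c3, c4⟩ <;>
    rcases p_even S n M (j + 1) (ee_rng h1 h2).1 (ee_rng h1 h2).2 (ee_even i) with
      ⟨d1, d2, d3, d4⟩ | ⟨d1, d2, d3, d4⟩ <;>
    omega
  constructor
  · intro i a h1 h2 h3 h4 _ h6 h7 h8
    have h9 := hA a h3 h4 h7 h8
    have h10 : i < k := by
      rcases Nat.lt_or_ge i k with h | h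
      · exact h
      · rw [show i = k by omega, H.rk] at h6
        rcases h6 with h6 | h6 <;> exact absurd h6 (by decide)
    have h11 := hbs i h1 h10
    change (lyX S n M (j + 1)).bs i + (lyX S n M j).bs a + (0 + n.n2 + j + 1) ≤
      (lyX S n M j).bs i + (lyX S n M (j + 1)).bs a + (n.n2 + j + S.P + 1)
    omega
  · intro a h1 h2 h3 h4
    have h9 := hA a h1 h2 h3 h4
    change (lyX S n M j).bs a + (0 + n.n2 + j + 1) ≤
      (lyX S n M (j + 1)).bs a + (n.n2 + j + S.P + 1)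
    omega

end

end Pool.Agent.Lob12
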