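import Pool.Agent.Lob12.RxMain

/-!
# Ranks of a coloured word

Given the colours `bad` of the edges `1, ..., k` (`k = 2h+1`) of a word with `bad k`, the bad odd edges get the ranks
`P, ..., 1` from left to right, the good odd ones `P+1, ..., h+1`, and similarly for the even edges (`rxw`).
`bc i`: number of bad edges `e ≤ i`, `gc i`: number of good edges `e ≤ i`.
Sums of the ranks at the vertex `i` (`b = bc k - bc i` bad edges behind `i`):
* `J_CB`: both edges bad: `b + 1`; `J_CG`: both edges good: `P + Q + gc i + 1`;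
* `J_maxo`, `J_maxe` (`i` good, `i + 1` bad): `b + (i+1)/2`, `b + i/2`;
* `J_mino`, `J_mine` (`i` bad, `i + 1` good): `b + (i+1)/2 + 1`, `b + i/2 + 2`.
-/

namespace Pool.Agent.Lob12

open Pool.Agent.Lob5 Pool.Agent.Lob89

open Classical in
/-- number of good odd edges `≤ n` -/
noncomputable def go (bad : ℕ → Prop) : ℕ → ℕ
  | 0 => 0
  | n + 1 => go bad n + if (n + 1) % 2 = 1 ∧ ¬ bad (n + 1) then 1 else 0

open Classical in
/-- number of bad odd edges `≤ n` -/
noncomputable def bo (bad : ℕ → Prop) : ℕ → ℕ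
  | 0 => 0
  | n + 1 => bo bad n + if (n + 1) % 2 = 1 ∧ bad (n + 1) then 1 else 0

open Classical in
/-- number of good even edges `≤ n` -/
noncomputable def gv (bad : ℕ → Prop) : ℕ → ℕ
  | 0 => 0
  | n + 1 => gv bad n + if (n + 1) % 2 = 0 ∧ ¬ bad (n + 1) then 1 else 0

open Classical in
/-- number of bad even edges `≤ n` -/
noncomputable def bv (bad : ℕ → Prop) : ℕ → ℕ
  | 0 => 0
  | n + 1 => bv bad n + if (n + 1) % 2 = 0 ∧ bad (n + 1) then 1 else 0

/-- number of bad edges `≤ n` -/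
noncomputable def bc (bad : ℕ → Prop) (n : ℕ) : ℕ := bo bad n + bv bad n

/-- number of good edges `≤ n` -/
noncomputable def gc (bad : ℕ → Prop) (n : ℕ) : ℕ := go bad n + gv bad n

section

variable (bad : ℕ → Prop)

theorem go_mono {m n : ℕ} (h : m ≤ n) : go bad m ≤ go bad n := by
  induction n with
  | zero => rw [Nat.le_zero.1 h]
  | succ n ih =>
    rcases Nat.lt_or_ge n m with h1 | h1
    · rw [show m = n + 1 by omega]
    · have := ih h1
      rw [go]
      omega

theorem bo_mono {m n : ℕ} (h : m ≤ n) : bo bad m ≤ bo bad n := by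
  induction n with
  | zero => rw [Nat.le_zero.1 h]
  | succ n ih =>
    rcases Nat.lt_or_ge n m with h1 | h1
    · rw [show m = n + 1 by omega]
    · have := ih h1
      rw [bo]
      omega

theorem gv_mono {m n : ℕ} (h : m ≤ n) : gv bad m ≤ gv bad n := by
  induction n with
  | zero => rw [Nat.le_zero.1 h]
  | succ n ih =>
    rcases Nat.lt_or_ge n m with h1 | h1
    · rw [show m = n + 1 by omega]
    · have := ih h1
      rw [gv]
      omega

theorem bv_mono {m n : ℕ} (h : m ≤ n) : bv bad m ≤ bv bad n := by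
  induction n with
  | zero => rw [Nat.le_zero.1 h]
  | succ n ih =>
    rcases Nat.lt_or_ge n m with h1 | h1
    · rw [show m = n + 1 by omega]
    · have := ih h1
      rw [bv]
      omega

theorem odd_cnt (n : ℕ) : go bad n + bo bad n = (n + 1) / 2 := by
  induction n with
  | zero => rfl
  | succ n ih =>
    rw [go, bo]
    by_cases hb : bad (n + 1) <;> by_cases hp : (n + 1) % 2 = 1
    · rw [if_neg (fun h => h.2 hb), if_pos ⟨hp, hb⟩]
      omega
    · rw [if_neg (fun h => h.2 hb), if_neg (fun h => hp h.1)]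
      omega
    · rw [if_pos ⟨hp, hb⟩, if_neg (fun h => hb h.2)]
      omega
    · rw [if_neg (fun h => hp h.1), if_neg (fun h => hp h.1)]
      omega

theorem even_cnt (n : ℕ) : gv bad n + bv bad n = n / 2 := by
  induction n with
  | zero => rfl
  | succ n ih =>
    rw [gv, bv]
    by_cases hb : bad (n + 1) <;> by_cases hp : (n + 1) % 2 = 0
    · rw [if_neg (fun h => h.2 hb), if_pos ⟨hp, hb⟩]
      omega
    · rw [if_neg (fun h => h.2 hb), if_neg (fun h => hp h.1)]
      omega
    · rw [if_pos ⟨hp, hb⟩, if_neg (fun h => hb h.2)]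
      omega
    · rw [if_neg (fun h => hp h.1), if_neg (fun h => hp h.1)]
      omega

theorem bc_gc (n : ℕ) : bc bad n + gc bad n = n := by
  have h1 := odd_cnt bad n
  have h2 := even_cnt bad n
  unfold bc gc
  omega

variable {bad}

theorem bo_succ_bad {n : ℕ} (h1 : (n + 1) % 2 = 1) (h2 : bad (n + 1)) :
    bo bad (n + 1) = bo bad n + 1 := by
  rw [bo, if_pos ⟨h1, h2⟩]

theorem bo_succ_good {n : ℕ} (h2 : ¬ bad (n + 1)) : bo bad (n + 1) = bo bad n := by
  rw [bo, if_neg (fun h => h2 h.2), add_zero]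

theorem bo_succ_even {n : ℕ} (h1 : (n + 1) % 2 = 0) : bo bad (n + 1) = bo bad n := by
  rw [bo, if_neg (fun h => by omega), add_zero]

theorem go_succ_good {n : ℕ} (h1 : (n + 1) % 2 = 1) (h2 : ¬ bad (n + 1)) :
    go bad (n + 1) = go bad n + 1 := by
  rw [go, if_pos ⟨h1, h2⟩]

theorem go_succ_bad {n : ℕ} (h2 : bad (n + 1)) : go bad (n + 1) = go bad n := by
  rw [go, if_neg (fun h => h.2 h2), add_zero]

theorem go_succ_even {n : ℕ} (h1 : (n + 1) % 2 = 0) : go bad (n + 1) = go bad n := by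
  rw [go, if_neg (fun h => by omega), add_zero]

theorem bv_succ_bad {n : ℕ} (h1 : (n + 1) % 2 = 0) (h2 : bad (n + 1)) :
    bv bad (n + 1) = bv bad n + 1 := by
  rw [bv, if_pos ⟨h1, h2⟩]

theorem bv_succ_good {n : ℕ} (h2 : ¬ bad (n + 1)) : bv bad (n + 1) = bv bad n := by
  rw [bv, if_neg (fun h => h2 h.2), add_zero]

theorem bv_succ_odd {n : ℕ} (h1 : (n + 1) % 2 = 1) : bv bad (n + 1) = bv bad n := by
  rw [bv, if_neg (fun h => by omega), add_zero]

theorem gv_succ_good {n : ℕ} (h1 : (n + 1) % 2 = 0) (h2 : ¬ bad (n + 1)) :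
    gv bad (n + 1) = gv bad n + 1 := by
  rw [gv, if_pos ⟨h1, h2⟩]

theorem gv_succ_bad {n : ℕ} (h2 : bad (n + 1)) : gv bad (n + 1) = gv bad n := by
  rw [gv, if_neg (fun h => h.2 h2), add_zero]

theorem gv_succ_odd {n : ℕ} (h1 : (n + 1) % 2 = 1) : gv bad (n + 1) = gv bad n := by
  rw [gv, if_neg (fun h => by omega), add_zero]

theorem bc_succ_bad {n : ℕ} (h2 : bad (n + 1)) : bc bad (n + 1) = bc bad n + 1 := by
  unfold bc
  rcases Nat.mod_two_eq_zero_or_one (n + 1) with h | h
  · rw [bv_succ_bad h h2, bo_succ_even h]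
    omega
  · rw [bv_succ_odd h, bo_succ_bad h h2]
    omega

theorem bc_succ_good {n : ℕ} (h2 : ¬ bad (n + 1)) : bc bad (n + 1) = bc bad n := by
  unfold bc
  rw [bv_succ_good h2, bo_succ_good h2]

theorem bc_mono {m n : ℕ} (h : m ≤ n) : bc bad m ≤ bc bad n :=
  Nat.add_le_add (bo_mono bad h) (bv_mono bad h)

end

open Classical in
/-- the ranks -/
noncomputable def rkw (bad : ℕ → Prop) (k e : ℕ) : ℕ :=
  if e % 2 = 1 then (if bad e then bo bad k - bo bad (e - 1) else bo bad k + go bad e)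
  else (if bad e then bv bad k - bv bad (e - 1) else bv bad k + gv bad e)

section

variable {bad : ℕ → Prop} {k : ℕ}

theorem rkw_ob {e : ℕ} (h1 : e % 2 = 1) (h2 : bad e) :
    rkw bad k e = bo bad k - bo bad (e - 1) := by
  rw [rkw, if_pos h1, if_pos h2]

theorem rkw_og {e : ℕ} (h1 : e % 2 = 1) (h2 : ¬ bad e) :
    rkw bad k e = bo bad k + go bad e := by
  rw [rkw, if_pos h1, if_neg h2]

theorem rkw_eb {e : ℕ} (h1 : e % 2 = 0) (h2 : bad e) :
    rkw bad k e = bv bad k - bv bad (e - 1) := by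
  rw [rkw, if_neg (by omega), if_pos h2]

theorem rkw_eg {e : ℕ} (h1 : e % 2 = 0) (h2 : ¬ bad e) :
    rkw bad k e = bv bad k + gv bad e := by
  rw [rkw, if_neg (by omega), if_neg h2]

private theorem ob_step {e : ℕ} (h1 : 1 ≤ e) (h2 : e % 2 = 1) (h3 : bad e) :
    bo bad e = bo bad (e - 1) + 1 := by
  obtain ⟨n, rfl⟩ : ∃ n, e = n + 1 := ⟨e - 1, by omega⟩
  exact bo_succ_bad h2 h3

private theorem og_step {e : ℕ} (h1 : 1 ≤ e) (h2 : e % 2 = 1) (h3 : ¬ bad e) :
    go bad e = go bad (e - 1) + 1 := by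
  obtain ⟨n, rfl⟩ : ∃ n, e = n + 1 := ⟨e - 1, by omega⟩
  exact go_succ_good h2 h3

private theorem eb_step {e : ℕ} (h1 : 1 ≤ e) (h2 : e % 2 = 0) (h3 : bad e) :
    bv bad e = bv bad (e - 1) + 1 := by
  obtain ⟨n, rfl⟩ : ∃ n, e = n + 1 := ⟨e - 1, by omega⟩
  exact bv_succ_bad h2 h3

private theorem eg_step {e : ℕ} (h1 : 1 ≤ e) (h2 : e % 2 = 0) (h3 : ¬ bad e) :
    gv bad e = gv bad (e - 1) + 1 := by
  obtain ⟨n, rfl⟩ : ∃ n, e = n + 1 := ⟨e - 1, by omega⟩
  exact gv_succ_good h2 h3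

private theorem oe_mono' {i j : ℕ} (h : i ≤ j) : oe i ≤ oe j := by
  unfold oe
  split_ifs <;> omega

private theorem ee_mono' {i j : ℕ} (h : i ≤ j) : ee i ≤ ee j := by
  unfold ee
  split_ifs <;> omega

/-- monotonicity of the ranks of the bad edges -/
private theorem rk_bad_anti {e f : ℕ} (h : e % 2 = f % 2) (h1 : 1 ≤ e) (h2 : e ≤ f)
    (hf : f ≤ k) (he : bad e) (hf' : bad f) : rkw bad k f ≤ rkw bad k e ∧
      (e < f → rkw bad k f < rkw bad k e) := by
  rcases Nat.mod_two_eq_zero_or_one e with h3 | h3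
  · rw [rkw_eb h3 he, rkw_eb (by omega) hf']
    have h4 := bv_mono bad (show e - 1 ≤ f - 1 by omega)
    have h5 := bv_mono bad hf
    have h6 := eb_step (bad := bad) (by omega) (by omega) hf'
    refine ⟨by omega, fun h7 => ?_⟩
    have h8 := bv_mono bad (show e ≤ f - 1 by omega)
    have h9 := eb_step (bad := bad) h1 h3 he
    omega
  · rw [rkw_ob h3 he, rkw_ob (by omega) hf']
    have h4 := bo_mono bad (show e - 1 ≤ f - 1 by omega)
    have h5 := bo_mono bad hf
    have h6 := ob_step (bad := bad) (by omega) (by omega) hf'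
    refine ⟨by omega, fun h7 => ?_⟩
    have h8 := bo_mono bad (show e ≤ f - 1 by omega)
    have h9 := ob_step (bad := bad) h1 h3 he
    omega

/-- monotonicity of the ranks of the good edges -/
private theorem rk_good_mono {e f : ℕ} (h : e % 2 = f % 2) (h1 : 1 ≤ e) (h2 : e ≤ f)
    (he : ¬ bad e) (hf' : ¬ bad f) : rkw bad k e ≤ rkw bad k f ∧
      (e < f → rkw bad k e < rkw bad k f) := by
  rcases Nat.mod_two_eq_zero_or_one e with h3 | h3
  · rw [rkw_eg h3 he, rkw_eg (by omega) hf']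
    have h4 := gv_mono bad h2
    refine ⟨by omega, fun h7 => ?_⟩
    have h8 := gv_mono bad (show e ≤ f - 1 by omega)
    have h9 := eg_step (bad := bad) (by omega) (by omega) hf'
    omega
  · rw [rkw_og h3 he, rkw_og (by omega) hf']
    have h4 := go_mono bad h2
    refine ⟨by omega, fun h7 => ?_⟩
    have h8 := go_mono bad (show e ≤ f - 1 by omega)
    have h9 := og_step (bad := bad) (by omega) (by omega) hf'
    omega

/-- A coloured word. -/
structure WD (k h : ℕ) (ld al bad : ℕ → Prop) : Prop where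
  hk : k = 2 * h + 1
  h1 : 1 ≤ h
  al_ld : ∀ i, al i → ld i
  same : ∀ i, 1 ≤ i → i < k → ¬ ld i → (bad i ↔ bad (i + 1))
  dif1 : ∀ i, 1 ≤ i → i < k → ld i → bad i → ¬ bad (i + 1)
  dif2 : ∀ i, 1 ≤ i → i < k → al i → ¬ bad i → bad (i + 1)
  last : bad k

variable {h : ℕ} {ld al : ℕ → Prop}

private theorem oe_odd (i : ℕ) : oe i % 2 = 1 := by
  unfold oe
  split_ifs <;> omega

private theorem ee_even (i : ℕ) : ee i % 2 = 0 := by
  unfold ee
  split_ifs <;> omega

private theorem oe_rng {k i : ℕ} (h1 : 1 ≤ i) (h2 : i < k) : 1 ≤ oe i ∧ oe i ≤ k := by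
  unfold oe
  split_ifs <;> omega

private theorem ee_rng {k i : ℕ} (h1 : 1 ≤ i) (h2 : i < k) : 1 ≤ ee i ∧ ee i ≤ k := by
  unfold ee
  split_ifs <;> omega

private theorem rng_ob (hk : k = 2 * h + 1) {e : ℕ} (h1 : 1 ≤ e) (h2 : e ≤ k)
    (h3 : e % 2 = 1) (h4 : bad e) : 1 ≤ rkw bad k e ∧ rkw bad k e ≤ bo bad k := by
  have := ob_step h1 h3 h4
  have := bo_mono bad h2
  rw [rkw_ob h3 h4]
  omega

private theorem rng_og (hk : k = 2 * h + 1) {e : ℕ} (h1 : 1 ≤ e) (h2 : e ≤ k)
    (h3 : e % 2 = 1) (h4 : ¬ bad e) : bo bad k + 1 ≤ rkw bad k e ∧ rkw bad k e ≤ h + 1 := by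
  have := og_step h1 h3 h4
  have := go_mono bad h2
  have := odd_cnt bad k
  rw [rkw_og h3 h4]
  omega

private theorem rng_eb (hk : k = 2 * h + 1) {e : ℕ} (h1 : 1 ≤ e) (h2 : e ≤ k)
    (h3 : e % 2 = 0) (h4 : bad e) : 1 ≤ rkw bad k e ∧ rkw bad k e ≤ bv bad k := by
  have := eb_step h1 h3 h4
  have := bv_mono bad h2
  rw [rkw_eb h3 h4]
  omega

private theorem rng_eg (hk : k = 2 * h + 1) {e : ℕ} (h1 : 1 ≤ e) (h2 : e ≤ k)
    (h3 : e % 2 = 0) (h4 : ¬ bad e) : bv bad k + 1 ≤ rkw bad k e ∧ rkw bad k e ≤ h := by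
  have := eg_step h1 h3 h4
  have := gv_mono bad h2
  have := even_cnt bad k
  rw [rkw_eg h3 h4]
  omega

/-- the ranks of a coloured word -/
noncomputable def WD.rx (W : WD k h ld al bad) : RX k ld al where
  h := h
  P := bo bad k
  Q := bv bad k
  bad := bad
  rk := rkw bad k
  al_ld := W.al_ld
  hk := W.hk
  h1 := W.h1
  P1 := by
    have hk := W.hk
    have h2 := ob_step (bad := bad) (show 1 ≤ k by omega) (by omega) W.last
    omega
  Ph := by
    have hk := W.hk
    have := odd_cnt bad k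
    omega
  Qh := by
    have hk := W.hk
    have := even_cnt bad k
    omega
  same := W.same
  dif1 := by
    intro i h1 h2 h3 h4 h5
    unfold oe at h4
    unfold ee at h5
    split_ifs at h4 h5
    · exact W.dif1 i h1 h2 h3 h4 h5
    · exact W.dif1 i h1 h2 h3 h5 h4
  dif2 := by
    intro i h1 h2 h3 h4
    unfold oe at h4
    unfold ee
    split_ifs at h4 ⊢
    · exact W.dif2 i h1 h2 h3 h4
    · by_contra h5
      exact h4 (W.dif2 i h1 h2 h3 h5)
  rk_ob := fun e h1 h2 h3 h4 => rng_ob W.hk h1 h2 h3 h4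
  rk_og := fun e h1 h2 h3 h4 => rng_og W.hk h1 h2 h3 h4
  rk_eb := fun e h1 h2 h3 h4 => rng_eb W.hk h1 h2 h3 h4
  rk_eg := fun e h1 h2 h3 h4 => rng_eg W.hk h1 h2 h3 h4
  rk_inj := by
    intro e f h1 h2 h3 h4 h5 h6
    by_contra hne
    have key : ∀ e f, 1 ≤ e → e < f → f ≤ k → e % 2 = f % 2 → rkw bad k e ≠ rkw bad k f := by
      intro e f h1 h2 h3 h4 h5
      by_cases he : bad e <;> by_cases hf : bad f
      · have := (rk_bad_anti h4 h1 h2.le h3 he hf).2 h2
        omega
      · rcases Nat.mod_two_eq_zero_or_one e with h6 | h6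
        · have := rng_eb W.hk h1 (by omega) h6 he
          have := rng_eg W.hk (by omega) h3 (by omega) hf
          omega
        · have := rng_ob W.hk h1 (by omega) h6 he
          have := rng_og W.hk (by omega) h3 (by omega) hf
          omega
      · rcases Nat.mod_two_eq_zero_or_one e with h6 | h6
        · have := rng_eg W.hk h1 (by omega) h6 he
          have := rng_eb W.hk (by omega) h3 (by omega) hf
          omega
        · have := rng_og W.hk h1 (by omega) h6 he
          have := rng_ob W.hk (by omega) h3 (by omega) hf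
          omega
      · have := (rk_good_mono (k := k) h4 h1 h2.le he hf).2 h2
        omega
    rcases Nat.lt_or_gt_of_ne hne with h7 | h7
    · exact key e f h1 h7 h4 h5 h6
    · exact key f e h3 h7 h2 h5.symm h6.symm
  cmp := by
    have key : ∀ i j, 1 ≤ i → i ≤ j → j < k → ¬ ld i → ¬ ld j → (bad i ↔ bad j) →
        (rkw bad k (oe i) ≤ rkw bad k (oe j) ∧ rkw bad k (ee i) ≤ rkw bad k (ee j)) ∨
        (rkw bad k (oe j) ≤ rkw bad k (oe i) ∧ rkw bad k (ee j) ≤ rkw bad k (ee i)) := by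
      intro i j h1 h2 h3 h4 h5 h6
      have c1 : ∀ i, 1 ≤ i → i < k → ¬ ld i → (bad i ↔ bad (oe i)) ∧ (bad i ↔ bad (ee i)) := by
        intro i h1 h2 h3
        have := W.same i h1 h2 h3
        unfold oe ee
        split_ifs
        · exact ⟨Iff.rfl, this⟩
        · exact ⟨this, Iff.rfl⟩
      have ci := c1 i h1 (by omega) h4
      have cj := c1 j (by omega) h3 h5
      have ri := oe_rng h1 (show i < k by omega)
      have rj := oe_rng (show 1 ≤ j by omega) h3
      have ri' := ee_rng h1 (show i < k by omega)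
      have rj' := ee_rng (show 1 ≤ j by omega) h3
      have oi := oe_odd i
      have oj := oe_odd j
      have ei := ee_even i
      have ej := ee_even j
      by_cases hb : bad i
      · have hb' := h6.1 hb
        exact Or.inr ⟨(rk_bad_anti (by omega) ri.1 (oe_mono' h2) rj.2 (ci.1.1 hb)
          (cj.1.1 hb')).1, (rk_bad_anti (by omega) ri'.1 (ee_mono' h2) rj'.2 (ci.2.1 hb)
          (cj.2.1 hb')).1⟩
      · have hb' : ¬ bad j := fun h => hb (h6.2 h)
        exact Or.inl ⟨(rk_good_mono (by omega) ri.1 (oe_mono' h2) (fun h => hb (ci.1.2 h))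
          (fun h => hb' (cj.1.2 h))).1, (rk_good_mono (by omega) ri'.1 (ee_mono' h2)
          (fun h => hb (ci.2.2 h)) (fun h => hb' (cj.2.2 h))).1⟩
    intro i j h1 h2 h3 h4 h5 h6 h7
    rcases Nat.le_total i j with h8 | h8
    · exact key i j h1 h8 h5 h3 h6 h7
    · exact (key j i h4 h8 h2 h6 h3 h7.symm).symm
  last := by
    have hk := W.hk
    have h2 := ob_step (bad := bad) (show 1 ≤ k by omega) (by omega) W.last
    rw [rkw_ob (by omega) W.last]
    omega

theorem rx_J (W : WD k h ld al bad) (i : ℕ) :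
    W.rx.J i = rkw bad k i + rkw bad k (i + 1) := rfl

/-- both edges bad -/
theorem J_CB (W : WD k h ld al bad) {i : ℕ} (h1 : 1 ≤ i) (h2 : i < k) (h3 : bad i)
    (h4 : bad (i + 1)) : W.rx.J i + bc bad i = bc bad k + 1 := by
  rw [rx_J]
  have m1 := bo_mono bad (show i + 1 ≤ k by omega)
  have m2 := bv_mono bad (show i + 1 ≤ k by omega)
  unfold bc
  rcases Nat.mod_two_eq_zero_or_one i with h5 | h5
  · rw [rkw_eb h5 h3, rkw_ob (by omega) h4]
    have s1 := eb_step h1 h5 h3
    have s2 := bo_succ_bad (n := i) (by omega) h4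
    have s3 := bv_succ_odd (bad := bad) (n := i) (by omega)
    have e1 : i + 1 - 1 = i := by omega
    rw [e1]
    omega
  · rw [rkw_ob h5 h3, rkw_eb (by omega) h4]
    have s1 := ob_step h1 h5 h3
    have s2 := bv_succ_bad (n := i) (by omega) h4
    have s3 := bo_succ_even (bad := bad) (n := i) (by omega)
    have e1 : i + 1 - 1 = i := by omega
    rw [e1]
    omega

/-- both edges good -/
theorem J_CG (W : WD k h ld al bad) {i : ℕ} (h3 : ¬ bad i)
    (h4 : ¬ bad (i + 1)) : W.rx.J i = bc bad k + gc bad i + 1 := by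
  rw [rx_J]
  unfold bc gc
  rcases Nat.mod_two_eq_zero_or_one i with h5 | h5
  · rw [rkw_eg h5 h3, rkw_og (by omega) h4]
    have s2 := go_succ_good (bad := bad) (n := i) (by omega) h4
    omega
  · rw [rkw_og h5 h3, rkw_eg (by omega) h4]
    have s2 := gv_succ_good (bad := bad) (n := i) (by omega) h4
    omega

/-- maximum, odd position -/
theorem J_maxo (W : WD k h ld al bad) {i : ℕ} (h1 : 1 ≤ i) (h2 : i < k) (h5 : i % 2 = 1)
    (h3 : ¬ bad i) (h4 : bad (i + 1)) : W.rx.J i + bc bad i = bc bad k + (i + 1) / 2 := by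
  rw [rx_J, rkw_og h5 h3, rkw_eb (by omega) h4]
  have m2 := bv_mono bad (show i + 1 ≤ k by omega)
  have s2 := bv_succ_bad (n := i) (by omega) h4
  have s3 := odd_cnt bad i
  have e1 : i + 1 - 1 = i := by omega
  have := h1
  rw [e1]
  unfold bc
  omega

/-- maximum, even position -/
theorem J_maxe (W : WD k h ld al bad) {i : ℕ} (h1 : 1 ≤ i) (h2 : i < k) (h5 : i % 2 = 0)
    (h3 : ¬ bad i) (h4 : bad (i + 1)) : W.rx.J i + bc bad i = bc bad k + i / 2 := by
  rw [rx_J, rkw_eg h5 h3, rkw_ob (by omega) h4]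
  have m2 := bo_mono bad (show i + 1 ≤ k by omega)
  have s2 := bo_succ_bad (n := i) (by omega) h4
  have s3 := even_cnt bad i
  have e1 : i + 1 - 1 = i := by omega
  have := h1
  rw [e1]
  unfold bc
  omega

/-- minimum, odd position -/
theorem J_mino (W : WD k h ld al bad) {i : ℕ} (h1 : 1 ≤ i) (h2 : i < k) (h5 : i % 2 = 1)
    (h3 : bad i) (h4 : ¬ bad (i + 1)) :
    W.rx.J i + bc bad i = bc bad k + (i + 1) / 2 + 1 := by
  rw [rx_J, rkw_ob h5 h3, rkw_eg (by omega) h4]
  have m2 := bo_mono bad (show i ≤ k by omega)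
  have s1 := ob_step h1 h5 h3
  have s2 := gv_succ_good (bad := bad) (n := i) (by omega) h4
  have s3 := even_cnt bad i
  unfold bc
  omega

/-- minimum, even position -/
theorem J_mine (W : WD k h ld al bad) {i : ℕ} (h1 : 1 ≤ i) (h2 : i < k) (h5 : i % 2 = 0)
    (h3 : bad i) (h4 : ¬ bad (i + 1)) : W.rx.J i + bc bad i = bc bad k + i / 2 + 2 := by
  rw [rx_J, rkw_eb h5 h3, rkw_og (by omega) h4]
  have m2 := bv_mono bad (show i ≤ k by omega)
  have s1 := eb_step h1 h5 h3
  have s2 := go_succ_good (bad := bad) (n := i) (by omega) h4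
  have s3 := odd_cnt bad i
  unfold bc
  omega

/-- the sum of the ranks of a good vertex is at most `k` -/
theorem gc_lt (W : WD k h ld al bad) {i : ℕ} (h2 : i < k) (h4 : ¬ bad (i + 1)) :
    bc bad k + gc bad i + 1 ≤ k := by
  have h3 := bc_gc bad k
  have := W.hk
  have h5 : gc bad (i + 1) = gc bad i + 1 := by
    have h6 := bc_gc bad (i + 1)
    have h7 := bc_gc bad i
    have h8 := bc_succ_good (n := i) h4
    omega
  have h6 : gc bad (i + 1) ≤ gc bad k :=
    Nat.add_le_add (go_mono bad (by omega)) (gv_mono bad (by omega))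
  omega

end

end Pool.Agent.Lob12
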